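import Pool.Agent.Work.MP_5296b6_lc.BinDefs

/-! Bundle of small proof modules (one section per former module). -/

section

/-!
# A1: the parsers of the standard encoding are polynomial-time
-/

set_option autoImplicit false

namespace Pool.Agent.Work.MP_5296b6_lc

open Function Pool.Agent.PT N487b59b3

/-- The bits in even positions. -/
def evenBits (x : List Bool) : List Bool :=
  (List.range ((x.length + 1) / 2)).map (fun j => x.getD (2 * j) true)

/-- A closed form of `undelimit`. -/
def undel (x : List Bool) : Option (List Bool × List Bool) :=
  if (evenBits x).idxOf false < (x.length + 1) / 2 then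
    some ((List.range ((evenBits x).idxOf false)).map (fun j => x.getD (2 * j + 1) false),
      x.drop (2 * (evenBits x).idxOf false + 1))
  else none

theorem evenBits_cons2 (b c : Bool) (x : List Bool) :
    evenBits (b :: c :: x) = b :: evenBits x := by
  unfold evenBits
  have h : ((b :: c :: x).length + 1) / 2 = (x.length + 1) / 2 + 1 := by
    simp only [List.length_cons]
    omega
  rw [h, List.range_succ_eq_map, List.map_cons, List.map_map]
  congr 1

theorem undelimit_eq (x : List Bool) : undelimit x = undel x := by
  induction x using undelimit.induct with
  | case1 rest =>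
    have h : (evenBits (false :: rest)).idxOf false = 0 := by
      cases rest with
      | nil => rfl
      | cons c r => rw [evenBits_cons2]; simp
    unfold undel
    rw [h, if_pos (by simp only [List.length_cons]; omega)]
    simp [undelimit]
  | case2 b input ih =>
    have h : (evenBits (true :: b :: input)).idxOf false = (evenBits input).idxOf false + 1 := by
      rw [evenBits_cons2]
      exact List.idxOf_cons_ne _ (by decide)
    rw [undelimit, ih]
    unfold undel
    rw [h]
    have h2 : ((true :: b :: input).length + 1) / 2 = (input.length + 1) / 2 + 1 := by
      simp only [List.length_cons]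
      omega
    rw [h2]
    by_cases h3 : (evenBits input).idxOf false < (input.length + 1) / 2
    · rw [if_pos h3, if_pos (by omega)]
      simp only [Option.map_some]
      rw [List.range_succ_eq_map, List.map_cons, List.map_map]
      congr 2
    · rw [if_neg h3, if_neg (by omega)]
      rfl
  | case3 x h1 h2 =>
    have h3 : x = [] ∨ x = [true] := by
      cases x with
      | nil => exact Or.inl rfl
      | cons b r =>
        cases b with
        | false => exact absurd rfl (h1 r)
        | true =>
          cases r with
          | nil => exact Or.inr rfl
          | cons c r => exact absurd rfl (h2 c r)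
    rcases h3 with rfl | rfl
    · rfl
    · rfl

theorem ptf_undelimit : PTF (fun x : List Bool => undelimit x) := by
  have h : PTF (fun x : List Bool => undel x) := by
    unfold undel evenBits
    fun_prop
  exact h.congr fun x => (undelimit_eq x).symm

theorem undelimit_length {x b r : List Bool} (h : undelimit x = some (b, r)) :
    2 * b.length + 1 + r.length = x.length := by
  induction x using undelimit.induct generalizing b with
  | case1 rest =>
    simp only [undelimit, Option.some.injEq, Prod.mk.injEq] at h
    obtain ⟨rfl, rfl⟩ := h
    simp
    omega
  | case2 c input ih =>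
    rw [undelimit] at h
    rcases h3 : undelimit input with _ | ⟨p, q⟩
    · rw [h3] at h
      simp at h
    · rw [h3] at h
      simp only [Option.map_some, Option.some.injEq, Prod.mk.injEq] at h
      obtain ⟨rfl, rfl⟩ := h
      have := ih h3
      simp only [List.length_cons]
      omega
  | case3 x h1 h2 =>
    have h3 : x = [] ∨ x = [true] := by
      cases x with
      | nil => exact Or.inl rfl
      | cons b r =>
        cases b with
        | false => exact absurd rfl (h1 r)
        | true =>
          cases r with
          | nil => exact Or.inr rfl
          | cons c r => exact absurd rfl (h2 c r)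
    rcases h3 with rfl | rfl
    · simp [undelimit] at h
    · simp [undelimit] at h

/-- One round of the block parser. -/
def blkStep (s : List (List Bool) × List Bool) : List (List Bool) × List Bool :=
  match undelimit s.2 with
  | none => s
  | some p => (p.1 :: s.1, p.2)

theorem blkStep_nil (acc : List (List Bool)) : blkStep (acc, []) = (acc, []) := rfl

theorem aux_eq (fuel : ℕ) : ∀ (input : List Bool) (acc : List (List Bool)),
    (undelimitBlocksAux fuel input).map (fun l => acc.reverse ++ l) =
      if (blkStep^[fuel] (acc, input)).2.isEmpty then some (blkStep^[fuel] (acc, input)).1.reverse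
      else none := by
  induction fuel with
  | zero =>
    intro input acc
    cases input with
    | nil => simp [undelimitBlocksAux]
    | cons b r => simp [undelimitBlocksAux]
  | succ n ih =>
    intro input acc
    cases input with
    | nil =>
      have h : ∀ m, blkStep^[m] (acc, ([] : List Bool)) = (acc, []) := fun m =>
        Function.iterate_fixed (blkStep_nil acc) m
      rw [h]
      simp [undelimitBlocksAux]
    | cons c t =>
      rw [Function.iterate_succ_apply]
      rcases h : undelimit (c :: t) with _ | ⟨b, r⟩
      · have h1 : blkStep (acc, c :: t) = (acc, c :: t) := by simp [blkStep, h]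
        rw [h1, Function.iterate_fixed h1]
        simp [undelimitBlocksAux, h]
      · have h1 : blkStep (acc, c :: t) = (b :: acc, r) := by simp [blkStep, h]
        rw [h1, ← ih r (b :: acc)]
        rw [undelimitBlocksAux, h]
        · simp only [Option.bind_some, Option.map_map]
          congr 1
          funext l
          simp
        · simp

theorem blk_size (x : List Bool) (i : ℕ) :
    sz (blkStep^[i] (([] : List (List Bool)), x)).1 +
      2 * (blkStep^[i] (([] : List (List Bool)), x)).2.length ≤ 1 + 2 * x.length := by
  induction i with
  | zero => simp [sz_nil]
  | succ i ih =>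
    rw [Function.iterate_succ_apply']
    set s := blkStep^[i] (([] : List (List Bool)), x) with hs
    rcases h : undelimit s.2 with _ | ⟨b, r⟩
    · have h1 : blkStep s = s := by simp [blkStep, h]
      rw [h1]
      exact ih
    · have h1 : blkStep s = (b :: s.1, r) := by simp [blkStep, h]
      rw [h1]
      have h2 := undelimit_length h
      have h3 := sz_bits_le b
      simp only
      rw [sz_cons]
      omega

theorem ptf_undelimitBlocks : PTF (fun x : List Bool => undelimitBlocks x) := by
  have hstep : PTF (fun p : List Bool × (List (List Bool) × List Bool) => blkStep p.2) := by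
    have h1 : PTF (fun p : List Bool × (List (List Bool) × List Bool) => undelimit p.2.2) :=
      ptf_undelimit.comp (by fun_prop)
    have h2 := PTF.option_case (o := fun p : List Bool × (List (List Bool) × List Bool) =>
      undelimit p.2.2) (f := fun p => p.2)
      (g := fun q : (List Bool × (List (List Bool) × List Bool)) × (List Bool × List Bool) =>
        (q.2.1 :: q.1.2.1, q.2.2)) h1 (by fun_prop) (by fun_prop)
    refine h2.congr fun p => ?_
    unfold blkStep
    cases undelimit p.2.2 <;> rfl
  have h := PTF.nat_iterate (n := fun x : List Bool => x.length)
    (init := fun x : List Bool => (([] : List (List Bool)), x))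
    (step := fun p : List Bool × (List (List Bool) × List Bool) => blkStep p.2)
    (by fun_prop) (by fun_prop) hstep (fun x => 10 * sz x + 10)
    (((PB.const 10).mul PB.sz).add (PB.const 10)) (fun x i _ => by
      have h1 := blk_size x i
      have h2 := sz_bits_le (blkStep^[i] (([] : List (List Bool)), x)).2
      have h3 := length_le_sz x
      have h4 := sz_pair (blkStep^[i] (([] : List (List Bool)), x)).1
        (blkStep^[i] (([] : List (List Bool)), x)).2
      show sz (blkStep^[i] (([] : List (List Bool)), x)) ≤ _
      have h5 : ((blkStep^[i] (([] : List (List Bool)), x)).1,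
        (blkStep^[i] (([] : List (List Bool)), x)).2) = blkStep^[i] (([] : List (List Bool)), x) := rfl
      rw [h5] at h4
      omega)
  have h2 : PTF (fun x : List Bool =>
      if (blkStep^[x.length] (([] : List (List Bool)), x)).2.isEmpty = true then
        some (blkStep^[x.length] (([] : List (List Bool)), x)).1.reverse else none) := by
    have h3 : PTF (fun x : List Bool => blkStep^[x.length] (([] : List (List Bool)), x)) := h
    fun_prop
  refine h2.congr fun x => ?_
  have h4 := aux_eq x.length x []
  simp only [List.reverse_nil, List.nil_append, Option.map_id'] at h4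
  unfold undelimitBlocks
  rw [h4]

theorem claimUndelimit : ClaimUndelimit := ⟨ptf_undelimit, ptf_undelimitBlocks⟩

end Pool.Agent.Work.MP_5296b6_lc

end

section

/-!
# A5: parsing of instances
-/

set_option autoImplicit false

namespace Pool.Agent.Work.MP_5296b6_lc

open Pool.Agent.PT N487b59b3

/-- Parsing a pair. -/
def pPair (x : List Bool) : List Bool × List Bool := (undelimit x).getD ([], [])

/-- Parsing a list. -/
def pList (x : List Bool) : List (List Bool) := (undelimitBlocks x).getD []

/-- Parsing a rational number. -/
def pQ (x : List Bool) : BQ := (pPair (pPair x).1, (pPair x).2)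

theorem pPair_eq {α β : Type} [N487b59b3 α] [N487b59b3 β] (p : α × β) :
    pPair (bitEncode p) = (bitEncode p.1, bitEncode p.2) := by
  unfold pPair
  have h : bitEncode p = delimit (bitEncode p.1) ++ bitEncode p.2 := rfl
  rw [h, undelimit_delimit]
  rfl

theorem pList_eq {α : Type} [N487b59b3 α] (l : List α) : pList (bitEncode l) = l.map bitEncode := by
  unfold pList
  have h : bitEncode l = ((l.map bitEncode).map delimit).flatten := rfl
  rw [h, undelimitBlocks_flatten_delimit]
  rfl

theorem pQ_eq (q : ℚ) : pQ (bitEncode q) = repQ q := by
  have h1 : bitEncode q = bitEncode (q.num, q.den) := rfl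
  have h2 : bitEncode q.num = bitEncode (q.num.toNat, (-q.num).toNat) := rfl
  unfold pQ
  rw [h1, pPair_eq, h2]
  dsimp only
  rw [pPair_eq]
  rfl

theorem claimParse (h : ClaimUndelimit) : ClaimParse := by
  have hP : PTF pPair := PTF.optionGetD h.1 (PTF.const _)
  have hL : PTF pList := PTF.optionGetD h.2 (PTF.const _)
  have hQ : PTF pQ := (hP.comp (PTF.fst.comp hP)).pair (PTF.snd.comp hP)
  have hPt : PTF (fun x : List Bool => (pList x).map pQ) :=
    PTF.map' (f := fun (_ : List Bool) y => pQ y) (hQ.comp PTF.snd) hL
  have hPts : PTF (fun x : List Bool => (pList x).map (fun y => (pList y).map pQ)) :=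
    PTF.map' (f := fun (_ : List Bool) y => (pList y).map pQ) (hPt.comp PTF.snd) hL
  have e1 : ∀ y : List ℚ, (pList (bitEncode y)).map pQ = y.map repQ := by
    intro y
    rw [pList_eq, List.map_map]
    refine List.map_congr_left fun q _ => ?_
    exact pQ_eq q
  have e2 : ∀ inp : List (List ℚ), (pList (bitEncode inp)).map (fun y => (pList y).map pQ) =
      inp.map (fun y => y.map repQ) := by
    intro inp
    rw [pList_eq, List.map_map]
    refine List.map_congr_left fun y _ => ?_
    exact e1 y
  refine ⟨⟨fun x => ((pList (pPair x).1).map (fun y => (pList y).map pQ), pQ (pPair x).2), ?_, ?_⟩,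
    ⟨_, hPts, e2⟩, ⟨pList, hL, fun inp => pList_eq inp⟩,
    ⟨fun l => (l.map delimit).flatten, ?_, fun inp => rfl⟩⟩
  · exact (hPts.comp (PTF.fst.comp hP)).pair (hQ.comp (PTF.snd.comp hP))
  · intro inp
    dsimp only
    rw [pPair_eq]
    dsimp only
    rw [e2, pQ_eq]
  · exact (PTF.map' (f := fun (_ : List (List Bool)) y => delimit y) (PTF.delimit PTF.snd)
      PTF.id).flatten

end Pool.Agent.Work.MP_5296b6_lc

end
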