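import Pool.Agent.Work.PT.Clock
import Pool.Agent.Work.PT.BitEnc
import Pool.Agent.Work.MP_5296b6_lc.Stmts
import Pool.Agent.Work.MP_5296b6_lc.DPStep
import Pool.Agent.Work.MP_5296b6_lc.GeoStmts

/-! Bundle of small proof modules (one section per former module). -/

section

/-!
# A6: from a polynomial-time machine back to a polynomial-time function
-/

set_option autoImplicit false

namespace Pool.Agent.PT

open Turing N487b59b3

theorem ptf_eval_poly {α : Type} [Enc α] (p : Polynomial ℕ) {n : α → ℕ} (hn : PTF n) :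
    PTF (fun a => p.eval (n a)) := by
  induction p using Polynomial.induction_on' with
  | add p q hp hq => exact (hp.add hq).congr (fun a => by rw [Polynomial.eval_add])
  | monomial k c =>
    exact ((PTF.const c).mul (PTF.pow_const hn k)).congr
      (fun a => by rw [Polynomial.eval_monomial])

/-- A Boolean function with a polynomial-time machine is a polynomial-time function of the code of
its argument. -/
theorem clockBool {al : Type} [N487b59b3 al] (f : al → Bool) (h : N68a2faeb.IsPolyTime f) :
    ∃ g : List Bool → Bool, PTF g ∧ ∀ a, g (bitEncode a) = f a := by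
  obtain ⟨M⟩ := h
  obtain ⟨R, hR, hRs⟩ := clock M.tm M.inputAlphabet M.outputAlphabet
  refine ⟨fun x => decide (R (M.time.eval x.length, x) = some [true]), ?_, fun a => ?_⟩
  · exact PTF.eq (hR.comp ((ptf_eval_poly M.time PTF.id.length).pair PTF.id)) (PTF.const _)
  · have h1 : R (M.time.eval (bitEncode a).length, bitEncode a) = some [f a] := by
      rw [hRs]
      exact ⟨M.outputsFun a⟩
    dsimp only
    rw [h1]
    cases f a <;> simp

end Pool.Agent.PT

end

section

/-!
# Advancing good cuts (MP_5296b6_lc, G3)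
-/

set_option autoImplicit false

namespace Pool.Agent.Scatter

open Finset

namespace Advance

variable {V ι : Type} [Fintype V] [DecidableEq V] [Fintype ι] [DecidableEq ι]

theorem rk_le (D : Table V ι) (κ l : Side ι) (t : Tok V) : D.rk κ (D.pos t l) ≤ D.N := by
  unfold Table.rk
  have h1 := D.one_le t l
  have h2 := D.le_N t l
  split_ifs <;> omega

theorem rk_inj (D : Table V ι) (κ : Side ι) (b : Bool) (t t' : Tok V)
    (h : D.rk κ (D.pos t (κ.1, b)) = D.rk κ (D.pos t' (κ.1, b))) : t = t' := by
  unfold Table.rk at h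
  have h1 := D.one_le t (κ.1, b)
  have h2 := D.le_N t (κ.1, b)
  have h3 := D.one_le t' (κ.1, b)
  have h4 := D.le_N t' (κ.1, b)
  have h5 : D.pos t (κ.1, b) = D.pos t' (κ.1, b) := by
    split_ifs at h <;> omega
  exact (D.inj t t' κ.1 b b h5).1

theorem S_sub (D : Table V ι) (T : Tok V → Side ι) (th th' : Side ι → ℕ) (κ l : Side ι)
    (h1 : th' κ = th κ) (h2 : th l ≤ th' l) : D.Sset T th' κ l ⊆ D.Sset T th κ l := by
  intro t ht
  simp only [Table.Sset, mem_filter, mem_univ, true_and] at ht ⊢
  rw [h1] at ht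
  exact ⟨ht.1, lt_of_le_of_lt h2 ht.2.1, ht.2.2⟩

theorem R_sub (D : Table V ι) (T : Tok V → Side ι) (th th' : Side ι → ℕ) (κ l : Side ι)
    (h1 : th' κ = th κ) (h2 : th l ≤ th' l) : D.Rset T th' κ l ⊆ D.Rset T th κ l := by
  intro t ht
  simp only [Table.Rset, mem_filter, mem_univ, true_and] at ht ⊢
  rw [h1] at ht
  exact ⟨ht.1, ht.2.1, lt_of_le_of_lt h2 ht.2.2⟩

theorem S_card (D : Table V ι) (T : Tok V → Side ι) (th th' : Side ι → ℕ) (κ l : Side ι)
    (h1 : th' κ = th κ + 1) (h2 : th' l = th l) :
    (D.Sset T th' κ l).card ≤ (D.Sset T th κ l).card + 1 := by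
  have hsub : D.Sset T th' κ l ⊆ D.Sset T th κ l ∪
      (univ.filter fun t : Tok V => D.rk κ (D.pos t (κ.1, κ.2)) = th κ + 1) := by
    intro t ht
    simp only [Table.Sset, mem_filter, mem_univ, true_and, mem_union] at ht ⊢
    rw [h1, h2] at ht
    by_cases h : D.rk κ (D.pos t κ) ≤ th κ
    · exact Or.inl ⟨ht.1, ht.2.1, h⟩
    · right
      have h3 : D.rk κ (D.pos t (κ.1, κ.2)) = D.rk κ (D.pos t κ) := rfl
      omega
  have hone : (univ.filter fun t : Tok V => D.rk κ (D.pos t (κ.1, κ.2)) = th κ + 1).card ≤ 1 := by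
    rw [card_le_one]
    intro a ha b hb
    simp only [mem_filter, mem_univ, true_and] at ha hb
    exact rk_inj D κ κ.2 a b (ha.trans hb.symm)
  exact (card_le_card hsub).trans ((card_union_le _ _).trans (Nat.add_le_add_left hone _))

theorem R_card (D : Table V ι) (T : Tok V → Side ι) (th th' : Side ι → ℕ) (κ l : Side ι)
    (h1 : th' κ = th κ + 1) (h2 : th' l = th l) :
    (D.Rset T th' κ l).card ≤ (D.Rset T th κ l).card + 1 := by
  have hsub : D.Rset T th' κ l ⊆ D.Rset T th κ l ∪
      (univ.filter fun t : Tok V => D.rk κ (D.pos t (κ.1, !κ.2)) = th κ + 1) := by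
    intro t ht
    simp only [Table.Rset, mem_filter, mem_univ, true_and, mem_union] at ht ⊢
    rw [h1, h2] at ht
    by_cases h : D.rk κ (D.pos t (opp κ)) ≤ th κ
    · exact Or.inl ⟨ht.1, h, ht.2.2⟩
    · right
      have h3 : D.rk κ (D.pos t (κ.1, !κ.2)) = D.rk κ (D.pos t (opp κ)) := rfl
      omega
  have hone : (univ.filter fun t : Tok V => D.rk κ (D.pos t (κ.1, !κ.2)) = th κ + 1).card ≤ 1 := by
    rw [card_le_one]
    intro a ha b hb
    simp only [mem_filter, mem_univ, true_and] at ha hb
    exact rk_inj D κ (!κ.2) a b (ha.trans hb.symm)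
  exact (card_le_card hsub).trans ((card_union_le _ _).trans (Nat.add_le_add_left hone _))

end Advance

open Advance in
/-- In a solution of maximal total flow every good cut that is not fully passed can be
advanced. -/
theorem claimAdvance (h1 : ClaimDisjoint) (h2 : ClaimPeriodic) (h3 : ClaimExchange) :
    ClaimAdvance := by
  intro V ι _ _ _ _ D T hSol hmax th hgood hex
  by_contra hcon
  push Not at hcon
  obtain ⟨κ0, hκ0⟩ := hex
  set f := Fintype.card ι with hf
  have hfpos : 1 ≤ f := Fintype.card_pos_iff.2 ⟨κ0.1⟩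
  have hcpos : 0 < cst f := by
    unfold cst
    positivity
  set U : Finset (Side ι) := univ.filter fun κ => th κ < D.N with hU
  have hstep : ∀ κ, ∃ p : Bool × Side ι, κ ∈ U →
      p.2 ∈ U ∧ cst f ≤ (D.Arc T th p.1 κ p.2).card := by
    intro κ
    by_cases hκ : κ ∈ U
    · have hκ' : th κ < D.N := (mem_filter.1 hκ).2
      have hng := hcon κ hκ'
      set th' := Function.update th κ (th κ + 1) with hth'
      have hk : th' κ = th κ + 1 := by rw [hth', Function.update_self]
      have hne : ∀ l, l ≠ κ → th' l = th l := fun l hl => by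
        rw [hth', Function.update_of_ne hl]
      have hle : ∀ l, th l ≤ th' l := fun l => by
        by_cases hl : l = κ
        · rw [hl, hk]; omega
        · rw [hne l hl]
      have hN : ∀ l, th' l ≤ D.N := fun l => by
        by_cases hl : l = κ
        · rw [hl, hk]; omega
        · rw [hne l hl]; exact hgood.1 l
      have hbad : ∃ a l, a ≠ l ∧ (cst f < (D.Sset T th' a l).card ∨
          cst f < (D.Rset T th' a l).card) := by
        by_contra hc
        push Not at hc
        exact hng ⟨hN, fun a l hal => hc a l hal⟩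
      obtain ⟨a, l, hal, hbig⟩ := hbad
      have haκ : a = κ := by
        by_contra ha
        have g := hgood.2 a l hal
        rw [← hf] at g
        rcases hbig with hb | hb
        · have := card_le_card (S_sub D T th th' a l (hne a ha) (hle l))
          have := g.1
          omega
        · have := card_le_card (R_sub D T th th' a l (hne a ha) (hle l))
          have := g.2
          omega
      subst haκ
      have hl : th' l = th l := hne l (Ne.symm hal)
      rcases hbig with hb | hb
      · refine ⟨(true, l), fun _ => ?_⟩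
        have hc := S_card D T th th' a l hk hl
        have hcard : cst f ≤ (D.Sset T th a l).card := by omega
        have harc : D.Arc T th true a l = D.Sset T th a l := by simp [Table.Arc]
        simp only
        rw [harc]
        refine ⟨?_, hcard⟩
        obtain ⟨t, ht⟩ := card_pos.1 (lt_of_lt_of_le hcpos hcard)
        simp only [Table.Sset, mem_filter, mem_univ, true_and] at ht
        rw [hU, mem_filter]
        exact ⟨mem_univ _, lt_of_lt_of_le ht.2.1 (rk_le D l l t)⟩
      · refine ⟨(false, l), fun _ => ?_⟩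
        have hc := R_card D T th th' a l hk hl
        have hcard : cst f ≤ (D.Rset T th a l).card := by omega
        have harc : D.Arc T th false a l = D.Rset T th a l := by simp [Table.Arc]
        simp only
        rw [harc]
        refine ⟨?_, hcard⟩
        obtain ⟨t, ht⟩ := card_pos.1 (lt_of_lt_of_le hcpos hcard)
        simp only [Table.Rset, mem_filter, mem_univ, true_and] at ht
        rw [hU, mem_filter]
        exact ⟨mem_univ _, lt_of_lt_of_le ht.2.2 (rk_le D l (opp l) t)⟩
    · exact ⟨(true, κ), fun h => absurd h hκ⟩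
  choose p hp using hstep
  obtain ⟨Z, hZU, hZne, hZmaps, hZinj⟩ := h2 (Side ι) U (fun κ => (p κ).2)
    ⟨κ0, by rw [hU, mem_filter]; exact ⟨mem_univ _, hκ0⟩⟩ (fun κ hκ => (hp κ hκ).1)
  have hZcard : Z.card ≤ 2 * f := by
    refine (card_le_univ Z).trans (le_of_eq ?_)
    rw [Fintype.card_prod, Fintype.card_bool, mul_comm]
  obtain ⟨A, hA1, hA2⟩ := h1 V (Side ι) Z (fun κ => D.Arc T th (p κ).1 κ (p κ).2)
    (6 * Z.card + 3) (by
      intro κ hκ
      refine le_trans ?_ (hp κ (hZU hκ)).2
      unfold cst
      gcongr)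
  let C : Cyc D T th :=
    { Z := Z
      nx := fun κ => (p κ).2
      s := fun κ => (p κ).1
      A := A
      nonempty := hZne
      maps := hZmaps
      inj := hZinj
      sub := fun κ hκ => (hA1 κ hκ).1
      disj := hA2 }
  obtain ⟨T', hT', hlt⟩ := h3 V ι D T th C hSol (fun κ hκ => (hA1 κ hκ).2.ge)
  exact absurd (hmax T' hT') (not_le.2 hlt)

end Pool.Agent.Scatter

end

section

/-!
# Positivity of the change of the flow
-/

set_option autoImplicit false
set_option linter.unusedSectionVars false

namespace Pool.Agent.Scatter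

open Finset

namespace Chg

theorem count {α : Type} [DecidableEq α] (P Q : Finset α) (f g : α → ℕ) (k p : ℕ)
    (hP : P.card = k) (hQ : Q.card = k) (h : ∀ x ∈ P, ∀ y ∈ Q, f x < g y) :
    (Q.filter fun y => g y ≤ p).card ≤ (P.filter fun x => f x ≤ p).card ∧
      ∀ x ∈ P, ∀ y ∈ Q, f x ≤ p → p < g y →
        (Q.filter fun y => g y ≤ p).card < (P.filter fun x => f x ≤ p).card := by
  have hfull : (Q.filter fun y => g y ≤ p).Nonempty → (P.filter fun x => f x ≤ p).card = k := by
    rintro ⟨y, hy⟩
    rw [mem_filter] at hy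
    rw [← hP]
    congr 1
    refine filter_true_of_mem fun x hx => ?_
    have := h x hx y hy.1
    omega
  constructor
  · rcases (Q.filter fun y => g y ≤ p).eq_empty_or_nonempty with he | hne
    · rw [he]
      simp
    · rw [hfull hne, ← hQ]
      exact card_filter_le _ _
  · intro x hx y hy hxp hyp
    rcases (Q.filter fun y => g y ≤ p).eq_empty_or_nonempty with he | hne
    · rw [he, card_empty]
      exact card_pos.2 ⟨x, mem_filter.2 ⟨hx, hxp⟩⟩
    · rw [hfull hne, ← hQ]
      refine card_lt_card ?_
      rw [ssubset_iff_of_subset (filter_subset _ _)]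
      exact ⟨y, hy, fun hmem => by
        have := (mem_filter.1 hmem).2
        omega⟩

theorem sum_bump {α ι : Type} [DecidableEq ι] (P : Finset α) (f : α → ℕ) (l : Side ι) (p : ℕ) :
    ∑ x ∈ P, bump l (f x) l.1 p =
      (if l.2 then -1 else 1) * ((P.filter fun x => f x ≤ p).card : ℤ) := by
  have h : ∀ x, bump l (f x) l.1 p = (if f x ≤ p then (if l.2 then -1 else 1) else 0) := by
    intro x
    simp [bump]
  simp only [h]
  rw [← sum_filter, sum_const, nsmul_eq_mul, mul_comm]

theorem sum_bump_ne {α ι : Type} [DecidableEq ι] (P : Finset α) (f : α → ℕ) (l : Side ι)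
    (i : ι) (hi : l.1 ≠ i) (p : ℕ) : ∑ x ∈ P, bump l (f x) i p = 0 := by
  refine sum_eq_zero fun x _ => ?_
  unfold bump
  rw [if_neg]
  rintro ⟨h, _⟩
  exact hi h

variable {V ι : Type} [Fintype V] [DecidableEq V] [Fintype ι] [DecidableEq ι]

theorem out_le {D : Table V ι} {T : Tok V → Side ι} {th : Side ι → ℕ} (C : Cyc D T th)
    {l : Side ι} (hl : l ∈ C.Z) {x : Tok V} (hx : x ∈ C.A l) : D.rk l (C.o l x) ≤ th l := by
  have h := C.sub l hl hx
  unfold Table.Arc at h
  unfold Cyc.o oc
  by_cases hs : C.s l = true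
  · rw [if_pos hs] at h ⊢
    exact (mem_filter.1 h).2.2.2
  · rw [if_neg hs] at h ⊢
    exact (mem_filter.1 h).2.2.1

theorem in_gt {D : Table V ι} {T : Tok V → Side ι} {th : Side ι → ℕ} (C : Cyc D T th)
    {κ : Side ι} (hκ : κ ∈ C.Z) {y : Tok V} (hy : y ∈ C.A κ) :
    th (C.nx κ) < D.rk (C.nx κ) (C.u κ y) := by
  have h := C.sub κ hκ hy
  unfold Table.Arc at h
  unfold Cyc.u oc
  by_cases hs : C.s κ = true
  · rw [if_pos hs] at h ⊢
    exact (mem_filter.1 h).2.2.1
  · rw [if_neg hs] at h ⊢
    exact (mem_filter.1 h).2.2.2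

/-- The contribution of the side `nx κ` to the change. -/
def br {D : Table V ι} {T : Tok V → Side ι} {th : Side ι → ℕ} (C : Cyc D T th)
    (X : Side ι → Finset (Tok V)) (i : ι) (p : ℕ) (κ : Side ι) : ℤ :=
  ∑ x ∈ X (C.nx κ), bump (C.nx κ) (C.o (C.nx κ) x) i p -
    ∑ y ∈ X κ, bump (C.nx κ) (C.u κ y) i p

theorem chg_eq {D : Table V ι} {T : Tok V → Side ι} {th : Side ι → ℕ} (C : Cyc D T th)
    (X : Side ι → Finset (Tok V)) (i : ι) (p : ℕ) :
    C.chg X i p = ∑ κ ∈ C.Z, br C X i p κ := by
  unfold Cyc.chg br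
  simp only [sum_sub_distrib]
  congr 1
  have himg : C.Z.image C.nx = C.Z := by
    refine eq_of_subset_of_card_le (image_subset_iff.2 C.maps) ?_
    rw [card_image_of_injOn]
    intro a ha b hb hab
    exact C.inj a ha b hb hab
  conv_lhs => rw [← himg]
  rw [sum_image]
  intro a ha b hb hab
  exact C.inj a ha b hb hab

theorem br_props {D : Table V ι} {T : Tok V → Side ι} {th : Side ι → ℕ} (C : Cyc D T th)
    (X : Side ι → Finset (Tok V)) (k : ℕ)
    (hX : ∀ κ ∈ C.Z, X κ ⊆ C.A κ ∧ (X κ).card = k) (κ : Side ι) (hκ : κ ∈ C.Z) :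
    (∀ i p, 0 ≤ br C X i p κ) ∧ (∀ i, br C X i D.N κ = 0) ∧
      ∀ x ∈ X (C.nx κ), ∀ y ∈ X κ, ∀ p,
        ((C.o (C.nx κ) x ≤ p ∧ p < C.u κ y) ∨ (C.u κ y ≤ p ∧ p < C.o (C.nx κ) x)) →
          0 < br C X (C.nx κ).1 p κ := by
  have hl := C.maps κ hκ
  set l := C.nx κ with hldef
  have h1 : ∀ x ∈ X l, D.rk l (C.o l x) ≤ th l := fun x hx => out_le C hl ((hX l hl).1 hx)
  have h2 : ∀ y ∈ X κ, th l < D.rk l (C.u κ y) := fun y hy => in_gt C hκ ((hX κ hκ).1 hy)
  have hoN : ∀ x, C.o l x ≤ D.N := fun x => D.le_N _ _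
  have huN : ∀ y, C.u κ y ≤ D.N := fun y => D.le_N _ _
  have hN : ∀ i, br C X i D.N κ = 0 := by
    intro i
    unfold br
    by_cases hi : l.1 = i
    · subst hi
      rw [← hldef, sum_bump, sum_bump, filter_true_of_mem (fun x _ => hoN x),
        filter_true_of_mem (fun y _ => huN y), (hX l hl).2, (hX κ hκ).2, sub_self]
    · rw [← hldef, sum_bump_ne _ _ _ _ hi, sum_bump_ne _ _ _ _ hi, sub_self]
  refine ⟨?_, hN, ?_⟩
  · intro i p
    unfold br
    rw [← hldef]
    by_cases hi : l.1 = i
    · subst hi
      rw [sum_bump, sum_bump]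
      by_cases hb : l.2 = true
      · have h3 := (count (X κ) (X l) (C.u κ) (C.o l) k p (hX κ hκ).2 (hX l hl).2
          (fun y hy x hx => by
            have a1 := h1 x hx
            have a2 := h2 y hy
            unfold Table.rk at a1 a2
            rw [if_pos hb] at a1 a2
            have := hoN x
            omega)).1
        simp only [hb, if_true]
        have h4 : ((filter (fun y => C.o l y ≤ p) (X l)).card : ℤ) ≤
          ((filter (fun x => C.u κ x ≤ p) (X κ)).card : ℤ) := by exact_mod_cast h3
        linarith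
      · have h3 := (count (X l) (X κ) (C.o l) (C.u κ) k p (hX l hl).2 (hX κ hκ).2
          (fun x hx y hy => by
            have a1 := h1 x hx
            have a2 := h2 y hy
            unfold Table.rk at a1 a2
            rw [if_neg hb] at a1 a2
            omega)).1
        simp only [if_neg hb]
        have h4 : ((filter (fun y => C.u κ y ≤ p) (X κ)).card : ℤ) ≤
          ((filter (fun x => C.o l x ≤ p) (X l)).card : ℤ) := by exact_mod_cast h3
        linarith
    · rw [sum_bump_ne _ _ _ _ hi, sum_bump_ne _ _ _ _ hi, sub_self]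
  · intro x hx y hy p hp
    unfold br
    rw [← hldef, sum_bump, sum_bump]
    by_cases hb : l.2 = true
    · have hlt : ∀ y ∈ X κ, ∀ x ∈ X l, C.u κ y < C.o l x := fun y hy x hx => by
        have a1 := h1 x hx
        have a2 := h2 y hy
        unfold Table.rk at a1 a2
        rw [if_pos hb] at a1 a2
        have := hoN x
        omega
      have h3 := (count (X κ) (X l) (C.u κ) (C.o l) k p (hX κ hκ).2 (hX l hl).2 hlt).2 y hy x hx
      have h5 := hlt y hy x hx
      have h6 := h3 (by omega) (by omega)
      simp only [hb, if_true]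
      have h4 : ((filter (fun y => C.o l y ≤ p) (X l)).card : ℤ) <
        ((filter (fun x => C.u κ x ≤ p) (X κ)).card : ℤ) := by exact_mod_cast h6
      linarith
    · have hlt : ∀ x ∈ X l, ∀ y ∈ X κ, C.o l x < C.u κ y := fun x hx y hy => by
        have a1 := h1 x hx
        have a2 := h2 y hy
        unfold Table.rk at a1 a2
        rw [if_neg hb] at a1 a2
        omega
      have h3 := (count (X l) (X κ) (C.o l) (C.u κ) k p (hX l hl).2 (hX κ hκ).2 hlt).2 x hx y hy
      have h5 := hlt x hx y hy
      have h6 := h3 (by omega) (by omega)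
      simp only [if_neg hb]
      have h4 : ((filter (fun y => C.u κ y ≤ p) (X κ)).card : ℤ) <
        ((filter (fun x => C.o l x ≤ p) (X l)).card : ℤ) := by exact_mod_cast h6
      linarith

end Chg

theorem claimChg : ClaimChg := by
  intro V ι _ _ _ _ D T th C X k hX
  refine ⟨fun i p => ?_, fun i => ?_, fun κ hκ x hx y hy p hp => ?_⟩
  · rw [Chg.chg_eq]
    exact sum_nonneg fun κ hκ => (Chg.br_props C X k hX κ hκ).1 i p
  · rw [Chg.chg_eq]
    exact sum_eq_zero fun κ hκ => (Chg.br_props C X k hX κ hκ).2.1 i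
  · rw [Chg.chg_eq]
    refine sum_pos' (fun l hl => (Chg.br_props C X k hX l hl).1 _ p) ⟨κ, hκ, ?_⟩
    exact (Chg.br_props C X k hX κ hκ).2.2 x hx y hy p hp

end Pool.Agent.Scatter

end

section

/-!
# Assembly of the combinatorial core
-/

set_option autoImplicit false

namespace Pool.Agent.Scatter

open Finset

theorem claimTour_of (h1 : ClaimPair) (h2 : ClaimMerge) (h3 : ClaimOrder) (h4 : ClaimOfTour) :
    ClaimTour := by
  intro V ι _ _ _ _ _ D
  constructor
  · exact h4 V ι D
  · rintro ⟨T, hT⟩
    obtain ⟨μ, hμ, htr⟩ := h2 V ι D T hT (h1 V ι D T hT.1)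
    obtain ⟨i1, i2, i3⟩ := hμ
    have hne : ∀ t, μ t ≠ t := by
      intro t h
      have h5 := i2 t
      rw [h] at h5
      have h6 := congrArg Prod.snd h5
      unfold opp at h6
      simp at h6
    obtain ⟨c, c1, c2, c3⟩ := h3 V μ i1 hne htr
    refine ⟨c, c1, c2, fun k => ?_⟩
    rw [← c3 k]
    set t := flp (c k) with ht
    have h7 := i2 t
    rcases hb : (T t).2 with _ | _
    · refine ⟨(T t).1, Or.inl ?_⟩
      have h8 := i3 t hb
      rw [h7] at h8
      have e1 : T t = ((T t).1, false) := Prod.ext rfl hb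
      have e2 : opp (T t) = ((T t).1, true) := by
        unfold opp; rw [hb]; rfl
      rw [e2] at h8
      rw [e1] at h8
      exact h8
    · refine ⟨(T t).1, Or.inr ?_⟩
      have hb' : (T (μ t)).2 = false := by
        rw [h7]; unfold opp; simp [hb]
      have h8 := i3 (μ t) hb'
      rw [i1 t, h7] at h8
      have e1 : T t = ((T t).1, true) := Prod.ext rfl hb
      have e2 : opp (T t) = ((T t).1, false) := by
        unfold opp; rw [hb]; rfl
      rw [e2] at h8
      rw [e1] at h8
      exact h8

theorem claimCore_of (h1 : ClaimAdvance) (h2 : ClaimMeet) (h3 : ClaimInv) (h4 : ClaimGoodChain)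
    (h5 : ClaimIrr) : ClaimCore := by
  intro V ι _ _ _ _ D hex
  classical
  have hfin : (Set.univ : Set (Tok V → Side ι)).Finite := Set.finite_univ
  obtain ⟨T, hT, hmax⟩ := (univ.filter fun T : Tok V → Side ι => D.Sol T).exists_max_image
    (fun T => D.total T) (by
      obtain ⟨T, hT⟩ := hex
      exact ⟨T, by simpa using hT⟩)
  have hT' : D.Sol T := by simpa using hT
  have hmax' : ∀ T', D.Sol T' → D.total T' ≤ D.total T := fun T' h => hmax T' (by simpa using h)
  obtain ⟨th, m, c1, c2, c3, c4⟩ := h4 V ι D T (h1 V ι D T hT' hmax') (h2 V ι D T) (h3 V ι D T)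
  exact ⟨T, hT', th, m, c1, c2, c3, fun j hj => h5 V ι D T (th j) (c4 j hj)⟩

end Pool.Agent.Scatter

end

section

/-!
# Vertex-disjoint subsets and periodic points
-/

set_option autoImplicit false

namespace Pool.Agent.Scatter

open Finset

namespace Disj

theorem card_le_image {V : Type} [DecidableEq V] (F : Finset (Tok V)) :
    F.card ≤ 2 * (F.image Prod.fst).card := by
  have h : F ⊆ (F.image Prod.fst) ×ˢ (univ : Finset Bool) := by
    intro x hx
    rw [mem_product]
    exact ⟨mem_image_of_mem _ hx, mem_univ _⟩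
  have := card_le_card h
  rw [card_product, card_univ, Fintype.card_bool] at this
  omega

/-- Choice of `m` tokens with different vertices outside of a small set. -/
theorem choose_tokens {V : Type} [DecidableEq V] (B : Finset (Tok V)) (U : Finset V) (m : ℕ)
    (h : 2 * (U.card + m) ≤ B.card) : ∃ A ⊆ B, A.card = m ∧ (∀ x ∈ A, x.1 ∉ U) ∧
      ∀ x ∈ A, ∀ y ∈ A, x.1 = y.1 → x = y := by
  set F := B.filter fun x => x.1 ∉ U with hF
  have h1 : (B.filter fun x => x.1 ∈ U).card ≤ 2 * U.card := by
    have h2 : (B.filter fun x => x.1 ∈ U) ⊆ U ×ˢ (univ : Finset Bool) := by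
      intro x hx
      rw [mem_product]
      exact ⟨(mem_filter.1 hx).2, mem_univ _⟩
    have := card_le_card h2
    rw [card_product, card_univ, Fintype.card_bool] at this
    omega
  have h3 : (B.filter fun x => x.1 ∈ U).card + F.card = B.card :=
    card_filter_add_card_filter_not _
  have h4 := card_le_image F
  obtain ⟨W, hW, hWc⟩ := exists_subset_card_eq (s := F.image Prod.fst) (n := m) (by omega)
  set sec : V → Tok V := fun w => if (w, false) ∈ F then (w, false) else (w, true) with hsec
  have hs1 : ∀ w, (sec w).1 = w := by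
    intro w
    simp only [hsec]
    split_ifs <;> rfl
  have hs2 : ∀ w ∈ W, sec w ∈ F := by
    intro w hw
    obtain ⟨⟨v, b⟩, hx, hxw⟩ := mem_image.1 (hW hw)
    simp only at hxw
    subst hxw
    simp only [hsec]
    split_ifs with hf
    · exact hf
    · cases b
      · exact absurd hx hf
      · exact hx
  refine ⟨W.image sec, fun x hx => ?_, ?_, fun x hx => ?_, fun x hx y hy hxy => ?_⟩
  · obtain ⟨w, hw, rfl⟩ := mem_image.1 hx
    exact (mem_filter.1 (hs2 w hw)).1
  · rw [card_image_of_injOn, hWc]
    intro a _ b _ hab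
    have := congrArg Prod.fst hab
    rwa [hs1, hs1] at this
  · obtain ⟨w, hw, rfl⟩ := mem_image.1 hx
    exact (mem_filter.1 (hs2 w hw)).2
  · obtain ⟨w, hw, rfl⟩ := mem_image.1 hx
    obtain ⟨w', hw', rfl⟩ := mem_image.1 hy
    rw [hs1, hs1] at hxy
    rw [hxy]

theorem aux {V S : Type} [DecidableEq V] [DecidableEq S] (Z : Finset S)
    (B : S → Finset (Tok V)) (m : ℕ) (h : ∀ κ ∈ Z, 2 * (Z.card * m) ≤ (B κ).card) :
    ∀ Z' : Finset S, Z' ⊆ Z → ∃ A : S → Finset (Tok V),
      (∀ κ ∈ Z', A κ ⊆ B κ ∧ (A κ).card = m) ∧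
        ∀ κ ∈ Z', ∀ l ∈ Z', ∀ x ∈ A κ, ∀ y ∈ A l, x.1 = y.1 → κ = l ∧ x = y := by
  intro Z'
  induction Z' using Finset.induction_on with
  | empty => exact fun _ => ⟨fun _ => ∅, by simp, by simp⟩
  | insert κ Z' hκ ih =>
    intro hsub
    obtain ⟨A, hA1, hA2⟩ := ih fun x hx => hsub (mem_insert_of_mem hx)
    have hκZ : κ ∈ Z := hsub (mem_insert_self _ _)
    have hcard : Z'.card + 1 ≤ Z.card := by
      have := card_le_card hsub
      rwa [card_insert_of_notMem hκ] at this
    set U := (Z'.biUnion A).image Prod.fst with hU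
    have hUc : U.card ≤ Z'.card * m := by
      calc U.card ≤ (Z'.biUnion A).card := card_image_le
        _ ≤ ∑ l ∈ Z', (A l).card := card_biUnion_le
        _ = ∑ _l ∈ Z', m := sum_congr rfl fun l hl => (hA1 l hl).2
        _ = Z'.card * m := by rw [sum_const, smul_eq_mul]
    have hbig : 2 * (U.card + m) ≤ (B κ).card := by
      have h1 : Z'.card * m + m ≤ Z.card * m := by
        have := Nat.mul_le_mul_right m hcard
        rwa [Nat.succ_mul] at this
      have := h κ hκZ
      omega
    obtain ⟨A', hA'B, hA'c, hA'U, hA'i⟩ := choose_tokens (B κ) U m hbig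
    have hne : ∀ l ∈ Z', l ≠ κ := fun l hl heq => hκ (heq ▸ hl)
    have hdis : ∀ l ∈ Z', ∀ x ∈ A l, ∀ y ∈ A', x.1 ≠ y.1 := by
      intro l hl x hx y hy hxy
      refine hA'U y hy ?_
      rw [hU, ← hxy]
      exact mem_image_of_mem _ (mem_biUnion.2 ⟨l, hl, hx⟩)
    refine ⟨Function.update A κ A', fun l hl => ?_, fun l hl l' hl' x hx y hy hxy => ?_⟩
    · rcases mem_insert.1 hl with rfl | hl
      · rw [Function.update_self]
        exact ⟨hA'B, hA'c⟩
      · rw [Function.update_of_ne (hne l hl)]
        exact hA1 l hl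
    · rcases mem_insert.1 hl with h1 | h1 <;> rcases mem_insert.1 hl' with h2 | h2
      · rw [h1, Function.update_self] at hx
        rw [h2, Function.update_self] at hy
        exact ⟨h1.trans h2.symm, hA'i x hx y hy hxy⟩
      · rw [h1, Function.update_self] at hx
        rw [Function.update_of_ne (hne l' h2)] at hy
        exact absurd hxy.symm (hdis l' h2 y hy x hx)
      · rw [h2, Function.update_self] at hy
        rw [Function.update_of_ne (hne l h1)] at hx
        exact absurd hxy (hdis l h1 x hx y hy)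
      · rw [Function.update_of_ne (hne l h1)] at hx
        rw [Function.update_of_ne (hne l' h2)] at hy
        exact hA2 l h1 l' h2 x hx y hy hxy

end Disj

theorem claimDisjoint : ClaimDisjoint := by
  intro V S _ _ Z B m h
  exact Disj.aux Z B m h Z subset_rfl

theorem claimPeriodic : ClaimPeriodic := by
  intro S _ U φ
  induction hn : U.card using Nat.strong_induction_on generalizing U with
  | _ n ih =>
    intro hne hmaps
    by_cases hinj : ∀ κ ∈ U, ∀ l ∈ U, φ κ = φ l → κ = l
    · exact ⟨U, subset_rfl, hne, hmaps, hinj⟩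
    · have hsub : U.image φ ⊆ U := image_subset_iff.2 hmaps
      have hlt : (U.image φ).card < n := by
        rw [← hn]
        refine lt_of_le_of_ne card_image_le fun heq => hinj ?_
        have := card_image_iff.1 heq
        intro κ hκ l hl h
        exact this hκ hl h
      obtain ⟨Z, hZ, h1, h2, h3⟩ := ih _ hlt (U.image φ) rfl (hne.image φ) fun κ hκ =>
        mem_image_of_mem _ (hsub hκ)
      exact ⟨Z, hZ.trans hsub, h1, h2, h3⟩

end Pool.Agent.Scatter

end

section

/-!
# The exchange lemma, assembly (MP_5296b6_lc)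
-/

set_option autoImplicit false
set_option linter.unusedSectionVars false

namespace Pool.Agent.Scatter

open Finset

namespace Exchange

variable {V ι : Type} [Fintype V] [DecidableEq V] [Fintype ι] [DecidableEq ι]

theorem closed_mono {F G : ι → ℕ → ℤ} (h : ∀ i p, F i p ≤ G i p) {a : ι → ℕ → Bool}
    (ha : Closed G a) : Closed F a := fun i p hp => ha i p (hp.trans_le (h i p))

theorem exists_pred {D : Table V ι} {T : Tok V → Side ι} {th : Side ι → ℕ} (C : Cyc D T th)
    {κ : Side ι} (hκ : κ ∈ C.Z) : ∃ l ∈ C.Z, C.nx l = κ := by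
  classical
  have h1 : C.Z.image C.nx ⊆ C.Z := by
    intro x hx
    obtain ⟨y, hy, rfl⟩ := mem_image.1 hx
    exact C.maps y hy
  have h2 : (C.Z.image C.nx).card = C.Z.card :=
    card_image_of_injOn fun x hx y hy h => C.inj x hx y hy h
  have h3 : C.Z.image C.nx = C.Z := eq_of_subset_of_card_le h1 h2.ge
  rw [← h3] at hκ
  obtain ⟨y, hy, h⟩ := mem_image.1 hκ
  exact ⟨y, hy, h⟩

/-- The old colour of a token. -/
theorem col_old {D : Table V ι} {T : Tok V → Side ι} {th : Side ι → ℕ} (C : Cyc D T th)
    {κ : Side ι} (hκ : κ ∈ C.Z) {x : Tok V} (hx : x ∈ C.A κ) (a : ι → ℕ → Bool) :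
    D.col T a x = if C.s κ then a (C.nx κ).1 (C.u κ x) else a κ.1 (C.o κ x) := by
  have h := C.sub κ hκ hx
  unfold Table.col Cyc.u Cyc.o
  unfold Table.Arc at h
  cases hs : C.s κ with
  | true =>
    rw [hs] at h
    simp only [if_true, Table.Sset, mem_filter, mem_univ, true_and] at h
    simp [h.1, oc]
  | false =>
    rw [hs] at h
    simp only [Bool.false_eq_true, if_false, Table.Rset, mem_filter, mem_univ, true_and] at h
    simp [h.1, oc, opp]

/-- The new colour of a token. -/
theorem col_new {D : Table V ι} {T : Tok V → Side ι} {th : Side ι → ℕ} (C : Cyc D T th)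
    {T' : Tok V → Side ι} {κ : Side ι} {x : Tok V} (hx : T' x = dst (C.s κ) κ (C.nx κ))
    (a : ι → ℕ → Bool) :
    D.col T' a x = if C.s κ then a κ.1 (C.o κ x) else a (C.nx κ).1 (C.u κ x) := by
  unfold Table.col Cyc.u Cyc.o
  rw [hx]
  cases hs : C.s κ with
  | true => simp [dst, oc]
  | false => simp [dst, oc, opp]

/-- The out-position is passed by `κ`. -/
theorem rk_o {D : Table V ι} {T : Tok V → Side ι} {th : Side ι → ℕ} (C : Cyc D T th)
    {κ : Side ι} (hκ : κ ∈ C.Z) {x : Tok V} (hx : x ∈ C.A κ) : D.rk κ (C.o κ x) ≤ th κ := by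
  have h := C.sub κ hκ hx
  unfold Cyc.o
  unfold Table.Arc at h
  cases hs : C.s κ with
  | true =>
    rw [hs] at h
    simp only [if_true, Table.Sset, mem_filter, mem_univ, true_and] at h
    simpa [oc] using h.2.2
  | false =>
    rw [hs] at h
    simp only [Bool.false_eq_true, if_false, Table.Rset, mem_filter, mem_univ, true_and] at h
    simpa [oc] using h.2.1

/-- The in-position is not passed by `nx κ`. -/
theorem rk_u {D : Table V ι} {T : Tok V → Side ι} {th : Side ι → ℕ} (C : Cyc D T th)
    {κ : Side ι} (hκ : κ ∈ C.Z) {x : Tok V} (hx : x ∈ C.A κ) :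
    th (C.nx κ) < D.rk (C.nx κ) (C.u κ x) := by
  have h := C.sub κ hκ hx
  unfold Cyc.u
  unfold Table.Arc at h
  cases hs : C.s κ with
  | true =>
    rw [hs] at h
    simp only [if_true, Table.Sset, mem_filter, mem_univ, true_and] at h
    simpa [oc] using h.2.1
  | false =>
    rw [hs] at h
    simp only [Bool.false_eq_true, if_false, Table.Rset, mem_filter, mem_univ, true_and] at h
    simpa [oc] using h.2.2

/-- Moved tokens. -/
theorem move_of_mem {D : Table V ι} {T : Tok V → Side ι} {th : Side ι → ℕ} (C : Cyc D T th)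
    {X : Side ι → Finset (Tok V)} (hX : ∀ κ ∈ C.Z, X κ ⊆ C.A κ) {κ : Side ι} (hκ : κ ∈ C.Z)
    {x : Tok V} (hx : x ∈ X κ) : C.move X x = dst (C.s κ) κ (C.nx κ) := by
  have h : ∃ κ, κ ∈ C.Z ∧ x ∈ X κ := ⟨κ, hκ, hx⟩
  unfold Cyc.move
  rw [dif_pos h]
  have h1 := h.choose_spec
  have h2 := (C.disj _ h1.1 κ hκ x (hX _ h1.1 h1.2) x (hX κ hκ hx) rfl).1
  rw [h2]

theorem move_of_notMem {D : Table V ι} {T : Tok V → Side ι} {th : Side ι → ℕ} (C : Cyc D T th)
    {X : Side ι → Finset (Tok V)} {x : Tok V} (hx : ∀ κ ∈ C.Z, x ∉ X κ) :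
    C.move X x = T x := by
  unfold Cyc.move
  rw [dif_neg]
  rintro ⟨κ, h1, h2⟩
  exact hx κ h1 h2

end Exchange

open Exchange in
theorem claimExchange (h1 : ClaimMoveFlow) (h2 : ClaimChg) (h3 : ClaimPrimary)
    (h4 : ClaimSelect) : ClaimExchange := by
  intro V ι _ _ _ _ D T th C hSol hcard
  have hcard2 : ∀ κ ∈ C.Z, 2 ≤ (C.A κ).card := fun κ hκ => by
    have := hcard κ hκ
    omega
  obtain ⟨X, hX, hXc⟩ := h3 V ι D T th C hSol.1 hcard2
  set F : ι → ℕ → ℤ := fun i p => D.flow T i p + C.chg X i p with hF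
  have hchgX := h2 V ι D T th C X 2 hX
  have hTF : ∀ i p, D.flow T i p ≤ F i p := fun i p => by
    have := hchgX.1 i p
    simp only [hF]
    linarith
  -- a token in every set
  have hne : ∀ κ ∈ C.Z, ∃ x, x ∈ C.A κ := fun κ hκ =>
    card_pos.1 (by have := hcard2 κ hκ; omega)
  -- the colour of a side
  have hso : ∀ a, Closed F a → ∀ κ ∈ C.Z, ∀ x ∈ C.A κ, ∀ x' ∈ C.A κ,
      a κ.1 (C.o κ x) = a κ.1 (C.o κ x') := by
    intro a ha κ hκ x hx x' hx'
    obtain ⟨l, hl, rfl⟩ := exists_pred C hκ
    obtain ⟨y, hy⟩ := hne l hl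
    rw [hXc a ha l hl x hx y hy, hXc a ha l hl x' hx' y hy]
  have hsu : ∀ a, Closed F a → ∀ κ ∈ C.Z, ∀ y ∈ C.A κ, ∀ y' ∈ C.A κ,
      a (C.nx κ).1 (C.u κ y) = a (C.nx κ).1 (C.u κ y') := by
    intro a ha κ hκ y hy y' hy'
    obtain ⟨x, hx⟩ := hne _ (C.maps κ hκ)
    rw [← hXc a ha κ hκ x hx y hy, ← hXc a ha κ hκ x hx y' hy']
  have hcolA : ∀ a, Closed F a → ∀ κ ∈ C.Z, ∀ x ∈ C.A κ, ∀ y ∈ C.A κ,
      D.col T a x = D.col T a y := by
    intro a ha κ hκ x hx y hy
    rw [col_old C hκ hx a, col_old C hκ hy a, hso a ha κ hκ x hx y hy, hsu a ha κ hκ x hx y hy]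
  -- primary vertices
  set M₀ : Finset V := C.Z.biUnion fun κ => (X κ).image Prod.fst with hM₀
  have hM₀c : M₀.card ≤ 2 * C.Z.card := by
    refine card_biUnion_le.trans ?_
    calc ∑ κ ∈ C.Z, ((X κ).image Prod.fst).card ≤ ∑ κ ∈ C.Z, 2 :=
          sum_le_sum fun κ hκ => card_image_le.trans (hX κ hκ).2.le
      _ = 2 * C.Z.card := by simp [mul_comm]
  -- selection of the secondary tokens
  have hsel : ∀ Y : Finset (Side ι), Y ⊆ C.Z → ∃ z : Side ι → Tok V,
      (∀ κ ∈ Y, z κ ∈ C.A κ ∧ (z κ).1 ∉ M₀) ∧ ∀ a, Closed F a →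
        (∀ v, v ∉ M₀ ∪ Y.image (fun κ => (z κ).1) →
          D.col T a (v, false) = D.col T a (v, true)) →
        ∀ κ ∈ Y, D.col T a ((z κ).1, false) = D.col T a ((z κ).1, true) := by
    intro Y
    induction Y using Finset.induction_on with
    | empty =>
      intro _
      obtain ⟨κ, hκ⟩ := C.nonempty
      obtain ⟨x, hx⟩ := hne κ hκ
      exact ⟨fun _ => x, by simp, by simp⟩
    | insert κ Y hκY ih =>
      intro hsub
      have hκZ : κ ∈ C.Z := hsub (mem_insert_self _ _)
      have hYZ : Y ⊆ C.Z := (subset_insert _ _).trans hsub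
      obtain ⟨z, hz1, hz2⟩ := ih hYZ
      set M : Finset V := M₀ ∪ Y.image (fun κ => (z κ).1) with hM
      have hYc : Y.card + 1 ≤ C.Z.card := by
        rw [← card_insert_of_notMem hκY]
        exact card_le_card hsub
      have hMc : M.card ≤ 2 * C.Z.card + Y.card :=
        (card_union_le _ _).trans (add_le_add hM₀c card_image_le)
      have hfil : (C.A κ).filter (fun x => x.1 ∈ M) ⊆ X κ := by
        intro x hx
        rw [mem_filter] at hx
        obtain ⟨hxA, hxM⟩ := hx
        rw [hM, mem_union] at hxM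
        rcases hxM with hxM | hxM
        · rw [hM₀, mem_biUnion] at hxM
          obtain ⟨l, hl, hxl⟩ := hxM
          obtain ⟨y, hy, hyx⟩ := mem_image.1 hxl
          obtain ⟨rfl, rfl⟩ := C.disj κ hκZ l hl x hxA y ((hX l hl).1 hy) hyx.symm
          exact hy
        · obtain ⟨l, hl, hlx⟩ := mem_image.1 hxM
          have := (C.disj κ hκZ l (hYZ hl) x hxA (z l) (hz1 l hl).1 hlx.symm).1
          exact absurd (this ▸ hl) hκY
      have hcount : 2 * M.card < ((C.A κ).filter fun x => x.1 ∉ M).card := by
        have e1 := card_filter_add_card_filter_not (s := C.A κ) (fun x => x.1 ∈ M)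
        have e2 := (card_le_card hfil).trans (hX κ hκZ).2.le
        have e3 := hcard κ hκZ
        omega
      obtain ⟨x, hxA, hxM, hxs⟩ := h4 V ι D T F hSol.1 hTF (C.A κ) M
        (fun x hx y hy hxy => (C.disj κ hκZ κ hκZ x hx y hy hxy).2)
        (fun a ha x hx y hy => hcolA a ha κ hκZ x hx y hy) hcount
      have hupd : ∀ l ∈ Y, Function.update z κ x l = z l := fun l hl =>
        Function.update_of_ne (ne_of_mem_of_not_mem hl hκY) _ _
      refine ⟨Function.update z κ x, ?_, ?_⟩
      · intro l hl
        rcases mem_insert.1 hl with rfl | hl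
        · rw [Function.update_self]
          exact ⟨hxA, fun h => hxM (mem_union_left _ h)⟩
        · rw [hupd l hl]
          exact hz1 l hl
      · intro a ha hmono
        have himg : (insert κ Y).image (fun l => (Function.update z κ x l).1) =
            insert x.1 (Y.image fun l => (z l).1) := by
          rw [image_insert, Function.update_self]
          congr 1
          exact image_congr fun l hl => by
            simp only [hupd l (mem_coe.1 hl)]
        rw [himg] at hmono
        have hx1 : D.col T a (x.1, false) = D.col T a (x.1, true) := by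
          refine hxs a ha fun v hv hvx => hmono v ?_
          rw [union_insert, mem_insert, not_or]
          exact ⟨hvx, hv⟩
        have hmono' : ∀ v, v ∉ M → D.col T a (v, false) = D.col T a (v, true) := by
          intro v hv
          by_cases hvx : v = x.1
          · rw [hvx]; exact hx1
          · refine hmono v ?_
            rw [union_insert, mem_insert, not_or]
            exact ⟨hvx, hv⟩
        intro l hl
        rcases mem_insert.1 hl with rfl | hl
        · rw [Function.update_self]
          exact hx1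
        · rw [hupd l hl]
          exact hz2 a ha hmono' l hl
  obtain ⟨z, hz1, hz2⟩ := hsel C.Z Subset.rfl
  have hzX : ∀ κ ∈ C.Z, z κ ∉ X κ := fun κ hκ h =>
    (hz1 κ hκ).2 (mem_biUnion.2 ⟨κ, hκ, mem_image_of_mem _ h⟩)
  -- the moved sets
  set X' : Side ι → Finset (Tok V) := fun κ => insert (z κ) (X κ) with hX'
  have hX'1 : ∀ κ ∈ C.Z, X' κ ⊆ C.A κ ∧ (X' κ).card = 3 := fun κ hκ =>
    ⟨insert_subset (hz1 κ hκ).1 (hX κ hκ).1, by
      rw [hX', card_insert_of_notMem (hzX κ hκ), (hX κ hκ).2]⟩
  have hX'A : ∀ κ ∈ C.Z, X' κ ⊆ C.A κ := fun κ hκ => (hX'1 κ hκ).1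
  have hchg' := h2 V ι D T th C X' 3 hX'1
  have hchgz := h2 V ι D T th C (fun κ => {z κ}) 1 fun κ hκ =>
    ⟨singleton_subset_iff.2 (hz1 κ hκ).1, card_singleton _⟩
  have hflow := h1 V ι D T th C X' hX'A
  have hadd : ∀ i p, C.chg X' i p = C.chg (fun κ => {z κ}) i p + C.chg X i p := by
    intro i p
    unfold Cyc.chg
    rw [← sum_add_distrib]
    refine sum_congr rfl fun κ hκ => ?_
    rw [hX', sum_insert (hzX κ hκ), sum_singleton]
  have hFT' : ∀ i p, F i p ≤ D.flow (C.move X') i p := by
    intro i p
    rw [hflow, hadd]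
    have := hchgz.1 i p
    simp only [hF]
    linarith
  refine ⟨C.move X', ⟨⟨?_, ?_⟩, ?_⟩, ?_⟩
  · intro i p
    rw [hflow]
    have e1 := hchg'.1 i p
    have e2 := hSol.1.1 i p
    linarith
  · intro i
    rw [hflow, hchg'.2.1, hSol.1.2, add_zero]
  · -- connectedness
    intro a ha hmono
    have haF : Closed F a := closed_mono hFT' ha
    have haT : Closed (D.flow T) a := closed_mono hTF haF
    -- vertices outside
    have hout : ∀ v, v ∉ M₀ ∪ C.Z.image (fun κ => (z κ).1) → ∀ b,
        C.move X' (v, b) = T (v, b) := by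
      intro v hv b
      refine move_of_notMem C fun κ hκ h => hv ?_
      rcases mem_insert.1 h with h | h
      · exact mem_union_right _ (mem_image.2 ⟨κ, hκ, by rw [← h]⟩)
      · exact mem_union_left _ (mem_biUnion.2 ⟨κ, hκ, mem_image.2 ⟨_, h, rfl⟩⟩)
    have hmonoT := hz2 a haF fun v hv => by
      have := hmono v
      unfold Table.col at this ⊢
      rwa [hout v hv, hout v hv] at this
    -- colours of the secondary tokens
    have hzcol : ∀ κ ∈ C.Z, D.col (C.move X') a (z κ) = D.col T a (z κ) := by
      intro κ hκ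
      have hpart : C.move X' (flp (z κ)) = T (flp (z κ)) := by
        refine move_of_notMem C fun l hl h => ?_
        have := (C.disj κ hκ l hl (z κ) (hz1 κ hκ).1 (flp (z κ)) (hX'A l hl h) rfl).2
        have h' := congrArg Prod.snd this
        simp [flp] at h'
      have hpc : D.col (C.move X') a (flp (z κ)) = D.col T a (flp (z κ)) := by
        unfold Table.col; rw [hpart]
      have e1 := hmono (z κ).1
      have e2 := hmonoT κ hκ
      rcases hb : z κ with ⟨v, b⟩
      rw [hb] at e1 e2 hpc
      cases b with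
      | false =>
        simp only [flp, Bool.not_false] at hpc
        rw [e1, hpc, ← e2]
      | true =>
        simp only [flp, Bool.not_true] at hpc
        rw [← e1, hpc, e2]
    have hside : ∀ κ ∈ C.Z, a κ.1 (C.o κ (z κ)) = a (C.nx κ).1 (C.u κ (z κ)) := by
      intro κ hκ
      have e := hzcol κ hκ
      rw [col_old C hκ (hz1 κ hκ).1 a,
        col_new C (move_of_mem C hX'A hκ (mem_insert_self _ _)) a] at e
      cases hs : C.s κ with
      | true => simpa [hs] using e
      | false => simpa [hs] using e.symm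
    have hcol : ∀ t, D.col (C.move X') a t = D.col T a t := by
      intro t
      by_cases ht : ∃ κ ∈ C.Z, t ∈ X' κ
      · obtain ⟨κ, hκ, htκ⟩ := ht
        have htA := hX'A κ hκ htκ
        rw [col_old C hκ htA a, col_new C (move_of_mem C hX'A hκ htκ) a,
          hso a haF κ hκ t htA (z κ) (hz1 κ hκ).1, hsu a haF κ hκ t htA (z κ) (hz1 κ hκ).1,
          hside κ hκ]
      · have : C.move X' t = T t := move_of_notMem C fun κ hκ h => ht ⟨κ, hκ, h⟩
        unfold Table.col; rw [this]
    intro t t'
    rw [hcol, hcol]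
    exact hSol.2 a haT (fun v => by rw [← hcol, ← hcol]; exact hmono v) t t'
  · -- the total flow increases
    unfold Table.total
    obtain ⟨κ, hκ⟩ := C.nonempty
    have hnκ := C.maps κ hκ
    have hx := mem_insert_self (z (C.nx κ)) (X (C.nx κ))
    have hy := mem_insert_self (z κ) (X κ)
    have e1 := rk_o C hnκ (hz1 _ hnκ).1
    have e2 := rk_u C hκ (hz1 κ hκ).1
    have hne' : C.o (C.nx κ) (z (C.nx κ)) ≠ C.u κ (z κ) := by
      intro h
      rw [h] at e1
      omega
    have hle1 : C.o (C.nx κ) (z (C.nx κ)) ≤ D.N := D.le_N _ _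
    have hle2 : C.u κ (z κ) ≤ D.N := D.le_N _ _
    have hpos := hchg'.2.2 κ hκ _ hx _ hy
      (min (C.o (C.nx κ) (z (C.nx κ))) (C.u κ (z κ))) (by omega)
    refine sum_lt_sum (fun i _ => sum_le_sum fun p _ => (hTF i p).trans (hFT' i p))
      ⟨(C.nx κ).1, mem_univ _, ?_⟩
    refine sum_lt_sum (fun p _ => (hTF _ p).trans (hFT' _ p))
      ⟨min (C.o (C.nx κ) (z (C.nx κ))) (C.u κ (z κ)), mem_range.2 (by omega), ?_⟩
    rw [hflow]
    linarith

end Pool.Agent.Scatter

end

section

/-!
# Flow as a sum of step functions; flow after a move (MP_5296b6_lc, item F1)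
-/

set_option autoImplicit false

namespace Pool.Agent.Scatter

open Finset

theorem claimFlowSum : ClaimFlowSum := by
  intro V ι _ _ _ _ D T i p
  unfold Table.flow
  rw [card_filter, card_filter]
  push_cast
  rw [← sum_sub_distrib]
  apply sum_congr rfl
  intro t _
  unfold bump
  rcases hT : T t with ⟨j, b⟩
  cases b <;> by_cases hj : j = i <;> by_cases hp : D.pos t (i, true) ≤ p <;>
    by_cases hp' : D.pos t (i, false) ≤ p <;> simp [hj, hp, hp']

namespace FlowMove

variable {V ι : Type} [Fintype V] [DecidableEq V] [Fintype ι] [DecidableEq ι]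

omit [Fintype V] [Fintype ι] [DecidableEq V] [DecidableEq ι] in
/-- A token in the source of a move knows its side. -/
theorem unique [Fintype V] [DecidableEq V] [DecidableEq ι]
    {D : Table V ι} {T : Tok V → Side ι} {th : Side ι → ℕ} (C : Cyc D T th)
    (X : Side ι → Finset (Tok V)) (hX : ∀ κ ∈ C.Z, X κ ⊆ C.A κ) {κ l : Side ι} (hκ : κ ∈ C.Z)
    (hl : l ∈ C.Z) {t : Tok V} (h1 : t ∈ X κ) (h2 : t ∈ X l) : κ = l :=
  (C.disj κ hκ l hl t (hX κ hκ h1) t (hX l hl h2) rfl).1

theorem move_eq {D : Table V ι} {T : Tok V → Side ι} {th : Side ι → ℕ} (C : Cyc D T th)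
    (X : Side ι → Finset (Tok V)) (hX : ∀ κ ∈ C.Z, X κ ⊆ C.A κ) {κ : Side ι} (hκ : κ ∈ C.Z)
    {t : Tok V} (h1 : t ∈ X κ) : C.move X t = dst (C.s κ) κ (C.nx κ) := by
  have h : ∃ κ, κ ∈ C.Z ∧ t ∈ X κ := ⟨κ, hκ, h1⟩
  unfold Cyc.move
  rw [dif_pos h]
  have := unique C X hX hκ h.choose_spec.1 h1 h.choose_spec.2
  rw [← this]

theorem move_eq_of_not {D : Table V ι} {T : Tok V → Side ι} {th : Side ι → ℕ} (C : Cyc D T th)
    (X : Side ι → Finset (Tok V)) {t : Tok V} (h : ¬ ∃ κ, κ ∈ C.Z ∧ t ∈ X κ) :
    C.move X t = T t := by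
  unfold Cyc.move
  rw [dif_neg h]

theorem bump_opp (κ : Side ι) (q : ℕ) (i : ι) (p : ℕ) : bump (opp κ) q i p = - bump κ q i p := by
  unfold bump opp
  rcases κ with ⟨j, b⟩
  cases b <;> by_cases hj : j = i <;> simp [hj] <;> split_ifs <;> simp

end FlowMove

open FlowMove in
theorem claimMoveFlow : ClaimMoveFlow := by
  intro V ι _ _ _ _ D T th C X hX i p
  rw [claimFlowSum V ι D (C.move X) i p, claimFlowSum V ι D T i p]
  rw [← sub_eq_iff_eq_add', ← sum_sub_distrib]
  have h1 : ∑ t : Tok V, (bump (C.move X t) (D.pos t (C.move X t)) i p -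
      bump (T t) (D.pos t (T t)) i p) =
      ∑ t ∈ C.Z.biUnion X, (bump (C.move X t) (D.pos t (C.move X t)) i p -
      bump (T t) (D.pos t (T t)) i p) := by
    symm
    apply sum_subset (subset_univ _)
    intro t _ ht
    rw [move_eq_of_not C X (fun ⟨κ, hκ, hx⟩ => ht (mem_biUnion.2 ⟨κ, hκ, hx⟩)), sub_self]
  rw [h1, sum_biUnion]
  · unfold Cyc.chg
    apply sum_congr rfl
    intro κ hκ
    apply sum_congr rfl
    intro t ht
    rw [move_eq C X hX hκ ht]
    have hsub := C.sub κ hκ (hX κ hκ ht)
    unfold Cyc.o Cyc.u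
    unfold Table.Arc at hsub
    cases hs : C.s κ
    · rw [hs] at hsub
      simp only [Table.Rset, Bool.false_eq_true, if_false, mem_filter, mem_univ, true_and] at hsub
      simp only [dst, oc, Bool.false_eq_true, if_false]
      rw [hsub.1, bump_opp, bump_opp]
      ring
    · rw [hs] at hsub
      simp only [Table.Sset, if_true, mem_filter, mem_univ, true_and] at hsub
      simp only [dst, oc, if_true]
      rw [hsub.1]
  · intro κ hκ l hl hne
    rw [Function.onFun, disjoint_left]
    intro t h1 h2
    exact hne (unique C X hX hκ hl h1 h2)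

end Pool.Agent.Scatter

end

section

/-!
# A chain of good cuts from the open cut to a closed cut (MP_5296b6_lc, item G5)
-/

set_option autoImplicit false

namespace Pool.Agent.Scatter

open Finset

namespace GoodChain

theorem opp_opp {ι : Type} (κ : Side ι) : opp (opp κ) = κ := by
  unfold opp
  simp

theorem opp_ne {ι : Type} (κ : Side ι) : opp κ ≠ κ := by
  intro h
  have h2 := congrArg Prod.snd h
  simp [opp] at h2

section abstract_part

variable {ι : Type} [Fintype ι] [DecidableEq ι] {N : ℕ} {G : (Side ι → ℕ) → Prop}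

theorem key
    (adv : ∀ th, G th → (∃ κ, th κ < N) → ∃ κ, th κ < N ∧ G (Function.update th κ (th κ + 1)))
    (meet : ∀ th th', G th → G th' → G (fun κ => min (th κ) (th' κ)))
    (inv : ∀ th, G th → G (fun κ => N - th (opp κ)))
    (th : Side ι → ℕ) (hth : G th) (hsum : ∀ κ, th κ + th (opp κ) ≤ N)
    (hlt : ∃ κ, th κ + th (opp κ) < N) :
    ∃ κ, th κ + th (opp κ) < N ∧ G (Function.update th κ (th κ + 1)) := by
  have main : ∀ (k : ℕ) (Q : Side ι → ℕ), G Q → ∑ κ, (N - Q κ) ≤ k →
      (∀ κ, min (Q κ) (N - th (opp κ)) = th κ) →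
      ∃ κ, th κ + th (opp κ) < N ∧ G (Function.update th κ (th κ + 1)) := by
    intro k
    induction k with
    | zero =>
      intro Q hQ hk hmin
      exfalso
      obtain ⟨κ, hκ⟩ := hlt
      have h0 : ∑ κ, (N - Q κ) = 0 := Nat.le_zero.1 hk
      have h1 := (Finset.sum_eq_zero_iff.1 h0) κ (Finset.mem_univ κ)
      have h2 := hmin κ
      omega
    | succ k ih =>
      intro Q hQ hk hmin
      by_cases htop : ∃ κ, Q κ < N
      · obtain ⟨κ, hκ, hG⟩ := adv Q hQ htop
        by_cases hcase : min (Q κ + 1) (N - th (opp κ)) = th κ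
        · refine ih (Function.update Q κ (Q κ + 1)) hG ?_ ?_
          · have hlt' : ∑ l, (N - Function.update Q κ (Q κ + 1) l) < ∑ l, (N - Q l) := by
              refine Finset.sum_lt_sum (fun l _ => ?_) ⟨κ, Finset.mem_univ κ, ?_⟩
              · by_cases hl : l = κ
                · subst hl
                  rw [Function.update_self]
                  omega
                · rw [Function.update_of_ne hl]
              · rw [Function.update_self]
                omega
            omega
          · intro l
            by_cases hl : l = κ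
            · subst hl
              rw [Function.update_self]
              exact hcase
            · rw [Function.update_of_ne hl]
              exact hmin l
        · have h1 := hmin κ
          have h3 := hsum κ
          refine ⟨κ, by omega, ?_⟩
          have h4 := meet _ _ hG (inv th hth)
          have h5 : (fun l => min (Function.update Q κ (Q κ + 1) l) (N - th (opp l))) =
              Function.update th κ (th κ + 1) := by
            funext l
            by_cases hl : l = κ
            · subst hl
              rw [Function.update_self, Function.update_self]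
              omega
            · rw [Function.update_of_ne hl, Function.update_of_ne hl]
              exact hmin l
          rw [h5] at h4
          exact h4
      · exfalso
        push Not at htop
        obtain ⟨κ, hκ⟩ := hlt
        have h1 := htop κ
        have h2 := hmin κ
        omega
  refine main _ th hth le_rfl fun κ => ?_
  have := hsum κ
  omega

theorem chain
    (adv : ∀ th, G th → (∃ κ, th κ < N) → ∃ κ, th κ < N ∧ G (Function.update th κ (th κ + 1)))
    (meet : ∀ th th', G th → G th' → G (fun κ => min (th κ) (th' κ)))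
    (inv : ∀ th, G th → G (fun κ => N - th (opp κ))) :
    ∀ (k : ℕ) (th : Side ι → ℕ), G th → ∑ κ, (N - th κ) ≤ k →
      (∀ κ, th κ + th (opp κ) ≤ N) →
      ∃ (c : ℕ → Side ι → ℕ) (m : ℕ), c 0 = th ∧
        (∀ j < m, ∃ κ, c j κ + c j (opp κ) < N ∧
          c (j + 1) = Function.update (c j) κ (c j κ + 1)) ∧
        (∀ κ, c m κ + c m (opp κ) = N) ∧ ∀ j ≤ m, G (c j) := by
  intro k
  induction k with
  | zero =>
    intro th hth hk hsum
    refine ⟨fun _ => th, 0, rfl, fun j hj => absurd hj (Nat.not_lt_zero j), fun κ => ?_,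
      fun _ _ => hth⟩
    have h0 : ∑ κ, (N - th κ) = 0 := Nat.le_zero.1 hk
    have h1 := (Finset.sum_eq_zero_iff.1 h0) κ (Finset.mem_univ κ)
    have h2 := hsum κ
    show th κ + th (opp κ) = N
    omega
  | succ k ih =>
    intro th hth hk hsum
    by_cases hlt : ∃ κ, th κ + th (opp κ) < N
    · obtain ⟨κ, hκ, hG⟩ := key adv meet inv th hth hsum hlt
      obtain ⟨c, m, hc0, hc1, hc2, hc3⟩ := ih (Function.update th κ (th κ + 1)) hG (by
        have hlt' : ∑ l, (N - Function.update th κ (th κ + 1) l) < ∑ l, (N - th l) := by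
          refine Finset.sum_lt_sum (fun l _ => ?_) ⟨κ, Finset.mem_univ κ, ?_⟩
          · by_cases hl : l = κ
            · subst hl
              rw [Function.update_self]
              omega
            · rw [Function.update_of_ne hl]
          · rw [Function.update_self]
            omega
        omega) (by
        intro l
        have hs := hsum l
        by_cases hl : l = κ
        · subst hl
          rw [Function.update_self, Function.update_of_ne (opp_ne l)]
          omega
        · rw [Function.update_of_ne hl]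
          by_cases hl2 : opp l = κ
          · have h3 : opp κ = l := by rw [← hl2, opp_opp]
            rw [hl2, Function.update_self]
            rw [h3] at hκ
            omega
          · rw [Function.update_of_ne hl2]
            exact hs)
      refine ⟨fun j => Nat.casesOn j th (fun i => c i), m + 1, rfl, ?_, hc2, ?_⟩
      · intro j hj
        cases j with
        | zero => exact ⟨κ, hκ, hc0⟩
        | succ i => exact hc1 i (by omega)
      · intro j hj
        cases j with
        | zero => exact hth
        | succ i => exact hc3 i (by omega)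
    · push Not at hlt
      refine ⟨fun _ => th, 0, rfl, fun j hj => absurd hj (Nat.not_lt_zero j), fun κ => ?_,
        fun _ _ => hth⟩
      exact le_antisymm (hsum κ) (hlt κ)

end abstract_part

theorem rk_pos {V ι : Type} (D : Table V ι) (κ : Side ι) {p : ℕ} (h1 : 1 ≤ p) (h2 : p ≤ D.N) :
    1 ≤ D.rk κ p := by
  unfold Table.rk
  split_ifs <;> omega

theorem good_zero {V ι : Type} [Fintype V] [DecidableEq V] [Fintype ι] [DecidableEq ι]
    (D : Table V ι) (T : Tok V → Side ι) : D.Good T (fun _ => 0) := by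
  refine ⟨fun κ => Nat.zero_le _, fun κ l _ => ⟨?_, ?_⟩⟩
  · have h : D.Sset T (fun _ => 0) κ l = ∅ := by
      unfold Table.Sset
      refine Finset.filter_eq_empty_iff.2 fun t _ ht => ?_
      have h1 := rk_pos D κ (D.one_le t κ) (D.le_N t κ)
      have h2 : D.rk κ (D.pos t κ) ≤ 0 := ht.2.2
      omega
    rw [h]
    exact Nat.zero_le _
  · have h : D.Rset T (fun _ => 0) κ l = ∅ := by
      unfold Table.Rset
      refine Finset.filter_eq_empty_iff.2 fun t _ ht => ?_
      have h1 := rk_pos D κ (D.one_le t (opp κ)) (D.le_N t (opp κ))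
      have h2 : D.rk κ (D.pos t (opp κ)) ≤ 0 := ht.2.1
      omega
    rw [h]
    exact Nat.zero_le _

end GoodChain

theorem claimGoodChain : ClaimGoodChain := by
  intro V ι _ _ _ _ D T adv meet inv
  obtain ⟨c, m, h0, h1, h2, h3⟩ := GoodChain.chain (G := D.Good T) (N := D.N)
    adv meet inv (∑ _κ : Side ι, D.N) (fun _ => 0) (GoodChain.good_zero D T)
    (Finset.sum_le_sum fun κ _ => by simp) (fun κ => by simp)
  exact ⟨c, m, fun κ => by rw [h0], h1, h2, h3⟩

end Pool.Agent.Scatter

end

section

/-!
# Few irregular vertices at a good cut (MP_5296b6_lc, item G6)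
-/

set_option autoImplicit false

namespace Pool.Agent.Scatter

open Finset

namespace Irr

theorem opp_opp {ι : Type} (κ : Side ι) : opp (opp κ) = κ := by
  unfold opp; simp

variable {V ι : Type} [Fintype V] [DecidableEq V] [Fintype ι] [DecidableEq ι]

omit [DecidableEq V] [Fintype ι] in
/-- A token that is wrongly placed belongs to some `Sset` or `Rset`. -/
theorem token {D : Table V ι} {T : Tok V → Side ι} {th : Side ι → ℕ} {t : Tok V}
    (h : ¬ (D.Out T th t ↔ D.DA th t)) :
    ∃ κ l, κ ≠ l ∧ (t ∈ D.Sset T th κ l ∨ t ∈ D.Rset T th κ l) := by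
  by_cases hD : D.DA th t
  · have hO : ¬ D.Out T th t := fun h' => h ⟨fun _ => hD, fun _ => h'⟩
    unfold Table.Out at hO
    push Not at hO
    rcases hD with ⟨κ, hκ⟩ | hall
    · refine ⟨κ, T t, ?_, Or.inl ?_⟩
      · rintro rfl
        exact absurd hκ (not_le.2 hO.1)
      · unfold Table.Sset
        rw [mem_filter]
        exact ⟨mem_univ _, rfl, hO.1, hκ⟩
    · exact absurd (hall (T t)) (not_le.2 hO.2)
  · have hO : D.Out T th t := by
      by_contra h'
      exact h ⟨fun a => absurd a h', fun a => absurd a hD⟩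
    unfold Table.DA at hD
    push Not at hD
    obtain ⟨h1, n, hn⟩ := hD
    rcases hO with h2 | h2
    · exact absurd h2 (not_le.2 (h1 (T t)))
    · refine ⟨opp (T t), opp n, ?_, Or.inr ?_⟩
      · intro he
        have : T t = n := by rw [← opp_opp (T t), he, opp_opp]
        rw [this] at h2
        exact absurd h2 (not_le.2 hn)
      · unfold Table.Rset
        rw [mem_filter]
        refine ⟨mem_univ _, ?_, ?_, ?_⟩
        · rw [opp_opp]
        · rw [opp_opp]; exact h2
        · rw [opp_opp]; exact hn

omit [Fintype V] [DecidableEq V] [Fintype ι] [DecidableEq ι] in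
/-- The rank is injective on the positions. -/
theorem rk_inj (D : Table V ι) (κ : Side ι) {p q : ℕ} (hp : p ≤ D.N) (hq : q ≤ D.N)
    (h : D.rk κ p = D.rk κ q) : p = q := by
  unfold Table.rk at h
  split_ifs at h
  · omega
  · exact h

omit [Fintype V] [DecidableEq V] [Fintype ι] [DecidableEq ι] in
/-- If the statuses of the two tokens of an adjacent vertex differ, one of its spots is the last
passed one of some side. -/
theorem spot {D : Table V ι} {th : Side ι → ℕ} {v : V} (ha : D.Adj v)
    (h : ¬ (D.DA th (v, false) ↔ D.DA th (v, true))) :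
    ∃ (k m : Side ι) (e : Bool), m.1 = k.1 ∧ D.rk k (D.pos (v, e) m) = th k := by
  by_contra hcon
  push Not at hcon
  apply h
  have key : ∀ k m : Side ι, m.1 = k.1 →
      (D.rk k (D.pos (v, false) m) ≤ th k ↔ D.rk k (D.pos (v, true) m) ≤ th k) := by
    intro k m hm
    have h1 := hcon k m false hm
    have h2 := hcon k m true hm
    have h3 := ha m
    have h4 := D.le_N (v, true) m
    have h5 := D.one_le (v, false) m
    unfold Table.rk at h1 h2 ⊢
    rw [h3] at h2 h4 ⊢
    split_ifs at h1 h2 ⊢ <;> omega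
  unfold Table.DA
  refine or_congr (exists_congr fun κ => key κ κ rfl) (forall_congr' fun κ => key (opp κ) κ rfl)

end Irr

open Irr

theorem claimIrr : ClaimIrr := by
  classical
  intro V ι _ _ _ _ D T th hG
  obtain ⟨hN, hS⟩ := hG
  -- the three sets
  set P : Finset (Side ι × Side ι) := univ.filter fun q => q.1 ≠ q.2 with hP
  set A : Finset V := (P.biUnion fun q => D.Sset T th q.1 q.2 ∪ D.Rset T th q.1 q.2).image
    Prod.fst with hA
  set B : Finset V := univ.filter fun v => D.Adj v ∧
    ¬ (D.DA th (v, false) ↔ D.DA th (v, true)) with hB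
  have hsub : (univ.filter fun v => ¬ D.Reg T th v) ⊆ (A ∪ B) ∪ univ.filter fun v => ¬ D.Adj v := by
    intro v hv
    have hv' : ¬ D.Reg T th v := by simpa using hv
    by_cases had : D.Adj v
    · refine mem_union_left _ ?_
      by_cases hBv : D.DA th (v, false) ↔ D.DA th (v, true)
      · refine mem_union_left _ ?_
        have : ∃ e, ¬ (D.Out T th (v, e) ↔ D.DA th (v, e)) := by
          by_contra hcon
          push Not at hcon
          exact hv' ⟨hcon, hBv⟩
        obtain ⟨e, he⟩ := this
        obtain ⟨κ, l, hne, hmem⟩ := token he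
        rw [hA, mem_image]
        refine ⟨(v, e), ?_, rfl⟩
        rw [mem_biUnion]
        exact ⟨(κ, l), by rw [hP, mem_filter]; exact ⟨mem_univ _, hne⟩, mem_union.2 hmem⟩
      · exact mem_union_right _ (by rw [hB, mem_filter]; exact ⟨mem_univ _, had, hBv⟩)
    · exact mem_union_right _ (by simpa using had)
  have hcA : A.card ≤ 8 * Fintype.card ι ^ 2 * cst (Fintype.card ι) := by
    refine card_image_le.trans (card_biUnion_le.trans ?_)
    have h1 : ∀ q ∈ P, (D.Sset T th q.1 q.2 ∪ D.Rset T th q.1 q.2).card ≤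
        2 * cst (Fintype.card ι) := by
      intro q hq
      have hne : q.1 ≠ q.2 := by
        rw [hP, mem_filter] at hq; exact hq.2
      have := hS q.1 q.2 hne
      have h2 := card_union_le (D.Sset T th q.1 q.2) (D.Rset T th q.1 q.2)
      omega
    refine (sum_le_card_nsmul _ _ _ h1).trans ?_
    have h2 : P.card ≤ (2 * Fintype.card ι) * (2 * Fintype.card ι) := by
      refine (card_le_univ P).trans ?_
      simp only [Fintype.card_prod, Fintype.card_bool]
      rw [mul_comm 2 (Fintype.card ι)]
    calc P.card • (2 * cst (Fintype.card ι)) = P.card * (2 * cst (Fintype.card ι)) := by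
          rw [smul_eq_mul]
      _ ≤ ((2 * Fintype.card ι) * (2 * Fintype.card ι)) * (2 * cst (Fintype.card ι)) :=
          Nat.mul_le_mul_right _ h2
      _ = 8 * Fintype.card ι ^ 2 * cst (Fintype.card ι) := by ring
  have hcB : B.card ≤ 2 * Fintype.card ι := by
    have hex : ∀ v ∈ B, ∃ k : Side ι, ∃ (m : Side ι) (e : Bool), m.1 = k.1 ∧
        D.rk k (D.pos (v, e) m) = th k := by
      intro v hv
      rw [hB, mem_filter] at hv
      exact spot hv.2.1 hv.2.2
    rcases B.eq_empty_or_nonempty with hBe | ⟨v0, hv0⟩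
    · rw [hBe]; simp
    have : Nonempty (Side ι) := ⟨(hex v0 hv0).choose⟩
    choose! F hF using hex
    have hinj : Set.InjOn F B := by
      intro v hv w hw hvw
      obtain ⟨m, e, h1, h2⟩ := hF v hv
      obtain ⟨m', e', h3, h4⟩ := hF w hw
      rw [← hvw] at h3 h4
      have h5 := rk_inj D (F v) (D.le_N _ _) (D.le_N _ _) (h2.trans h4.symm)
      rcases m with ⟨i, b⟩
      rcases m' with ⟨i', b'⟩
      have hii : i = i' := h1.trans h3.symm
      subst hii
      have := (D.inj _ _ _ _ _ h5).1
      exact congrArg Prod.fst this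
    have h1 := card_le_card_of_injOn F (fun v _ => mem_univ (F v)) hinj
    rw [card_univ, Fintype.card_prod, Fintype.card_bool] at h1
    omega
  refine (card_le_card hsub).trans ((card_union_le _ _).trans ?_)
  have := card_union_le A B
  unfold slots
  omega

end Pool.Agent.Scatter

end

section

/-!
# Good cuts: minimum and involution
-/

set_option autoImplicit false
set_option linter.unusedSectionVars false

namespace Pool.Agent.Scatter

open Finset

namespace MeetInv

variable {V ι : Type} [Fintype V] [DecidableEq V] [Fintype ι] [DecidableEq ι]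

theorem S_mono (D : Table V ι) (T : Tok V → Side ι) (w th : Side ι → ℕ) (κ l : Side ι)
    (h1 : w κ ≤ th κ) (h2 : th l ≤ w l) : D.Sset T w κ l ⊆ D.Sset T th κ l := by
  intro t ht
  unfold Table.Sset at ht ⊢
  rw [mem_filter] at ht ⊢
  exact ⟨ht.1, ht.2.1, lt_of_le_of_lt h2 ht.2.2.1, ht.2.2.2.trans h1⟩

theorem R_mono (D : Table V ι) (T : Tok V → Side ι) (w th : Side ι → ℕ) (κ l : Side ι)
    (h1 : w κ ≤ th κ) (h2 : th l ≤ w l) : D.Rset T w κ l ⊆ D.Rset T th κ l := by
  intro t ht
  unfold Table.Rset at ht ⊢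
  rw [mem_filter] at ht ⊢
  exact ⟨ht.1, ht.2.1, ht.2.2.1.trans h1, lt_of_le_of_lt h2 ht.2.2.2⟩

theorem opp_opp {ι : Type} (κ : Side ι) : opp (opp κ) = κ := by
  simp [opp]

theorem rk_opp (D : Table V ι) (κ : Side ι) (p : ℕ) (_h1 : 1 ≤ p) (hN : p ≤ D.N) :
    D.rk κ p + D.rk (opp κ) p = D.N + 1 := by
  unfold Table.rk opp
  rcases κ with ⟨i, b⟩
  cases b <;> simp <;> omega

theorem S_inv (D : Table V ι) (T : Tok V → Side ι) (th : Side ι → ℕ)
    (hth : ∀ κ, th κ ≤ D.N) (κ l : Side ι) :
    D.Sset T (D.inv th) κ l ⊆ D.Rset T th (opp l) (opp κ) := by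
  intro t ht
  unfold Table.Sset Table.inv at ht
  unfold Table.Rset
  rw [mem_filter] at ht ⊢
  obtain ⟨-, h1, h2, h3⟩ := ht
  have a1 := rk_opp D l (D.pos t l) (D.one_le t l) (D.le_N t l)
  have a2 := rk_opp D κ (D.pos t κ) (D.one_le t κ) (D.le_N t κ)
  have a3 := hth (opp κ)
  have a4 := hth (opp l)
  rw [opp_opp, opp_opp]
  exact ⟨mem_univ _, h1, by omega, by omega⟩

theorem R_inv (D : Table V ι) (T : Tok V → Side ι) (th : Side ι → ℕ)
    (hth : ∀ κ, th κ ≤ D.N) (κ l : Side ι) :
    D.Rset T (D.inv th) κ l ⊆ D.Sset T th (opp l) (opp κ) := by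
  intro t ht
  unfold Table.Rset Table.inv at ht
  unfold Table.Sset
  rw [mem_filter] at ht ⊢
  obtain ⟨-, h1, h2, h3⟩ := ht
  have a1 := rk_opp D l (D.pos t (opp l)) (D.one_le t _) (D.le_N t _)
  have a2 := rk_opp D κ (D.pos t (opp κ)) (D.one_le t _) (D.le_N t _)
  have a3 := hth (opp κ)
  have a4 := hth (opp l)
  exact ⟨mem_univ _, h1, by omega, by omega⟩

end MeetInv

theorem claimMeet : ClaimMeet := by
  intro V ι _ _ _ _ D T th th' h h'
  refine ⟨fun κ => (min_le_left _ _).trans (h.1 κ), fun κ l hne => ?_⟩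
  rcases le_total (th l) (th' l) with hl | hl
  · have h1 : min (th κ) (th' κ) ≤ th κ := min_le_left _ _
    have h2 : th l ≤ min (th l) (th' l) := le_min le_rfl hl
    exact ⟨(card_le_card (MeetInv.S_mono D T (fun κ => min (th κ) (th' κ)) th κ l h1 h2)).trans
      (h.2 κ l hne).1, (card_le_card (MeetInv.R_mono D T (fun κ => min (th κ) (th' κ)) th κ l
        h1 h2)).trans (h.2 κ l hne).2⟩
  · have h1 : min (th κ) (th' κ) ≤ th' κ := min_le_right _ _
    have h2 : th' l ≤ min (th l) (th' l) := le_min hl le_rfl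
    exact ⟨(card_le_card (MeetInv.S_mono D T (fun κ => min (th κ) (th' κ)) th' κ l h1 h2)).trans
      (h'.2 κ l hne).1, (card_le_card (MeetInv.R_mono D T (fun κ => min (th κ) (th' κ)) th' κ l
        h1 h2)).trans (h'.2 κ l hne).2⟩

theorem claimInv : ClaimInv := by
  intro V ι _ _ _ _ D T th h
  refine ⟨fun κ => Nat.sub_le _ _, fun κ l hne => ?_⟩
  have hne' : opp l ≠ opp κ := by
    intro heq
    have := congrArg opp heq
    rw [MeetInv.opp_opp, MeetInv.opp_opp] at this
    exact hne this.symm
  exact ⟨(card_le_card (MeetInv.S_inv D T th h.1 κ l)).trans (h.2 _ _ hne').2,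
    (card_le_card (MeetInv.R_inv D T th h.1 κ l)).trans (h.2 _ _ hne').1⟩

end Pool.Agent.Scatter

end

section

/-!
# Merging the orbits of a pairing by swaps (MP_5296b6_lc, item H2)
-/

set_option autoImplicit false

namespace Pool.Agent.Scatter

open Finset

namespace Merge

/-- A finite set with a fixed point free involution has an even number of elements. -/
theorem even_of_invol {α : Type} [DecidableEq α] (E : Finset α) (g : α → α)
    (h1 : ∀ x ∈ E, g x ∈ E) (h2 : ∀ x ∈ E, g (g x) = x) (h3 : ∀ x ∈ E, g x ≠ x) :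
    Even E.card := by
  have h := Finset.sum_involution (s := E) (f := fun _ : α => (1 : ZMod 2)) (fun a _ => g a)
    (fun a _ => by decide) (fun a ha _ => h3 a ha) (fun a ha => h1 a ha) (fun a ha => h2 a ha)
  rw [Finset.sum_const, nsmul_eq_mul, mul_one] at h
  exact (ZMod.natCast_eq_zero_iff_even).1 h

variable {V ι : Type} [Fintype V] [DecidableEq V] [Fintype ι] [DecidableEq ι]

open Classical in
/-- The orbit of `t0` under `flp` and `μ`. -/
noncomputable def orb (μ : Tok V → Tok V) (t0 : Tok V) : Finset (Tok V) :=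
  univ.filter fun t => ∀ S : Finset (Tok V), t0 ∈ S → (∀ x ∈ S, flp x ∈ S) →
    (∀ x ∈ S, μ x ∈ S) → t ∈ S

theorem self_mem_orb (μ : Tok V → Tok V) (t0 : Tok V) : t0 ∈ orb μ t0 := by
  unfold orb
  rw [mem_filter]
  exact ⟨mem_univ _, fun S h _ _ => h⟩

theorem flp_mem_orb {μ : Tok V → Tok V} {t0 t : Tok V} (h : t ∈ orb μ t0) :
    flp t ∈ orb μ t0 := by
  unfold orb at h ⊢
  rw [mem_filter] at h ⊢
  exact ⟨mem_univ _, fun S a b c => b _ (h.2 S a b c)⟩

theorem mu_mem_orb {μ : Tok V → Tok V} {t0 t : Tok V} (h : t ∈ orb μ t0) :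
    μ t ∈ orb μ t0 := by
  unfold orb at h ⊢
  rw [mem_filter] at h ⊢
  exact ⟨mem_univ _, fun S a b c => c _ (h.2 S a b c)⟩

theorem orb_subset {μ : Tok V → Tok V} {t0 : Tok V} {S : Finset (Tok V)} (h0 : t0 ∈ S)
    (h1 : ∀ x ∈ S, flp x ∈ S) (h2 : ∀ x ∈ S, μ x ∈ S) : orb μ t0 ⊆ S := by
  intro t ht
  unfold orb at ht
  rw [mem_filter] at ht
  exact ht.2 S h0 h1 h2

omit [Fintype V] [DecidableEq V] in
theorem flp_flp (t : Tok V) : flp (flp t) = t := by
  unfold flp; simp

omit [Fintype V] [DecidableEq V] in
theorem flp_ne (t : Tok V) : flp t ≠ t := by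
  intro h
  have := congrArg Prod.snd h
  unfold flp at this
  simp at this

omit [Fintype ι] [DecidableEq ι] in
theorem opp_opp (κ : Side ι) : opp (opp κ) = κ := by
  unfold opp; simp

omit [Fintype ι] [DecidableEq ι] in
theorem opp_ne (κ : Side ι) : opp κ ≠ κ := by
  intro h
  have := congrArg Prod.snd h
  unfold opp at this
  simp at this

end Merge

open Merge

theorem claimMerge : ClaimMerge := by
  classical
  intro V ι _ _ _ _ D T hT hex
  obtain ⟨μ₀, hμ₀⟩ := hex
  rcases isEmpty_or_nonempty (Tok V) with hV | ⟨⟨t0⟩⟩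
  · refine ⟨μ₀, hμ₀, ?_⟩
    intro S hS
    obtain ⟨t, _⟩ := hS
    exact (hV.false t).elim
  obtain ⟨μ, hμ, hmax⟩ := (univ.filter fun μ : Tok V → Tok V => D.Pairing T μ).exists_max_image
    (fun μ => (orb μ t0).card) ⟨μ₀, by simpa using hμ₀⟩
  have hP : D.Pairing T μ := by simpa using hμ
  have hmax' : ∀ μ', D.Pairing T μ' → (orb μ' t0).card ≤ (orb μ t0).card := fun μ' h =>
    hmax μ' (by simpa using h)
  obtain ⟨p1, p2, p3⟩ := hP
  have hne : ∀ t, μ t ≠ t := by
    intro t h
    have h5 := p2 t
    rw [h] at h5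
    exact opp_ne _ h5.symm
  set O := orb μ t0 with hO
  -- the main claim
  have hkey : O = univ := by
    by_contra hOu
    by_cases hcase : ∃ t1 ∈ O, ∃ t2, t2 ∉ O ∧ ∃ i p, T t1 = (i, false) ∧ T t2 = (i, false) ∧
        D.pos t1 (i, false) ≤ p ∧ p ≤ D.pos (μ t1) (i, true) ∧
        D.pos t2 (i, false) ≤ p ∧ p ≤ D.pos (μ t2) (i, true)
    · -- swap
      obtain ⟨t1, ht1, t2, ht2, i, p, e1, e2, b1, b2, b3, b4⟩ := hcase
      have hne12 : t1 ≠ t2 := fun h => ht2 (h ▸ ht1)
      have hm1 : T (μ t1) = (i, true) := by rw [p2, e1]; rfl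
      have hm2 : T (μ t2) = (i, true) := by rw [p2, e2]; rfl
      have d1 : D.pos t1 (i, false) < D.pos (μ t2) (i, true) := by
        refine lt_of_le_of_ne (b1.trans b4) fun h => ?_
        have := (D.inj _ _ _ _ _ h).2
        simp at this
      have d2 : D.pos t2 (i, false) < D.pos (μ t1) (i, true) := by
        refine lt_of_le_of_ne (b3.trans b2) fun h => ?_
        have := (D.inj _ _ _ _ _ h).2
        simp at this
      have hμO : ∀ t, μ t ∈ O ↔ t ∈ O := fun t =>
        ⟨fun h => by have := mu_mem_orb h; rwa [p1] at this, fun h => mu_mem_orb h⟩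
      have q1 : μ t1 ≠ t1 := hne t1
      have q2 : μ t2 ≠ t2 := hne t2
      have q3 : μ t1 ≠ t2 := by
        intro h; rw [h, e2] at hm1; simp at hm1
      have q4 : μ t2 ≠ t1 := by
        intro h; rw [h, e1] at hm2; simp at hm2
      set σ := Equiv.swap t1 t2 with hσ
      have hσσ : ∀ t, σ (σ t) = t := fun t => Equiv.swap_apply_self _ _ _
      have hTσ : ∀ t, T (σ t) = T t := by
        intro t
        rw [hσ, Equiv.swap_apply_def]
        split_ifs with h h'
        · rw [h, e1, e2]
        · rw [h', e1, e2]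
        · rfl
      set μ' : Tok V → Tok V := fun t => σ (μ (σ t)) with hμ'
      have hoff : ∀ t, t ≠ t1 → t ≠ t2 → t ≠ μ t1 → t ≠ μ t2 → μ' t = μ t := by
        intro t a1 a2 a3 a4
        simp only [hμ', hσ]
        rw [Equiv.swap_apply_of_ne_of_ne a1 a2, Equiv.swap_apply_of_ne_of_ne]
        · intro h; exact a3 (by rw [← h, p1])
        · intro h; exact a4 (by rw [← h, p1])
      have v1 : μ' t1 = μ t2 := by
        simp only [hμ', hσ]
        rw [Equiv.swap_apply_left, Equiv.swap_apply_of_ne_of_ne q4 q2]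
      have v2 : μ' t2 = μ t1 := by
        simp only [hμ', hσ]
        rw [Equiv.swap_apply_right, Equiv.swap_apply_of_ne_of_ne q1 q3]
      have v3 : μ' (μ t1) = t2 := by
        simp only [hμ', hσ]
        rw [Equiv.swap_apply_of_ne_of_ne q1 q3, p1, Equiv.swap_apply_left]
      have v4 : μ' (μ t2) = t1 := by
        simp only [hμ', hσ]
        rw [Equiv.swap_apply_of_ne_of_ne q4 q2, p1, Equiv.swap_apply_right]
      have hpair : D.Pairing T μ' := by
        refine ⟨fun t => ?_, fun t => ?_, fun t ht => ?_⟩
        · simp only [hμ']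
          rw [hσσ, p1, hσσ]
        · simp only [hμ']
          rw [hTσ, p2, hTσ]
        · by_cases h1 : t = t1
          · rw [h1, v1, hm2, e1]; exact d1
          by_cases h2 : t = t2
          · rw [h2, v2, hm1, e2]; exact d2
          have h3 : t ≠ μ t1 := by
            intro h; rw [h, hm1] at ht; simp at ht
          have h4 : t ≠ μ t2 := by
            intro h; rw [h, hm2] at ht; simp at ht
          rw [hoff t h1 h2 h3 h4]
          exact p3 t ht
      set O' := orb μ' t0 with hO'
      have hμO' : ∀ t, μ' t ∈ O' ↔ t ∈ O' := fun t =>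
        ⟨fun h => by have := mu_mem_orb h; rwa [hpair.1] at this, fun h => mu_mem_orb h⟩
      have hm1O : μ t1 ∈ O := (hμO t1).2 ht1
      have hm2O : μ t2 ∉ O := fun h => ht2 ((hμO t2).1 h)
      -- outside of t1, mu t1 the set O ∩ O' is stable under mu
      have hst : ∀ t ∈ O ∩ O', t ≠ t1 → t ≠ μ t1 → μ t ∈ O ∩ O' := by
        intro t ht a1 a2
        rw [mem_inter] at ht ⊢
        have a3 : t ≠ t2 := fun h => ht2 (h ▸ ht.1)
        have a4 : t ≠ μ t2 := fun h => hm2O (h ▸ ht.1)
        refine ⟨(hμO t).2 ht.1, ?_⟩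
        rw [← hoff t a1 a3 a2 a4]
        exact (hμO' t).2 ht.2
      have hev : Even (O ∩ O').card := even_of_invol _ flp
        (fun t ht => by
          rw [mem_inter] at ht ⊢
          exact ⟨flp_mem_orb ht.1, flp_mem_orb ht.2⟩)
        (fun t _ => flp_flp t) (fun t _ => flp_ne t)
      have hodd : ∀ s ∈ O ∩ O', ∀ s', s' ∉ O ∩ O' → (s = t1 ∧ s' = μ t1 ∨ s = μ t1 ∧ s' = t1) →
          False := by
        intro s hs s' hs' hss
        have hms : μ s = s' := by
          rcases hss with ⟨a, b⟩ | ⟨a, b⟩
          · rw [a, b]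
          · rw [a, b, p1]
        have hev2 : Even ((O ∩ O').erase s).card := even_of_invol _ μ
          (fun t ht => by
            rw [mem_erase] at ht ⊢
            have hts' : t ≠ s' := fun h => hs' (h ▸ ht.2)
            refine ⟨fun h => hts' ?_, ?_⟩
            · rw [← hms, ← h, p1]
            · rcases hss with ⟨a, b⟩ | ⟨a, b⟩
              · exact hst t ht.2 (a ▸ ht.1) (b ▸ hts')
              · exact hst t ht.2 (b ▸ hts') (a ▸ ht.1))
          (fun t _ => p1 t) (fun t _ => hne t)
        rw [card_erase_of_mem hs] at hev2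
        have hpos : 0 < (O ∩ O').card := card_pos.2 ⟨s, hs⟩
        obtain ⟨a, ha⟩ := hev
        obtain ⟨b, hb⟩ := hev2
        omega
      by_cases c1 : t1 ∈ O' <;> by_cases c2 : μ t1 ∈ O'
      · -- both: strictly larger orbit
        have w2 : μ t2 ∈ O' := by rw [← v1]; exact (hμO' _).2 c1
        have w3 : t2 ∈ O' := by rw [← v3]; exact (hμO' _).2 c2
        have hsub : O ⊆ O' := by
          refine orb_subset (self_mem_orb _ _) (fun t ht => flp_mem_orb ht) fun t ht => ?_
          by_cases a1 : t = t1
          · rw [a1]; exact c2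
          by_cases a2 : t = t2
          · rw [a2]; exact w2
          by_cases a3 : t = μ t1
          · rw [a3, p1]; exact c1
          by_cases a4 : t = μ t2
          · rw [a4, p1]; exact w3
          rw [← hoff t a1 a2 a3 a4]
          exact (hμO' t).2 ht
        have hlt : O.card < O'.card := card_lt_card
          (ssubset_iff_of_subset hsub |>.2 ⟨t2, w3, ht2⟩)
        exact absurd (hmax' μ' hpair) (not_le.2 hlt)
      · exact hodd t1 (mem_inter.2 ⟨ht1, c1⟩) (μ t1) (fun h => c2 (mem_inter.1 h).2)
          (Or.inl ⟨rfl, rfl⟩)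
      · exact hodd (μ t1) (mem_inter.2 ⟨hm1O, c2⟩) t1 (fun h => c1 (mem_inter.1 h).2)
          (Or.inr ⟨rfl, rfl⟩)
      · have hsub : O ⊆ O ∩ O' := by
          refine orb_subset (mem_inter.2 ⟨self_mem_orb _ _, self_mem_orb _ _⟩)
            (fun t ht => ?_) fun t ht => ?_
          · rw [mem_inter] at ht ⊢
            exact ⟨flp_mem_orb ht.1, flp_mem_orb ht.2⟩
          · refine hst t ht (fun h => c1 ?_) (fun h => c2 ?_)
            · rw [← h]; exact (mem_inter.1 ht).2
            · rw [← h]; exact (mem_inter.1 ht).2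
        exact c1 (mem_inter.1 (hsub ht1)).2
    · -- no interval of O meets an interval outside of O
      push Not at hcase
      set a : ι → ℕ → Bool := fun i p => decide (∃ t ∈ O, T t = (i, false) ∧
        D.pos t (i, false) ≤ p ∧ p ≤ D.pos (μ t) (i, true)) with ha
      have hlow : ∀ t i, T t = (i, false) → ∀ p, D.pos t (i, false) ≤ p →
          p ≤ D.pos (μ t) (i, true) → (a i p = true ↔ t ∈ O) := by
        intro t i ht p h1 h2
        simp only [ha, decide_eq_true_eq]
        constructor
        · rintro ⟨s, hs, s1, s2, s3⟩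
          by_contra htO
          exact absurd h2 (not_le.2 (hcase s hs t htO i p s1 ht s2 s3 h1))
        · intro h
          exact ⟨t, h, ht, h1, h2⟩
      have hμO : ∀ t, μ t ∈ O ↔ t ∈ O := fun t =>
        ⟨fun h => by have := mu_mem_orb h; rwa [p1] at this, fun h => mu_mem_orb h⟩
      have hcl : Closed (D.flow T) a := by
        intro i p hp
        have hex : ∃ t, T t = (i, false) ∧ D.pos t (i, false) ≤ p ∧
            p < D.pos (μ t) (i, true) := by
          by_contra hcon
          push Not at hcon
          have hle : (univ.filter fun t : Tok V => T t = (i, false) ∧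
              D.pos t (i, false) ≤ p).card ≤
              (univ.filter fun t : Tok V => T t = (i, true) ∧ D.pos t (i, true) ≤ p).card := by
            refine card_le_card_of_injOn μ (fun t ht => ?_) (fun x _ y _ hxy => ?_)
            · have ht' : T t = (i, false) ∧ D.pos t (i, false) ≤ p := by simpa using ht
              have : T (μ t) = (i, true) ∧ D.pos (μ t) (i, true) ≤ p :=
                ⟨by rw [p2, ht'.1]; rfl, hcon t ht'.1 ht'.2⟩
              simpa using this
            · have := congrArg μ hxy
              rwa [p1, p1] at this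
          unfold Table.flow at hp
          have : ((univ.filter fun t : Tok V => T t = (i, false) ∧
              D.pos t (i, false) ≤ p).card : ℤ) ≤
              (univ.filter fun t : Tok V => T t = (i, true) ∧ D.pos t (i, true) ≤ p).card := by
            exact_mod_cast hle
          linarith
        obtain ⟨t, t1, t2, t3⟩ := hex
        have g1 := hlow t i t1 p t2 t3.le
        have g2 := hlow t i t1 (p + 1) (t2.trans (Nat.le_succ p)) t3
        rw [Bool.eq_iff_iff]
        exact g1.trans g2.symm
      have hcol : ∀ t, D.col T a t = true ↔ t ∈ O := by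
        intro t
        unfold Table.col
        rcases hb : T t with ⟨i, b⟩
        rcases b with _ | _
        · have h1 := p3 t (by rw [hb])
          have h2 : T (μ t) = (i, true) := by rw [p2, hb]; rfl
          rw [hb, h2] at h1
          exact hlow t i hb _ le_rfl h1.le
        · have h2 : T (μ t) = (i, false) := by rw [p2, hb]; rfl
          have h1 := p3 (μ t) (by rw [h2])
          rw [h2, p1, hb] at h1
          rw [← hμO t]
          exact hlow (μ t) i h2 _ h1.le (by rw [p1])
      have hconn := hT.2 a hcl (fun v => by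
        rw [Bool.eq_iff_iff, hcol, hcol]
        constructor
        · intro h; exact flp_mem_orb h
        · intro h; exact flp_mem_orb h)
      apply hOu
      ext t
      simp only [mem_univ, iff_true]
      rw [← hcol, hconn t t0, hcol]
      exact self_mem_orb _ _
  refine ⟨μ, ⟨p1, p2, p3⟩, ?_⟩
  intro S hS s1 s2
  by_cases h0 : t0 ∈ S
  · have : O ⊆ S := orb_subset h0 s1 s2
    rw [hkey] at this
    exact univ_subset_iff.1 this
  · exfalso
    have h1 : O ⊆ Sᶜ := orb_subset (mem_compl.2 h0)
      (fun t ht => mem_compl.2 fun h => mem_compl.1 ht (by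
        have := s1 _ h; rwa [flp_flp] at this))
      (fun t ht => mem_compl.2 fun h => mem_compl.1 ht (by
        have := s2 _ h; rwa [p1] at this))
    rw [hkey] at h1
    obtain ⟨t, ht⟩ := hS
    exact mem_compl.1 (h1 (mem_univ t)) ht

end Pool.Agent.Scatter

end

section

/-!
# From a transitive fixed point free involution to a cyclic order
-/

set_option autoImplicit false
set_option linter.unusedSectionVars false

namespace Pool.Agent.Scatter

open Finset

namespace Order

theorem flp_flp {V : Type} (t : Tok V) : flp (flp t) = t := by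
  simp [flp]

theorem flp_ne {V : Type} (t : Tok V) : flp t ≠ t := by
  intro h
  have := congrArg Prod.snd h
  simp [flp] at this

end Order

theorem claimOrder : ClaimOrder := by
  intro V _ _ hne μ hμ hfix htr
  obtain ⟨v0⟩ := hne
  set t0 : Tok V := (v0, false) with ht0
  set τ : Tok V → Tok V := fun t => μ (flp t) with hτ
  have hinj : Function.Injective τ := by
    intro a b hab
    have h1 : μ (μ (flp a)) = μ (μ (flp b)) := congrArg μ hab
    rw [hμ, hμ] at h1
    have h2 := congrArg flp h1
    rwa [Order.flp_flp, Order.flp_flp] at h2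
  set c : ℕ → Tok V := fun k => τ^[k] t0 with hc
  have hc1 : ∀ k, c (k + 1) = τ (c k) := fun k => Function.iterate_succ_apply' τ k t0
  have hper : t0 ∈ Function.periodicPts τ := hinj.mem_periodicPts t0
  set m := Function.minimalPeriod τ t0 with hm
  have hm0 : 0 < m := Function.minimalPeriod_pos_of_mem_periodicPts hper
  have hcm : ∀ k, c (k + m) = c k := fun k => by
    simp only [hc]
    rw [Function.iterate_add_apply, Function.iterate_minimalPeriod]
  -- reduction of the index
  have hred : ∀ k, ∃ j < m, c j = c k := by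
    intro k
    induction k with
    | zero => exact ⟨0, hm0, rfl⟩
    | succ k ih =>
      obtain ⟨j, hj, hjk⟩ := ih
      rcases Nat.lt_or_ge (j + 1) m with h | h
      · exact ⟨j + 1, h, by rw [hc1, hc1, hjk]⟩
      · refine ⟨0, hm0, ?_⟩
        have : j + 1 = 0 + m := by omega
        rw [hc1, ← hjk, ← hc1, this, hcm]
  have hcinj : ∀ j < m, ∀ k < m, c j = c k → j = k := by
    intro j hj k hk h
    exact Function.iterate_injOn_Iio_minimalPeriod hj hk h
  -- the reversed orbit
  have hA : ∀ x, τ (flp (τ x)) = flp x := by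
    intro x
    simp only [hτ]
    rw [Order.flp_flp, hμ]
  have hshift : ∀ j k, flp (c (j + 1)) = c k → flp (c j) = c (k + 1) := by
    intro j k h
    rw [hc1 k, ← h, hc1 j, hA]
  have hshift' : ∀ j k, flp (c j) = c (k + 1) → flp (c (j + 1)) = c k := by
    intro j k h
    rw [hc1 k] at h
    have h1 := hA (c j)
    rw [← hc1, h] at h1
    exact hinj h1
  have hzero : ∀ j k, flp (c j) = c k → flp (c 0) = c (j + k) := by
    intro j
    induction j with
    | zero => intro k h; rwa [Nat.zero_add]
    | succ j ih =>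
      intro k h
      have := ih (k + 1) (hshift j k h)
      rw [this]
      congr 1
      omega
  have hup : ∀ j n, j ≤ n → flp (c 0) = c n → flp (c j) = c (n - j) := by
    intro j
    induction j with
    | zero => intro n _ h; rwa [Nat.sub_zero]
    | succ j ih =>
      intro n hjn h
      have h1 := ih n (by omega) h
      rw [show n - j = (n - (j + 1)) + 1 by omega] at h1
      exact hshift' j _ h1
  have hdis : ∀ j k, flp (c j) ≠ c k := by
    intro j k h
    have h0 := hzero j k h
    rcases Nat.even_or_odd' (j + k) with ⟨a, ha | ha⟩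
    · have h1 := hup a (j + k) (by omega) h0
      rw [show j + k - a = a by omega] at h1
      exact Order.flp_ne _ h1
    · have h1 := hup a (j + k) (by omega) h0
      rw [show j + k - a = a + 1 by omega, hc1] at h1
      exact hfix (flp (c a)) h1.symm
  -- the orbit and its image under `flp` cover everything
  set O : Finset (Tok V) := (range m).image c with hO
  have hcO : ∀ k, c k ∈ O := by
    intro k
    obtain ⟨j, hj, hjk⟩ := hred k
    rw [hO, mem_image]
    exact ⟨j, mem_range.2 hj, hjk⟩
  have hOc : ∀ t ∈ O, ∃ k < m, c k = t := by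
    intro t ht
    rw [hO, mem_image] at ht
    obtain ⟨k, hk, hkt⟩ := ht
    exact ⟨k, mem_range.1 hk, hkt⟩
  have hcov : O ∪ O.image flp = univ := by
    refine htr _ ⟨c 0, mem_union_left _ (hcO 0)⟩ (fun t ht => ?_) fun t ht => ?_
    · rcases mem_union.1 ht with h | h
      · exact mem_union_right _ (mem_image_of_mem _ h)
      · obtain ⟨s, hs, rfl⟩ := mem_image.1 h
        rw [Order.flp_flp]
        exact mem_union_left _ hs
    · rcases mem_union.1 ht with h | h
      · obtain ⟨k, _, rfl⟩ := hOc t h
        refine mem_union_right _ ?_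
        have h1 : c k = τ (c (k + m - 1)) := by
          rw [← hc1, show k + m - 1 + 1 = k + m by omega, hcm]
        have h2 : μ (c k) = flp (c (k + m - 1)) := by
          conv_lhs => rw [h1]
          simp only [hτ]
          rw [hμ]
        rw [h2]
        exact mem_image_of_mem _ (hcO _)
      · obtain ⟨s, hs, rfl⟩ := mem_image.1 h
        obtain ⟨k, _, rfl⟩ := hOc s hs
        refine mem_union_left _ ?_
        have : μ (flp (c k)) = c (k + 1) := (hc1 k).symm
        rw [this]
        exact hcO _
  -- every vertex has exactly one token in the orbit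
  have hvert : ∀ v : V, ∃ k < m, (c k).1 = v := by
    intro v
    have h1 : ((v, false) : Tok V) ∈ O ∪ O.image flp := by
      rw [hcov]
      exact mem_univ _
    rcases mem_union.1 h1 with h | h
    · obtain ⟨k, hk, hkt⟩ := hOc _ h
      exact ⟨k, hk, by rw [hkt]⟩
    · obtain ⟨s, hs, hst⟩ := mem_image.1 h
      obtain ⟨k, hk, rfl⟩ := hOc s hs
      refine ⟨k, hk, ?_⟩
      have := congrArg Prod.fst hst
      exact this
  have hfst : ∀ j < m, ∀ k < m, (c j).1 = (c k).1 → j = k := by
    intro j hj k hk h
    refine hcinj j hj k hk ?_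
    by_cases hb : (c j).2 = (c k).2
    · exact Prod.ext h hb
    · exfalso
      refine hdis j k (Prod.ext h ?_)
      show (!(c j).2) = (c k).2
      revert hb
      cases (c j).2 <;> cases (c k).2 <;> simp
  have hcard : m = Fintype.card V := by
    have h1 : (univ : Finset V) = (range m).image fun k => (c k).1 := by
      ext v
      simp only [mem_univ, mem_image, mem_range, true_iff]
      exact hvert v
    have h2 : ((range m).image fun k => (c k).1).card = m := by
      rw [card_image_of_injOn, card_range]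
      intro j hj k hk h
      exact hfst j (mem_range.1 hj) k (mem_range.1 hk) h
    rw [← card_univ, h1, h2]
  refine ⟨c, fun k => by rw [← hcard, hcm], fun v => ?_, fun k => (hc1 k).symm⟩
  rw [← hcard]
  exact hvert v

end Pool.Agent.Scatter

end

section

/-!
# Primary tokens glue each side (MP_5296b6_lc, item F3)
-/

set_option autoImplicit false

namespace Pool.Agent.Scatter

open Finset

namespace Primary

/-- A closed colouring is constant along an interval of positive flow. -/
theorem closed_const {ι : Type} {F : ι → ℕ → ℤ} {a : ι → ℕ → Bool} (h : Closed F a) {i : ι}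
    {m M : ℕ} (hm : m ≤ M) (hpos : ∀ p, m ≤ p → p < M → 0 < F i p) : a i m = a i M := by
  induction M, hm using Nat.le_induction with
  | base => rfl
  | succ M hM ih =>
    rw [ih fun p h1 h2 => hpos p h1 (by omega)]
    exact h i M (hpos M hM (by omega))

variable {V ι : Type} [Fintype V] [DecidableEq V] [Fintype ι] [DecidableEq ι]

omit [Fintype ι] in
theorem rk_o_le {D : Table V ι} {T : Tok V → Side ι} {th : Side ι → ℕ} (C : Cyc D T th)
    {κ : Side ι} (hκ : κ ∈ C.Z) {x : Tok V} (hx : x ∈ C.A κ) : D.rk κ (C.o κ x) ≤ th κ := by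
  have h := C.sub κ hκ hx
  unfold Table.Arc at h
  unfold Cyc.o oc
  cases hs : C.s κ
  · rw [hs] at h
    simp only [Table.Rset, Bool.false_eq_true, if_false, mem_filter, mem_univ, true_and] at h ⊢
    exact h.2.1
  · rw [hs] at h
    simp only [Table.Sset, if_true, mem_filter, mem_univ, true_and] at h ⊢
    exact h.2.2

omit [Fintype ι] in
theorem lt_rk_u {D : Table V ι} {T : Tok V → Side ι} {th : Side ι → ℕ} (C : Cyc D T th)
    {κ : Side ι} (hκ : κ ∈ C.Z) {x : Tok V} (hx : x ∈ C.A κ) :
    th (C.nx κ) < D.rk (C.nx κ) (C.u κ x) := by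
  have h := C.sub κ hκ hx
  unfold Table.Arc at h
  unfold Cyc.u oc
  cases hs : C.s κ
  · rw [hs] at h
    simp only [Table.Rset, Bool.false_eq_true, if_false, mem_filter, mem_univ, true_and] at h ⊢
    exact h.2.2
  · rw [hs] at h
    simp only [Table.Sset, if_true, mem_filter, mem_univ, true_and] at h ⊢
    exact h.2.1

end Primary

open Primary in
theorem claimPrimary (h : ClaimChg) : ClaimPrimary := by
  intro V ι _ _ _ _ D T th C hT hA
  -- the primary tokens
  have hex : ∀ κ, ∃ X : Finset (Tok V), κ ∈ C.Z → (X ⊆ C.A κ ∧ X.card = 2 ∧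
      (∃ x ∈ X, ∀ y ∈ C.A κ, D.rk κ (C.o κ x) ≤ D.rk κ (C.o κ y)) ∧
      (∃ x ∈ X, ∀ y ∈ C.A κ, D.rk (C.nx κ) (C.u κ y) ≤ D.rk (C.nx κ) (C.u κ x))) := by
    intro κ
    by_cases hκ : κ ∈ C.Z
    · have hc := hA κ hκ
      have hne : (C.A κ).Nonempty := card_pos.1 (by omega)
      obtain ⟨x, hx, hx'⟩ := exists_min_image (C.A κ) (fun x => D.rk κ (C.o κ x)) hne
      obtain ⟨y, hy, hy'⟩ := exists_max_image (C.A κ) (fun x => D.rk (C.nx κ) (C.u κ x)) hne
      have hsub : ({x, y} : Finset (Tok V)) ⊆ C.A κ := by
        intro z hz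
        rcases mem_insert.1 hz with rfl | hz
        · exact hx
        · rw [mem_singleton.1 hz]; exact hy
      obtain ⟨X, h1, h2, h3⟩ := exists_subsuperset_card_eq hsub (card_le_two) hc
      exact ⟨X, fun _ => ⟨h2, h3, ⟨x, h1 (by simp), hx'⟩, ⟨y, h1 (by simp), hy'⟩⟩⟩
    · exact ⟨∅, fun h => absurd h hκ⟩
  choose X hX using hex
  refine ⟨X, fun κ hκ => ⟨(hX κ hκ).1, (hX κ hκ).2.1⟩, ?_⟩
  obtain ⟨hc1, -, hc3⟩ := h V ι D T th C X 2 fun κ hκ => ⟨(hX κ hκ).1, (hX κ hκ).2.1⟩
  intro a ha κ hκ x hx y hy
  have hl : C.nx κ ∈ C.Z := C.maps κ hκ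
  obtain ⟨x₁, hx₁, hx₁'⟩ := (hX _ hl).2.2.1
  obtain ⟨y₁, hy₁, hy₁'⟩ := (hX κ hκ).2.2.2
  have e1 := hx₁' x hx
  have e2 := hy₁' y hy
  have e3 := rk_o_le C hl hx
  have e4 := lt_rk_u C hκ hy
  have e5 := hc3 κ hκ x₁ hx₁ y₁ hy₁
  have p1 : C.o (C.nx κ) x₁ ≤ D.N := D.le_N _ _
  have p2 : C.o (C.nx κ) x ≤ D.N := D.le_N _ _
  have p3 : C.u κ y ≤ D.N := D.le_N _ _
  have p4 : C.u κ y₁ ≤ D.N := D.le_N _ _
  have hpos : ∀ p, ((C.o (C.nx κ) x₁ ≤ p ∧ p < C.u κ y₁) ∨
      (C.u κ y₁ ≤ p ∧ p < C.o (C.nx κ) x₁)) →
      0 < D.flow T (C.nx κ).1 p + C.chg X (C.nx κ).1 p := by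
    intro p hp
    have h1 := e5 p hp
    have h2 := hT.1 (C.nx κ).1 p
    omega
  unfold Table.rk at e1 e2 e3 e4
  cases hb : (C.nx κ).2
  · simp only [hb, Bool.false_eq_true, if_false] at e1 e2 e3 e4
    exact closed_const (F := fun i p => D.flow T i p + C.chg X i p) ha (by omega)
      fun p h1 h2 => hpos p (Or.inl ⟨by omega, by omega⟩)
  · simp only [hb, if_true] at e1 e2 e3 e4
    exact (closed_const (F := fun i p => D.flow T i p + C.chg X i p) ha (by omega)
      fun p h1 h2 => hpos p (Or.inr ⟨by omega, by omega⟩)).symm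

end Pool.Agent.Scatter

end

section

/-!
# The selection lemma (MP_5296b6_lc)
-/

set_option autoImplicit false

namespace Pool.Agent.Scatter

open Finset

namespace Select

variable {V ι : Type} [Fintype V] [DecidableEq V] [Fintype ι] [DecidableEq ι]

/-- complement of a colouring -/
def cpl (a : ι → ℕ → Bool) : ι → ℕ → Bool := fun i p => !a i p

omit [Fintype ι] [DecidableEq ι] in
lemma closed_cpl {F : ι → ℕ → ℤ} {a : ι → ℕ → Bool} (h : Closed F a) : Closed F (cpl a) :=
  fun i p hp => by
    unfold cpl
    rw [h i p hp]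

omit [Fintype V] [DecidableEq V] [Fintype ι] [DecidableEq ι] in
lemma col_cpl (D : Table V ι) (T : Tok V → Side ι) (a : ι → ℕ → Bool) (t : Tok V) :
    D.col T (cpl a) t = !D.col T a t := rfl

omit [Fintype V] [DecidableEq V] [Fintype ι] [DecidableEq ι] in
lemma mono_flp (D : Table V ι) (T : Tok V → Side ι) (a : ι → ℕ → Bool) (x : Tok V) :
    D.col T a (x.1, false) = D.col T a (x.1, true) ↔ D.col T a (flp x) = D.col T a x := by
  obtain ⟨v, e⟩ := x
  cases e
  · exact eq_comm
  · exact Iff.rfl

end Select

open Select in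
theorem claimSelect (hpar : ClaimParity) : ClaimSelect := by
  intro V ι _ _ _ _ D T F hfeas hF A M hA hcol hcard
  classical
  by_contra hcon
  push Not at hcon
  have key : ∀ x : Tok V, ∃ a : ι → ℕ → Bool, x ∈ A.filter (fun x => x.1 ∉ M) → Closed F a ∧
      (∀ v, v ∉ M → v ≠ x.1 → D.col T a (v, false) = D.col T a (v, true)) ∧
      D.col T a x = false ∧ D.col T a (flp x) = true := by
    intro x
    by_cases hx : x ∈ A.filter (fun x => x.1 ∉ M)
    · have hx' := Finset.mem_filter.1 hx
      obtain ⟨a, h1, h2, h3⟩ := hcon x hx'.1 hx'.2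
      rw [Ne, mono_flp] at h3
      cases h4 : D.col T a x
      · refine ⟨a, fun _ => ⟨h1, h2, h4, ?_⟩⟩
        rw [h4] at h3
        simpa using h3
      · refine ⟨cpl a, fun _ => ⟨closed_cpl h1, fun v hv hvx => ?_, ?_, ?_⟩⟩
        · rw [col_cpl, col_cpl, h2 v hv hvx]
        · rw [col_cpl, h4]
          rfl
        · rw [col_cpl]
          rw [h4] at h3
          simpa using h3
    · exact ⟨fun _ _ => false, fun h => absurd h hx⟩
  choose a ha using key
  set Z : Finset (Tok V) := A.filter (fun x => x.1 ∉ M) with hZ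
  -- the colourings `b x`
  let b : Tok V → ι → ℕ → Bool := fun x i p =>
    decide (a x i p = true ∧ ∀ y ∈ Z, y ≠ x → a y i p = false)
  have hb : ∀ x t, D.col T (b x) t = true ↔
      (D.col T (a x) t = true ∧ ∀ y ∈ Z, y ≠ x → D.col T (a y) t = false) := by
    intro x t
    exact decide_eq_true_iff
  have hbc : ∀ x ∈ Z, Closed F (b x) := by
    intro x hx i p hp
    show decide _ = decide _
    rw [decide_eq_decide, (ha x hx).1 i p hp]
    refine and_congr_right fun _ => forall_congr' fun y => forall_congr' fun hy => ?_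
    rw [(ha y hy).1 i p hp]
  have hAA : ∀ x ∈ Z, ∀ y ∈ Z, D.col T (a x) y = false := by
    intro x hx y hy
    rw [hcol (a x) (ha x hx).1 y (Finset.mem_filter.1 hy).1 x (Finset.mem_filter.1 hx).1]
    exact (ha x hx).2.2.1
  have hne : ∀ x ∈ Z, ∀ y ∈ Z, y ≠ x → y.1 ≠ x.1 := by
    intro x hx y hy hxy h
    exact hxy (hA y (Finset.mem_filter.1 hy).1 x (Finset.mem_filter.1 hx).1 h)
  have hfl : ∀ x ∈ Z, ∀ y ∈ Z, y ≠ x → D.col T (a x) (flp y) = false := by
    intro x hx y hy hxy
    have h1 := (ha x hx).2.1 y.1 (Finset.mem_filter.1 hy).2 (hne x hx y hy hxy)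
    rw [mono_flp] at h1
    rw [h1]
    exact hAA x hx y hy
  have hmono : ∀ x ∈ Z, ∀ v, v ∉ M → v ≠ x.1 →
      D.col T (b x) (v, false) = D.col T (b x) (v, true) := by
    intro x hx v hv hvx
    by_cases h : ∃ y ∈ Z, y.1 = v
    · obtain ⟨y, hy, rfl⟩ := h
      have hyx : y ≠ x := fun h => hvx (by rw [h])
      have h1 : ∀ e : Bool, D.col T (b x) (y.1, e) = false := by
        intro e
        rw [← Bool.not_eq_true, hb]
        rintro ⟨h2, -⟩
        have h3 : D.col T (a x) (y.1, e) = false := by
          by_cases he : e = y.2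
          · have : ((y.1, e) : Tok V) = y := by rw [he]
            rw [this]
            exact hAA x hx y hy
          · have : ((y.1, e) : Tok V) = flp y := by
              unfold flp
              rw [Prod.mk.injEq]
              exact ⟨rfl, by cases e <;> cases h : y.2 <;> simp_all⟩
            rw [this]
            exact hfl x hx y hy hyx
        rw [h3] at h2
        exact absurd h2 (by simp)
      rw [h1, h1]
    · push Not at h
      rw [Bool.eq_iff_iff, hb, hb, (ha x hx).2.1 v hv hvx]
      refine and_congr_right fun _ => forall_congr' fun y => forall_congr' fun hy => ?_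
      rw [(ha y hy).2.1 v hv (fun h' => h y hy h'.symm)]
  have hbx : ∀ x ∈ Z, D.col T (b x) (flp x) = true ∧ D.col T (b x) x = false := by
    intro x hx
    refine ⟨(hb x _).2 ⟨(ha x hx).2.2.2, fun y hy hyx => hfl y hy x hx hyx.symm⟩, ?_⟩
    rw [← Bool.not_eq_true, hb]
    rintro ⟨h1, -⟩
    rw [(ha x hx).2.2.1] at h1
    exact absurd h1 (by simp)
  have ht : ∀ x : Tok V, ∃ t : Tok V, x ∈ Z → t.1 ∈ M ∧ D.col T (b x) t = true := by
    intro x
    by_cases hx : x ∈ Z
    · have hclosed : Closed (D.flow T) (b x) := fun i p hp =>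
        hbc x hx i p (lt_of_lt_of_le hp (hF i p))
      have heven := hpar V ι D T hfeas (b x) hclosed
      set B : Finset V := univ.filter fun v : V =>
        D.col T (b x) (v, false) ≠ D.col T (b x) (v, true) with hB
      have hxB : x.1 ∈ B := by
        rw [hB, Finset.mem_filter]
        refine ⟨Finset.mem_univ _, ?_⟩
        rw [Ne, mono_flp, (hbx x hx).1, (hbx x hx).2]
        simp
      have h1 : ∃ v ∈ B, v ≠ x.1 := by
        by_contra h
        push Not at h
        have : B = {x.1} := by
          ext v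
          rw [Finset.mem_singleton]
          exact ⟨fun hv => h v hv, fun hv => by rw [hv]; exact hxB⟩
        rw [this, Finset.card_singleton] at heven
        exact absurd heven (by decide)
      obtain ⟨v, hvB, hvx⟩ := h1
      have hvB' : D.col T (b x) (v, false) ≠ D.col T (b x) (v, true) := by
        rw [hB, Finset.mem_filter] at hvB
        exact hvB.2
      have hvM : v ∈ M := by
        by_contra hvM
        exact hvB' (hmono x hx v hvM hvx)
      cases h2 : D.col T (b x) (v, false)
      · refine ⟨(v, true), fun _ => ⟨hvM, ?_⟩⟩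
        rw [h2] at hvB'
        simpa using hvB'.symm
      · exact ⟨(v, false), fun _ => ⟨hvM, h2⟩⟩
    · exact ⟨x, fun h => absurd h hx⟩
  choose t ht using ht
  have hinj : Set.InjOn t (Z : Set (Tok V)) := by
    intro x hx y hy hxy
    by_contra hne
    have h1 := (hb x (t x)).1 (ht x hx).2
    have h2 := (hb y (t y)).1 (ht y hy).2
    have h3 := h1.2 y hy (fun h => hne h.symm)
    rw [hxy, h2.1] at h3
    exact absurd h3 (by simp)
  have hle : Z.card ≤ (M ×ˢ (univ : Finset Bool)).card :=
    Finset.card_le_card_of_injOn t (fun x hx => by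
      rw [Finset.mem_coe, Finset.mem_product]
      exact ⟨(ht x hx).1, Finset.mem_univ _⟩) hinj
  rw [Finset.card_product, Finset.card_univ, Fintype.card_bool] at hle
  omega

end Pool.Agent.Scatter

end

section

/-!
# The dynamic program on words: a step is sound
-/

set_option autoImplicit false

namespace Pool.Agent.Work.MP_5296b6_lc

open Pool.Agent.PT

variable {S : Type} {K : ℕ} {I : WInst S} {N : ℕ} {s s2 : St S K} {κ : S} {d : Bool}
  {th th' : S → ℕ} {δ δ' : S → ℕ → Bool}

theorem ltr_vert (hW : WF I N) {r : ℕ} (hlt : r < (I.2 κ).length) : (ltr I κ r).1.1 < I.1 := by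
  apply hW.vert κ
  unfold ltr
  rw [List.getD_eq_getElem _ _ hlt]
  exact List.getElem_mem _

theorem pls'_iff (hr : Rep I s th δ) (he : Ext κ d th δ th' δ') {v : ℕ} (hv : v < I.1)
    (b : Bool) : Pls' I κ d s (v, b) ↔ Plc I th' δ' (v, b) := by
  unfold Pls'
  rw [hr.pls hv, he.plc, hr.hth]

theorem step_psol (hW : WF I N) (hr : Rep I s th δ) (hp : PSol I th δ)
    (he : Ext κ d th δ th' δ') (hs : Step I κ d s s2) : PSol I th' δ' := by
  have hlt := hs.lt
  have hnew := hs.new
  have hg0 := hs.g0
  have hg1 := hs.g1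
  have hg2 := hs.g2
  rw [hr.hth] at hlt hnew hg1 hg2
  have hv := ltr_vert hW hlt
  have key : ∀ κ1 r1, r1 < th κ1 → δ κ1 r1 = true → d = true →
      (ltr I κ1 r1).1 ≠ (ltr I κ (th κ)).1 := by
    intro κ1 r1 h1 h2 h3 h4
    exact hnew h3 ((hr.pls hv _).2 ⟨κ1, r1, h1, h4, h2⟩)
  constructor
  · intro κ1 κ2 r1 r2 h1 h2 h3 h4 h5
    rcases he.lt_cases h1 with h1' | ⟨rfl, rfl⟩ <;> rcases he.lt_cases h2 with h2' | ⟨h2a, h2b⟩
    · rw [he.d1 _ _ h1'] at h3
      rw [he.d1 _ _ h2'] at h4
      exact hp.once _ _ _ _ h1' h2' h3 h4 h5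
    · subst h2a h2b
      rw [he.d1 _ _ h1'] at h3
      rw [he.d2] at h4
      exact absurd h5 (key _ _ h1' h3 h4)
    · rw [he.d1 _ _ h2'] at h4
      rw [he.d2] at h3
      exact absurd h5.symm (key _ _ h2' h4 h3)
    · exact ⟨h2a.symm, h2b.symm⟩
  · intro κ' r h1
    rcases Nat.lt_or_ge (th κ') r with h2 | h2
    · have h3 : κ' = κ := by
        by_contra h3
        rw [he.t2 _ h3] at h1
        omega
      subst h3
      rw [he.t1] at h1
      have h4 : r = th κ' + 1 := by omega
      subst h4
      rw [he.fl_last, ← hr.g κ']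
      cases d with
      | false => simp
      | true =>
        cases h5 : (ltr I κ' (th κ')).2 with
        | true => simp only [if_true]; positivity
        | false =>
          have h6 := hg2 rfl h5
          simp only [if_true, Bool.false_eq_true, if_false]
          omega
    · rw [he.fl h2]
      exact hp.nonneg _ _ h2

theorem step_old_iff (hs : Step I κ d s s2) {u : ℕ} (hu : u ≠ (ltr I κ (sth s κ)).1.1)
    (k : Fin K) : ssl s2 k = some u ↔ ssl s k = some u := by
  constructor
  · intro h
    by_cases h1 : ssl s k = none ∨ ssl s k = some (ltr I κ (sth s κ)).1.1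
    · rcases hs.here k h1 with h2 | h2
      · rw [h2] at h; exact absurd h (by simp)
      · rw [h2, Option.some.injEq] at h; exact absurd h.symm hu
    · push Not at h1
      rw [← (hs.old k h1.1 h1.2).1]; exact h
  · intro h
    rw [(hs.old k (by rw [h]; simp) (by rw [h]; simpa using hu)).1]
    exact h

theorem plc_all {v : ℕ} {b : Bool} (h : Plc I th δ (v, false) ↔ Plc I th δ (v, true))
    (hb : Plc I th δ (v, b)) : ∀ b', Plc I th δ (v, b') := by
  have hf : Plc I th δ (v, false) := by
    cases b
    · exact hb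
    · exact h.2 hb
  intro b'
  cases b'
  · exact hf
  · exact h.1 hf

theorem step_tr (hW : WF I N) (hr : Rep I s th δ) (hp : PSol I th δ)
    (he : Ext κ d th δ th' δ') (hs : Step I κ d s s2) (τ' : Tr S K) :
    str s2 τ' = true ↔ ∃ A c, Colg I th' δ' A c ∧ Match I th' δ' (ssl s2) A c τ' := by
  classical
  have hlt := hs.lt
  have hnew := hs.new
  have hold : ∀ u k, u ≠ (ltr I κ (th κ)).1.1 → (ssl s2 k = some u ↔ ssl s k = some u) := by
    intro u k hu
    rw [← hr.hth] at hu
    exact step_old_iff hs hu k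
  have huniq := hs.uniq
  have hirr := hs.irr
  rw [hs.tr τ']
  rw [hr.hth] at hlt hnew huniq hirr ⊢
  have hv := ltr_vert hW hlt
  set v := (ltr I κ (th κ)).1.1 with hvdef
  constructor
  · rintro ⟨τ, hτ, hC⟩
    obtain ⟨A, c, hA, hM⟩ := (hr.tr τ).1 hτ
    obtain ⟨c1, c2, c3, c4, c5, c6, c7⟩ := hC
    obtain ⟨m1, m2, m3, m4⟩ := hM
    -- the colour of `v`
    by_cases hpv : ∃ b, Plc I th δ (v, b)
    · -- `v` has a placed token; its colour is kept
      have hd : d = true → c v = τ'.1 κ := by
        intro hd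
        by_cases hk : ∃ k, ssl s k = some v
        · obtain ⟨k, hk⟩ := hk
          rw [← c4 hd k hk, m2 k v hk]
        · push Not at hk
          exfalso
          obtain ⟨n1, n2⟩ := hr.no_slot hv hk
          obtain ⟨b, hb⟩ := hpv
          have hall := plc_all n1 hb
          exact hnew hd ((hr.pls hv (ltr I κ (th κ)).1.2).2 (hall (ltr I κ (th κ)).1.2))
      refine ⟨fun κ' r => if κ' = κ ∧ r = th κ + 1 then τ'.1 κ else A κ' r, c, ⟨?_, ?_⟩, ?_⟩
      · intro κ' r h1 h2
        beta_reduce
        rcases he.lt_cases h1 with h3 | ⟨rfl, rfl⟩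
        · rw [he.fl h3.le] at h2
          rw [if_neg (by rintro ⟨rfl, h4⟩; omega), if_neg (by rintro ⟨rfl, h4⟩; omega)]
          exact hA.flow _ _ h3 h2
        · rw [he.fl le_rfl, ← hr.g] at h2
          rw [if_pos ⟨rfl, rfl⟩, if_neg (by rintro ⟨-, h4⟩; omega), ← m1]
          exact c2 (by exact_mod_cast h2)
      · intro κ' r h1 h2
        beta_reduce
        rcases he.lt_cases h1 with h3 | ⟨rfl, rfl⟩
        · rw [he.d1 _ _ h3] at h2
          rw [if_neg (by rintro ⟨rfl, h4⟩; omega)]
          exact hA.tok _ _ h3 h2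
        · rw [he.d2] at h2
          rw [if_pos ⟨rfl, rfl⟩]
          exact (hd h2).symm
      · refine ⟨?_, ?_, ?_, ?_⟩
        · intro κ'
          beta_reduce
          by_cases e : κ' = κ
          · subst e
            rw [if_pos ⟨rfl, he.t1⟩]
          · rw [if_neg (fun h => e h.1), he.t2 _ e, c1 _ e]
            exact m1 κ'
        · intro k u hk
          by_cases e : u = v
          · subst e
            by_cases hk' : ∃ k', ssl s k' = some v
            · obtain ⟨k', hk'⟩ := hk'
              rw [← c3 k' k (by rw [hk, hk']) (by rw [hk']; simp)]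
              exact m2 _ _ hk'
            · exfalso
              push Not at hk'
              obtain ⟨n1, n2⟩ := hr.no_slot hv hk'
              obtain ⟨b, hb⟩ := hpv
              have hall := plc_all n1 hb
              obtain ⟨n3, n4⟩ := n2 (hall false)
              have n5 := DA_mono (th' := sth s2) (fun κ' => by
                rw [← hr.hth]
                by_cases e : κ' = κ
                · subst e; rw [hs.th]; omega
                · rw [hs.th' _ e]) n3
              have n6 := DA_mono (th' := sth s2) (fun κ' => by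
                rw [← hr.hth]
                by_cases e : κ' = κ
                · subst e; rw [hs.th]; omega
                · rw [hs.th' _ e]) n4
              apply hirr.1 ⟨k, hk⟩
              have n7 : ∀ b, Pls' I κ d s (v, b) := fun b => Or.inl ((hr.pls hv b).2 (hall b))
              exact ⟨⟨fun _ => n5, fun _ => n7 _⟩, ⟨fun _ => n6, fun _ => n7 _⟩,
                ⟨fun _ => n6, fun _ => n5⟩⟩
          · have hk' := (hold u k e).1 hk
            rw [← c3 k k (by rw [hk, hk']) (by rw [hk']; simp)]
            exact m2 _ _ hk'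
        · rw [c6, he.used, m3]
          constructor
          · rintro (h | ⟨h1, h2⟩)
            · exact Or.inl h
            · exact Or.inr ⟨h1, by rw [hd h1]; exact h2⟩
          · rintro (h | ⟨h1, h2⟩)
            · exact Or.inl h
            · exact Or.inr ⟨h1, by rw [← hd h1]; exact h2⟩
        · rw [c7, he.used, m4]
          constructor
          · rintro (h | ⟨h1, h2⟩)
            · exact Or.inl h
            · exact Or.inr ⟨h1, by rw [hd h1]; exact h2⟩
          · rintro (h | ⟨h1, h2⟩)
            · exact Or.inl h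
            · exact Or.inr ⟨h1, by rw [← hd h1]; exact h2⟩
    · -- `v` has no placed token: its colour is free
      push Not at hpv
      obtain ⟨e0, he0, he1⟩ : ∃ e0 : Bool, (d = true → e0 = τ'.1 κ) ∧
          (∀ k, ssl s2 k = some v → τ'.2.1 k = e0) := by
        by_cases hk : ∃ k, ssl s2 k = some v
        · obtain ⟨k, hk⟩ := hk
          refine ⟨τ'.2.1 k, fun hd => c5 hd k hk, fun k' hk' => ?_⟩
          rw [huniq k' k hk' hk]
        · push Not at hk
          exact ⟨τ'.1 κ, fun _ => rfl, fun k h => absurd h (hk k)⟩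
      have hold_tok : ∀ κ' r, r < th κ' → δ κ' r = true → (ltr I κ' r).1.1 ≠ v := by
        intro κ' r h1 h2 h3
        exact hpv (ltr I κ' r).1.2 ⟨κ', r, h1, by rw [← h3], h2⟩
      have hused : ∀ b, Used I th δ (Function.update c v e0) b ↔ Used I th δ c b := by
        intro b
        constructor
        · rintro ⟨κ', r, h1, h2, h3⟩
          rw [Function.update_of_ne (hold_tok _ _ h1 h2)] at h3
          exact ⟨κ', r, h1, h2, h3⟩
        · rintro ⟨κ', r, h1, h2, h3⟩
          exact ⟨κ', r, h1, h2, by rw [Function.update_of_ne (hold_tok _ _ h1 h2)]; exact h3⟩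
      refine ⟨fun κ' r => if κ' = κ ∧ r = th κ + 1 then τ'.1 κ else A κ' r,
        Function.update c v e0, ⟨?_, ?_⟩, ?_⟩
      · intro κ' r h1 h2
        beta_reduce
        rcases he.lt_cases h1 with h3 | ⟨rfl, rfl⟩
        · rw [he.fl h3.le] at h2
          rw [if_neg (by rintro ⟨rfl, h4⟩; omega), if_neg (by rintro ⟨rfl, h4⟩; omega)]
          exact hA.flow _ _ h3 h2
        · rw [he.fl le_rfl, ← hr.g] at h2
          rw [if_pos ⟨rfl, rfl⟩, if_neg (by rintro ⟨-, h4⟩; omega), ← m1]
          exact c2 (by exact_mod_cast h2)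
      · intro κ' r h1 h2
        beta_reduce
        rcases he.lt_cases h1 with h3 | ⟨rfl, rfl⟩
        · rw [he.d1 _ _ h3] at h2
          rw [if_neg (by rintro ⟨rfl, h4⟩; omega), Function.update_of_ne (hold_tok _ _ h3 h2)]
          exact hA.tok _ _ h3 h2
        · rw [he.d2] at h2
          rw [if_pos ⟨rfl, rfl⟩, ← hvdef, Function.update_self]
          exact (he0 h2).symm
      · refine ⟨?_, ?_, ?_, ?_⟩
        · intro κ'
          beta_reduce
          by_cases e : κ' = κ
          · subst e
            rw [if_pos ⟨rfl, he.t1⟩]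
          · rw [if_neg (fun h => e h.1), he.t2 _ e, c1 _ e]
            exact m1 κ'
        · intro k u hk
          by_cases e : u = v
          · subst e
            rw [Function.update_self]
            exact he1 k hk
          · have hk' := (hold u k e).1 hk
            rw [← c3 k k (by rw [hk, hk']) (by rw [hk']; simp), Function.update_of_ne e]
            exact m2 _ _ hk'
        · rw [c6, he.used, m3, hused, ← hvdef, Function.update_self]
          constructor
          · rintro (h | ⟨h1, h2⟩)
            · exact Or.inl h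
            · exact Or.inr ⟨h1, by rw [he0 h1]; exact h2⟩
          · rintro (h | ⟨h1, h2⟩)
            · exact Or.inl h
            · exact Or.inr ⟨h1, by rw [← he0 h1]; exact h2⟩
        · rw [c7, he.used, m4, hused, ← hvdef, Function.update_self]
          constructor
          · rintro (h | ⟨h1, h2⟩)
            · exact Or.inl h
            · exact Or.inr ⟨h1, by rw [he0 h1]; exact h2⟩
          · rintro (h | ⟨h1, h2⟩)
            · exact Or.inl h
            · exact Or.inr ⟨h1, by rw [← he0 h1]; exact h2⟩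
  · rintro ⟨A, c, hA, m1, m2, m3, m4⟩
    have hA' : Colg I th δ A c := by
      constructor
      · intro κ' r h1 h2
        exact hA.flow κ' r (lt_of_lt_of_le h1 (he.le _)) (by rw [he.fl h1.le]; exact h2)
      · intro κ' r h1 h2
        exact hA.tok κ' r (lt_of_lt_of_le h1 (he.le _)) (by rw [he.d1 _ _ h1]; exact h2)
    have hd : d = true → c v = A κ (th κ + 1) := by
      intro hd
      exact (hA.tok κ (th κ) (by rw [he.t1]; omega) (by rw [he.d2]; exact hd)).symm
    have hκ : τ'.1 κ = A κ (th κ + 1) := by rw [m1, he.t1]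
    refine ⟨(fun κ' => A κ' (th κ'), fun k => (ssl s k).elim false c,
      decide (Used I th δ c false), decide (Used I th δ c true)), ?_, ?_⟩
    · refine (hr.tr _).2 ⟨A, c, hA', fun _ => rfl, ?_, ?_, ?_⟩
      · intro k u hk
        simp only [hk, Option.elim_some]
      · simp only [decide_eq_true_iff]
      · simp only [decide_eq_true_iff]
    · refine ⟨?_, ?_, ?_, ?_, ?_, ?_, ?_⟩
      · intro κ' h1
        rw [m1, he.t2 _ h1]
      · intro h1
        rw [hκ]
        refine hA.flow κ (th κ) (by rw [he.t1]; omega) ?_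
        rw [he.fl le_rfl, ← hr.g]
        exact_mod_cast h1
      · intro k k' h1 h2
        obtain ⟨u, hu⟩ := Option.ne_none_iff_exists'.1 h2
        have hu' : ssl s2 k' = some u := by rw [← h1]; exact hu
        show (ssl s k).elim false c = _
        rw [hu, m2 k' u hu']
        rfl
      · intro hd1 k hk
        show (ssl s k).elim false c = _
        rw [hk, hκ, ← hd hd1]
        rfl
      · intro hd1 k hk
        rw [m2 k _ hk, hκ, ← hd hd1]
      · rw [m3, he.used, hκ]
        simp only [decide_eq_true_iff]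
        constructor
        · rintro (h | ⟨h1, h2⟩)
          · exact Or.inl h
          · exact Or.inr ⟨h1, by rw [← hd h1]; exact h2⟩
        · rintro (h | ⟨h1, h2⟩)
          · exact Or.inl h
          · exact Or.inr ⟨h1, by rw [hd h1]; exact h2⟩
      · rw [m4, he.used, hκ]
        simp only [decide_eq_true_iff]
        constructor
        · rintro (h | ⟨h1, h2⟩)
          · exact Or.inl h
          · exact Or.inr ⟨h1, by rw [← hd h1]; exact h2⟩
        · rintro (h | ⟨h1, h2⟩)
          · exact Or.inl h
          · exact Or.inr ⟨h1, by rw [hd h1]; exact h2⟩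

theorem step_rep (hW : WF I N) (hr : Rep I s th δ) (hp : PSol I th δ)
    (he : Ext κ d th δ th' δ') (hs : Step I κ d s s2) : Rep I s2 th' δ' := by
  have hlt := hs.lt
  have hold : ∀ u k, u ≠ (ltr I κ (th κ)).1.1 → (ssl s2 k = some u ↔ ssl s k = some u) := by
    intro u k hu
    rw [← hr.hth] at hu
    exact step_old_iff hs hu k
  have hth : sth s2 = th' := by
    funext κ'
    by_cases e : κ' = κ
    · subst e; rw [hs.th, he.t1, hr.hth]
    · rw [hs.th' _ e, he.t2 _ e, hr.hth]
  have hirr := hs.irr
  have hpl := hs.pl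
  have huniq := hs.uniq
  rw [hth, hr.hth] at hirr
  rw [hr.hth] at hlt hpl huniq
  have hv := ltr_vert hW hlt
  refine ⟨hth, ?_, ?_, ?_, ?_, step_tr hW hr hp he hs⟩
  · intro κ'
    by_cases e : κ' = κ
    · subst e
      rw [he.t1, he.fl_last, ← hr.g κ']
      have hg0 := hs.g0
      have hg1 := hs.g1
      have hg2 := hs.g2
      rw [hr.hth] at hg1 hg2
      cases d with
      | false => simp [hg0 rfl]
      | true =>
        cases h5 : (ltr I κ' (th κ')).2 with
        | true => simp [hg1 rfl h5]
        | false =>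
          have h6 := hg2 rfl h5
          simp only [if_true, Bool.false_eq_true, if_false]
          omega
    · rw [he.t2 _ e, he.fl le_rfl, hs.g' _ e]
      exact hr.g κ'
  · intro u
    by_cases e : u = (ltr I κ (th κ)).1.1
    · subst e
      rw [hirr, pls'_iff hr he hv, pls'_iff hr he hv]
      unfold Irr
      tauto
    · rw [he.irr hlt e, ← hr.sl u]
      exact exists_congr (fun k => hold u k e)
  · intro k k' u h1 h2
    by_cases e : u = (ltr I κ (th κ)).1.1
    · subst e
      exact huniq k k' h1 h2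
    · exact hr.inj k k' u ((hold u k e).1 h1) ((hold u k' e).1 h2)
  · intro k u h1
    by_cases e : u = (ltr I κ (th κ)).1.1
    · subst e
      have h2 := hpl k h1
      rw [pls'_iff hr he hv, pls'_iff hr he hv] at h2
      exact h2
    · have h2 := (hold u k e).1 h1
      have h3 := hs.old k (by rw [h2]; simp) (by rw [h2, hr.hth]; simpa using e)
      rw [h3.2]
      have h4 : ∀ b, Plc I th' δ' (u, b) ↔ Plc I th δ (u, b) := by
        intro b
        rw [he.plc]
        refine ⟨fun h1 => h1.resolve_right ?_, Or.inl⟩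
        rintro ⟨-, h2⟩
        exact e (by rw [h2])
      rw [h4, h4]
      exact hr.pl k u h2

end Pool.Agent.Work.MP_5296b6_lc

end

section

/-!
# Edges of round-trips
-/

set_option autoImplicit false

namespace Pool.Agent.Scatter

open Pool.Agent.MaxScatter

namespace Edges

theorem edges_cons {α : Type} (p : α) (R' : List α) :
    edges (p :: R') = (p :: R').zip (R' ++ [p]) := by
  unfold edges
  rw [List.rotate_cons_succ, List.rotate_zero]

theorem edges_rotate {α : Type} (R : List α) (k : ℕ) :
    edges (R.rotate k) = (edges R).rotate k := by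
  unfold edges
  rw [List.rotate_rotate, Nat.add_comm k 1, ← List.rotate_rotate]
  unfold List.zip
  rw [List.zipWith_rotate_distrib]
  rw [List.length_rotate]

end Edges

theorem claimScatter : ClaimScatter := by
  intro s B R L hR
  have hfin : {d : ℝ | ∃ e ∈ edges R, d = pdist B e.1 e.2}.Finite := by
    have h1 : {e | e ∈ edges R}.Finite := List.finite_toSet _
    refine (h1.image fun e => pdist B e.1 e.2).subset ?_
    rintro d ⟨e, he, rfl⟩
    exact ⟨e, he, rfl⟩
  have hne : {d : ℝ | ∃ e ∈ edges R, d = pdist B e.1 e.2}.Nonempty := by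
    have h2 : edges R ≠ [] := by
      intro h
      have h3 : (edges R).length = R.length := by
        unfold edges
        rw [List.length_zip, List.length_rotate, min_self]
      rw [h] at h3
      exact hR (List.length_eq_zero_iff.1 h3.symm)
    obtain ⟨e, he⟩ := List.exists_mem_of_ne_nil _ h2
    exact ⟨_, e, he, rfl⟩
  unfold scatter
  rw [le_csInf_iff hfin.bddBelow hne]
  constructor
  · exact fun h e he => h _ ⟨e, he, rfl⟩
  · rintro h d ⟨e, he, rfl⟩
    exact h e he

theorem claimEdges : ClaimEdges := by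
  intro α p P rel
  constructor
  · rintro ⟨R, hR, hrel⟩
    have hp : p ∈ R := hR.mem_iff.2 (List.mem_cons_self)
    obtain ⟨u, v, rfl⟩ := List.append_of_mem hp
    have hrot : (u ++ p :: v).rotate u.length = p :: (v ++ u) := by
      rw [List.rotate_append_length_eq]
      rfl
    refine ⟨v ++ u, ?_, ?_⟩
    · have h1 : (p :: (v ++ u)).Perm (p :: P) := by
        rw [← hrot]
        exact (List.rotate_perm _ _).trans hR
      exact (List.perm_cons p).1 h1
    · intro e he
      refine hrel e ?_
      rw [← Edges.edges_cons, ← hrot, Edges.edges_rotate, List.mem_rotate] at he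
      exact he
  · rintro ⟨R', hR', hrel⟩
    refine ⟨p :: R', hR'.cons p, fun e he => hrel e ?_⟩
    rwa [Edges.edges_cons] at he

end Pool.Agent.Scatter

end
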