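import Pool.Agent.Work.MP_5296b6_lc.GeoStmts
import Pool.Agent.Work.MP_5296b6_lc.Bd.B01
import Pool.Agent.Work.MP_5296b6_lc.Final

/-! Bundle of small proof modules (one section per former module). -/

section

/-!
# The norm by facet functionals
-/

set_option autoImplicit false

namespace Pool.Agent.Scatter

open Pool.Agent.MaxScatter
open Pointwise

namespace Norm

theorem phi_smul {s : ℕ} (a : Fin s → ℝ) (t : ℝ) (x : Fin s → ℝ) :
    ∑ j, a j * (t • x) j = t * ∑ j, a j * x j := by
  rw [Finset.mul_sum]
  refine Finset.sum_congr rfl fun j _ => ?_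
  rw [Pi.smul_apply, smul_eq_mul]
  ring

end Norm

theorem claimNorm : ClaimNorm := by
  intro s f B a hs hB hBa x L
  obtain ⟨W, hW⟩ := hB.polytope
  have hcomp : IsCompact B := by
    rw [hW]
    exact W.finite_toSet.isCompact_convexHull ℝ
  obtain ⟨C, hC⟩ := hcomp.isBounded.exists_norm_le
  have hmem : ∀ y, y ∈ B ↔ ∀ i, |∑ j, a i j * y j| ≤ 1 := fun y => by
    rw [hBa]
    rfl
  have h0 : (0 : Fin s → ℝ) ∈ B := by
    rw [hmem]
    intro i
    simp
  -- there is at least one functional
  have hf : Nonempty (Fin f) := by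
    by_contra hcon
    rw [not_nonempty_iff] at hcon
    have h1 : (fun _ : Fin s => |C| + 1) ∈ B := by
      rw [hmem]
      exact fun i => hcon.elim i
    have h2 := hC _ h1
    have h3 := norm_le_pi_norm (fun _ : Fin s => |C| + 1) ⟨0, by omega⟩
    simp only [Real.norm_eq_abs] at h3
    have h4 : |(|C| + 1)| = |C| + 1 := abs_of_nonneg (by positivity)
    rw [h4] at h3
    have h5 := le_abs_self C
    linarith
  obtain ⟨i0, hi0⟩ := Finite.exists_max fun i : Fin f => |∑ j, a i j * x j|
  have hM : pnorm B x = |∑ j, a i0 j * x j| := by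
    refine IsLeast.csInf_eq ⟨⟨abs_nonneg _, ?_⟩, ?_⟩
    · rcases (abs_nonneg (∑ j, a i0 j * x j)).eq_or_lt with hz | hpos
      · have hx : x = 0 := by
          by_contra hne
          have hnorm : 0 < ‖x‖ := norm_pos_iff.2 hne
          have h1 : ((|C| + 1) / ‖x‖) • x ∈ B := by
            rw [hmem]
            intro i
            rw [Norm.phi_smul, abs_mul]
            have h2 := hi0 i
            rw [← hz] at h2
            have h3 : |∑ j, a i j * x j| = 0 := le_antisymm h2 (abs_nonneg _)
            rw [h3, mul_zero]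
            exact zero_le_one
          have h2 := hC _ h1
          rw [norm_smul, Real.norm_eq_abs, abs_of_nonneg (by positivity),
            div_mul_cancel₀ _ hnorm.ne'] at h2
          have h5 := le_abs_self C
          linarith
        rw [← hz, hx]
        exact ⟨0, h0, by simp⟩
      · refine ⟨(|∑ j, a i0 j * x j|)⁻¹ • x, ?_, ?_⟩
        · rw [hmem]
          intro i
          rw [Norm.phi_smul, abs_mul, abs_inv, abs_abs, inv_mul_le_iff₀ hpos, mul_one]
          exact hi0 i
        · show |∑ j, a i0 j * x j| • (|∑ j, a i0 j * x j|)⁻¹ • x = x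
          rw [smul_smul, mul_inv_cancel₀ hpos.ne', one_smul]
    · rintro r ⟨hr, b, hb, rfl⟩
      show |∑ j, a i0 j * (r • b) j| ≤ r
      rw [Norm.phi_smul, abs_mul, abs_of_nonneg hr]
      calc r * |∑ j, a i0 j * b j| ≤ r * 1 := mul_le_mul_of_nonneg_left ((hmem b).1 hb i0) hr
        _ = r := mul_one r
  rw [hM]
  constructor
  · exact fun h => ⟨i0, h⟩
  · rintro ⟨i, hi⟩
    exact hi.trans (hi0 i)

end Pool.Agent.Scatter

end

section

/-!
# A tour gives a connected feasible assignment (MP_5296b6_lc, item H4)
-/

set_option autoImplicit false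

namespace Pool.Agent.Scatter

open Finset

theorem claimOfTour : ClaimOfTour := by
  rintro V ι _ _ _ _ D ⟨c, hper, hcov, hcomp⟩
  obtain ⟨n, hn⟩ : ∃ n, n = Fintype.card V := ⟨_, rfl⟩
  rw [← hn] at hper hcov
  have hflp : ∀ t : Tok V, flp (flp t) = t := by
    rintro ⟨v, b⟩; simp [flp]
  -- the tokens and the pairs
  let e : Fin n × Bool → Tok V := fun x => if x.2 then c (x.1 + 1) else flp (c x.1)
  have hsurj : Function.Surjective e := by
    rintro ⟨v, b⟩
    obtain ⟨k, hk, hv⟩ := hcov v
    by_cases hb : (c k).2 = b
    · have hck : c k = (v, b) := Prod.ext hv hb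
      rcases Nat.eq_zero_or_pos k with hk0 | hk0
      · refine ⟨(⟨n - 1, by omega⟩, true), ?_⟩
        simp only [e, if_true]
        have : n - 1 + 1 = 0 + n := by omega
        rw [this, hper, ← hck, hk0]
      · refine ⟨(⟨k - 1, by omega⟩, true), ?_⟩
        simp only [e, if_true]
        have : k - 1 + 1 = k := by omega
        rw [this, hck]
    · refine ⟨(⟨k, hk⟩, false), ?_⟩
      simp only [e, Bool.false_eq_true, if_false]
      unfold flp
      ext
      · exact hv
      · simp only
        cases b <;> simp_all
  have hbij : Function.Bijective e := by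
    rw [Fintype.bijective_iff_surjective_and_card]
    refine ⟨hsurj, ?_⟩
    simp [hn]
  obtain ⟨E, hE⟩ : ∃ E : Fin n × Bool ≃ Tok V, ∀ x, E x = e x :=
    ⟨Equiv.ofBijective e hbij, fun _ => rfl⟩
  -- tracks and orientations
  have hch : ∀ k, ∃ (i : ι) (o : Bool),
      if o then D.pos (flp (c k)) (i, false) < D.pos (c (k + 1)) (i, true)
      else D.pos (c (k + 1)) (i, false) < D.pos (flp (c k)) (i, true) := by
    intro k
    obtain ⟨i, h | h⟩ := hcomp k
    · exact ⟨i, true, by simpa using h⟩
    · exact ⟨i, false, by simpa using h⟩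
  choose i o ho using hch
  let cl : Fin n × Bool → Side ι := fun x => (i x.1, if x.2 then o x.1 else !(o x.1))
  let T : Tok V → Side ι := fun t => cl (E.symm t)
  have hTe : ∀ x, T (e x) = cl x := fun x => by simp only [T, ← hE, Equiv.symm_apply_apply]
  -- low and high positions of a pair
  let lo : ℕ → ℕ := fun k => if o k then D.pos (flp (c k)) (i k, false)
    else D.pos (c (k + 1)) (i k, false)
  let hi : ℕ → ℕ := fun k => if o k then D.pos (c (k + 1)) (i k, true)
    else D.pos (flp (c k)) (i k, true)
  have hlohi : ∀ k, lo k < hi k := by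
    intro k
    have := ho k
    simp only [lo, hi]
    cases hk : o k
    · rw [hk] at this; simpa using this
    · rw [hk] at this; simpa using this
  have hflow : ∀ j p, D.flow T j p =
      ∑ k : Fin n, if i k = j ∧ lo k ≤ p ∧ p < hi k then (1 : ℤ) else 0 := by
    intro j p
    rw [claimFlowSum V ι D T j p, ← Equiv.sum_comp E, Fintype.sum_prod_type]
    apply sum_congr rfl
    intro k _
    rw [Fintype.sum_bool, hE, hE, hTe, hTe]
    have hlt := hlohi k
    simp only [e, cl, lo, hi, if_true, Bool.false_eq_true, if_false] at hlt ⊢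
    unfold bump
    rcases Bool.eq_false_or_eq_true (o k) with hk | hk <;>
      simp only [hk, if_true, Bool.false_eq_true, if_false, Bool.not_false, Bool.not_true]
        at hlt ⊢ <;>
      by_cases hj : i k = j <;> simp only [hj, true_and, false_and, if_false, add_zero] <;>
      (try simp only [hj] at hlt) <;> split_ifs <;> first | rfl | omega
  refine ⟨T, ⟨?_, ?_⟩, ?_⟩
  · intro j p
    rw [hflow]
    apply sum_nonneg
    intro k _
    split_ifs <;> norm_num
  · intro j
    rw [hflow]
    apply sum_eq_zero
    intro k _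
    rw [if_neg]
    rintro ⟨-, -, h⟩
    have : hi k ≤ D.N := by
      simp only [hi]
      split_ifs <;> exact D.le_N _ _
    omega
  · intro a ha hm
    have hmono : ∀ t : Tok V, D.col T a (flp t) = D.col T a t := by
      rintro ⟨v, b⟩
      cases b
      · exact (hm v).symm
      · exact hm v
    -- the two tokens of a pair have the same colour
    have hpair : ∀ k, k < n → D.col T a (flp (c k)) = D.col T a (c (k + 1)) := by
      intro k hk
      have hconst : ∀ d, lo k + d ≤ hi k → a (i k) (lo k + d) = a (i k) (lo k) := by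
        intro d
        induction d with
        | zero => intro _; rfl
        | succ d ih =>
          intro hd
          rw [← ih (by omega), ← add_assoc]
          symm
          apply ha
          rw [hflow]
          apply sum_pos'
          · intro m _
            split_ifs <;> norm_num
          · refine ⟨⟨k, hk⟩, mem_univ _, ?_⟩
            rw [if_pos ⟨rfl, by simp, by simp only; omega⟩]
            norm_num
      have h1 := hconst (hi k - lo k) (by have := hlohi k; omega)
      rw [Nat.add_sub_cancel' (hlohi k).le] at h1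
      have e1 : T (flp (c k)) = (i k, !(o k)) := by
        have := hTe (⟨k, hk⟩, false)
        simpa [e, cl] using this
      have e2 : T (c (k + 1)) = (i k, o k) := by
        have := hTe (⟨k, hk⟩, true)
        simpa [e, cl] using this
      unfold Table.col
      rw [e1, e2]
      simp only [lo, hi] at h1
      cases hk' : o k
      · rw [hk'] at h1
        simpa using h1
      · rw [hk'] at h1
        simpa using h1.symm
    have hall : ∀ k, k ≤ n → D.col T a (c k) = D.col T a (c 0) := by
      intro k
      induction k with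
      | zero => intro _; rfl
      | succ k ih =>
        intro hk
        rw [← hpair k (by omega), hmono, ih (by omega)]
    have hall2 : ∀ t : Tok V, D.col T a t = D.col T a (c 0) := by
      intro t
      obtain ⟨⟨k, b⟩, hk⟩ := hsurj t
      rw [← hk]
      cases b
      · simp only [e, Bool.false_eq_true, if_false]
        rw [hmono, hall k k.2.le]
      · simp only [e, if_true]
        exact hall (k + 1) k.2
    intro t t'
    rw [hall2 t, hall2 t']

end Pool.Agent.Scatter

end

section

/-!
# Parity of the number of bichromatic vertices (MP_5296b6_lc, item P)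
-/

set_option autoImplicit false

namespace Pool.Agent.Scatter

open Finset

namespace Parity

/-- Abel summation against a closed colouring. -/
theorem abel (F : ℕ → ℤ) (b : ℕ → ℤ) (N : ℕ) (h : ∀ p, F p * (b p - b (p + 1)) = 0) :
    ∑ p ∈ range N, b (p + 1) * (F (p + 1) - F p) = b N * F N - b 0 * F 0 := by
  induction N with
  | zero => simp
  | succ N ih =>
    rw [sum_range_succ, ih]
    have := h N
    linear_combination this

end Parity

open Parity in
theorem claimParity : ClaimParity := by
  intro V ι _ _ _ _ D T ⟨h0, hN⟩ a ha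
  let b : ι → ℕ → ℤ := fun i p => if a i p then 1 else 0
  have hab : ∀ i p, D.flow T i p * (b i p - b i (p + 1)) = 0 := by
    intro i p
    rcases (h0 i p).eq_or_lt with h | h
    · rw [← h, zero_mul]
    · have := ha i p h
      simp only [b, this, sub_self, mul_zero]
  have h00 : ∀ i, D.flow T i 0 = 0 := by
    intro i
    rw [claimFlowSum V ι D T i 0]
    apply sum_eq_zero
    intro t _
    unfold bump
    rw [if_neg]
    rintro ⟨-, h⟩
    have := D.one_le t (T t)
    omega
  have hsum : ∀ i, ∑ p ∈ range D.N, b i (p + 1) * (D.flow T i (p + 1) - D.flow T i p) = 0 := by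
    intro i
    rw [abel (D.flow T i) (b i) D.N (hab i), hN, h00]
    ring
  -- the increments of the flow
  have hinc : ∀ i p, D.flow T i (p + 1) - D.flow T i p =
      ∑ t : Tok V, if (T t).1 = i ∧ D.pos t (T t) = p + 1 then (if (T t).2 then (-1 : ℤ) else 1)
        else 0 := by
    intro i p
    rw [claimFlowSum V ι D T i (p + 1), claimFlowSum V ι D T i p, ← sum_sub_distrib]
    apply sum_congr rfl
    intro t _
    unfold bump
    by_cases h1 : (T t).1 = i
    · simp only [h1, true_and]
      split_ifs <;> omega
    · simp only [h1, false_and, if_false, sub_self]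
  -- number of low tokens with colour true = number of high tokens with colour true
  have hcount : ∑ t : Tok V, (if D.col T a t then (if (T t).2 then (-1 : ℤ) else 1) else 0) = 0 := by
    have h1 : ∀ t : Tok V, (if D.col T a t then (if (T t).2 then (-1 : ℤ) else 1) else 0) =
        ∑ i, ∑ p ∈ range D.N, b i (p + 1) * (if (T t).1 = i ∧ D.pos t (T t) = p + 1 then
          (if (T t).2 then (-1 : ℤ) else 1) else 0) := by
      intro t
      rw [sum_eq_single (T t).1]
      · have hp1 := D.one_le t (T t)
        have hp2 := D.le_N t (T t)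
        rw [sum_eq_single (D.pos t (T t) - 1)]
        · have : D.pos t (T t) - 1 + 1 = D.pos t (T t) := by omega
          simp only [this, b, Table.col, and_self, if_true]
          by_cases hc : a (T t).1 (D.pos t (T t)) = true <;> simp [hc]
        · intro p _ hp
          rw [if_neg, mul_zero]
          rintro ⟨-, h⟩
          omega
        · intro h
          exact absurd (mem_range.2 (by omega)) h
      · intro i _ hi
        apply sum_eq_zero
        intro p _
        rw [if_neg, mul_zero]
        rintro ⟨h, -⟩
        exact hi h.symm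
      · intro h
        exact absurd (mem_univ _) h
    simp_rw [h1]
    rw [sum_comm]
    apply sum_eq_zero
    intro i _
    rw [sum_comm]
    refine Eq.trans ?_ (hsum i)
    apply sum_congr rfl
    intro p _
    rw [hinc, mul_sum]
  -- the number of tokens of colour true is even
  have heven : Even (univ.filter fun t : Tok V => D.col T a t = true).card := by
    rw [← Int.even_coe_nat]
    have h1 : ((univ.filter fun t : Tok V => D.col T a t = true).card : ℤ) =
        ∑ t : Tok V, (if D.col T a t then (1 : ℤ) else 0) := by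
      rw [card_filter]; push_cast; rfl
    have h2 : ∑ t : Tok V, (if D.col T a t then (1 : ℤ) else 0) =
        ∑ t : Tok V, (if D.col T a t then (if (T t).2 then (-1 : ℤ) else 1) else 0) +
        2 * ∑ t : Tok V, (if D.col T a t then (if (T t).2 then (1 : ℤ) else 0) else 0) := by
      rw [mul_sum, ← sum_add_distrib]
      apply sum_congr rfl
      intro t _
      split_ifs <;> norm_num
    rw [h1, h2, hcount, zero_add]
    exact even_two_mul _
  -- double counting
  have hdc : ((univ.filter fun t : Tok V => D.col T a t = true).card : ℤ) =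
      ((univ.filter fun v : V => D.col T a (v, false) ≠ D.col T a (v, true)).card : ℤ) +
        2 * ((univ.filter fun v : V => D.col T a (v, false) = true ∧
          D.col T a (v, true) = true).card : ℤ) := by
    rw [card_filter, card_filter, card_filter]
    push_cast
    rw [Fintype.sum_prod_type, mul_sum, ← sum_add_distrib]
    apply sum_congr rfl
    intro v _
    rw [Fintype.sum_bool]
    cases D.col T a (v, false) <;> cases D.col T a (v, true) <;> simp
  rw [← Int.even_coe_nat] at heven ⊢
  rw [hdc] at heven
  have h3 := (Int.even_add.1 heven).2 (even_two_mul _)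
  exact h3

end Pool.Agent.Scatter

end

section

/-!
# Tours of the contracted instance are the completions of the path
-/

set_option autoImplicit false

namespace Pool.Agent.Scatter

open Finset Pool.Agent.MaxScatter

namespace Path

/-- Index form of permutations of lists. -/
theorem perm_idx {α : Type} {R' R : List α} (h : R'.Perm R) : ∃ σ : ℕ → ℕ,
    (∀ k < R.length, σ k < R.length) ∧
    (∀ k < R.length, ∀ l < R.length, σ k = σ l → k = l) ∧
    ∀ k < R.length, R'[k]? = R[σ k]? := by
  induction h with
  | nil => exact ⟨id, by simp, by simp, by simp⟩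
  | cons a h ih =>
    obtain ⟨σ, h1, h2, h3⟩ := ih
    refine ⟨fun k => match k with
      | 0 => 0
      | k + 1 => σ k + 1, ?_, ?_, ?_⟩
    · intro k hk
      rcases k with _ | k
      · exact hk
      · simp only [List.length_cons] at hk ⊢
        have := h1 k (by omega)
        omega
    · intro k hk l hl hkl
      simp only [List.length_cons] at hk hl
      rcases k with _ | k <;> rcases l with _ | l
      · rfl
      · simp at hkl
      · simp at hkl
      · simp only [Nat.add_right_cancel_iff] at hkl ⊢
        exact h2 k (by omega) l (by omega) hkl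
    · intro k hk
      simp only [List.length_cons] at hk
      rcases k with _ | k
      · rfl
      · simp only [List.getElem?_cons_succ]
        exact h3 k (by omega)
  | swap a b l =>
    refine ⟨fun k => match k with
      | 0 => 1
      | 1 => 0
      | k + 2 => k + 2, ?_, ?_, ?_⟩
    · intro k hk
      simp only [List.length_cons] at hk ⊢
      rcases k with _ | _ | k
      · show 1 < _
        omega
      · show 0 < _
        omega
      · exact hk
    · intro k hk l hl hkl
      rcases k with _ | _ | k <;> rcases l with _ | _ | l <;> simp at hkl ⊢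
      omega
    · intro k hk
      rcases k with _ | _ | k
      · rfl
      · rfl
      · rfl
  | trans h1 h2 ih1 ih2 =>
    obtain ⟨σ, a1, a2, a3⟩ := ih1
    obtain ⟨τ, b1, b2, b3⟩ := ih2
    have hl := h2.length_eq
    rw [hl] at a1 a2 a3
    refine ⟨fun k => τ (σ k), ?_, ?_, ?_⟩
    · intro k hk
      exact b1 _ (a1 k hk)
    · intro k hk l hl' hkl
      exact a2 k hk l hl' (b2 _ (a1 k hk) _ (a1 l hl') hkl)
    · intro k hk
      rw [a3 k hk, b3 _ (a1 k hk)]

theorem getD_append_self {α : Type} (x : α) (R' : List α) (k : ℕ) :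
    (R' ++ [x]).getD k x = R'.getD k x := by
  rw [List.getD_eq_getElem?_getD, List.getD_eq_getElem?_getD]
  rcases lt_trichotomy k R'.length with h | h | h
  · rw [List.getElem?_append_left h]
  · subst h
    simp
  · rw [List.getElem?_eq_none (by simp; omega), List.getElem?_eq_none (by omega)]

theorem completes_iff {α : Type} (rel : α → α → Prop) (x y : α) (R' : List α) :
    Completes rel x y R' ↔ ∀ k ≤ R'.length, rel ((y :: R').getD k x) (R'.getD k x) := by
  unfold Completes
  constructor
  · intro h k hk
    have h1 : k < ((y :: R').zip (R' ++ [x])).length := by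
      simp
      omega
    have h2 := h _ (List.getElem_mem h1)
    rw [List.getElem_zip] at h2
    have h3 : k < (y :: R').length := by simp; omega
    have h4 : k < (R' ++ [x]).length := by simp; omega
    rw [← getD_append_self x R' k, List.getD_eq_getElem _ _ h3, List.getD_eq_getElem _ _ h4]
    exact h2
  · intro h e he
    obtain ⟨k, hk, rfl⟩ := List.mem_iff_getElem.mp he
    rw [List.getElem_zip]
    have h1 : k ≤ R'.length := by
      simp at hk
      omega
    have h2 := h k h1
    have h3 : k < (y :: R').length := by simp; omega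
    have h4 : k < (R' ++ [x]).length := by simp; omega
    rw [← getD_append_self x R' k, List.getD_eq_getElem _ _ h3, List.getD_eq_getElem _ _ h4] at h2
    exact h2

theorem pts_zero {α : Type} (x y : α) (R : List α) (t : Tok (Fin (R.length + 1)))
    (h : t.1.1 = 0) : pathPts x y R t = if t.2 then y else x := by
  unfold pathPts
  rw [if_pos h]

theorem pts_pos {α : Type} (x y : α) (R : List α) (t : Tok (Fin (R.length + 1)))
    (h : t.1.1 ≠ 0) : pathPts x y R t = R.getD (t.1.1 - 1) x := by
  unfold pathPts
  rw [if_neg h]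

theorem flp_flp {V : Type} (t : Tok V) : flp (flp t) = t := by
  unfold flp
  simp

/-- From a completion to a tour. -/
theorem tour_of_completes {α ι : Type} [Fintype ι] [DecidableEq ι] (rel : α → α → Prop)
    (x y : α) (R : List α) (D : Table (Fin (R.length + 1)) ι)
    (hD : ∀ t t', D.Comp t t' ↔ rel (pathPts x y R t) (pathPts x y R t'))
    (R' : List α) (hp : R'.Perm R) (hc : Completes rel x y R') : D.HasTour := by
  obtain ⟨σ, h1, h2, h3⟩ := perm_idx hp
  have hlen := hp.length_eq
  rw [completes_iff] at hc
  set m := R.length with hm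
  have h3' : ∀ k < m, R'.getD k x = R.getD (σ k) x := by
    intro k hk
    rw [List.getD_eq_getElem?_getD, List.getD_eq_getElem?_getD, h3 k hk]
  have hcard : Fintype.card (Fin (m + 1)) = m + 1 := Fintype.card_fin _
  unfold Table.HasTour
  rw [hcard]
  let c0 : ℕ → ℕ := fun k => if k % (m + 1) = 0 then 0 else σ (k % (m + 1) - 1) + 1
  have hc0 : ∀ k, c0 k < m + 1 := by
    intro k
    show (if k % (m + 1) = 0 then 0 else σ (k % (m + 1) - 1) + 1) < m + 1
    split_ifs with h
    · omega
    · have := Nat.mod_lt k (show 0 < m + 1 by omega)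
      have := h1 (k % (m + 1) - 1) (by omega)
      omega
  refine ⟨fun k => (⟨c0 k, hc0 k⟩, false), ?_, ?_, ?_⟩
  · intro k
    have : c0 (k + (m + 1)) = c0 k := by
      show (if (k + (m + 1)) % (m + 1) = 0 then 0 else σ ((k + (m + 1)) % (m + 1) - 1) + 1) = _
      rw [Nat.add_mod_right]
    simp only [this]
  · intro v
    by_cases hv : v.1 = 0
    · refine ⟨0, Nat.succ_pos m, ?_⟩
      apply Fin.ext
      show c0 0 = v.1
      rw [hv]
      show (if 0 % (m + 1) = 0 then 0 else σ (0 % (m + 1) - 1) + 1) = 0
      rw [if_pos (Nat.zero_mod _)]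
    · have hinj : Function.Injective (fun k : Fin m => (⟨σ k.1, h1 k.1 k.2⟩ : Fin m)) := by
        intro a b hab
        apply Fin.ext
        exact h2 a.1 a.2 b.1 b.2 (congrArg Fin.val hab)
      have hsurj := Finite.surjective_of_injective hinj
      have hv1 := v.2
      obtain ⟨k, hk⟩ := hsurj ⟨v.1 - 1, by omega⟩
      have hk' : σ k.1 = v.1 - 1 := congrArg Fin.val hk
      refine ⟨k.1 + 1, by omega, ?_⟩
      apply Fin.ext
      show c0 (k.1 + 1) = v.1
      have hkm : (k.1 + 1) % (m + 1) = k.1 + 1 := Nat.mod_eq_of_lt (by omega)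
      show (if (k.1 + 1) % (m + 1) = 0 then 0 else σ ((k.1 + 1) % (m + 1) - 1) + 1) = v.1
      rw [hkm, if_neg (by omega), Nat.add_sub_cancel, hk']
      omega
  · intro k
    rw [hD]
    have hj := Nat.mod_lt k (show 0 < m + 1 by omega)
    set j := k % (m + 1) with hjdef
    have e1 : pathPts x y R (flp ((⟨c0 k, hc0 k⟩ : Fin (m + 1)), false)) = (y :: R').getD j x := by
      by_cases h0 : j = 0
      · have hz : c0 k = 0 := by
          show (if k % (m + 1) = 0 then 0 else σ (k % (m + 1) - 1) + 1) = 0
          rw [if_pos h0]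
        rw [pts_zero x y R _ hz, h0]
        rfl
      · have hz : c0 k = σ (j - 1) + 1 := by
          show (if k % (m + 1) = 0 then 0 else σ (k % (m + 1) - 1) + 1) = _
          rw [if_neg h0]
        rw [pts_pos x y R _ (by show c0 k ≠ 0; omega)]
        show R.getD (c0 k - 1) x = _
        rw [hz, Nat.add_sub_cancel, ← h3' (j - 1) (by omega)]
        obtain ⟨i, hi⟩ : ∃ i, j = i + 1 := ⟨j - 1, by omega⟩
        rw [hi]
        rfl
    have e2 : pathPts x y R ((⟨c0 (k + 1), hc0 (k + 1)⟩ : Fin (m + 1)), false) = R'.getD j x := by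
      by_cases h0 : j = m
      · have hk1 : (k + 1) % (m + 1) = 0 := by
          rw [Nat.add_mod, ← hjdef, h0]
          rcases Nat.eq_zero_or_pos m with hm0 | hm0
          · rw [hm0]
          · rw [Nat.mod_eq_of_lt (show 1 < m + 1 by omega), Nat.mod_self]
        have hz : c0 (k + 1) = 0 := by
          show (if (k + 1) % (m + 1) = 0 then 0 else σ ((k + 1) % (m + 1) - 1) + 1) = 0
          rw [if_pos hk1]
        rw [pts_zero x y R _ hz, h0, List.getD_eq_default _ _ (by omega)]
        rfl
      · have hk1 : (k + 1) % (m + 1) = j + 1 := by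
          rw [Nat.add_mod, ← hjdef, Nat.mod_eq_of_lt (show 1 < m + 1 by omega),
            Nat.mod_eq_of_lt (by omega)]
        have hz : c0 (k + 1) = σ j + 1 := by
          show (if (k + 1) % (m + 1) = 0 then 0 else σ ((k + 1) % (m + 1) - 1) + 1) = _
          rw [hk1, if_neg (by omega), Nat.add_sub_cancel]
        rw [pts_pos x y R _ (by show c0 (k + 1) ≠ 0; omega)]
        show R.getD (c0 (k + 1) - 1) x = _
        rw [hz, Nat.add_sub_cancel, h3' j (by omega)]
    show rel (pathPts x y R (flp ((⟨c0 k, hc0 k⟩ : Fin (m + 1)), false)))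
      (pathPts x y R ((⟨c0 (k + 1), hc0 (k + 1)⟩ : Fin (m + 1)), false))
    rw [e1, e2]
    exact hc j (by omega)

/-- From a closed sequence of tokens to a completion. -/
theorem completes_of_seq {α ι : Type} [Fintype ι] [DecidableEq ι] (rel : α → α → Prop)
    (x y : α) (R : List α) (D : Table (Fin (R.length + 1)) ι)
    (hD : ∀ t t', D.Comp t t' ↔ rel (pathPts x y R t) (pathPts x y R t'))
    (c : ℕ → Tok (Fin (R.length + 1))) (h0 : c 0 = (0, false)) (hn : c (R.length + 1) = (0, false))
    (hcov : ∀ v, ∃ k < R.length + 1, (c k).1 = v)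
    (hcomp : ∀ k < R.length + 1, D.Comp (flp (c k)) (c (k + 1))) :
    ∃ R' : List α, R'.Perm R ∧ Completes rel x y R' := by
  have hsurj : Function.Surjective (fun k : Fin (R.length + 1) => (c k.1).1) := by
    intro v
    obtain ⟨k, hk, hv⟩ := hcov v
    exact ⟨⟨k, hk⟩, hv⟩
  have hinj := Finite.injective_iff_surjective.mpr hsurj
  have hpos : ∀ j < R.length, (c (j + 1)).1.1 ≠ 0 := by
    intro j hj hz
    have h1 : (c (j + 1)).1 = (c 0).1 := by
      apply Fin.ext
      rw [hz, h0]
      rfl
    have h2 := @hinj ⟨j + 1, by omega⟩ ⟨0, by omega⟩ h1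
    have h3 := congrArg Fin.val h2
    simp at h3
  have hlt : ∀ j < R.length, (c (j + 1)).1.1 - 1 < R.length := by
    intro j hj
    have := (c (j + 1)).1.2
    have := hpos j hj
    omega
  let τ : Fin R.length → Fin R.length := fun j => ⟨(c (j.1 + 1)).1.1 - 1, hlt j.1 j.2⟩
  have hτ : Function.Injective τ := by
    intro a b hab
    have h1 : (c (a.1 + 1)).1.1 - 1 = (c (b.1 + 1)).1.1 - 1 := congrArg Fin.val hab
    have h2 : (c (a.1 + 1)).1 = (c (b.1 + 1)).1 := by
      apply Fin.ext
      have := hpos a.1 a.2
      have := hpos b.1 b.2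
      omega
    have h3 := @hinj ⟨a.1 + 1, by omega⟩ ⟨b.1 + 1, by omega⟩ h2
    have h4 := congrArg Fin.val h3
    apply Fin.ext
    simpa using h4
  have hτb : Function.Bijective τ := Finite.injective_iff_bijective.mp hτ
  let π : Equiv.Perm (Fin R.length) := Equiv.ofBijective τ hτb
  have hR : List.ofFn (fun i : Fin R.length => R[i.1]'(i.2)) = R := List.ofFn_getElem
  refine ⟨List.ofFn ((fun i : Fin R.length => R[i.1]'(i.2)) ∘ π), ?_, ?_⟩
  · have := Equiv.Perm.ofFn_comp_perm π (fun i : Fin R.length => R[i.1]'(i.2))
    rw [hR] at this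
    exact this
  · rw [completes_iff]
    intro k hk
    rw [List.length_ofFn] at hk
    have h1 := (hD _ _).mp (hcomp k (by omega))
    have e0 : ∀ j, j < R.length → (List.ofFn ((fun i : Fin R.length => R[i.1]'(i.2)) ∘ π)).getD j x =
        R.getD ((c (j + 1)).1.1 - 1) x := by
      intro j hj
      rw [List.getD_eq_getElem _ _ (by simpa using hj), List.getElem_ofFn,
        List.getD_eq_getElem _ _ (hlt j hj)]
      rfl
    have e1 : pathPts x y R (flp (c k)) =
        (y :: List.ofFn ((fun i : Fin R.length => R[i.1]'(i.2)) ∘ π)).getD k x := by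
      rcases k with _ | j
      · rw [h0]
        rfl
      · rw [pts_pos x y R (flp (c (j + 1))) (hpos j (by omega)), List.getD_cons_succ,
          e0 j (by omega)]
        rfl
    have e2 : pathPts x y R (c (k + 1)) =
        (List.ofFn ((fun i : Fin R.length => R[i.1]'(i.2)) ∘ π)).getD k x := by
      rcases hk.eq_or_lt with h | h
      · rw [h, hn, List.getD_eq_default _ _ (by simp)]
        rfl
      · rw [pts_pos x y R _ (hpos k h), e0 k h]
    rw [← e1, ← e2]
    exact h1

end Path

/-- Tours of the contracted instance are the completions of the path. -/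
theorem claimPath : ClaimPath := by
  intro α ι _ _ rel hrel x y R D hD
  have hsymm : ∀ t t', D.Comp t t' → D.Comp t' t := by
    intro t t' h
    rw [hD] at h ⊢
    exact hrel _ _ h
  constructor
  · rintro ⟨c, hper, hcov, hcomp⟩
    rw [Fintype.card_fin] at hper hcov
    have hpm : ∀ q k, c (k + (R.length + 1) * q) = c k := by
      intro q
      induction q with
      | zero => intro k; rfl
      | succ q ih => intro k; rw [Nat.mul_succ, ← Nat.add_assoc, hper, ih]
    obtain ⟨k0, _, hk0⟩ := hcov 0
    have hcov' : ∀ v, ∃ j < (R.length + 1), (c (k0 + j)).1 = v := by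
      intro v
      obtain ⟨k, hk, hv⟩ := hcov v
      refine ⟨(k + (R.length + 1) * k0 - k0) % (R.length + 1), Nat.mod_lt _ (by omega), ?_⟩
      have h1 : k0 ≤ k + (R.length + 1) * k0 := by nlinarith
      have h2 := Nat.mod_add_div (k + (R.length + 1) * k0 - k0) (R.length + 1)
      have h3 : c (k0 + (k + (R.length + 1) * k0 - k0) % (R.length + 1)) = c (k0 + (k + (R.length + 1) * k0 - k0)) := by
        rw [← hpm ((k + (R.length + 1) * k0 - k0) / (R.length + 1)) (k0 + (k + (R.length + 1) * k0 - k0) % (R.length + 1)), Nat.add_assoc, h2]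
      rw [h3, Nat.add_sub_cancel' h1, hpm]
      exact hv
    rcases hb : (c k0).2 with _ | _
    · have hc0 : c k0 = (0, false) := Prod.ext hk0 hb
      refine Path.completes_of_seq rel x y R D hD (fun j => c (k0 + j)) ?_ ?_ hcov' ?_
      · exact hc0
      · show c (k0 + (R.length + 1)) = _
        rw [hper, hc0]
      · intro k _
        exact hcomp (k0 + k)
    · have hc0 : c k0 = (0, true) := Prod.ext hk0 hb
      refine Path.completes_of_seq rel x y R D hD (fun j => flp (c (k0 + (R.length + 1) - j))) ?_ ?_ ?_ ?_
      · show flp (c (k0 + (R.length + 1) - 0)) = _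
        rw [Nat.sub_zero, hper, hc0]
        rfl
      · show flp (c (k0 + (R.length + 1) - (R.length + 1))) = _
        rw [Nat.add_sub_cancel, hc0]
        rfl
      · intro v
        obtain ⟨j, hj, hv⟩ := hcov' v
        rcases Nat.eq_zero_or_pos j with h | h
        · refine ⟨0, by omega, ?_⟩
          show (c (k0 + (R.length + 1) - 0)).1 = v
          rw [Nat.sub_zero, hper, ← hv, h]
          rfl
        · refine ⟨(R.length + 1) - j, by omega, ?_⟩
          show (c (k0 + (R.length + 1) - ((R.length + 1) - j))).1 = v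
          have : k0 + (R.length + 1) - ((R.length + 1) - j) = k0 + j := by omega
          rw [this, hv]
      · intro k hk
        show D.Comp (flp (flp (c (k0 + (R.length + 1) - k)))) (flp (c (k0 + (R.length + 1) - (k + 1))))
        rw [Path.flp_flp]
        apply hsymm
        have := hcomp (k0 + (R.length + 1) - (k + 1))
        have e : k0 + (R.length + 1) - (k + 1) + 1 = k0 + (R.length + 1) - k := by omega
        rwa [e] at this
  · rintro ⟨R', hp, hc⟩
    exact Path.tour_of_completes rel x y R D hD R' hp hc

end Pool.Agent.Scatter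

end

section

/-!
# Weyl's theorem for symmetric polytopes over a subfield (MP_5296b6_lc)
-/

set_option autoImplicit false

namespace Pool.Agent.Scatter

open Finset Pool.Agent.MaxScatter

namespace Weyl

/-- Cones generated by finitely many vectors over `K` are given by finitely many linear
inequalities over `K` (Fourier-Motzkin). -/
theorem cone {J : Type} [Fintype J] [DecidableEq J] (K : Subfield ℝ) (S : Finset (J → ℝ)) :
    (∀ v ∈ S, ∀ j, v j ∈ K) → ∃ G : Finset (J → ℝ), (∀ g ∈ G, ∀ j, g j ∈ K) ∧
      ∀ x : J → ℝ, (∃ c : (J → ℝ) → ℝ, (∀ v ∈ S, 0 ≤ c v) ∧ x = ∑ v ∈ S, c v • v) ↔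
        ∀ g ∈ G, 0 ≤ ∑ j, g j * x j := by
  classical
  induction S using Finset.induction_on with
  | empty =>
    intro _
    refine ⟨(univ.image fun j : J => (Pi.single j 1 : J → ℝ)) ∪
      (univ.image fun j : J => -(Pi.single j 1 : J → ℝ)), ?_, ?_⟩
    · intro g hg j
      have h1 : ∀ i j : J, (Pi.single i 1 : J → ℝ) j ∈ K := by
        intro i j
        by_cases h : j = i
        · subst h; simp [K.one_mem]
        · simp [Pi.single_eq_of_ne h, K.zero_mem]
      rcases mem_union.1 hg with h | h
      · obtain ⟨i, _, rfl⟩ := mem_image.1 h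
        exact h1 i j
      · obtain ⟨i, _, rfl⟩ := mem_image.1 h
        exact K.neg_mem (h1 i j)
    · intro x
      constructor
      · rintro ⟨c, _, rfl⟩
        intro g _
        simp
      · intro h
        refine ⟨fun _ => 0, by simp, ?_⟩
        rw [sum_empty]
        funext i
        have h1 := h (Pi.single i 1) (mem_union_left _ (mem_image_of_mem _ (mem_univ i)))
        have h2 := h (-Pi.single i 1) (mem_union_right _ (mem_image.2 ⟨i, mem_univ i, rfl⟩))
        simp [Pi.single_apply] at h1 h2
        exact le_antisymm h2 h1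
  | insert v S hv ih =>
    intro hK
    obtain ⟨G, hG, hc⟩ := ih fun w hw => hK w (mem_insert_of_mem hw)
    have hvK := hK v (mem_insert_self _ _)
    set d : (J → ℝ) → (J → ℝ) → ℝ := fun g x => ∑ j, g j * x j with hd
    have hdK : ∀ g ∈ G, d g v ∈ K := fun g hg =>
      K.sum_mem fun j _ => K.mul_mem (hG g hg j) (hvK j)
    refine ⟨(G.filter fun g => 0 ≤ d g v) ∪
      (((G.filter fun h => 0 < d h v) ×ˢ (G.filter fun g => d g v < 0)).image
        fun p => (d p.1 v) • p.2 - (d p.2 v) • p.1), ?_, ?_⟩
    · intro g hg j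
      rcases mem_union.1 hg with h | h
      · exact hG g (mem_filter.1 h).1 j
      · obtain ⟨p, hp, rfl⟩ := mem_image.1 h
        rw [mem_product, mem_filter, mem_filter] at hp
        exact K.sub_mem (K.mul_mem (hdK _ hp.1.1) (hG _ hp.2.1 j))
          (K.mul_mem (hdK _ hp.2.1) (hG _ hp.1.1 j))
    · intro x
      have hlin : ∀ g : J → ℝ, ∀ t : ℝ, ∑ j, g j * (x - t • v) j = d g x - t * d g v := by
        intro g t
        simp only [hd, Pi.sub_apply, Pi.smul_apply, smul_eq_mul, mul_sub, sum_sub_distrib,
          mul_sum]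
        congr 1
        exact sum_congr rfl fun j _ => by ring
      have hcomb : ∀ h g : J → ℝ, ∑ j, ((d h v) • g - (d g v) • h) j * x j =
          d h v * d g x - d g v * d h x := by
        intro h g
        have e1 : d h v * d g x = ∑ j, d h v * (g j * x j) := by
          simp only [hd, mul_sum]
        have e2 : d g v * d h x = ∑ j, d g v * (h j * x j) := by
          simp only [hd, mul_sum]
        rw [e1, e2, ← sum_sub_distrib]
        refine sum_congr rfl fun j _ => ?_
        simp only [Pi.sub_apply, Pi.smul_apply, smul_eq_mul]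
        ring
      have hcone : (∃ c : (J → ℝ) → ℝ, (∀ w ∈ insert v S, 0 ≤ c w) ∧
          x = ∑ w ∈ insert v S, c w • w) ↔ ∃ t : ℝ, 0 ≤ t ∧ ∀ g ∈ G, t * d g v ≤ d g x := by
        constructor
        · rintro ⟨c, hc0, hx⟩
          refine ⟨c v, hc0 v (mem_insert_self _ _), ?_⟩
          have h1 := (hc (x - c v • v)).1 ⟨c, fun w hw => hc0 w (mem_insert_of_mem hw), by
            rw [hx, sum_insert hv, add_sub_cancel_left]⟩
          intro g hg
          have h2 := h1 g hg
          rw [hlin] at h2
          linarith
        · rintro ⟨t, ht, hg⟩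
          obtain ⟨c, hc0, hx⟩ := (hc (x - t • v)).2 fun g hg' => by
            rw [hlin]; linarith [hg g hg']
          refine ⟨Function.update c v t, ?_, ?_⟩
          · intro w hw
            rcases mem_insert.1 hw with rfl | hw
            · rw [Function.update_self]; exact ht
            · rw [Function.update_of_ne (ne_of_mem_of_not_mem hw hv)]
              exact hc0 w hw
          · rw [sum_insert hv, Function.update_self]
            have : ∑ w ∈ S, Function.update c v t w • w = ∑ w ∈ S, c w • w :=
              sum_congr rfl fun w hw => by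
                rw [Function.update_of_ne (ne_of_mem_of_not_mem hw hv)]
            rw [this, ← hx]
            simp
      rw [hcone]
      constructor
      · rintro ⟨t, ht, hg⟩ g' hg'
        rcases mem_union.1 hg' with h | h
        · rw [mem_filter] at h
          have := hg g' h.1
          have h3 := mul_nonneg ht h.2
          linarith
        · obtain ⟨p, hp, rfl⟩ := mem_image.1 h
          rw [mem_product, mem_filter, mem_filter] at hp
          rw [hcomb]
          have e1 := hg _ hp.1.1
          have e2 := hg _ hp.2.1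
          nlinarith [hp.1.2, hp.2.2]
      · intro h
        have hG0 : ∀ g ∈ G, 0 ≤ d g v → 0 ≤ d g x := fun g hg h0 =>
          h g (mem_union_left _ (mem_filter.2 ⟨hg, h0⟩))
        have hGG : ∀ h' ∈ G, 0 < d h' v → ∀ g ∈ G, d g v < 0 →
            0 ≤ d h' v * d g x - d g v * d h' x := by
          intro h' hh' h0 g hg h1
          rw [← hcomb]
          exact h _ (mem_union_right _ (mem_image.2 ⟨(h', g), mem_product.2
            ⟨mem_filter.2 ⟨hh', h0⟩, mem_filter.2 ⟨hg, h1⟩⟩, rfl⟩))
        -- the largest lower bound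
        set L : Finset ℝ := insert 0 ((G.filter fun g => d g v < 0).image
          fun g => d g x / d g v) with hL
        have hLne : L.Nonempty := insert_nonempty _ _
        refine ⟨L.max' hLne, L.le_max' 0 (mem_insert_self _ _), ?_⟩
        intro g hg
        rcases lt_trichotomy (d g v) 0 with h0 | h0 | h0
        · have h1 : d g x / d g v ≤ L.max' hLne := L.le_max' _ (mem_insert_of_mem
            (mem_image.2 ⟨g, mem_filter.2 ⟨hg, h0⟩, rfl⟩))
          rw [div_le_iff_of_neg h0] at h1
          exact h1
        · rw [h0, mul_zero]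
          exact hG0 g hg h0.ge
        · rw [← le_div_iff₀ h0]
          refine L.max'_le hLne _ fun y hy => ?_
          rcases mem_insert.1 hy with rfl | hy
          · exact div_nonneg (hG0 g hg h0.le) h0.le
          · obtain ⟨g', hg', rfl⟩ := mem_image.1 hy
            rw [mem_filter] at hg'
            rw [div_le_iff_of_neg hg'.2, div_mul_eq_mul_div, div_le_iff₀ h0]
            have := hGG g hg h0 g' hg'.1 hg'.2
            linarith

/-- Homogenisation. -/
def lift {s : ℕ} (x : Fin s → ℝ) : Option (Fin s) → ℝ := fun o => o.elim 1 x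

theorem lift_injective {s : ℕ} : Function.Injective (lift : (Fin s → ℝ) → _) := by
  intro x y h
  funext j
  exact congrFun h (some j)

theorem hull {s : ℕ} (K : Subfield ℝ) (W : Finset (Fin s → ℝ)) (hW : ∀ w ∈ W, ∀ j, w j ∈ K) :
    ∃ G : Finset (Option (Fin s) → ℝ), (∀ g ∈ G, ∀ j, g j ∈ K) ∧
      ∀ x : Fin s → ℝ, x ∈ convexHull ℝ (W : Set (Fin s → ℝ)) ↔
        ∀ g ∈ G, 0 ≤ g none + ∑ j, g (some j) * x j := by
  classical
  obtain ⟨G, hG, hc⟩ := cone K (W.image lift) (by
    intro v hv j
    obtain ⟨w, hw, rfl⟩ := mem_image.1 hv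
    cases j with
    | none => exact K.one_mem
    | some j => exact hW w hw j)
  refine ⟨G, hG, fun x => ?_⟩
  have h1 : (∀ g ∈ G, 0 ≤ g none + ∑ j, g (some j) * x j) ↔
      ∀ g ∈ G, 0 ≤ ∑ j, g j * lift x j := by
    refine forall₂_congr fun g _ => ?_
    rw [Fintype.sum_option]
    simp [lift]
  rw [h1, ← hc, Finset.mem_convexHull']
  constructor
  · rintro ⟨c, hc0, hc1, hcx⟩
    refine ⟨fun v => c fun j => v (some j), ?_, ?_⟩
    · intro v hv
      obtain ⟨w, hw, rfl⟩ := mem_image.1 hv
      exact hc0 w hw
    · rw [sum_image fun a _ b _ h => lift_injective h]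
      funext o
      rw [Finset.sum_apply]
      cases o with
      | none =>
        change (1 : ℝ) = ∑ w ∈ W, c w * 1
        simp [hc1]
      | some j =>
        change x j = ∑ w ∈ W, c w * w j
        rw [← hcx, Finset.sum_apply]
        rfl
  · rintro ⟨c, hc0, hcx⟩
    rw [sum_image fun a _ b _ h => lift_injective h] at hcx
    refine ⟨fun w => c (lift w), fun w hw => hc0 _ (mem_image_of_mem _ hw), ?_, ?_⟩
    · have := congrFun hcx none
      rw [Finset.sum_apply] at this
      change (1 : ℝ) = ∑ w ∈ W, c (lift w) * 1 at this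
      simpa using this.symm
    · funext j
      have := congrFun hcx (some j)
      rw [Finset.sum_apply] at this
      rw [Finset.sum_apply]
      exact this.symm

end Weyl

theorem claimWeyl : ClaimWeyl := by
  classical
  intro K s W hW hB
  obtain ⟨G, hG, hGx⟩ := Weyl.hull K W hW
  set B : Set (Fin s → ℝ) := convexHull ℝ (W : Set (Fin s → ℝ)) with hBdef
  have hconv : Convex ℝ B := convex_convexHull _ _
  -- the origin is an interior point
  have h0 : (0 : Fin s → ℝ) ∈ interior B := by
    obtain ⟨p, hp⟩ := hB.full
    have hneg : -p ∈ interior B := by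
      have h1 : (Homeomorph.neg (Fin s → ℝ)) ⁻¹' (interior B) ⊆ B := by
        intro x hx
        have := hB.symm _ (interior_subset hx)
        simpa using this
      have h2 : (Homeomorph.neg (Fin s → ℝ)) ⁻¹' (interior B) ⊆ interior B :=
        interior_maximal h1 (isOpen_interior.preimage (Homeomorph.neg _).continuous)
      exact h2 (by simpa using hp)
    have := hconv.interior hp hneg (a := 1 / 2) (b := 1 / 2) (by norm_num) (by norm_num)
      (by norm_num)
    simpa using this
  obtain ⟨r, hr, hball⟩ := Metric.isOpen_iff.1 isOpen_interior 0 h0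
  have hballB : ∀ x : Fin s → ℝ, ‖x‖ < r → x ∈ B := fun x hx =>
    interior_subset (hball (by rwa [mem_ball_zero_iff]))
  -- the inequalities
  have hb : ∀ g ∈ G, 0 ≤ g none := by
    intro g hg
    have := (hGx 0).1 (interior_subset h0) g hg
    simpa using this
  have hb0 : ∀ g ∈ G, g none = 0 → ∀ j, g (some j) = 0 := by
    intro g hg h j
    have key : ∀ t : ℝ, |t| < r → 0 ≤ g (some j) * t := by
      intro t ht
      have h1 := (hGx (Pi.single j t)).1 (hballB _ (by rwa [Pi.norm_single, Real.norm_eq_abs]))
        g hg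
      rw [h, zero_add, sum_eq_single j] at h1
      · simpa using h1
      · intro i _ hi
        simp [Pi.single_eq_of_ne hi]
      · simp
    have h1 := key (r / 2) (by rw [abs_of_pos (by positivity)]; linarith)
    have h2 := key (-(r / 2)) (by rw [abs_neg, abs_of_pos (by positivity)]; linarith)
    nlinarith
  set G' : Finset (Option (Fin s) → ℝ) := G.filter fun g => 0 < g none with hG'
  have hmain : B = {x | ∀ g ∈ G', |∑ j, g (some j) / g none * x j| ≤ 1} := by
    have hsum : ∀ (g : Option (Fin s) → ℝ) (x : Fin s → ℝ),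
        ∑ j, g (some j) / g none * x j = (∑ j, g (some j) * x j) / g none := by
      intro g x
      rw [sum_div]
      exact sum_congr rfl fun j _ => by ring
    ext x
    constructor
    · intro hx g hg
      rw [hG', mem_filter] at hg
      rw [hsum, abs_le, le_div_iff₀ hg.2, div_le_iff₀ hg.2]
      have h1 := (hGx x).1 hx g hg.1
      have h2 := (hGx (-x)).1 (hB.symm x hx) g hg.1
      simp only [Pi.neg_apply, mul_neg, sum_neg_distrib] at h2
      constructor <;> linarith
    · intro hx
      refine (hGx x).2 fun g hg => ?_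
      rcases (hb g hg).eq_or_lt with h | h
      · rw [← h]
        simp [hb0 g hg h.symm]
      · have h1 := hx g (mem_filter.2 ⟨hg, h⟩)
        rw [hsum, abs_le, le_div_iff₀ h] at h1
        linarith [h1.1]
  refine ⟨G'.card, fun i j => (G'.equivFin.symm i : Option (Fin s) → ℝ) (some j) /
    (G'.equivFin.symm i : Option (Fin s) → ℝ) none, ?_, ?_⟩
  · intro i j
    have := (mem_filter.1 (G'.equivFin.symm i).2).1
    exact K.div_mem (hG _ this _) (hG _ this _)
  · rw [hmain]
    ext x
    constructor
    · intro hx i
      exact hx _ (G'.equivFin.symm i).2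
    · intro hx g hg
      have := hx (G'.equivFin ⟨g, hg⟩)
      simpa using this

end Pool.Agent.Scatter

end

section

/-!
# The dynamic program on words: existence of steps, start and accepting states
-/

set_option autoImplicit false

namespace Pool.Agent.Work.MP_5296b6_lc

open Pool.Agent.PT

variable {S : Type} {K : ℕ} {I : WInst S} {N : ℕ} {s s2 : St S K} {κ : S} {d : Bool}
  {th th' : S → ℕ} {δ δ' : S → ℕ → Bool}

theorem exists_slot (hW : WF I N) (hr : Rep I s th δ) (he : Ext κ d th δ th' δ')
    (hlt : th κ < (I.2 κ).length) (hK : {v | v < I.1 ∧ Irr I th' δ' v}.ncard ≤ K)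
    (hirr : Irr I th' δ' (ltr I κ (th κ)).1.1) :
    ∃ k, ssl s k = none ∨ ssl s k = some (ltr I κ (th κ)).1.1 := by
  classical
  by_contra hcon
  push Not at hcon
  have h1 : ∀ k, ∃ u, ssl s k = some u := fun k => Option.ne_none_iff_exists'.1 (hcon k).1
  choose g hg using h1
  have hinj : Function.Injective g := by
    intro k k' h
    exact hr.inj k k' (g k) (hg k) (by rw [h]; exact hg k')
  have hv := ltr_vert hW hlt
  have hnot : (ltr I κ (th κ)).1.1 ∉ Finset.univ.image g := by
    intro h
    obtain ⟨k, -, hk⟩ := Finset.mem_image.1 h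
    exact (hcon k).2 (by rw [hg k, hk])
  have hsub : ((insert (ltr I κ (th κ)).1.1 (Finset.univ.image g) : Finset ℕ) : Set ℕ) ⊆
      {v | v < I.1 ∧ Irr I th' δ' v} := by
    intro u hu
    rw [Finset.mem_coe, Finset.mem_insert] at hu
    rcases hu with rfl | hu
    · exact ⟨hv, hirr⟩
    · obtain ⟨k, -, rfl⟩ := Finset.mem_image.1 hu
      have h2 : g k ≠ (ltr I κ (th κ)).1.1 := fun h => hnot (by rw [← h]; exact hu)
      have h3 := (hr.sl (g k)).1 ⟨k, hg k⟩
      exact ⟨h3.1, (he.irr hlt h2).2 h3.2⟩
  have hfin : {v | v < I.1 ∧ Irr I th' δ' v}.Finite :=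
    (Set.finite_lt_nat I.1).subset (fun v hv => hv.1)
  have h2 := Set.ncard_le_ncard hsub hfin
  rw [Set.ncard_coe_finset, Finset.card_insert_of_notMem hnot,
    Finset.card_image_of_injective _ hinj, Finset.card_univ, Fintype.card_fin] at h2
  omega

theorem step_exists (hW : WF I N) (hr : Rep I s th δ) (he : Ext κ d th δ th' δ')
    (hp' : PSol I th' δ') (hlt : th κ < (I.2 κ).length)
    (hK : {v | v < I.1 ∧ Irr I th' δ' v}.ncard ≤ K) : ∃ s2 : St S K, Step I κ d s s2 := by
  classical
  have hv := ltr_vert hW hlt
  set v := (ltr I κ (th κ)).1.1 with hvdef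
  obtain ⟨k0, hk0⟩ : ∃ k0 : Option (Fin K), (Irr I th' δ' v → ∃ k, k0 = some k ∧
      (ssl s k = none ∨ ssl s k = some v)) ∧ (¬ Irr I th' δ' v → k0 = none) := by
    by_cases h : Irr I th' δ' v
    · obtain ⟨k, hk⟩ := exists_slot hW hr he hlt hK h
      exact ⟨some k, fun _ => ⟨k, rfl, hk⟩, fun h' => absurd h h'⟩
    · exact ⟨none, fun h' => absurd h' h, fun _ => rfl⟩
  let sl2 : Fin K → Option ℕ := fun k =>
    if ssl s k = none ∨ ssl s k = some v then (if k0 = some k then some v else none) else ssl s k
  let pl2 : Fin K → Bool × Bool := fun k =>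
    if sl2 k = some v then (decide (Pls' I κ d s (v, false)), decide (Pls' I κ d s (v, true)))
    else spl s k
  let g2 : S → ℕ := Function.update (sg s) κ (fl I δ' κ (th κ + 1)).toNat
  let th2 : S → ℕ := Function.update (sth s) κ (sth s κ + 1)
  let s0 : St S K := (th2, g2, sl2, pl2, fun _ => false)
  let tr2 : Tr S K → Bool := fun τ' =>
    decide (∃ τ, str s τ = true ∧ Compat κ d v s s0 τ τ')
  have hth2 : th2 = th' := by
    funext κ'
    show Function.update (sth s) κ (sth s κ + 1) κ' = _
    by_cases e : κ' = κ
    · subst e; rw [Function.update_self, he.t1, hr.hth]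
    · rw [Function.update_of_ne e, he.t2 _ e, hr.hth]
  have hnn : 0 ≤ fl I δ' κ (th κ + 1) := hp'.nonneg κ _ (by rw [he.t1])
  have hg2 : ((g2 κ : ℕ) : ℤ) = (sg s κ : ℤ) +
      if d = true then (if (ltr I κ (th κ)).2 = true then 1 else -1) else 0 := by
    show ((Function.update (sg s) κ (fl I δ' κ (th κ + 1)).toNat κ : ℕ) : ℤ) = _
    rw [Function.update_self, Int.toNat_of_nonneg hnn, he.fl_last, hr.g κ]
  refine ⟨(th2, g2, sl2, pl2, tr2), ?_⟩
  have hth : sth s = th := hr.hth
  constructor
  · rw [hth]; exact hlt
  · show Function.update (sth s) κ (sth s κ + 1) κ = _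
    rw [Function.update_self]
  · intro κ' h
    show Function.update (sth s) κ (sth s κ + 1) κ' = _
    rw [Function.update_of_ne h]
  · intro hd
    show g2 κ = sg s κ
    rw [hd] at hg2
    simp only [Bool.false_eq_true, if_false, add_zero] at hg2
    exact_mod_cast hg2
  · intro hd h1
    show g2 κ = sg s κ + 1
    rw [hth] at h1
    rw [hd, h1] at hg2
    simp only [if_true] at hg2
    exact_mod_cast hg2
  · intro hd h1
    show g2 κ + 1 = sg s κ
    rw [hth] at h1
    rw [hd, h1] at hg2
    simp only [if_true, Bool.false_eq_true, if_false] at hg2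
    omega
  · intro κ' h
    show Function.update (sg s) κ _ κ' = _
    rw [Function.update_of_ne h]
  · intro hd h1
    rw [hth] at h1
    obtain ⟨κ', r, h2, h3, h4⟩ := (hr.pls hv (ltr I κ (th κ)).1.2).1 h1
    have h5 := hp'.once κ' κ r (th κ) (lt_of_lt_of_le h2 (he.le _)) (by rw [he.t1]; omega)
      (by rw [he.d1 _ _ h2]; exact h4) (by rw [he.d2]; exact hd) h3
    obtain ⟨rfl, rfl⟩ := h5
    exact lt_irrefl _ h2
  · intro k h1 h2
    rw [hth] at h2
    have h3 : sl2 k = ssl s k := by
      show (if _ then _ else _) = _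
      rw [if_neg (by rintro (h | h); exacts [h1 h, h2 h])]
    refine ⟨h3, ?_⟩
    show (if sl2 k = some v then _ else _) = _
    rw [if_neg (by rw [h3]; exact h2)]
  · intro k h1
    rw [hth] at h1 ⊢
    show sl2 k = none ∨ sl2 k = some v
    have h3 : sl2 k = if k0 = some k then some v else none := by
      show (if _ then _ else _) = _
      rw [if_pos h1]
    rw [h3]
    by_cases h : k0 = some k
    · rw [if_pos h]; exact Or.inr rfl
    · rw [if_neg h]; exact Or.inl rfl
  · intro k k' h1 h2
    rw [hth] at h1 h2
    have key : ∀ k, sl2 k = some v → k0 = some k := by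
      intro k h
      by_contra hne
      have h3 : sl2 k = if ssl s k = none ∨ ssl s k = some v then none else ssl s k := by
        show (if _ then (if _ then _ else _) else _) = _
        rw [if_neg hne]
      rw [h3] at h
      by_cases h4 : ssl s k = none ∨ ssl s k = some v
      · rw [if_pos h4] at h; exact absurd h (by simp)
      · rw [if_neg h4] at h; exact h4 (Or.inr h)
    have := (key k h1).symm.trans (key k' h2)
    exact Option.some.inj this
  · rw [hth]
    have h1 : (∃ k, sl2 k = some v) ↔ Irr I th' δ' v := by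
      constructor
      · rintro ⟨k, hk⟩
        by_contra hn
        have h3 : sl2 k = if ssl s k = none ∨ ssl s k = some v then none else ssl s k := by
          show (if ssl s k = none ∨ ssl s k = some v then (if k0 = some k then some v else none)
            else ssl s k) = _
          have h9 : ¬ (k0 = some k) := by rw [hk0.2 hn]; simp
          rw [if_neg h9]
        rw [h3] at hk
        by_cases h4 : ssl s k = none ∨ ssl s k = some v
        · rw [if_pos h4] at hk; exact absurd hk (by simp)
        · rw [if_neg h4] at hk; exact h4 (Or.inr hk)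
      · intro h
        obtain ⟨k, hk, hk'⟩ := hk0.1 h
        refine ⟨k, ?_⟩
        show (if _ then (if _ then _ else _) else _) = _
        rw [if_pos hk', if_pos hk]
    show (∃ k, sl2 k = some v) ↔ ¬ ((Pls' I κ d s (v, false) ↔ DA I th2 (v, false)) ∧
      (Pls' I κ d s (v, true) ↔ DA I th2 (v, true)) ∧ (DA I th2 (v, false) ↔ DA I th2 (v, true)))
    rw [h1, hth2, pls'_iff hr he hv, pls'_iff hr he hv]
    rfl
  · intro k h1
    rw [hth] at h1 ⊢
    have h2 : pl2 k = (decide (Pls' I κ d s (v, false)), decide (Pls' I κ d s (v, true))) :=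
      if_pos h1
    show ((pl2 k).1 = true ↔ _) ∧ ((pl2 k).2 = true ↔ _)
    rw [h2]
    simp only [decide_eq_true_iff]
    exact ⟨Iff.rfl, Iff.rfl⟩
  · intro τ'
    rw [hth]
    show decide (∃ τ, str s τ = true ∧ Compat κ d v s s0 τ τ') = true ↔ _
    rw [decide_eq_true_iff]
    rfl

theorem start_psol (h : ∀ κ, th κ = 0) : PSol I th δ := by
  constructor
  · intro κ κ' r r' h1
    rw [h] at h1; omega
  · intro κ r h1
    rw [h] at h1
    have : r = 0 := by omega
    rw [this, fl_zero]

theorem start_rep [Nonempty S] (hs : Start s) (h : ∀ κ, th κ = 0) : Rep I s th δ := by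
  have hth : sth s = th := by funext κ; rw [hs.th, h]
  have hplc : ∀ t, ¬ Plc I th δ t := by
    rintro t ⟨κ, r, h1, -⟩
    rw [h] at h1; omega
  have hused : ∀ c b, ¬ Used I th δ c b := by
    rintro c b ⟨κ, r, h1, -⟩
    rw [h] at h1; omega
  have hda : ∀ t, ¬ DA I th t := by
    rintro t (⟨κ, h1⟩ | h1)
    · rw [h] at h1; simp at h1
    · obtain ⟨κ⟩ := ‹Nonempty S›
      have h2 := h1 κ
      rw [h] at h2; simp at h2
  refine ⟨hth, ?_, ?_, ?_, ?_, ?_⟩
  · intro κ; rw [hs.g, h, fl_zero]; rfl
  · intro v
    constructor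
    · rintro ⟨k, hk⟩
      rw [hs.sl] at hk; simp at hk
    · rintro ⟨-, h1⟩
      exfalso
      apply h1
      exact ⟨⟨fun h => absurd h (hplc _), fun h => absurd h (hda _)⟩,
        ⟨fun h => absurd h (hplc _), fun h => absurd h (hda _)⟩,
        ⟨fun h => absurd h (hda _), fun h => absurd h (hda _)⟩⟩
  · intro k k' v h1
    rw [hs.sl] at h1; simp at h1
  · intro k v h1
    rw [hs.sl] at h1; simp at h1
  · intro τ
    rw [hs.tr]
    constructor
    · rintro ⟨h1, h2⟩
      refine ⟨fun κ _ => τ.1 κ, fun _ => false, ⟨?_, ?_⟩, fun κ => rfl, ?_, ?_, ?_⟩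
      · intro κ r h3
        rw [h] at h3; omega
      · intro κ r h3
        rw [h] at h3; omega
      · intro k v h3
        rw [hs.sl] at h3; simp at h3
      · rw [h1]
        exact ⟨fun h => absurd h (by simp), fun h => absurd h (hused _ _)⟩
      · rw [h2]
        exact ⟨fun h => absurd h (by simp), fun h => absurd h (hused _ _)⟩
    · rintro ⟨A, c, -, -, -, h3, h4⟩
      constructor
      · by_contra h5
        exact hused _ _ (h3.1 (by simpa using h5))
      · by_contra h5
        exact hused _ _ (h4.1 (by simpa using h5))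

theorem exists_start : ∃ s : St S K, Start s := by
  classical
  exact ⟨(fun _ => 0, fun _ => 0, fun _ => none, fun _ => (false, false),
    fun τ => decide (τ.2.2.1 = false ∧ τ.2.2.2 = false)),
    ⟨fun _ => rfl, fun _ => rfl, fun _ => rfl, fun τ => by
      show decide _ = true ↔ _
      rw [decide_eq_true_iff]⟩⟩

theorem acc_iff {opp : S → S} (hr : Rep I s th δ) (hp : PSol I th δ) :
    Acc I opp N s ↔ Good I opp N th δ := by
  classical
  have hth := hr.hth
  constructor
  · intro h
    refine ⟨hp, ?_, ?_, ?_, ?_⟩
    · intro κ; rw [← hth]; exact h.closed κ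
    · intro v hv b; exact (hr.pls hv b).1 (h.all v hv b)
    · intro κ
      rw [← hr.g, ← hr.g, h.flow κ]
    · intro A c hA hb ⟨u0, u1⟩
      let τ : Tr S K := (fun κ' => A κ' (th κ'), fun k => (ssl s k).elim false c,
        decide (Used I th δ c false), decide (Used I th δ c true))
      have h1 : str s τ = true := by
        refine (hr.tr _).2 ⟨A, c, hA, fun _ => rfl, ?_, ?_, ?_⟩
        · intro k u hk
          show (ssl s k).elim false c = c u
          rw [hk]; rfl
        · exact decide_eq_true_iff
        · exact decide_eq_true_iff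
      refine h.conn τ h1 (fun κ hκ => hb κ ?_) ⟨?_, ?_⟩
      · rw [← hr.g]; exact_mod_cast hκ
      · exact decide_eq_true u0
      · exact decide_eq_true u1
  · intro h
    refine ⟨?_, ?_, ?_, ?_⟩
    · intro κ; rw [hth]; exact h.closed κ
    · intro v hv b; exact (hr.pls hv b).2 (h.all v hv b)
    · intro κ
      have h1 := h.flow κ
      rw [← hr.g, ← hr.g] at h1
      exact_mod_cast h1
    · intro τ h1 h2 h3
      obtain ⟨A, c, hA, m1, -, m3, m4⟩ := (hr.tr τ).1 h1
      refine h.conn A c hA (fun κ hκ => ?_) ⟨m3.1 h3.1, m4.1 h3.2⟩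
      rw [← m1, ← m1]
      refine h2 κ ?_
      rw [← hr.g] at hκ
      exact_mod_cast hκ

end Pool.Agent.Work.MP_5296b6_lc

end

section

/-!
# Comparisons on raw codes: rational functionals, functionals with polynomial-time comparisons
-/

set_option autoImplicit false

namespace Pool.Agent.Scatter

open Pool.Agent.PT Pool.Agent.MaxScatter N487b59b3 Pool.Agent.Work.MP_5296b6_lc

theorem rawCmp_of_poly {s f : ℕ} (a : Fin f → Fin s → ℝ)
    [∀ i, DecidablePred fun c : (List ℚ × List ℚ) × ℚ => ((c.2 : ℚ) : ℝ) ≤ lin (a i) c.1.1 c.1.2]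
    [∀ i j, DecidablePred fun c : (List ℚ × List ℚ) × (List ℚ × List ℚ) =>
      lin (a i) c.1.1 c.1.2 ≤ lin (a j) c.2.1 c.2.2]
    (h1 : ∀ i, N68a2faeb.IsPolyTime (fun c : (List ℚ × List ℚ) × ℚ =>
      decide (((c.2 : ℚ) : ℝ) ≤ lin (a i) c.1.1 c.1.2)))
    (h2 : ∀ i j, N68a2faeb.IsPolyTime (fun c : (List ℚ × List ℚ) × (List ℚ × List ℚ) =>
      decide (lin (a i) c.1.1 c.1.2 ≤ lin (a j) c.2.1 c.2.2))) : RawCmp a := by
  constructor
  · intro i
    obtain ⟨g, hg, hs⟩ := clockBool _ (h1 i)
    refine ⟨fun p => g (delimit (delimit p.1.1 ++ p.1.2) ++ p.2), hg.comp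
      ((((PTF.fst.comp PTF.fst).delimit.append (PTF.snd.comp PTF.fst)).delimit).append PTF.snd),
      fun y z L => ?_⟩
    have e : delimit (delimit (bitEncode y) ++ bitEncode z) ++ bitEncode L =
        bitEncode ((y, z), L) := rfl
    dsimp only
    rw [e, hs, decide_eq_true_iff]
  · intro i j
    obtain ⟨g, hg, hs⟩ := clockBool _ (h2 i j)
    refine ⟨fun p => g (delimit (delimit p.1.1 ++ p.1.2) ++ (delimit p.2.1 ++ p.2.2)), hg.comp
      ((((PTF.fst.comp PTF.fst).delimit.append (PTF.snd.comp PTF.fst)).delimit).append
        ((PTF.fst.comp PTF.snd).delimit.append (PTF.snd.comp PTF.snd))),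
      fun y z y' z' => ?_⟩
    have e : delimit (delimit (bitEncode y) ++ bitEncode z) ++
        (delimit (bitEncode y') ++ bitEncode z') = bitEncode ((y, z), (y', z')) := rfl
    dsimp only
    rw [e, hs, decide_eq_true_iff]

/-- Parsing a single point. -/
theorem exists_parsePt (hP : ClaimParse) : ∃ g : List Bool → List BQ, PTF g ∧
    ∀ y : List ℚ, g (bitEncode y) = y.map repQ := by
  obtain ⟨-, ⟨p2, hp2, hp2s⟩, -, -⟩ := hP
  refine ⟨fun c => (p2 (delimit c)).headD [], (hp2.comp (PTF.id.delimit)).headD (PTF.const []),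
    fun y => ?_⟩
  have e : delimit (bitEncode y) = bitEncode [y] := by
    show _ = ((([y] : List (List ℚ)).map bitEncode).map delimit).flatten
    simp
  dsimp only
  rw [e, hp2s]
  rfl

/-- Parsing a rational number. -/
theorem exists_parseQ (hP : ClaimParse) : ∃ g : List Bool → BQ, PTF g ∧
    ∀ q : ℚ, g (bitEncode q) = repQ q := by
  obtain ⟨⟨p1, hp1, hp1s⟩, -, -, -⟩ := hP
  refine ⟨fun c => (p1 (delimit (bitEncode ([] : List (List ℚ))) ++ c)).2,
    PTF.snd.comp (hp1.comp ((PTF.const _).append PTF.id)), fun q => ?_⟩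
  have e : delimit (bitEncode ([] : List (List ℚ))) ++ bitEncode q =
      bitEncode (([] : List (List ℚ)), q) := rfl
  dsimp only
  rw [e, hp1s]

/-- The first `s` coordinates. -/
def padQ (s : ℕ) (y : List ℚ) : List ℚ := (List.range s).map (fun j => y.getD j 0)

theorem padQ_append_getD (s : ℕ) (y z : List ℚ) (j : ℕ) :
    (padQ s y ++ z).getD j 0 = if j < s then y.getD j 0 else z.getD (j - s) 0 := by
  unfold padQ
  by_cases h : j < s
  · rw [if_pos h, List.getD_append _ _ _ _ (by simpa using h)]
    rw [List.getD_eq_getElem _ _ (by simpa using h)]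
    simp
  · rw [if_neg h, List.getD_append_right _ _ _ _ (by simpa using Nat.le_of_not_lt h)]
    simp

theorem rawCmp_of_rational {s f : ℕ} (hC : ClaimCmp) (hP : ClaimParse) (a : Fin f → Fin s → ℚ) :
    RawCmp (fun i j => ((a i j : ℚ) : ℝ)) := by
  obtain ⟨pt, hpt, hpts⟩ := exists_parsePt hP
  obtain ⟨pq, hpq, hpqs⟩ := exists_parseQ hP
  have hlin : ∀ i (y z : List ℚ), lin (fun j => ((a i j : ℚ) : ℝ)) y z =
      ((∑ j : Fin s, a i j * (z.getD j 0 - y.getD j 0) : ℚ) : ℝ) := by
    intro i y z
    unfold lin toPt
    push_cast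
    rfl
  constructor
  · intro i
    obtain ⟨cmp, hc, hcs⟩ := hC s (a i)
    refine ⟨fun p => cmp ((pt p.1.1, pt p.1.2), pq p.2), hc.comp
      (((hpt.comp (PTF.fst.comp PTF.fst)).pair (hpt.comp (PTF.snd.comp PTF.fst))).pair
        (hpq.comp PTF.snd)), fun y z L => ?_⟩
    dsimp only
    rw [hpts, hpts, hpqs, hcs, decide_eq_true_iff, hlin]
    exact_mod_cast Iff.rfl
  · intro i j
    -- one form in dimension s + s
    obtain ⟨cmp, hc, hcs⟩ := hC (s + s) (Fin.append (a j) (a i))
    let pad : List BQ → List BQ := fun y => (List.range s).map (fun k => y.getD k (repQ 0))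
    have hpad : PTF pad := PTF.map' (f := fun (y : List BQ) (k : ℕ) => y.getD k (repQ 0))
      ((PTF.fst).getD PTF.snd (PTF.const (repQ 0))) (PTF.const (List.range s))
    have hpads : ∀ y : List ℚ, pad (y.map repQ) = (padQ s y).map repQ := by
      intro y
      show (List.range s).map (fun k => (y.map repQ).getD k (repQ 0)) = (padQ s y).map repQ
      unfold padQ
      rw [List.map_map]
      refine List.map_congr_left fun k _ => ?_
      show (y.map repQ).getD k (repQ 0) = repQ (y.getD k 0)
      rw [List.getD_map]
    refine ⟨fun p => cmp ((pad (pt p.2.1) ++ pt p.1.2, pad (pt p.2.2) ++ pt p.1.1), repQ 0),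
      hc.comp ((((hpad.comp (hpt.comp (PTF.fst.comp PTF.snd))).append
        (hpt.comp (PTF.snd.comp PTF.fst))).pair
        ((hpad.comp (hpt.comp (PTF.snd.comp PTF.snd))).append
        (hpt.comp (PTF.fst.comp PTF.fst)))).pair (PTF.const (repQ 0))), fun y z y' z' => ?_⟩
    dsimp only
    rw [hpts, hpts, hpts, hpts, hpads, hpads, ← List.map_append, ← List.map_append, hcs,
      decide_eq_true_iff, hlin, hlin, Fin.sum_univ_add]
    have e1 : ∀ k : Fin s, Fin.append (a j) (a i) (Fin.castAdd s k) *
        ((padQ s z' ++ y).getD (Fin.castAdd s k) 0 - (padQ s y' ++ z).getD (Fin.castAdd s k) 0) =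
        a j k * (z'.getD k 0 - y'.getD k 0) := by
      intro k
      rw [Fin.append_left, padQ_append_getD, padQ_append_getD]
      have hk : ((Fin.castAdd s k : Fin (s + s)) : ℕ) < s := k.2
      rw [if_pos hk, if_pos hk]
      rfl
    have e2 : ∀ k : Fin s, Fin.append (a j) (a i) (Fin.natAdd s k) *
        ((padQ s z' ++ y).getD (Fin.natAdd s k) 0 - (padQ s y' ++ z).getD (Fin.natAdd s k) 0) =
        - (a i k * (z.getD k 0 - y.getD k 0)) := by
      intro k
      rw [Fin.append_right, padQ_append_getD, padQ_append_getD]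
      have hk : ¬ ((Fin.natAdd s k : Fin (s + s)) : ℕ) < s := by
        rw [Fin.val_natAdd]; omega
      have hk2 : ((Fin.natAdd s k : Fin (s + s)) : ℕ) - s = k := by
        rw [Fin.val_natAdd]; omega
      rw [if_neg hk, if_neg hk, hk2]
      ring
    rw [Finset.sum_congr rfl (fun k _ => e1 k), Finset.sum_congr rfl (fun k _ => e2 k),
      Finset.sum_neg_distrib]
    constructor
    · intro h
      have h' : (∑ k : Fin s, a i k * (z.getD k 0 - y.getD k 0)) ≤
          ∑ k : Fin s, a j k * (z'.getD k 0 - y'.getD k 0) := by linarith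
      exact_mod_cast h'
    · intro h
      have h' : (∑ k : Fin s, a i k * (z.getD k 0 - y.getD k 0)) ≤
          ∑ k : Fin s, a j k * (z'.getD k 0 - y'.getD k 0) := by exact_mod_cast h
      linarith

end Pool.Agent.Scatter

end
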