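import Pool.Agent.Work.MP_5296b6_lc.Words
import Pool.Agent.Work.MP_5296b6_lc.IffStmts
import Pool.Agent.Work.MP_5296b6_lc.Bd.B01
import Pool.Agent.Work.MP_5296b6_lc.Bd.B03
import Pool.Agent.Work.MP_5296b6_lc.Bd.B02
import Pool.Agent.Work.MP_5296b6_lc.R.DPPtf
import Pool.Agent.Work.MP_5296b6_lc.R.Gen
import Pool.Agent.Work.MP_5296b6_lc.SelStmts
import Pool.Agent.Work.MP_5296b6_lc.I5
import Pool.Agent.Work.MP_5296b6_lc.Final
import Pool.Agent.Work.MP_5296b6_lc.Geo
import Pool.Agent.Work.MP_5296b6_lc.Search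
import Pool.Agent.Work.MP_5296b6_lc.Pair
import Pool.Agent.Work.MP_5296b6_lc.A2
import Pool.Agent.Work.MP_5296b6_lc.A3
import Pool.Agent.Work.MP_5296b6_lc.A4

/-! Bundle of small proof modules (one section per former module). -/

section

/-!
# Tables and words: solutions of a table are complete partial solutions of its words
-/

set_option autoImplicit false

namespace Pool.Agent.Work.MP_5296b6_lc

open Pool.Agent.PT Pool.Agent.Scatter

variable {n : ℕ} {ι : Type} {D : Table (Fin n) ι} {W : Side ι → List Letter}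

theorem opp_opp (κ : Side ι) : opp (opp κ) = κ := by
  obtain ⟨i, b⟩ := κ
  simp [opp]

theorem rk_bounds (D : Table (Fin n) ι) (κ : Side ι) (t : Tok (Fin n)) (l : Side ι) :
    1 ≤ D.rk κ (D.pos t l) ∧ D.rk κ (D.pos t l) ≤ D.N := by
  have h1 := D.one_le t l
  have h2 := D.le_N t l
  unfold Table.rk
  split <;> omega

theorem rk_opp (D : Table (Fin n) ι) (κ : Side ι) (t : Tok (Fin n)) (l : Side ι) :
    D.rk κ (D.pos t l) + D.rk (opp κ) (D.pos t l) = D.N + 1 := by
  have h1 := D.one_le t l
  have h2 := D.le_N t l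
  obtain ⟨i, b⟩ := κ
  unfold Table.rk opp
  cases b <;> simp <;> omega

theorem rk_surj (D : Table (Fin n) ι) (κ : Side ι) {r : ℕ} (hr : r < D.N) :
    ∃ t b, D.rk κ (D.pos t (κ.1, b)) = r + 1 := by
  by_cases h : κ.2 = true
  · obtain ⟨t, b, hp⟩ := D.surj κ.1 (D.N - r) (by omega) (by omega)
    refine ⟨t, b, ?_⟩
    unfold Table.rk
    rw [if_pos h, hp]
    omega
  · obtain ⟨t, b, hp⟩ := D.surj κ.1 (r + 1) (by omega) (by omega)
    refine ⟨t, b, ?_⟩
    unfold Table.rk
    rw [if_neg h, hp]

theorem rk_inj (D : Table (Fin n) ι) (κ : Side ι) {t t' : Tok (Fin n)} {b b' : Bool}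
    (h : D.rk κ (D.pos t (κ.1, b)) = D.rk κ (D.pos t' (κ.1, b'))) : t = t' ∧ b = b' := by
  apply D.inj t t' κ.1 b b'
  have h1 := D.one_le t (κ.1, b)
  have h2 := D.le_N t (κ.1, b)
  have h3 := D.one_le t' (κ.1, b')
  have h4 := D.le_N t' (κ.1, b')
  unfold Table.rk at h
  split at h <;> omega

theorem ltr_rk (hW : IsWords D W) (κ : Side ι) (t : Tok (Fin n)) (b : Bool) {r : ℕ}
    (hr : D.rk κ (D.pos t (κ.1, b)) = r + 1) :
    ltr (n, W) κ r = (((t.1 : ℕ), t.2), decide (b = κ.2)) := by
  have h := hW.2 κ t b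
  rw [hr, Nat.add_sub_cancel] at h
  unfold ltr
  rw [List.getD_eq_getElem?_getD]
  show ((W κ)[r]?).getD _ = _
  rw [h]
  rfl

theorem wf_words (hW : IsWords D W) : WF (n, W) D.N := by
  refine ⟨hW.1, fun κ l hl => ?_⟩
  obtain ⟨r, hr, rfl⟩ := List.mem_iff_getElem.1 hl
  have hr' : r < D.N := by rw [← hW.1 κ]; exact hr
  obtain ⟨t, b, h⟩ := rk_surj D κ hr'
  have h2 := hW.2 κ t b
  rw [h, Nat.add_sub_cancel, List.getElem?_eq_getElem hr, Option.some.injEq] at h2
  show ((W κ)[r]).1.1 < n
  rw [h2]
  exact t.1.2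

theorem mem_take (hW : IsWords D W) (κ : Side ι) (t : Tok (Fin n)) (o : Bool) (m : ℕ) :
    ((((t.1 : ℕ), t.2), o) : Letter) ∈ (W κ).take m ↔
      D.rk κ (D.pos t (κ.1, if o = true then κ.2 else !κ.2)) ≤ m := by
  constructor
  · intro h
    obtain ⟨r, hr, h2⟩ := List.mem_iff_getElem.1 h
    rw [List.length_take, lt_min_iff, hW.1 κ] at hr
    rw [List.getElem_take] at h2
    obtain ⟨t', b', h3⟩ := rk_surj D κ hr.2
    have h4 := hW.2 κ t' b'
    rw [h3, Nat.add_sub_cancel, List.getElem?_eq_getElem (by rw [hW.1 κ]; exact hr.2), h2,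
      Option.some.injEq, Prod.mk.injEq, Prod.mk.injEq] at h4
    obtain ⟨⟨h5, h6⟩, h7⟩ := h4
    have h8 : t = t' := Prod.ext (Fin.ext h5) h6
    subst h8
    have h9 : b' = if o = true then κ.2 else !κ.2 := by
      rw [h7]
      cases b' <;> cases κ.2 <;> simp
    rw [← h9, h3]
    omega
  · intro h
    have h1 := rk_bounds D κ t (κ.1, if o = true then κ.2 else !κ.2)
    have h2 := hW.2 κ t (if o = true then κ.2 else !κ.2)
    have h3 : D.rk κ (D.pos t (κ.1, if o = true then κ.2 else !κ.2)) - 1 < (W κ).length := by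
      rw [hW.1 κ]; omega
    rw [List.getElem?_eq_getElem h3, Option.some.injEq] at h2
    have h4 : decide ((if o = true then κ.2 else !κ.2) = κ.2) = o := by
      cases o <;> cases κ.2 <;> simp
    rw [h4] at h2
    refine List.mem_iff_getElem.2 ⟨D.rk κ (D.pos t (κ.1, if o = true then κ.2 else !κ.2)) - 1,
      by rw [List.length_take, lt_min_iff]; exact ⟨by omega, h3⟩, ?_⟩
    rw [List.getElem_take]
    exact h2

theorem DA_iff (hW : IsWords D W) (th : Side ι → ℕ) (t : Tok (Fin n)) :
    DA (n, W) th ((t.1 : ℕ), t.2) ↔ D.DA th t := by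
  unfold DA Table.DA
  refine or_congr (exists_congr (fun κ => ?_)) ?_
  · exact mem_take hW κ t true (th κ)
  · constructor
    · intro h κ
      have h1 := (mem_take hW (opp κ) t false (th (opp κ))).1 (h (opp κ))
      have h2 : ((opp κ).1, if false = true then (opp κ).2 else !(opp κ).2) = κ := by
        simp [opp]
      rw [h2] at h1
      exact h1
    · intro h κ
      refine (mem_take hW κ t false (th κ)).2 ?_
      have h1 := h (opp κ)
      rw [opp_opp] at h1
      exact h1

open Classical in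
/-- The decisions that belong to an assignment. -/
noncomputable def dl (D : Table (Fin n) ι) (T : Tok (Fin n) → Side ι) (κ : Side ι) (r : ℕ) :
    Bool := decide (∃ t b, D.rk κ (D.pos t (κ.1, b)) = r + 1 ∧ T t = (κ.1, b))

theorem dl_iff {T : Tok (Fin n) → Side ι} {κ : Side ι} {t : Tok (Fin n)} {b : Bool} {r : ℕ}
    (hr : D.rk κ (D.pos t (κ.1, b)) = r + 1) : dl D T κ r = true ↔ T t = (κ.1, b) := by
  classical
  unfold dl
  rw [decide_eq_true_iff]
  constructor
  · rintro ⟨t', b', h1, h2⟩
    obtain ⟨rfl, rfl⟩ := rk_inj D κ (hr.trans h1.symm)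
    exact h2
  · intro h
    exact ⟨t, b, hr, h⟩

theorem plc_out (hW : IsWords D W) {T : Tok (Fin n) → Side ι} {th : Side ι → ℕ}
    (hth : ∀ κ, th κ ≤ D.N) (t : Tok (Fin n)) :
    Plc (n, W) th (dl D T) ((t.1 : ℕ), t.2) ↔ D.Out T th t := by
  unfold Table.Out
  constructor
  · rintro ⟨κ, r, hr, h1, h2⟩
    obtain ⟨t', b, h3⟩ := rk_surj D κ (lt_of_lt_of_le hr (hth κ))
    rw [ltr_rk hW κ t' b h3] at h1
    simp only [Prod.mk.injEq] at h1
    have h4 : t' = t := Prod.ext (Fin.ext h1.1) h1.2
    subst h4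
    rw [dl_iff h3] at h2
    by_cases h5 : b = κ.2
    · have h6 : T t' = κ := by rw [h2, h5]
      left
      rw [h6]
      have h7 : ((κ.1, b) : Side ι) = κ := by rw [h5]
      rw [h7] at h3
      omega
    · have h5' : b = !κ.2 := by
        cases b <;> cases h : κ.2 <;> simp_all
      have h6 : T t' = opp κ := by rw [h2, h5']; rfl
      right
      rw [h6, opp_opp]
      rw [h5'] at h3
      have h7 : ((κ.1, !κ.2) : Side ι) = opp κ := rfl
      rw [h7] at h3
      omega
  · rintro (h | h)
    · have h1 := rk_bounds D (T t) t (T t)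
      refine ⟨T t, D.rk (T t) (D.pos t (T t)) - 1, by omega, ?_, ?_⟩
      · rw [ltr_rk hW (T t) t (T t).2 (by
          show D.rk (T t) (D.pos t (T t)) = _
          omega)]
      · rw [dl_iff (t := t) (b := (T t).2) (by
          show D.rk (T t) (D.pos t (T t)) = _
          omega)]
    · have h1 := rk_bounds D (opp (T t)) t (T t)
      have h2 : (((opp (T t)).1, (T t).2) : Side ι) = T t := rfl
      refine ⟨opp (T t), D.rk (opp (T t)) (D.pos t (T t)) - 1, by omega, ?_, ?_⟩
      · rw [ltr_rk hW (opp (T t)) t (T t).2 (by rw [h2]; omega)]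
      · rw [dl_iff (t := t) (b := (T t).2) (by rw [h2]; omega), h2]

theorem irr_reg (hW : IsWords D W) {T : Tok (Fin n) → Side ι} {th : Side ι → ℕ}
    (hth : ∀ κ, th κ ≤ D.N) (v : Fin n) :
    Irr (n, W) th (dl D T) v ↔ ¬ D.Reg T th v := by
  unfold Irr Table.Reg
  have h1 := plc_out hW (T := T) hth (v, false)
  have h2 := plc_out hW (T := T) hth (v, true)
  have h3 := DA_iff hW th (v, false)
  have h4 := DA_iff hW th (v, true)
  rw [h1, h2, h3, h4]
  constructor
  · intro h5 ⟨h6, h7⟩
    exact h5 ⟨h6 false, h6 true, h7⟩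
  · intro h5 ⟨h6, h7, h8⟩
    refine h5 ⟨fun e => ?_, h8⟩
    cases e
    · exact h6
    · exact h7

/-! ### Flows -/

variable [DecidableEq ι]

theorem flow_zero (D : Table (Fin n) ι) (T : Tok (Fin n) → Side ι) (i : ι) :
    D.flow T i 0 = 0 := by
  unfold Table.flow
  rw [Finset.filter_false_of_mem, Finset.filter_false_of_mem]
  · simp
  · rintro t - ⟨-, h⟩
    have := D.one_le t (i, true)
    omega
  · rintro t - ⟨-, h⟩
    have := D.one_le t (i, false)
    omega

theorem flow_ge (D : Table (Fin n) ι) (T : Tok (Fin n) → Side ι) (i : ι) {p : ℕ}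
    (hp : D.N ≤ p) : D.flow T i p = D.flow T i D.N := by
  unfold Table.flow
  have h : ∀ b, (Finset.univ.filter fun t : Tok (Fin n) => T t = (i, b) ∧ D.pos t (i, b) ≤ p) =
      Finset.univ.filter fun t : Tok (Fin n) => T t = (i, b) ∧ D.pos t (i, b) ≤ D.N := by
    intro b
    ext t
    simp only [Finset.mem_filter, Finset.mem_univ, true_and]
    have := D.le_N t (i, b)
    constructor
    · rintro ⟨h1, -⟩; exact ⟨h1, this⟩
    · rintro ⟨h1, -⟩; exact ⟨h1, by omega⟩
  rw [h, h]

theorem card_succ (D : Table (Fin n) ι) (T : Tok (Fin n) → Side ι) (i : ι) {p : ℕ}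
    {t : Tok (Fin n)} {b : Bool} (h : D.pos t (i, b) = p + 1) (b' : Bool) :
    (Finset.univ.filter fun x : Tok (Fin n) => T x = (i, b') ∧ D.pos x (i, b') ≤ p + 1).card =
      (Finset.univ.filter fun x : Tok (Fin n) => T x = (i, b') ∧ D.pos x (i, b') ≤ p).card +
        if T t = (i, b) ∧ b' = b then 1 else 0 := by
  by_cases hc : T t = (i, b) ∧ b' = b
  · obtain ⟨h1, rfl⟩ := hc
    rw [if_pos ⟨h1, rfl⟩]
    have h2 : (Finset.univ.filter fun x : Tok (Fin n) => T x = (i, b') ∧ D.pos x (i, b') ≤ p + 1) =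
        insert t (Finset.univ.filter fun x : Tok (Fin n) =>
          T x = (i, b') ∧ D.pos x (i, b') ≤ p) := by
      ext x
      simp only [Finset.mem_filter, Finset.mem_univ, true_and, Finset.mem_insert]
      constructor
      · rintro ⟨h3, h4⟩
        rcases Nat.lt_or_ge (D.pos x (i, b')) (p + 1) with h5 | h5
        · exact Or.inr ⟨h3, by omega⟩
        · have h6 : D.pos x (i, b') = D.pos t (i, b') := by omega
          exact Or.inl (D.inj _ _ _ _ _ h6).1
      · rintro (rfl | ⟨h3, h4⟩)
        · exact ⟨h1, by omega⟩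
        · exact ⟨h3, by omega⟩
    rw [h2, Finset.card_insert_of_notMem]
    simp only [Finset.mem_filter, Finset.mem_univ, true_and, not_and]
    intro _
    omega
  · rw [if_neg hc, add_zero]
    congr 1
    ext x
    simp only [Finset.mem_filter, Finset.mem_univ, true_and]
    constructor
    · rintro ⟨h3, h4⟩
      refine ⟨h3, ?_⟩
      by_contra h5
      have h6 : D.pos x (i, b') = D.pos t (i, b) := by omega
      obtain ⟨rfl, rfl⟩ := D.inj _ _ _ _ _ h6
      exact hc ⟨h3, rfl⟩
    · rintro ⟨h3, h4⟩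
      exact ⟨h3, by omega⟩

theorem flow_succ (D : Table (Fin n) ι) (T : Tok (Fin n) → Side ι) (i : ι) {p : ℕ}
    {t : Tok (Fin n)} {b : Bool} (h : D.pos t (i, b) = p + 1) :
    D.flow T i (p + 1) = D.flow T i p + if T t = (i, b) then (if b = true then -1 else 1) else 0 := by
  unfold Table.flow
  rw [card_succ D T i h false, card_succ D T i h true]
  by_cases h1 : T t = (i, b)
  · cases b
    · simp [h1]; ring
    · simp [h1]; ring
  · simp [h1]

/-- The flow of a side. -/
theorem fl_eq (hW : IsWords D W) (T : Tok (Fin n) → Side ι) (κ : Side ι) {r : ℕ}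
    (hr : r ≤ D.N) : fl (n, W) (dl D T) κ r =
      if κ.2 = true then D.flow T κ.1 (D.N - r) - D.flow T κ.1 D.N else D.flow T κ.1 r := by
  induction r with
  | zero =>
    rw [fl_zero]
    split
    · simp
    · rw [flow_zero]
  | succ r ih =>
    rw [fl_succ, ih (by omega)]
    obtain ⟨t, b, h⟩ := rk_surj D κ (show r < D.N by omega)
    rw [ltr_rk hW κ t b h]
    have h1 := D.one_le t (κ.1, b)
    have h2 := D.le_N t (κ.1, b)
    have hdl := dl_iff (T := T) h
    unfold Table.rk at h
    by_cases hκ : κ.2 = true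
    · rw [if_pos hκ] at h
      rw [if_pos hκ, if_pos hκ]
      have h3 : D.pos t (κ.1, b) = (D.N - (r + 1)) + 1 := by omega
      have h4 := flow_succ D T κ.1 h3
      have h5 : D.N - (r + 1) + 1 = D.N - r := by omega
      rw [h5] at h4
      rw [h4]
      by_cases h6 : T t = (κ.1, b)
      · rw [if_pos (hdl.2 h6), if_pos h6]
        cases b <;> simp [hκ] <;> ring
      · rw [if_neg (fun h => h6 (hdl.1 h)), if_neg h6]
        ring
    · rw [if_neg hκ] at h
      rw [if_neg hκ, if_neg hκ, flow_succ D T κ.1 h]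
      by_cases h6 : T t = (κ.1, b)
      · rw [if_pos (hdl.2 h6), if_pos h6]
        have hκ' : κ.2 = false := by simpa using hκ
        cases b <;> simp [hκ']
      · rw [if_neg (fun h => h6 (hdl.1 h)), if_neg h6]

end Pool.Agent.Work.MP_5296b6_lc

end

section

/-!
# Tables and words: solutions and the algorithm
-/

set_option autoImplicit false

namespace Pool.Agent.Work.MP_5296b6_lc

open Pool.Agent.PT Pool.Agent.Scatter

/-- Complete solutions only depend on the decisions for passed letters. -/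
theorem Good.congr {S : Type} {I : WInst S} {op : S → S} {N : ℕ} {th : S → ℕ}
    {δ δ' : S → ℕ → Bool} (h : Good I op N th δ) (he : ∀ κ r, r < th κ → δ' κ r = δ κ r) :
    Good I op N th δ' := by
  have hfl : ∀ κ r, r ≤ th κ → fl I δ' κ r = fl I δ κ r := fun κ r hr =>
    fl_congr (fun j hj => he κ j (by omega))
  have hpl : ∀ t, Plc I th δ t → Plc I th δ' t := by
    rintro t ⟨κ, r, h1, h2, h3⟩
    exact ⟨κ, r, h1, h2, by rw [he κ r h1]; exact h3⟩
  refine ⟨⟨?_, ?_⟩, h.closed, fun v hv b => hpl _ (h.all v hv b), ?_, ?_⟩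
  · intro κ κ' r r' h1 h2 h3 h4
    rw [he κ r h1] at h3
    rw [he κ' r' h2] at h4
    exact h.sol.once κ κ' r r' h1 h2 h3 h4
  · intro κ r h1
    rw [hfl κ r h1]
    exact h.sol.nonneg κ r h1
  · intro κ
    rw [hfl κ _ le_rfl, hfl _ _ le_rfl]
    exact h.flow κ
  · intro A c hA hb ⟨u0, u1⟩
    have hu : ∀ b, Used I th δ' c b → Used I th δ c b := by
      rintro b ⟨κ, r, h1, h2, h3⟩
      exact ⟨κ, r, h1, by rw [← he κ r h1]; exact h2, h3⟩
    refine h.conn A c ⟨fun κ r h1 h2 => hA.flow κ r h1 (by rw [hfl κ r h1.le]; exact h2),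
      fun κ r h1 h2 => hA.tok κ r h1 (by rw [he κ r h1]; exact h2)⟩
      (fun κ hκ => hb κ (by rw [hfl κ _ le_rfl]; exact hκ)) ⟨hu _ u0, hu _ u1⟩

variable {n : ℕ} {ι : Type} {D : Table (Fin n) ι} {W : Side ι → List Letter}

theorem exists_dl (hW : IsWords D W) {th : Side ι → ℕ} {δ : Side ι → ℕ → Bool}
    (h : Good (n, W) opp D.N th δ) :
    ∃ T : Tok (Fin n) → Side ι, ∀ κ r, r < th κ → dl D T κ r = δ κ r := by
  have hth : ∀ κ, th κ ≤ D.N := fun κ => by have := h.closed κ; omega
  have h1 : ∀ t : Tok (Fin n), ∃ (κ : Side ι) (b : Bool) (r : ℕ), r < th κ ∧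
      D.rk κ (D.pos t (κ.1, b)) = r + 1 ∧ δ κ r = true := by
    intro t
    obtain ⟨κ, r, h2, h3, h4⟩ := h.all t.1 t.1.2 t.2
    obtain ⟨t', b, h5⟩ := rk_surj D κ (lt_of_lt_of_le h2 (hth κ))
    rw [ltr_rk hW κ t' b h5] at h3
    simp only [Prod.mk.injEq] at h3
    have h6 : t' = t := Prod.ext (Fin.ext h3.1) h3.2
    subst h6
    exact ⟨κ, b, r, h2, h5, h4⟩
  choose κt bt rt ht1 ht2 ht3 using h1
  refine ⟨fun t => ((κt t).1, bt t), fun κ r hr => ?_⟩
  obtain ⟨t, b, h5⟩ := rk_surj D κ (lt_of_lt_of_le hr (hth κ))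
  rw [Bool.eq_iff_iff, dl_iff h5]
  constructor
  · intro h6
    simp only [Prod.mk.injEq] at h6
    obtain ⟨h6, h7⟩ := h6
    by_cases h8 : κt t = κ
    · have h9 := ht2 t
      rw [h8, h7, h5] at h9
      have h10 : r = rt t := by omega
      have h11 := ht3 t
      rw [h8, ← h10] at h11
      exact h11
    · have h9 : κt t = opp κ := by
        refine Prod.ext h6 ?_
        show (κt t).2 = !κ.2
        have h10 : (κt t).2 ≠ κ.2 := fun h10 => h8 (Prod.ext h6 h10)
        cases ha : (κt t).2 <;> cases hb : κ.2 <;> simp_all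
      exfalso
      have h10 := rk_opp D κ t (κ.1, b)
      have h11 := ht2 t
      have h12 := ht1 t
      rw [h9] at h11 h12
      rw [h7] at h11
      have h13 : (((opp κ).1, b) : Side ι) = (κ.1, b) := rfl
      rw [h13] at h11
      have h14 := h.closed κ
      omega
  · intro h6
    have h7 := h.sol.once κ (κt t) r (rt t) hr (ht1 t) h6 (ht3 t) (by
      rw [ltr_rk hW κ t b h5, ltr_rk hW (κt t) t (bt t) (ht2 t)])
    obtain ⟨h8, h9⟩ := h7
    have h10 := ht2 t
    rw [← h8, ← h9, ← h5] at h10
    obtain ⟨-, h11⟩ := rk_inj D κ h10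
    show ((κt t).1, bt t) = (κ.1, b)
    rw [← h8, h11]

variable [DecidableEq ι]

theorem good_iff [Fintype ι] (hW : IsWords D W) {T : Tok (Fin n) → Side ι} {th : Side ι → ℕ}
    (hcl : ∀ κ, th κ + th (opp κ) = D.N) :
    Good (n, W) opp D.N th (dl D T) ↔ D.Sol T := by
  have hth : ∀ κ, th κ ≤ D.N := fun κ => by have := hcl κ; omega
  have hfl0 : ∀ i r, r ≤ th (i, false) → fl (n, W) (dl D T) (i, false) r = D.flow T i r := by
    intro i r hr
    rw [fl_eq hW T (i, false) (hr.trans (hth _))]
    rfl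
  have hfl1 : ∀ i r, r ≤ th (i, true) → fl (n, W) (dl D T) (i, true) r =
      D.flow T i (D.N - r) - D.flow T i D.N := by
    intro i r hr
    rw [fl_eq hW T (i, true) (hr.trans (hth _))]
    rfl
  have hc0 : ∀ i, th (i, false) + th (i, true) = D.N := fun i => hcl (i, false)
  -- placements of tokens
  have hplace : ∀ t : Tok (Fin n), D.pos t (T t) ≤ th ((T t).1, false) ∨
      D.N + 1 - D.pos t (T t) ≤ th ((T t).1, true) := by
    intro t
    have h1 := D.one_le t (T t)
    have h2 := D.le_N t (T t)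
    have h3 := hc0 (T t).1
    omega
  constructor
  · intro h
    have hN : ∀ i, D.flow T i D.N = 0 := by
      intro i
      have h1 := h.flow (i, false)
      have h2 : opp ((i, false) : Side ι) = (i, true) := rfl
      rw [h2, hfl0 i _ le_rfl, hfl1 i _ le_rfl] at h1
      have h3 : D.N - th (i, true) = th (i, false) := by have := hc0 i; omega
      rw [h3] at h1
      omega
    refine ⟨⟨?_, hN⟩, ?_⟩
    · intro i p
      rcases Nat.lt_or_ge (th (i, false)) p with h1 | h1
      · rcases Nat.lt_or_ge p D.N with h2 | h2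
        · have h3 := h.sol.nonneg (i, true) (D.N - p) (by have := hc0 i; omega)
          rw [hfl1 i _ (by have := hc0 i; omega), hN, sub_zero] at h3
          have h4 : D.N - (D.N - p) = p := by omega
          rw [h4] at h3
          exact h3
        · rw [flow_ge D T i h2, hN]
      · have h3 := h.sol.nonneg (i, false) p h1
        rw [hfl0 i p h1] at h3
        exact h3
    · intro a ha hmono
      have hcol : ∀ t : Tok (Fin n), D.col T a t = D.col T a (t.1, false) := by
        rintro ⟨v, e⟩
        cases e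
        · rfl
        · exact (hmono v).symm
      let A : Side ι → ℕ → Bool := fun κ r =>
        if κ.2 = true then a κ.1 (D.N + 1 - r) else a κ.1 r
      have hA : Colg (n, W) th (dl D T) A
          (fun v => if hv : v < n then D.col T a (⟨v, hv⟩, false) else false) := by
        constructor
        · rintro ⟨i, b⟩ r h1 h2
          cases b
          · rw [hfl0 i r h1.le] at h2
            exact (ha i r h2).symm
          · rw [hfl1 i r h1.le, hN, sub_zero] at h2
            have h3 := ha i _ h2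
            have h4 : r < D.N := lt_of_lt_of_le h1 (hth _)
            show a i (D.N + 1 - (r + 1)) = a i (D.N + 1 - r)
            rw [show D.N + 1 - (r + 1) = D.N - r by omega, h3]
            congr 1
            omega
        · intro κ r h1 h2
          obtain ⟨t, b, h3⟩ := rk_surj D κ (lt_of_lt_of_le h1 (hth κ))
          rw [dl_iff h3] at h2
          rw [ltr_rk hW κ t b h3]
          show A κ (r + 1) = if hv : (t.1 : ℕ) < n then _ else _
          rw [dif_pos t.1.2]
          show _ = D.col T a (t.1, false)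
          rw [← hcol t]
          unfold Table.col
          rw [h2]
          have h4 := D.one_le t (κ.1, b)
          have h5 := D.le_N t (κ.1, b)
          unfold Table.rk at h3
          show (if κ.2 = true then a κ.1 (D.N + 1 - (r + 1)) else a κ.1 (r + 1)) = _
          by_cases hκ : κ.2 = true
          · rw [if_pos hκ] at h3
            rw [if_pos hκ]
            show _ = a κ.1 _
            congr 1
            omega
          · rw [if_neg hκ] at h3
            rw [if_neg hκ]
            show _ = a κ.1 _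
            congr 1
            omega
      have hb : ∀ κ, 0 < fl (n, W) (dl D T) κ (th κ) → A κ (th κ) = A (opp κ) (th (opp κ)) := by
        rintro ⟨i, b⟩ h1
        cases b
        · rw [hfl0 i _ le_rfl] at h1
          have h3 := ha i _ h1
          show a i (th (i, false)) = a i (D.N + 1 - th (i, true))
          rw [h3]
          congr 1
          have := hc0 i
          omega
        · rw [hfl1 i _ le_rfl, hN, sub_zero] at h1
          have h3 := ha i _ h1
          show a i (D.N + 1 - th (i, true)) = a i (th (i, false))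
          have h4 : D.N - th (i, true) = th (i, false) := by have := hc0 i; omega
          rw [h4] at h3
          rw [h3]
          congr 1
          have := hc0 i
          omega
      have hconn := h.conn A _ hA hb
      have hused : ∀ t : Tok (Fin n), Used (n, W) th (dl D T)
          (fun v => if hv : v < n then D.col T a (⟨v, hv⟩, false) else false)
          (D.col T a t) := by
        intro t
        obtain ⟨κ, r, h1, h2, h3⟩ := h.all t.1 t.1.2 t.2
        refine ⟨κ, r, h1, h3, ?_⟩
        rw [h2]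
        show (if hv : (t.1 : ℕ) < n then _ else _) = _
        rw [dif_pos t.1.2]
        exact (hcol t).symm
      intro t t'
      by_contra hne
      have h1 := hused t
      have h2 := hused t'
      cases h3 : D.col T a t <;> cases h4 : D.col T a t'
      · exact hne (h3.trans h4.symm)
      · rw [h3] at h1; rw [h4] at h2; exact hconn ⟨h1, h2⟩
      · rw [h3] at h1; rw [h4] at h2; exact hconn ⟨h2, h1⟩
      · exact hne (h3.trans h4.symm)
  · rintro ⟨⟨hnn, hN⟩, hconn⟩
    refine ⟨⟨?_, ?_⟩, hcl, ?_, ?_, ?_⟩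
    · intro κ κ' r r' h1 h2 h3 h4 h5
      obtain ⟨t, b, h6⟩ := rk_surj D κ (lt_of_lt_of_le h1 (hth κ))
      obtain ⟨t', b', h7⟩ := rk_surj D κ' (lt_of_lt_of_le h2 (hth κ'))
      rw [ltr_rk hW κ t b h6, ltr_rk hW κ' t' b' h7] at h5
      simp only [Prod.mk.injEq] at h5
      have h8 : t = t' := Prod.ext (Fin.ext h5.1) h5.2
      subst h8
      rw [dl_iff h6] at h3
      rw [dl_iff h7] at h4
      have h9 := h3.symm.trans h4
      simp only [Prod.mk.injEq] at h9
      obtain ⟨h9, rfl⟩ := h9
      by_cases h10 : κ = κ'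
      · subst h10
        exact ⟨rfl, by omega⟩
      · exfalso
        have h11 : κ' = opp κ := by
          refine Prod.ext h9.symm ?_
          show κ'.2 = !κ.2
          have h12 : κ.2 ≠ κ'.2 := fun h12 => h10 (Prod.ext h9 h12)
          cases ha : κ'.2 <;> cases hb : κ.2 <;> simp_all
        subst h11
        have h12 := rk_opp D κ t (κ.1, b)
        have h13 := hcl κ
        have h14 : (((opp κ).1, b) : Side ι) = (κ.1, b) := rfl
        rw [h14] at h7
        omega
    · rintro ⟨i, b⟩ r h1
      cases b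
      · rw [hfl0 i r h1]; exact hnn i r
      · rw [hfl1 i r h1, hN, sub_zero]; exact hnn i _
    · intro v hv b
      refine (plc_out hW (T := T) hth ((⟨v, hv⟩ : Fin n), b)).2 ?_
      unfold Table.Out
      have h1 := rk_opp D (T (⟨v, hv⟩, b)) (⟨v, hv⟩, b) (T (⟨v, hv⟩, b))
      have h2 := hcl (T (⟨v, hv⟩, b))
      omega
    · rintro ⟨i, b⟩
      have h2 : opp ((i, false) : Side ι) = (i, true) := rfl
      have h3 : opp ((i, true) : Side ι) = (i, false) := rfl
      have h4 : D.N - th (i, true) = th (i, false) := by have := hc0 i; omega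
      cases b
      · rw [h2, hfl0 i _ le_rfl, hfl1 i _ le_rfl, hN, h4, sub_zero]
      · rw [h3, hfl0 i _ le_rfl, hfl1 i _ le_rfl, hN, h4, sub_zero]
    · intro A c hA hb ⟨u0, u1⟩
      let a : ι → ℕ → Bool := fun i p =>
        if p ≤ th (i, false) then A (i, false) p else A (i, true) (D.N + 1 - p)
      have ha : Closed (D.flow T) a := by
        intro i p hp
        have hpN : p < D.N := by
          by_contra h1
          rw [flow_ge D T i (not_lt.1 h1), hN] at hp
          exact lt_irrefl _ hp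
        rcases lt_trichotomy p (th (i, false)) with h1 | h1 | h1
        · show (if p ≤ th (i, false) then _ else _) = if p + 1 ≤ th (i, false) then _ else _
          rw [if_pos h1.le, if_pos (show p + 1 ≤ th (i, false) from h1)]
          exact (hA.flow (i, false) p h1 (by rw [hfl0 i p h1.le]; exact hp)).symm
        · show (if p ≤ th (i, false) then _ else _) = if p + 1 ≤ th (i, false) then _ else _
          rw [if_pos h1.le, if_neg (by omega), h1]
          have h2 := hb (i, false) (by rw [hfl0 i _ le_rfl, ← h1]; exact hp)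
          rw [h2]
          show A (i, true) (th (i, true)) = _
          congr 1
          have := hc0 i
          omega
        · show (if p ≤ th (i, false) then _ else _) = if p + 1 ≤ th (i, false) then _ else _
          rw [if_neg (by omega), if_neg (by omega)]
          have h3 := hc0 i
          have h2 := hA.flow (i, true) (D.N - p) (by omega) (by
            rw [hfl1 i _ (by omega), hN, sub_zero, show D.N - (D.N - p) = p by omega]
            exact hp)
          rw [show D.N + 1 - p = D.N - p + 1 by omega, show D.N + 1 - (p + 1) = D.N - p by omega]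
          exact h2
      have hcol : ∀ t : Tok (Fin n), D.col T a t = c t.1 := by
        intro t
        unfold Table.col
        have h1 := D.one_le t (T t)
        have h2 := D.le_N t (T t)
        have h3 := hc0 (T t).1
        show (if D.pos t (T t) ≤ th ((T t).1, false) then _ else _) = _
        by_cases h4 : D.pos t (T t) ≤ th ((T t).1, false)
        · rw [if_pos h4]
          have h5 : D.rk ((T t).1, false) (D.pos t ((((T t).1, false) : Side ι).1, (T t).2)) =
              (D.pos t (T t) - 1) + 1 := by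
            show D.pos t (T t) = _
            omega
          have h6 := hA.tok ((T t).1, false) (D.pos t (T t) - 1) (by omega) ((dl_iff h5).2 rfl)
          rw [ltr_rk hW _ _ _ h5, show D.pos t (T t) - 1 + 1 = D.pos t (T t) by omega] at h6
          exact h6
        · rw [if_neg h4]
          have h5 : D.rk ((T t).1, true) (D.pos t ((((T t).1, true) : Side ι).1, (T t).2)) =
              (D.N - D.pos t (T t)) + 1 := by
            show D.N + 1 - D.pos t (T t) = _
            omega
          have h6 := hA.tok ((T t).1, true) (D.N - D.pos t (T t)) (by omega) ((dl_iff h5).2 rfl)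
          rw [ltr_rk hW _ _ _ h5, show D.N - D.pos t (T t) + 1 = D.N + 1 - D.pos t (T t) by
            omega] at h6
          exact h6
      have hconn' := hconn a ha (fun v => by rw [hcol, hcol])
      have hex : ∀ b, Used (n, W) th (dl D T) c b → ∃ t : Tok (Fin n), D.col T a t = b := by
        rintro b ⟨κ, r, h1, -, h3⟩
        obtain ⟨t, b', h4⟩ := rk_surj D κ (lt_of_lt_of_le h1 (hth κ))
        rw [ltr_rk hW κ t b' h4] at h3
        exact ⟨t, by rw [hcol]; exact h3⟩
      obtain ⟨t, ht⟩ := hex _ u0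
      obtain ⟨t', ht'⟩ := hex _ u1
      have h1 := hconn' t t'
      rw [ht, ht'] at h1
      exact Bool.false_ne_true h1

/-- The algorithm decides whether a table has a tour. -/
theorem alg_iff [Fintype ι] [Nonempty ι] (hT : ClaimTour) (hC : ClaimCore) (hn : 0 < n)
    (hW : IsWords D W) {K : ℕ} (hK : ∀ [DecidablePred fun v : Fin n => ¬ D.Adj v],
      slots (Fintype.card ι) + (Finset.univ.filter fun v : Fin n => ¬ D.Adj v).card ≤ K) :
    alg opp K (D.N, (n, W)) = true ↔ D.HasTour := by
  classical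
  have : Nonempty (Fin n) := ⟨⟨0, hn⟩⟩
  constructor
  · intro h
    obtain ⟨th, δ, hG⟩ := alg_sound (a := (D.N, (n, W))) (wf_words hW) h
    obtain ⟨T, hTδ⟩ := exists_dl hW hG
    exact (hT (Fin n) ι D).2 ⟨T, (good_iff hW hG.closed).1 (hG.congr hTδ)⟩
  · intro h
    obtain ⟨T, hS, th, m, h0, hstep, hclosed, hirr⟩ := hC (Fin n) ι D ((hT (Fin n) ι D).1 h)
    have hle : ∀ j ≤ m, ∀ κ, th j κ + th j (opp κ) ≤ D.N := by
      intro j
      induction j with
      | zero => intro _ κ; rw [h0, h0]; omega
      | succ j ih =>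
        intro hj κ
        obtain ⟨κ', h1, h2⟩ := hstep j (by omega)
        have h3 := ih (by omega) κ
        have hne : opp κ' ≠ κ' := by
          intro h4
          have h5 := congrArg Prod.snd h4
          simp [opp] at h5
        rw [h2]
        by_cases e : κ = κ'
        · subst e
          rw [Function.update_self, Function.update_of_ne hne]
          omega
        · by_cases e' : opp κ = κ'
          · subst e'
            rw [Function.update_self, Function.update_of_ne e]
            rw [opp_opp] at h1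
            omega
          · rw [Function.update_of_ne e, Function.update_of_ne e']
            exact h3
    refine alg_complete (wf_words hW) (δ := dl D T) (th := th) (m := m) h0 ?_ ?_
      ((good_iff hW hclosed).2 hS)
    · intro j hj
      obtain ⟨κ, -, h2⟩ := hstep j hj
      refine ⟨κ, by rw [h2, Function.update_self], fun κ' h => ?_⟩
      rw [h2, Function.update_of_ne h]
    · intro j hj
      have h1 : {v | v < n ∧ Irr (n, W) (th j) (dl D T) v} ⊆
          (((Finset.univ.filter fun v : Fin n => ¬ D.Reg T (th j) v).image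
            (fun v : Fin n => (v : ℕ)) : Finset ℕ) : Set ℕ) := by
        rintro v ⟨hv, hi⟩
        rw [Finset.coe_image]
        refine ⟨⟨v, hv⟩, ?_, rfl⟩
        rw [Finset.mem_coe, Finset.mem_filter]
        refine ⟨Finset.mem_univ _, ?_⟩
        exact (irr_reg hW (fun κ => by have := hle j hj κ; omega) ⟨v, hv⟩).1 hi
      have h2 := Set.ncard_le_ncard h1 (Finset.finite_toSet _)
      rw [Set.ncard_coe_finset] at h2
      have h3 := h2.trans Finset.card_image_le
      have h4 := hirr j hj
      have h5 := @hK (fun v => Classical.propDecidable _)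
      refine h3.trans ((le_of_eq ?_).trans (h4.trans ((le_of_eq ?_).trans h5))) <;> congr

end Pool.Agent.Work.MP_5296b6_lc

end

section

/-!
# I2: a point of an open box is, as far as signs of affine forms are concerned, an average of
basic solutions
-/

set_option autoImplicit false

namespace Pool.Agent.Work.MP_5296b6_lc

open Filter Topology Module

namespace BasicSol

variable {s : ℕ}

/-- The affine form of `h`. -/
def lf (h : (Fin s → ℝ) × ℝ) (x : Fin s → ℝ) : ℝ := ∑ j, h.1 j * x j - h.2

/-- The points with the same weak signs as `a`. -/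
def KK (H : Finset ((Fin s → ℝ) × ℝ)) (a : Fin s → ℝ) : Set (Fin s → ℝ) :=
  {x | ∀ h ∈ H, (0 ≤ lf h a → 0 ≤ lf h x) ∧ (lf h a ≤ 0 → lf h x ≤ 0)}

lemma continuous_lf (h : (Fin s → ℝ) × ℝ) : Continuous (lf h) := by
  unfold lf
  fun_prop

lemma lf_add (h : (Fin s → ℝ) × ℝ) (x w : Fin s → ℝ) (t : ℝ) :
    lf h (x + t • w) = lf h x + t * ∑ j, h.1 j * w j := by
  unfold lf
  simp only [Pi.add_apply, Pi.smul_apply, smul_eq_mul, mul_add, Finset.sum_add_distrib]
  rw [Finset.mul_sum]
  have : ∀ j, h.1 j * (t * w j) = t * (h.1 j * w j) := fun j => by ring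
  simp only [this]
  ring

lemma lf_sum {ι : Type*} [Fintype ι] (h : (Fin s → ℝ) × ℝ) (w : ι → ℝ) (z : ι → Fin s → ℝ)
    (hw : ∑ i, w i = 1) : lf h (∑ i, w i • z i) = ∑ i, w i * lf h (z i) := by
  unfold lf
  simp only [Finset.sum_apply, Pi.smul_apply, smul_eq_mul, mul_sub, Finset.sum_sub_distrib]
  rw [← Finset.sum_mul, hw, one_mul]
  congr 1
  simp only [Finset.mul_sum]
  rw [Finset.sum_comm]
  refine Finset.sum_congr rfl fun i _ => Finset.sum_congr rfl fun j _ => ?_
  ring

lemma convex_KK (H : Finset ((Fin s → ℝ) × ℝ)) (a : Fin s → ℝ) : Convex ℝ (KK H a) := by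
  intro x hx y hy α β hα hβ hαβ h hh
  have e : lf h (α • x + β • y) = α * lf h x + β * lf h y := by
    have := lf_sum h ![α, β] ![x, y] (by simpa using hαβ)
    simpa using this
  rw [e]
  obtain ⟨h1, h2⟩ := hx h hh
  obtain ⟨h3, h4⟩ := hy h hh
  refine ⟨fun h0 => ?_, fun h0 => ?_⟩
  · exact add_nonneg (mul_nonneg hα (h1 h0)) (mul_nonneg hβ (h3 h0))
  · exact add_nonpos (mul_nonpos_of_nonneg_of_nonpos hα (h2 h0))
      (mul_nonpos_of_nonneg_of_nonpos hβ (h4 h0))

lemma isClosed_KK (H : Finset ((Fin s → ℝ) × ℝ)) (a : Fin s → ℝ) : IsClosed (KK H a) := by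
  unfold KK
  simp only [Set.ofPred_forall, Set.ofPred_and]
  refine isClosed_iInter fun h => isClosed_iInter fun _ => ?_
  refine IsClosed.inter ?_ ?_
  · exact isClosed_iInter fun _ => isClosed_le continuous_const (continuous_lf h)
  · exact isClosed_iInter fun _ => isClosed_le (continuous_lf h) continuous_const

lemma mem_KK (H : Finset ((Fin s → ℝ) × ℝ)) (a : Fin s → ℝ) : a ∈ KK H a :=
  fun _ _ => ⟨id, id⟩

lemma lf_single (j : Fin s) (c : ℝ) (x : Fin s → ℝ) :
    lf ((Pi.single j 1 : Fin s → ℝ), c) x = x j - c := by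
  unfold lf
  simp [Pi.single_apply]

lemma isCompact_KK {H : Finset ((Fin s → ℝ) × ℝ)} {a : Fin s → ℝ} {M : ℝ}
    (ha : ∀ j, |a j| < M) (h1 : ∀ j, ((Pi.single j 1 : Fin s → ℝ), M) ∈ H)
    (h2 : ∀ j, ((Pi.single j 1 : Fin s → ℝ), -M) ∈ H) : IsCompact (KK H a) := by
  refine (isCompact_Icc (a := fun _ : Fin s => -M) (b := fun _ : Fin s => M)).of_isClosed_subset
    (isClosed_KK H a) ?_
  intro x hx
  refine ⟨fun j => ?_, fun j => ?_⟩
  · have h3 := (hx _ (h2 j)).1
    rw [lf_single, lf_single] at h3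
    have h4 := (abs_lt.1 (ha j)).1
    have := h3 (by linarith)
    linarith
  · have h3 := (hx _ (h1 j)).2
    rw [lf_single, lf_single] at h3
    have h4 := (abs_lt.1 (ha j)).2
    have := h3 (by linarith)
    linarith

/-- Perturbation in a direction orthogonal to all tight forms. -/
lemma perturb {H : Finset ((Fin s → ℝ) × ℝ)} {a x w : Fin s → ℝ} (hx : x ∈ KK H a)
    (hw : ∀ h ∈ H, lf h x = 0 → ∑ j, h.1 j * w j = 0) :
    ∀ᶠ t in 𝓝 (0 : ℝ), x + t • w ∈ KK H a := by
  unfold KK
  simp only [Set.mem_ofPred_eq]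
  rw [Filter.eventually_all_finset]
  intro h hh
  have hc : Continuous fun t : ℝ => lf h (x + t • w) :=
    (continuous_lf h).comp (by fun_prop)
  have h0 : lf h (x + (0 : ℝ) • w) = lf h x := by rw [zero_smul, add_zero]
  rcases lt_trichotomy (lf h x) 0 with hlt | heq | hgt
  · have h1 : ∀ᶠ t in 𝓝 (0 : ℝ), lf h (x + t • w) < 0 :=
      hc.continuousAt.eventually_lt_const (h0.trans_lt hlt)
    filter_upwards [h1] with t ht
    refine ⟨fun h2 => ?_, fun _ => ht.le⟩
    have := (hx h hh).1 h2
    linarith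
  · refine Eventually.of_forall fun t => ?_
    rw [lf_add, hw h hh heq, heq]
    simp
  · have h1 : ∀ᶠ t in 𝓝 (0 : ℝ), 0 < lf h (x + t • w) :=
      hc.continuousAt.eventually_const_lt (hgt.trans_eq h0.symm)
    filter_upwards [h1] with t ht
    refine ⟨fun _ => ht.le, fun h2 => ?_⟩
    have := (hx h hh).2 h2
    linarith

/-- An extreme point is a basic solution. -/
lemma basic_of_extreme {H : Finset ((Fin s → ℝ) × ℝ)} {a x : Fin s → ℝ}
    (hx : x ∈ (KK H a).extremePoints ℝ) :
    ∃ w : Fin s → (Fin s → ℝ) × ℝ, (∀ k, w k ∈ H) ∧ (Matrix.of fun k => (w k).1).det ≠ 0 ∧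
      ∀ k, ∑ j, (w k).1 j * x j = (w k).2 := by
  classical
  set N : Set (Fin s → ℝ) := {n | ∃ h ∈ H, lf h x = 0 ∧ h.1 = n} with hN
  have hspan : Submodule.span ℝ N = ⊤ := by
    by_contra hne
    obtain ⟨f, hf0, hf⟩ := Submodule.exists_le_ker_of_lt_top _ (lt_top_iff_ne_top.2 hne)
    set w : Fin s → ℝ := fun j => f (Pi.single j 1) with hw
    have hfw : ∀ y : Fin s → ℝ, f y = ∑ j, y j * w j := by
      intro y
      conv_lhs => rw [← Finset.univ_sum_single y]
      rw [map_sum]
      refine Finset.sum_congr rfl fun j _ => ?_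
      have : (Pi.single j (y j) : Fin s → ℝ) = y j • Pi.single j 1 := by
        rw [← Pi.single_smul, smul_eq_mul, mul_one]
      rw [this, map_smul, smul_eq_mul]
    have hw0 : ∀ h ∈ H, lf h x = 0 → ∑ j, h.1 j * w j = 0 := by
      intro h hh h0
      rw [← hfw]
      exact hf (Submodule.subset_span ⟨h, hh, h0, rfl⟩)
    have hp := perturb hx.1 hw0
    have hp2 : ∀ᶠ t in 𝓝 (0 : ℝ), x + (-t) • w ∈ KK H a := by
      have hneg : Tendsto (fun t : ℝ => -t) (𝓝 0) (𝓝 0) := by
        simpa using (continuous_neg (G := ℝ)).tendsto 0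
      exact hneg.eventually hp
    obtain ⟨t, ⟨h1, h2⟩, ht⟩ : ∃ t : ℝ, (x + t • w ∈ KK H a ∧ x + (-t) • w ∈ KK H a) ∧ 0 < t := by
      have h3 : ∀ᶠ t in 𝓝[>] (0 : ℝ), x + t • w ∈ KK H a ∧ x + (-t) • w ∈ KK H a :=
        (hp.and hp2).filter_mono nhdsWithin_le_nhds
      exact (h3.and self_mem_nhdsWithin).exists
    have hseg : x ∈ openSegment ℝ (x + t • w) (x + (-t) • w) := by
      refine ⟨1 / 2, 1 / 2, by norm_num, by norm_num, by norm_num, ?_⟩
      ext j
      simp only [Pi.add_apply, Pi.smul_apply, smul_eq_mul]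
      ring
    have h3 := hx.2 h1 h2 hseg
    have h4 : w = 0 := by
      have h5 : t • w = 0 := by simpa using h3
      exact (smul_eq_zero.1 h5).resolve_left ht.ne'
    apply hf0
    refine LinearMap.ext fun y => ?_
    rw [hfw, h4]
    simp
  have hfin : finrank ℝ (Submodule.span ℝ N) = s := by
    rw [hspan, finrank_top, Module.finrank_fin_fun]
  obtain ⟨f, hf1, -, hf2⟩ := Submodule.exists_fun_fin_finrank_span_eq ℝ N
  choose h hhH hh0 hhf using hf1
  refine ⟨fun k => h (finCongr hfin.symm k), fun k => hhH _, ?_, fun k => ?_⟩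
  · have h5 : LinearIndependent ℝ
        (Matrix.of fun k : Fin s => (h (finCongr hfin.symm k)).1).row := by
      have h6 := hf2.comp _ (finCongr hfin.symm).injective
      have h7 : (Matrix.of fun k : Fin s => (h (finCongr hfin.symm k)).1).row =
          f ∘ (finCongr hfin.symm) := by
        funext k
        exact hhf _
      rw [h7]
      exact h6
    rw [Matrix.linearIndependent_rows_iff_isUnit, Matrix.isUnit_iff_isUnit_det] at h5
    exact h5.ne_zero
  · have := hh0 (finCongr hfin.symm k)
    unfold lf at this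
    linarith

lemma unique_sol {w : Fin s → (Fin s → ℝ) × ℝ} (hdet : (Matrix.of fun k => (w k).1).det ≠ 0)
    {x y : Fin s → ℝ} (hx : ∀ k, ∑ j, (w k).1 j * x j = (w k).2)
    (hy : ∀ k, ∑ j, (w k).1 j * y j = (w k).2) : x = y := by
  have h1 : (Matrix.of fun k => (w k).1).mulVec x = (Matrix.of fun k => (w k).1).mulVec y := by
    funext k
    simp only [Matrix.mulVec, dotProduct, Matrix.of_apply]
    rw [hx, hy]
  have h2 := Matrix.mulVec_injective_of_isUnit
    ((Matrix.isUnit_iff_isUnit_det _).2 (isUnit_iff_ne_zero.2 hdet))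
  exact h2 h1

lemma finite_extreme (H : Finset ((Fin s → ℝ) × ℝ)) (a : Fin s → ℝ) :
    ((KK H a).extremePoints ℝ).Finite := by
  classical
  have hb : ∀ x : (KK H a).extremePoints ℝ, ∃ w : Fin s → H,
      (Matrix.of fun k => (w k).1.1).det ≠ 0 ∧ ∀ k, ∑ j, (w k).1.1 j * x.1 j = (w k).1.2 := by
    intro x
    obtain ⟨w, h1, h2, h3⟩ := basic_of_extreme x.2
    exact ⟨fun k => ⟨w k, h1 k⟩, h2, h3⟩
  choose W hW1 hW2 using hb
  have hinj : Function.Injective W := by
    intro x y hxy
    apply Subtype.ext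
    refine unique_sol (w := fun k => (W x k).1) (hW1 x) (hW2 x) ?_
    rw [hxy]
    exact hW2 y
  have : Finite ((KK H a).extremePoints ℝ) := Finite.of_injective W hinj
  exact Set.toFinite _

end BasicSol

open BasicSol in
theorem claimBasic : ClaimBasic := by
  classical
  intro s M H a ha hM1 hM2
  have hcomp := isCompact_KK ha hM1 hM2
  have hconv := convex_KK H a
  have hfin := finite_extreme H a
  have hkm := closure_convexHull_extremePoints hcomp hconv
  rw [(hfin.isCompact_convexHull (𝕜 := ℝ)).isClosed.closure_eq] at hkm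
  have hmem : a ∈ convexHull ℝ ((KK H a).extremePoints ℝ) := by
    rw [hkm]
    exact mem_KK H a
  obtain ⟨ι, _, z, c, hz, haff, hc0, hc1, hca⟩ := eq_pos_convex_span_of_mem_convexHull hmem
  have hcard : Fintype.card ι ≤ s + 1 := by
    have := haff.card_le_finrank_succ
    refine this.trans (Nat.add_le_add_right ?_ 1)
    refine (Submodule.finrank_le _).trans ?_
    rw [Module.finrank_fin_fun]
  have hne : Nonempty ι := by
    by_contra hne
    rw [not_nonempty_iff] at hne
    rw [Fintype.sum_empty] at hc1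
    exact zero_ne_one hc1
  obtain ⟨g, hg⟩ : ∃ g : Fin (s + 1) → ι, Function.Surjective g := by
    obtain ⟨e⟩ : Nonempty (ι ↪ Fin (s + 1)) :=
      Function.Embedding.nonempty_of_card_le (by simpa using hcard)
    exact ⟨Function.invFun e, Function.invFun_surjective e.injective⟩
  have hext : ∀ i, z i ∈ (KK H a).extremePoints ℝ := fun i => hz ⟨i, rfl⟩
  choose W hW1 hW2 hW3 using fun i => basic_of_extreme (hext i)
  refine ⟨fun l => W (g l), fun l k => hW1 _ _, fun l => hW2 _, ?_⟩
  intro v hv h hh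
  have hvz : ∀ l, v l = z (g l) := fun l => unique_sol (hW2 (g l)) (hv l) (hW3 (g l))
  have hs : (0 : ℝ) < s + 1 := by positivity
  have e1 : ∑ j, h.1 j * ((∑ l, v l j) / (s + 1)) - h.2 =
      (∑ l, lf h (z (g l))) / (s + 1) := by
    unfold lf
    rw [Finset.sum_sub_distrib, Finset.sum_const, Finset.card_univ, Fintype.card_fin, nsmul_eq_mul,
      sub_div]
    congr 1
    · rw [Finset.sum_comm, Finset.sum_div]
      refine Finset.sum_congr rfl fun j _ => ?_
      rw [← Finset.mul_sum, mul_div_assoc]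
      simp only [hvz]
    · push_cast
      field_simp
  have e2 : ∑ j, h.1 j * a j - h.2 = ∑ i, c i * lf h (z i) := by
    have := lf_sum h c z hc1
    rw [hca] at this
    exact this
  have hK : ∀ i, (0 ≤ lf h a → 0 ≤ lf h (z i)) ∧ (lf h a ≤ 0 → lf h (z i) ≤ 0) :=
    fun i => (hext i).1 h hh
  have e3 : ∑ j, h.1 j * a j - h.2 = lf h a := rfl
  rw [e1, e3]
  rw [e3] at e2
  rcases lt_trichotomy (lf h a) 0 with hlt | heq | hgt
  · have h1 : ∀ i, lf h (z i) ≤ 0 := fun i => (hK i).2 hlt.le
    have h2 : ∃ i, lf h (z i) < 0 := by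
      by_contra hcon
      push Not at hcon
      have : 0 ≤ ∑ i, c i * lf h (z i) :=
        Finset.sum_nonneg fun i _ => mul_nonneg (hc0 i).le (hcon i)
      linarith
    obtain ⟨i, hi⟩ := h2
    obtain ⟨l, rfl⟩ := hg i
    have h3 : ∑ l, lf h (z (g l)) < 0 :=
      Finset.sum_neg' (fun l _ => h1 (g l)) ⟨l, Finset.mem_univ l, hi⟩
    rw [sign_neg hlt, sign_neg (div_neg_of_neg_of_pos h3 hs)]
  · have h1 : ∀ i, lf h (z i) = 0 := fun i => le_antisymm ((hK i).2 heq.le) ((hK i).1 heq.ge)
    simp [h1, heq]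
  · have h1 : ∀ i, 0 ≤ lf h (z i) := fun i => (hK i).1 hgt.le
    have h2 : ∃ i, 0 < lf h (z i) := by
      by_contra hcon
      push Not at hcon
      have : ∑ i, c i * lf h (z i) ≤ 0 :=
        Finset.sum_nonpos fun i _ => mul_nonpos_of_nonneg_of_nonpos (hc0 i).le (hcon i)
      linarith
    obtain ⟨i, hi⟩ := h2
    obtain ⟨l, rfl⟩ := hg i
    have h3 : 0 < ∑ l, lf h (z (g l)) :=
      Finset.sum_pos' (fun l _ => h1 (g l)) ⟨l, Finset.mem_univ l, hi⟩
    rw [sign_pos hgt, sign_pos (div_pos h3 hs)]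

end Pool.Agent.Work.MP_5296b6_lc

end

section

/-!
# I3: candidates by Cramer's rule
-/

set_option autoImplicit false

namespace Pool.Agent.Work.MP_5296b6_lc

namespace I3

variable {al : Type} {s : ℕ}

theorem nrm_low (x : al → Fin s → ℚ) (p : al × al) (j j' : Fin s) :
    nrm x (p, (j : ℕ) + 1) j' = if j' = j then 1 else 0 := by
  unfold nrm
  simp only
  rw [if_neg (by omega)]
  have hj := j.2
  have hj' := j'.2
  by_cases h : j' = j
  · subst h
    simp
  · have hne : (j' : ℕ) ≠ j := fun h' => h (Fin.ext h')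
    rw [if_neg h, if_neg]
    rintro (h1 | h1)
    · omega
    · omega

theorem nrm_high (x : al → Fin s → ℚ) (p : al × al) (j j' : Fin s) :
    nrm x (p, s + (j : ℕ) + 1) j' = if j' = j then 1 else 0 := by
  unfold nrm
  simp only
  rw [if_neg (by omega)]
  have hj := j.2
  have hj' := j'.2
  by_cases h : j' = j
  · subst h
    simp
  · have hne : (j' : ℕ) ≠ j := fun h' => h (Fin.ext h')
    rw [if_neg h, if_neg]
    rintro (h1 | h1)
    · omega
    · omega

theorem rhs_low (M : ℕ) (r : ℚ) (p : al × al) (j : Fin s) :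
    rhs s M r (p, (j : ℕ) + 1) = (M : ℚ) := by
  have hj := j.2
  unfold rhs
  simp only
  rw [if_neg (by omega), if_pos (by omega)]

theorem rhs_high (M : ℕ) (r : ℚ) (p : al × al) (j : Fin s) :
    rhs s M r (p, s + (j : ℕ) + 1) = -(M : ℚ) := by
  unfold rhs
  simp only
  rw [if_neg (by omega), if_neg (by omega)]

/-- Cramer's rule -/
theorem cramer_sol (M : ℕ) (x : al → Fin s → ℚ) (r : ℚ) (W : Fin s → Dsc al)
    (hd : (mtx x W).det ≠ 0) (k : Fin s) :
    ∑ j, nrm x (W k) j * (crm M x r W j / (mtx x W).det) = rhs s M r (W k) := by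
  have h := congrFun (Matrix.mulVec_cramer (mtx x W) (fun k => rhs s M r (W k))) k
  simp only [Matrix.mulVec, dotProduct, Pi.smul_apply, smul_eq_mul] at h
  have h2 : ∑ j, nrm x (W k) j * crm M x r W j = (mtx x W).det * rhs s M r (W k) := by
    rw [← h]
    apply Finset.sum_congr rfl
    intro j _
    rw [Matrix.cramer_apply]
    rfl
  have h3 : ∑ j, nrm x (W k) j * (crm M x r W j / (mtx x W).det) =
      (∑ j, nrm x (W k) j * crm M x r W j) / (mtx x W).det := by
    rw [Finset.sum_div]
    apply Finset.sum_congr rfl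
    intro j _
    rw [mul_div_assoc]
  rw [h3, h2, mul_div_cancel_left₀ _ hd]

/-- the average of the basic solutions -/
theorem avg_eq (M : ℕ) (x : al → Fin s → ℚ) (r : ℚ) (W : Fin (s + 1) → Fin s → Dsc al)
    (hd : ∀ l, (mtx x (W l)).det ≠ 0) (j : Fin s) :
    (∑ l, crm M x r (W l) j / (mtx x (W l)).det) / (s + 1) = num M x r W j / den x W := by
  have hs : ((s : ℚ) + 1) ≠ 0 := by positivity
  have hprod : ∏ l, (mtx x (W l)).det ^ 2 ≠ 0 :=
    Finset.prod_ne_zero_iff.2 fun l _ => pow_ne_zero 2 (hd l)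
  have h1 : num M x r W j =
      (∑ l, crm M x r (W l) j / (mtx x (W l)).det) * ∏ l, (mtx x (W l)).det ^ 2 := by
    unfold num
    rw [Finset.sum_mul]
    apply Finset.sum_congr rfl
    intro l _
    rw [← Finset.mul_prod_erase Finset.univ (fun l => (mtx x (W l)).det ^ 2) (Finset.mem_univ l)]
    have := hd l
    field_simp
  unfold den
  rw [h1]
  field_simp

theorem den_pos (x : al → Fin s → ℚ) (W : Fin (s + 1) → Fin s → Dsc al)
    (hd : ∀ l, (mtx x (W l)).det ≠ 0) : 0 < den x W := by
  unfold den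
  apply mul_pos (by positivity)
  apply Finset.prod_pos
  intro l _
  have := hd l
  positivity

theorem sign_iff {u v : ℝ} (h : SignType.sign u = SignType.sign v) : 0 ≤ u ↔ 0 ≤ v := by
  constructor
  · intro hu
    exact sign_nonneg_iff.1 (h ▸ sign_nonneg_iff.2 hu)
  · intro hv
    exact sign_nonneg_iff.1 (h ▸ sign_nonneg_iff.2 hv)

end I3

open I3 in
theorem claimMatch (hB : ClaimBasic) : ClaimMatch := by
  classical
  intro s f M al x r P a hP ha
  obtain ⟨p0, hp0⟩ := List.exists_mem_of_ne_nil P hP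
  set Ds : Finset (Dsc al) := (P.toFinset ×ˢ P.toFinset) ×ˢ Finset.range (2 * s + 1) with hDs
  have hmemD : ∀ d : Dsc al, d ∈ Ds ↔ d.1.1 ∈ P ∧ d.1.2 ∈ P ∧ d.2 < 2 * s + 1 := by
    intro d
    rw [hDs, Finset.mem_product, Finset.mem_product, List.mem_toFinset, List.mem_toFinset,
      Finset.mem_range, and_assoc]
  set form : Dsc al → (Fin s → ℝ) × ℝ := fun d =>
    ((fun j => ((nrm x d j : ℚ) : ℝ)), ((rhs s M r d : ℚ) : ℝ)) with hform
  set H : Finset ((Fin s → ℝ) × ℝ) := Ds.image form with hH
  have hsel : ∀ i : Fin f, ∃ W : Fin (s + 1) → Fin s → Dsc al,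
      (∀ l k, W l k ∈ Ds) ∧ (∀ l, (mtx x (W l)).det ≠ 0) ∧
      ∀ d ∈ Ds, SignType.sign (∑ j, ((nrm x d j : ℚ) : ℝ) *
          ((num M x r W j / den x W : ℚ) : ℝ) - ((rhs s M r d : ℚ) : ℝ)) =
        SignType.sign (∑ j, ((nrm x d j : ℚ) : ℝ) * a i j - ((rhs s M r d : ℚ) : ℝ)) := by
    intro i
    obtain ⟨w, hw, hdet, hsg⟩ := hB s M H (a i) (ha i)
      (by
        intro j
        rw [hH, Finset.mem_image]
        refine ⟨((p0, p0), (j : ℕ) + 1), (hmemD _).2 ⟨hp0, hp0, ?_⟩, ?_⟩
        · show (j : ℕ) + 1 < 2 * s + 1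
          have := j.2
          omega
        · rw [hform]
          refine Prod.ext ?_ ?_
          · funext j'
            show ((nrm x ((p0, p0), (j : ℕ) + 1) j' : ℚ) : ℝ) = (Pi.single j 1 : Fin s → ℝ) j'
            rw [nrm_low, Pi.single_apply]
            split_ifs <;> simp
          · show ((rhs s M r ((p0, p0), (j : ℕ) + 1) : ℚ) : ℝ) = (M : ℝ)
            rw [rhs_low]
            simp)
      (by
        intro j
        rw [hH, Finset.mem_image]
        refine ⟨((p0, p0), s + (j : ℕ) + 1), (hmemD _).2 ⟨hp0, hp0, ?_⟩, ?_⟩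
        · show s + (j : ℕ) + 1 < 2 * s + 1
          have := j.2
          omega
        · rw [hform]
          refine Prod.ext ?_ ?_
          · funext j'
            show ((nrm x ((p0, p0), s + (j : ℕ) + 1) j' : ℚ) : ℝ) =
              (Pi.single j 1 : Fin s → ℝ) j'
            rw [nrm_high, Pi.single_apply]
            split_ifs <;> simp
          · show ((rhs s M r ((p0, p0), s + (j : ℕ) + 1) : ℚ) : ℝ) = -(M : ℝ)
            rw [rhs_high]
            simp)
    have hw' : ∀ l k, ∃ d ∈ Ds, form d = w l k := by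
      intro l k
      have := hw l k
      rw [hH, Finset.mem_image] at this
      exact this
    choose W hWD hWw using hw'
    have hdetq : ∀ l, (mtx x (W l)).det ≠ 0 := by
      intro l h0
      apply hdet l
      have hm : (Matrix.of (fun k => (w l k).1) : Matrix (Fin s) (Fin s) ℝ) =
          (mtx x (W l)).map (Rat.castHom ℝ) := by
        ext k j
        simp only [Matrix.of_apply, Matrix.map_apply]
        rw [← hWw l k]
        rfl
      rw [hm, ← RingHom.mapMatrix_apply, ← RingHom.map_det, h0, map_zero]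
    refine ⟨W, hWD, hdetq, ?_⟩
    intro d hd
    have hsol := hsg (fun l j => ((crm M x r (W l) j / (mtx x (W l)).det : ℚ) : ℝ)) (by
      intro l k
      have h := cramer_sol M x r (W l) (hdetq l) k
      rw [← hWw l k]
      show ∑ j, ((nrm x (W l k) j : ℚ) : ℝ) *
        ((crm M x r (W l) j / (mtx x (W l)).det : ℚ) : ℝ) = ((rhs s M r (W l k) : ℚ) : ℝ)
      rw [← h]
      push_cast
      rfl)
    have hdH : form d ∈ H := by
      rw [hH]
      exact Finset.mem_image_of_mem _ hd
    have h2 := hsol (form d) hdH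
    have havg : ∀ j, (∑ l, ((crm M x r (W l) j / (mtx x (W l)).det : ℚ) : ℝ)) / ((s : ℝ) + 1) =
        ((num M x r W j / den x W : ℚ) : ℝ) := by
      intro j
      rw [← avg_eq M x r W hdetq j]
      push_cast
      rfl
    simp only [havg] at h2
    exact h2
  choose W hWD hdet hsg using hsel
  refine ⟨W, fun i l k => (hmemD _).1 (hWD i l k), ?_⟩
  intro y hy z hz
  apply exists_congr
  intro i
  -- the comparison of a single functional
  have hone : ∀ y ∈ P, ∀ z ∈ P,
      ((r : ℝ) ≤ ∑ j, ((num M x r (W i) j / den x (W i) : ℚ) : ℝ) *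
        ((x y j : ℝ) - (x z j : ℝ)) ↔
      (r : ℝ) ≤ ∑ j, a i j * ((x y j : ℝ) - (x z j : ℝ))) := by
    intro y hy z hz
    have h := sign_iff (hsg i ((y, z), 0) ((hmemD _).2 ⟨hy, hz, by
      show 0 < 2 * s + 1
      omega⟩))
    have e1 : ∀ j, nrm x ((y, z), 0) j = x y j - x z j := by
      intro j
      unfold nrm
      simp
    have e2 : rhs s M r ((y, z), 0) = r := by
      unfold rhs
      simp
    rw [e2] at h
    simp only [e1] at h
    rw [sub_nonneg, sub_nonneg] at h
    have e3 : ∀ c : Fin s → ℝ, ∑ j, ((x y j - x z j : ℚ) : ℝ) * c j =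
        ∑ j, c j * ((x y j : ℝ) - (x z j : ℝ)) := by
      intro c
      apply Finset.sum_congr rfl
      intro j _
      push_cast
      ring
    rw [e3, e3] at h
    exact h
  have hneg : ∀ c : Fin s → ℝ, ∑ j, c j * ((x z j : ℝ) - (x y j : ℝ)) =
      -∑ j, c j * ((x y j : ℝ) - (x z j : ℝ)) := by
    intro c
    rw [← Finset.sum_neg_distrib]
    apply Finset.sum_congr rfl
    intro j _
    ring
  have h1 := hone y hy z hz
  have h2 := hone z hz y hy
  rw [hneg, hneg] at h2
  have habs : ((r : ℝ) ≤ |∑ j, ((num M x r (W i) j / den x (W i) : ℚ) : ℝ) *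
        ((x y j : ℝ) - (x z j : ℝ))| ↔
      (r : ℝ) ≤ |∑ j, a i j * ((x y j : ℝ) - (x z j : ℝ))|) := by
    rw [le_abs, le_abs, h1, h2]
  rw [← habs]
  -- the scaled comparison
  have hden : ∀ k, 0 < den x (W k) := fun k => den_pos x (W k) (hdet k)
  set R : ℚ := ∏ k ∈ Finset.univ.erase i, den x (W k) with hR
  have hRpos : 0 < R := Finset.prod_pos fun k _ => hden k
  have hthr : thr x r W = r * den x (W i) * R := by
    unfold thr
    rw [← Finset.mul_prod_erase Finset.univ (fun k => den x (W k)) (Finset.mem_univ i)]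
    ring
  have hval : val M x r W y i - val M x r W z i =
      (∑ j, num M x r (W i) j * (x y j - x z j)) * R := by
    unfold val
    rw [← sub_mul, ← Finset.sum_sub_distrib]
    congr 1
    apply Finset.sum_congr rfl
    intro j _
    ring
  have hscale : ∑ j, num M x r (W i) j * (x y j - x z j) =
      (∑ j, num M x r (W i) j / den x (W i) * (x y j - x z j)) * den x (W i) := by
    rw [Finset.sum_mul]
    apply Finset.sum_congr rfl
    intro j _
    have := (hden i).ne'
    field_simp
  rw [hthr, hval, abs_mul, abs_of_pos hRpos, mul_le_mul_iff_left₀ hRpos, hscale, abs_mul,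
    abs_of_pos (hden i), mul_le_mul_iff_left₀ (hden i)]
  constructor
  · intro h
    have h' : ((r : ℚ) : ℝ) ≤
        ((|∑ j, num M x r (W i) j / den x (W i) * (x y j - x z j)| : ℚ) : ℝ) := by
      exact_mod_cast h
    push_cast at h' ⊢
    exact h'
  · intro h
    have h' : ((r : ℚ) : ℝ) ≤
        ((|∑ j, num M x r (W i) j / den x (W i) * (x y j - x z j)| : ℚ) : ℝ) := by
      push_cast at h ⊢
      exact h
    exact_mod_cast h'

end Pool.Agent.Work.MP_5296b6_lc

end

section

/-!
# I4: the values of the candidates are computed in polynomial time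
-/

set_option autoImplicit false

namespace Pool.Agent.Work.MP_5296b6_lc

open Pool.Agent.PT

variable {s f : ℕ} {α al : Type} [Enc α] [Enc al] {x : al → Fin s → ℚ}

theorem qf_nrm (hx : ∀ j, QF (fun y : al => x y j)) {d : α → Dsc al} (hd : PTF d) (j : Fin s) :
    QF (fun a => nrm x (d a) j) := by
  classical
  unfold nrm
  have h2 : PTF (fun a => (d a).2) := PTF.snd.comp hd
  have h3 : QF (fun a => x (d a).1.1 j - x (d a).1.2 j) :=
    ((hx j).comp (e := fun a => (d a).1.1) (PTF.fst.comp (PTF.fst.comp hd))).sub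
      ((hx j).comp (e := fun a => (d a).1.2) (PTF.snd.comp (PTF.fst.comp hd)))
  refine (QF.ite (PTP.eq h2 (PTF.const 0)) h3 (QF.ite
    ((PTP.eq h2 (PTF.const ((j : ℕ) + 1))).or (PTP.eq h2 (PTF.const (s + (j : ℕ) + 1))))
    (QF.const 1) (QF.const 0))).congr (fun a => ?_)
  congr

theorem qf_rhs (M : ℕ) {r : α → ℚ} (hr : QF r) {d : α → Dsc al} (hd : PTF d) :
    QF (fun a => rhs s M (r a) (d a)) := by
  classical
  unfold rhs
  have h2 : PTF (fun a => (d a).2) := PTF.snd.comp hd
  refine (QF.ite (PTP.eq h2 (PTF.const 0)) hr (QF.ite (PTP.le h2 (PTF.const s))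
    (QF.const (M : ℚ)) (QF.const (-(M : ℚ))))).congr (fun a => ?_)
  congr

theorem qf_mtx (hx : ∀ j, QF (fun y : al => x y j)) {W : α → Fin s → Dsc al} (hW : PTF W)
    (k j : Fin s) : QF (fun a => mtx x (W a) k j) :=
  qf_nrm hx (PTF.app hW k) j

theorem qf_crm (M : ℕ) (hx : ∀ j, QF (fun y : al => x y j)) {r : α → ℚ} (hr : QF r)
    {W : α → Fin s → Dsc al} (hW : PTF W) (j : Fin s) :
    QF (fun a => crm M x (r a) (W a) j) := by
  unfold crm
  refine QF.det (fun k j' => ?_)
  by_cases h : j' = j
  · subst h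
    refine (qf_rhs (s := s) M hr (PTF.app hW k)).congr (fun a => ?_)
    rw [Matrix.updateCol_self]
  · refine (qf_mtx hx hW k j').congr (fun a => ?_)
    rw [Matrix.updateCol_ne h]

theorem qf_det (hx : ∀ j, QF (fun y : al => x y j)) {W : α → Fin s → Dsc al} (hW : PTF W) :
    QF (fun a => (mtx x (W a)).det) :=
  QF.det (fun k j => qf_mtx hx hW k j)

theorem qf_num (M : ℕ) (hx : ∀ j, QF (fun y : al => x y j)) {r : α → ℚ} (hr : QF r)
    {W : α → Fin (s + 1) → Fin s → Dsc al} (hW : PTF W) (j : Fin s) :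
    QF (fun a => num M x (r a) (W a) j) := by
  unfold num
  refine QF.sum_fin (fun l => QF.mul ((qf_det hx (PTF.app hW l)).mul
    (qf_crm M hx hr (PTF.app hW l) j)) (QF.prod _ (fun l' => ?_)))
  have h := qf_det hx (PTF.app hW l')
  exact (h.mul h).congr (fun a => (sq _).symm)

theorem qf_den (hx : ∀ j, QF (fun y : al => x y j))
    {W : α → Fin (s + 1) → Fin s → Dsc al} (hW : PTF W) :
    QF (fun a => den x (W a)) := by
  unfold den
  refine QF.mul (QF.const _) (QF.prod_fin (fun l => ?_))
  have h := qf_det hx (PTF.app hW l)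
  exact (h.mul h).congr (fun a => (sq _).symm)

theorem qf_val (M : ℕ) (hx : ∀ j, QF (fun y : al => x y j)) {r : α → ℚ} (hr : QF r)
    {W : α → Fin f → Fin (s + 1) → Fin s → Dsc al} (hW : PTF W) {y : α → al} (hy : PTF y)
    (i : Fin f) : QF (fun a => val M x (r a) (W a) (y a) i) := by
  unfold val
  exact QF.mul (QF.sum_fin (fun j => (qf_num M hx hr (PTF.app hW i) j).mul ((hx j).comp hy)))
    (QF.prod _ (fun k => qf_den hx (PTF.app hW k)))

theorem qf_thr (hx : ∀ j, QF (fun y : al => x y j)) {r : α → ℚ} (hr : QF r)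
    {W : α → Fin f → Fin (s + 1) → Fin s → Dsc al} (hW : PTF W) :
    QF (fun a => thr x (r a) (W a)) := by
  unfold thr
  exact QF.mul hr (QF.prod_fin (fun k => qf_den hx (PTF.app hW k)))

theorem claimVal : ClaimVal := by
  intro s f M ga al _ _ x r hx hr
  refine ⟨fun i => ?_, ?_⟩
  · exact qf_val M hx (r := fun p : (ga × (Fin f → Fin (s + 1) → Fin s → Dsc al)) × al =>
      r p.1.1) (hr.comp (PTF.fst.comp PTF.fst)) (PTF.snd.comp PTF.fst) PTF.snd i
  · exact qf_thr hx (r := fun p : ga × (Fin f → Fin (s + 1) → Fin s → Dsc al) => r p.1)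
      (hr.comp PTF.fst) PTF.snd

end Pool.Agent.Work.MP_5296b6_lc

end

section

/-!
# I6: the decision version needs comparisons of distances
-/

set_option autoImplicit false

namespace Pool.Agent.Work.MP_5296b6_lc

open Pool.Agent.PT Pool.Agent.Scatter Pool.Agent.MaxScatter N487b59b3

namespace I6

/-! ### Geometry -/

theorem exists_facets {s : ℕ} {B : Set (Fin s → ℝ)} (hB : IsPolyhedralBall B) :
    ∃ (f : ℕ) (a : Fin f → Fin s → ℝ), B = {x | ∀ i, |∑ j, a i j * x j| ≤ 1} := by
  obtain ⟨W, hW⟩ := hB.polytope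
  obtain ⟨f, a, -, h⟩ := claimWeyl ⊤ s W (fun w _ j => Subfield.mem_top _) (hW ▸ hB)
  exact ⟨f, a, hW.trans h⟩

theorem norm_facts {s : ℕ} (h1 : 1 ≤ s) {B : Set (Fin s → ℝ)} (hB : IsPolyhedralBall B) :
    (∀ x, pnorm B (-x) = pnorm B x) ∧ pnorm B 0 = 0 ∧
      ∃ c C : ℝ, 0 < c ∧ 0 ≤ C ∧ ∀ x, c * ‖x‖ ≤ pnorm B x ∧ pnorm B x ≤ C * ‖x‖ := by
  obtain ⟨f, a, hBa⟩ := exists_facets hB
  have hN := claimNorm s f B a h1 hB hBa
  have hneg : ∀ x, pnorm B (-x) ≤ pnorm B x := by
    intro x
    obtain ⟨i, hi⟩ := (hN (-x) _).1 le_rfl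
    refine (hN x _).2 ⟨i, hi.trans (le_of_eq ?_)⟩
    rw [← abs_neg, ← Finset.sum_neg_distrib]
    congr 1
    exact Finset.sum_congr rfl fun j _ => by rw [Pi.neg_apply]; ring
  have hnn : ∀ x, 0 ≤ pnorm B x := by
    intro x
    obtain ⟨i, -⟩ := (hN x _).1 le_rfl
    exact (hN x 0).2 ⟨i, abs_nonneg _⟩
  refine ⟨fun x => le_antisymm (hneg x) ?_, le_antisymm ?_ (hnn 0), ?_⟩
  · have h := hneg (-x)
    rwa [neg_neg] at h
  · obtain ⟨i, hi⟩ := (hN 0 _).1 le_rfl
    simpa using hi
  · obtain ⟨W, hW⟩ := hB.polytope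
    have hcomp : IsCompact B := by
      rw [hW]
      exact W.finite_toSet.isCompact_convexHull ℝ
    obtain ⟨C', hC'⟩ := hcomp.isBounded.exists_norm_le
    have hM : 0 < |C'| + 1 := by positivity
    refine ⟨1 / (|C'| + 1), ∑ i, ∑ j, |a i j|, by positivity,
      Finset.sum_nonneg fun i _ => Finset.sum_nonneg fun j _ => abs_nonneg _, fun x => ⟨?_, ?_⟩⟩
    · by_contra hcon
      rw [not_le] at hcon
      have hx : 0 < ‖x‖ := by
        by_contra h0
        have h0' : ‖x‖ = 0 := le_antisymm (not_lt.1 h0) (norm_nonneg _)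
        rw [h0', mul_zero] at hcon
        exact absurd (hnn x) (not_le.2 hcon)
      have hmem : ((|C'| + 1) / ‖x‖) • x ∈ B := by
        rw [hBa]
        intro i
        have e : ∑ j, a i j * (((|C'| + 1) / ‖x‖) • x) j =
            ((|C'| + 1) / ‖x‖) * ∑ j, a i j * x j := by
          rw [Finset.mul_sum]
          refine Finset.sum_congr rfl fun j _ => ?_
          rw [Pi.smul_apply, smul_eq_mul]
          ring
        rw [e, abs_mul, abs_of_pos (by positivity : 0 < (|C'| + 1) / ‖x‖)]
        have h2 : |∑ j, a i j * x j| ≤ pnorm B x := (hN x _).2 ⟨i, le_rfl⟩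
        have h3 : |∑ j, a i j * x j| ≤ 1 / (|C'| + 1) * ‖x‖ := h2.trans hcon.le
        calc (|C'| + 1) / ‖x‖ * |∑ j, a i j * x j|
            ≤ (|C'| + 1) / ‖x‖ * (1 / (|C'| + 1) * ‖x‖) :=
              mul_le_mul_of_nonneg_left h3 (by positivity)
          _ = 1 := by field_simp
      have h4 := hC' _ hmem
      rw [norm_smul, Real.norm_eq_abs, abs_of_pos (by positivity : 0 < (|C'| + 1) / ‖x‖),
        div_mul_cancel₀ _ hx.ne'] at h4
      have h5 := le_abs_self C'
      linarith
    · obtain ⟨i, hi⟩ := (hN x _).1 le_rfl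
      refine hi.trans ?_
      calc |∑ j, a i j * x j| ≤ ∑ j, |a i j * x j| := Finset.abs_sum_le_sum_abs _ _
        _ ≤ ∑ j, |a i j| * ‖x‖ := by
            refine Finset.sum_le_sum fun j _ => ?_
            rw [abs_mul]
            exact mul_le_mul_of_nonneg_left (norm_le_pi_norm x j) (abs_nonneg _)
        _ = (∑ j, |a i j|) * ‖x‖ := by rw [Finset.sum_mul]
        _ ≤ (∑ i, ∑ j, |a i j|) * ‖x‖ := by
            refine mul_le_mul_of_nonneg_right ?_ (norm_nonneg _)
            exact Finset.single_le_sum (f := fun i => ∑ j, |a i j|)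
              (fun i _ => Finset.sum_nonneg fun j _ => abs_nonneg _) (Finset.mem_univ i)

theorem three {α : Type} {R : List α} {p q r : α} (h : R.Perm [p, q, r]) (hpq : p ≠ q) :
    (p, q) ∈ edges R ∨ (q, p) ∈ edges R := by
  have hl : R.length = 3 := h.length_eq
  have hp : p ∈ R := h.mem_iff.2 (by simp)
  have hq : q ∈ R := h.mem_iff.2 (by simp)
  match R, hl with
  | [u, v, w], _ =>
    have he : edges [u, v, w] = [(u, v), (v, w), (w, u)] := rfl
    rw [he]
    simp only [List.mem_cons, List.not_mem_nil, or_false, Prod.mk.injEq] at hp hq ⊢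
    rcases hp with rfl | rfl | rfl <;> rcases hq with rfl | rfl | rfl <;> simp_all

theorem edges_map' {α β : Type} (g : α → β) (R : List α) :
    edges (R.map g) = (edges R).map (Prod.map g g) := by
  unfold edges
  rw [← List.map_rotate, List.zip_map]

theorem decision_iff {s : ℕ} (h1 : 1 ≤ s) {B : Set (Fin s → ℝ)} (hB : IsPolyhedralBall B)
    {y z w : List ℚ} (hy : y.length = s) (hz : z.length = s) (hw : w.length = s) (hyz : y ≠ z)
    (hyw : y ≠ w) (hzw : z ≠ w)
    (d1 : pdist B (toPt s y) (toPt s z) ≤ pdist B (toPt s z) (toPt s w))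
    (d2 : pdist B (toPt s y) (toPt s z) ≤ pdist B (toPt s y) (toPt s w)) (L : ℚ) :
    Decision B ([y, z, w], L) ↔ ((L : ℚ) : ℝ) ≤ pdist B (toPt s y) (toPt s z) := by
  obtain ⟨hneg, -⟩ := norm_facts h1 hB
  have hcomm : ∀ u v, pdist B u v = pdist B v u := by
    intro u v
    unfold pdist
    rw [← hneg, neg_sub]
  constructor
  · rintro ⟨-, R, hR, hL⟩
    have hne : R.map (toPt s) ≠ [] := by
      have := hR.length_eq
      intro h
      rw [List.map_eq_nil_iff] at h
      rw [h] at this
      simp at this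
    have h := (claimScatter s B (R.map (toPt s)) _ hne).1 hL
    rw [edges_map'] at h
    rcases three hR hyz with h2 | h2
    · exact h (toPt s y, toPt s z)
        (List.mem_map_of_mem (f := Prod.map (toPt s) (toPt s)) h2)
    · have h3 := h (toPt s z, toPt s y)
        (List.mem_map_of_mem (f := Prod.map (toPt s) (toPt s)) h2)
      exact h3.trans (hcomm _ _).le
  · intro hL
    refine ⟨⟨le_rfl, by simp [hyz, hyw, hzw], by simp [hy, hz, hw]⟩, [y, z, w],
      List.Perm.refl _, ?_⟩
    rw [claimScatter s B _ _ (by simp)]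
    have he : edges ([y, z, w].map (toPt s)) =
        [(toPt s y, toPt s z), (toPt s z, toPt s w), (toPt s w, toPt s y)] := rfl
    rw [he]
    intro e he
    simp only [List.mem_cons, List.not_mem_nil, or_false] at he
    rcases he with rfl | rfl | rfl
    · exact hL
    · exact hL.trans d1
    · rw [hcomm]
      exact hL.trans d2

theorem toPt_padQ (s : ℕ) (y : List ℚ) : toPt s (padQ s y) = toPt s y := by
  funext j
  have h := padQ_append_getD s y [] j
  rw [List.append_nil, if_pos j.2] at h
  unfold toPt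
  rw [h]

theorem length_padQ (s : ℕ) (y : List ℚ) : (padQ s y).length = s := by
  unfold padQ
  simp

/-! ### Codes -/

theorem lt_two_pow_enc (n : ℕ) : n < 2 ^ (Computability.encodeNat n).length := by
  have h := A2.bval_lt (Computability.encodeNat n)
  rwa [A2.bval_encodeNat] at h

theorem abs_le_code (q : ℚ) : |((q : ℚ) : ℝ)| ≤ 2 ^ (bitEncode q).length := by
  have h1 : (bitEncode q : List Bool) = delimit (delimit (Computability.encodeNat q.num.toNat) ++
      Computability.encodeNat (-q.num).toNat) ++ Computability.encodeNat q.den := rfl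
  have h2 : |(q : ℝ)| ≤ |(q.num : ℝ)| := by
    have h3 : (q : ℝ) = (q.num : ℝ) / (q.den : ℝ) := by exact_mod_cast (Rat.num_div_den q).symm
    rw [h3, abs_div, Nat.abs_cast]
    refine div_le_self (abs_nonneg _) ?_
    exact_mod_cast q.den_pos
  refine h2.trans ?_
  have h4 : q.num.natAbs ≤ 2 ^ (bitEncode q).length := by
    rw [h1]
    simp only [List.length_append, length_delimit]
    rcases le_total 0 q.num with h | h
    · have e : q.num.natAbs = q.num.toNat := by omega
      rw [e]
      exact (lt_two_pow_enc _).le.trans (Nat.pow_le_pow_right (by norm_num) (by omega))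
    · have e : q.num.natAbs = (-q.num).toNat := by omega
      rw [e]
      exact (lt_two_pow_enc _).le.trans (Nat.pow_le_pow_right (by norm_num) (by omega))
  have h5 : |(q.num : ℝ)| = ((q.num.natAbs : ℕ) : ℝ) := by
    rw [Nat.cast_natAbs, Int.cast_abs]
  rw [h5]
  exact_mod_cast h4

theorem length_block {α : Type} [N487b59b3 α] {a : α} {l : List α} (h : a ∈ l) :
    (bitEncode a).length ≤ (bitEncode l).length := by
  obtain ⟨u, v, rfl⟩ := List.append_of_mem h
  have e : (bitEncode (u ++ a :: v) : List Bool) =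
      (((u ++ a :: v).map bitEncode).map delimit).flatten := rfl
  rw [e]
  simp only [List.map_append, List.map_cons, List.flatten_append, List.flatten_cons,
    List.length_append, length_delimit]
  omega

theorem abs_toPt_le (s : ℕ) (y : List ℚ) (j : Fin s) {n : ℕ} (hn : (bitEncode y).length ≤ n) :
    |toPt s y j| ≤ 2 ^ n := by
  unfold toPt
  by_cases hj : (j : ℕ) < y.length
  · rw [List.getD_eq_getElem _ _ hj]
    refine (abs_le_code _).trans ?_
    exact pow_le_pow_right₀ (by norm_num) ((length_block (List.getElem_mem hj)).trans hn)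
  · rw [List.getD_eq_default _ _ (not_lt.1 hj)]
    simp

theorem encodeNat_double (n : ℕ) (hn : 0 < n) :
    Computability.encodeNat (2 * n) = false :: Computability.encodeNat n := by
  have h2 : ∀ l : List Bool, binSucc (true :: l) = false :: binSucc l := by
    intro l
    have h : (true :: l).idxOf false = l.idxOf false + 1 :=
      List.idxOf_cons_ne _ (by decide)
    simp [binSucc, h, List.replicate_succ]
  have h1 : ∀ l : List Bool, binSucc (false :: l) = true :: l := by
    intro l
    simp [binSucc]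
  induction n with
  | zero => omega
  | succ n ih =>
    rcases Nat.eq_zero_or_pos n with rfl | hn
    · decide
    · have e : 2 * (n + 1) = 2 * n + 1 + 1 := by ring
      rw [e, encodeNat_succ, encodeNat_succ, ih hn, h1, h2, encodeNat_succ]

theorem encodeNat_pow (k : ℕ) :
    Computability.encodeNat (2 ^ k) = List.replicate k false ++ [true] := by
  induction k with
  | zero => decide
  | succ k ih =>
    rw [pow_succ, mul_comm, encodeNat_double _ (by positivity), ih, List.replicate_succ]
    rfl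

theorem code_pow (k : ℕ) : (bitEncode (((2 ^ k : ℕ) : ℚ)) : List Bool) =
    delimit (delimit (List.replicate k false ++ [true]) ++ []) ++ [true] := by
  have e1 : (bitEncode (((2 ^ k : ℕ) : ℚ)) : List Bool) =
      delimit (delimit (Computability.encodeNat (((2 ^ k : ℕ) : ℚ)).num.toNat) ++
      Computability.encodeNat (-(((2 ^ k : ℕ) : ℚ)).num).toNat) ++
      Computability.encodeNat (((2 ^ k : ℕ) : ℚ)).den := rfl
  rw [e1, Rat.num_natCast, Rat.den_natCast, Int.toNat_natCast, encodeNat_pow]
  have e2 : (-((2 ^ k : ℕ) : ℤ)).toNat = 0 := by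
    generalize 2 ^ k = m
    omega
  rw [e2]
  rfl

theorem code_list (l : List ℚ) : (bitEncode l : List Bool) =
    ((l.map bitEncode).map delimit).flatten := rfl

/-- The code of a list from the codes of the entries. -/
def pc (bl : List (List Bool)) : List Bool := (bl.map delimit).flatten

theorem pc_ptf {α : Type} [Enc α] {f : α → List (List Bool)} (hf : PTF f) :
    PTF (fun a => pc (f a)) := by
  unfold pc
  exact (PTF.map' (f := fun (_ : α) y => delimit y) (PTF.delimit PTF.snd) hf).flatten

/-- Padding of a list of blocks. -/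
def padR (s : ℕ) (bl : List (List Bool)) : List (List Bool) :=
  (List.range s).map (fun k => bl.getD k (bitEncode (0 : ℚ)))

theorem padR_ptf {α : Type} [Enc α] (s : ℕ) {f : α → List (List Bool)} (hf : PTF f) :
    PTF (fun a => padR s (f a)) := by
  unfold padR
  exact PTF.map' (f := fun (a : α) (k : ℕ) => (f a).getD k (bitEncode (0 : ℚ)))
    ((hf.comp PTF.fst).getD PTF.snd (PTF.const _)) (PTF.const (List.range s))

theorem padR_eq (s : ℕ) (y : List ℚ) : padR s (y.map bitEncode) = (padQ s y).map bitEncode := by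
  unfold padR padQ
  rw [List.map_map]
  refine List.map_congr_left fun k _ => ?_
  show (y.map bitEncode).getD k (bitEncode (0 : ℚ)) = bitEncode (y.getD k 0)
  rw [List.getD_map]

/-- The far point. -/
def far (s k : ℕ) : List ℚ := ((2 ^ k : ℕ) : ℚ) :: List.replicate (s - 1) 0

/-- The blocks of the code of the far point. -/
def farR (s k : ℕ) : List (List Bool) :=
  (delimit (delimit (List.replicate k false ++ [true]) ++ []) ++ [true]) ::
    List.replicate (s - 1) (bitEncode (0 : ℚ))

theorem farR_eq (s k : ℕ) : (far s k).map bitEncode = farR s k := by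
  unfold far farR
  rw [List.map_cons, code_pow, List.map_replicate]

theorem farR_ptf {α : Type} [Enc α] (s : ℕ) {k : α → ℕ} (hk : PTF k) :
    PTF (fun a => farR s (k a)) := by
  unfold farR
  exact PTF.cons ((PTF.delimit ((PTF.delimit ((PTF.replicate hk (PTF.const false)).append
    (PTF.const [true]))).append (PTF.const []))).append (PTF.const [true])) (PTF.const _)

/-- The query. -/
def query (s k0 : ℕ) (x : List Bool) : List Bool :=
  delimit (pc [pc (padR s (pList (pPair (pPair x).1).1)),
    pc (padR s (pList (pPair (pPair x).1).2)), pc (farR s (x.length + k0))]) ++ (pPair x).2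

theorem pPair_ptf {α : Type} [Enc α] {f : α → List Bool} (hf : PTF f) :
    PTF (fun a => pPair (f a)) :=
  (PTF.optionGetD claimUndelimit.1 (PTF.const _) : PTF pPair).comp hf

theorem pList_ptf {α : Type} [Enc α] {f : α → List Bool} (hf : PTF f) :
    PTF (fun a => pList (f a)) :=
  (PTF.optionGetD claimUndelimit.2 (PTF.const _) : PTF pList).comp hf

theorem query_ptf (s k0 : ℕ) : PTF (query s k0) := by
  have h1 : PTF (fun x : List Bool => (pPair x).1) := PTF.fst.comp (pPair_ptf PTF.id)
  have h2 : PTF (fun x : List Bool => (pPair x).2) := PTF.snd.comp (pPair_ptf PTF.id)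
  have h3 : PTF (fun x : List Bool => pc (padR s (pList (pPair (pPair x).1).1))) :=
    pc_ptf (padR_ptf s (pList_ptf (PTF.fst.comp (pPair_ptf h1))))
  have h4 : PTF (fun x : List Bool => pc (padR s (pList (pPair (pPair x).1).2))) :=
    pc_ptf (padR_ptf s (pList_ptf (PTF.snd.comp (pPair_ptf h1))))
  have h5 : PTF (fun x : List Bool => pc (farR s (x.length + k0))) :=
    pc_ptf (farR_ptf s (PTF.id.length.add (PTF.const k0)))
  exact (PTF.delimit (pc_ptf (PTF.cons h3 (PTF.cons h4 (PTF.cons h5 (PTF.const [])))))).append h2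

theorem query_eq (s k0 : ℕ) (y z : List ℚ) (L : ℚ) :
    query s k0 (bitEncode ((y, z), L)) =
      bitEncode (([padQ s y, padQ s z, far s ((bitEncode ((y, z), L)).length + k0)], L) :
        List (List ℚ) × ℚ) := by
  unfold query
  rw [pPair_eq]
  dsimp only
  rw [pPair_eq]
  dsimp only
  rw [pList_eq, pList_eq, padR_eq, padR_eq, ← farR_eq]
  rfl

end I6

open I6 in
theorem claimOnlyIf : ClaimOnlyIf := by
  classical
  intro s B h1 hB hD
  obtain ⟨g, hg, hgs⟩ := clockBool _ hD
  obtain ⟨hneg, hzero, c, C, hc, hC, hcC⟩ := norm_facts h1 hB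
  obtain ⟨k0, hk0⟩ := pow_unbounded_of_one_lt (2 * C / c + 1) (one_lt_two (α := ℝ))
  have hk1 : (1 : ℝ) < 2 ^ k0 := lt_of_le_of_lt (le_add_of_nonneg_left (by positivity)) hk0
  have hk2 : 2 * C ≤ c * (2 ^ k0 - 1) := by
    have h := (div_lt_iff₀ hc).1 (show 2 * C / c < 2 ^ k0 - 1 by linarith)
    linarith
  -- the machine
  let ya : List Bool → List (List Bool) := fun x => padR s (pList (pPair (pPair x).1).1)
  let za : List Bool → List (List Bool) := fun x => padR s (pList (pPair (pPair x).1).2)
  have h1' : PTF (fun x : List Bool => (pPair x).1) := PTF.fst.comp (pPair_ptf PTF.id)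
  have hya : PTF ya := padR_ptf s (pList_ptf (PTF.fst.comp (pPair_ptf h1')))
  have hza : PTF za := padR_ptf s (pList_ptf (PTF.snd.comp (pPair_ptf h1')))
  have hpQ : PTF (fun x : List Bool => pQ (pPair x).2) := by
    have h2 : PTF (fun x : List Bool => (pPair x).2) := PTF.snd.comp (pPair_ptf PTF.id)
    have h3 : PTF (fun x : List Bool => pPair (pPair x).2) := pPair_ptf h2
    exact (pPair_ptf (PTF.fst.comp h3)).pair (PTF.snd.comp h3)
  have hle : PTP (fun x : List Bool => A4.qv (pQ (pPair x).2) ≤ 0) :=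
    (QF.of_BQ hpQ).le (QF.const 0)
  let G : List Bool → Bool := fun x =>
    if ya x = za x then decide (A4.qv (pQ (pPair x).2) ≤ 0) else g (query s k0 x)
  have hG : PTF G := PTF.ite (PTF.eq hya hza) hle.ptf (hg.comp (query_ptf s k0))
  unfold DistComparable
  refine tm2_of (g := fun x => [G x]) (PTF.cons hG (PTF.const [])) fun I => ?_
  obtain ⟨⟨y, z⟩, L⟩ := I
  show [G (bitEncode ((y, z), L))] = [_]
  congr 1
  have eya : ya (bitEncode ((y, z), L)) = (padQ s y).map bitEncode := by
    show padR s (pList (pPair (pPair (bitEncode ((y, z), L))).1).1) = _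
    rw [pPair_eq]
    dsimp only
    rw [pPair_eq]
    dsimp only
    rw [pList_eq, padR_eq]
  have eza : za (bitEncode ((y, z), L)) = (padQ s z).map bitEncode := by
    show padR s (pList (pPair (pPair (bitEncode ((y, z), L))).1).2) = _
    rw [pPair_eq]
    dsimp only
    rw [pPair_eq]
    dsimp only
    rw [pList_eq, padR_eq]
  show (if ya (bitEncode ((y, z), L)) = za (bitEncode ((y, z), L)) then
    decide (A4.qv (pQ (pPair (bitEncode ((y, z), L))).2) ≤ 0)
    else g (query s k0 (bitEncode ((y, z), L)))) = _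
  rw [eya, eza, query_eq, hgs, pPair_eq]
  dsimp only
  rw [pQ_eq, A4.qv_repQ claimBadd.2.2]
  have ey : toPt s y = toPt s (padQ s y) := (toPt_padQ s y).symm
  have ez : toPt s z = toPt s (padQ s z) := (toPt_padQ s z).symm
  by_cases heq : padQ s y = padQ s z
  · rw [if_pos (by rw [heq]), decide_eq_decide, ey, ez, heq]
    unfold pdist
    rw [sub_self, hzero]
    exact_mod_cast Iff.rfl
  · have hne : ¬ (padQ s y).map (bitEncode (α := ℚ)) = (padQ s z).map bitEncode := fun h =>
      heq (List.map_injective_iff.2 bitEncode_injective h)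
    rw [if_neg hne, decide_eq_decide]
    set n := (bitEncode ((y, z), L)).length with hn
    have hbits : (bitEncode ((y, z), L) : List Bool) =
      delimit (delimit (bitEncode y) ++ bitEncode z) ++ bitEncode L := rfl
    have hny : (bitEncode y).length ≤ n := by
      rw [hn, hbits]
      simp only [List.length_append, length_delimit]
      omega
    have hnz : (bitEncode z).length ≤ n := by
      rw [hn, hbits]
      simp only [List.length_append, length_delimit]
      omega
    have hw0 : toPt s (far s (n + k0)) ⟨0, h1⟩ = 2 ^ n * 2 ^ k0 := by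
      unfold toPt far
      simp only [List.getD_cons_zero]
      push_cast
      rw [pow_add]
    have hpn : (0 : ℝ) < 2 ^ n := by positivity
    have key : ∀ u : List ℚ, (bitEncode u).length ≤ n →
        pdist B (toPt s y) (toPt s z) ≤ pdist B (toPt s u) (toPt s (far s (n + k0))) ∧
        padQ s u ≠ far s (n + k0) := by
      intro u hu
      have h3 := abs_toPt_le s u ⟨0, h1⟩ hu
      have h4 : 2 ^ n * (2 ^ k0 - 1) ≤ ‖toPt s u - toPt s (far s (n + k0))‖ := by
        have h5 := norm_le_pi_norm (toPt s u - toPt s (far s (n + k0))) ⟨0, h1⟩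
        rw [Pi.sub_apply, hw0, Real.norm_eq_abs] at h5
        refine le_trans ?_ h5
        rw [abs_sub_comm]
        refine le_trans ?_ (le_abs_self _)
        have := (abs_le.1 h3).2
        linarith
      constructor
      · have h6 := (hcC (toPt s u - toPt s (far s (n + k0)))).1
        have h7 := (hcC (toPt s y - toPt s z)).2
        have h8 : ‖toPt s y - toPt s z‖ ≤ 2 * 2 ^ n := by
          rw [pi_norm_le_iff_of_nonneg (by positivity)]
          intro j
          rw [Pi.sub_apply, Real.norm_eq_abs]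
          refine (abs_sub _ _).trans ?_
          have := abs_toPt_le s y j hny
          have := abs_toPt_le s z j hnz
          linarith
        calc pdist B (toPt s y) (toPt s z) ≤ C * ‖toPt s y - toPt s z‖ := h7
          _ ≤ C * (2 * 2 ^ n) := mul_le_mul_of_nonneg_left h8 hC
          _ = 2 * C * 2 ^ n := by ring
          _ ≤ c * (2 ^ k0 - 1) * 2 ^ n := mul_le_mul_of_nonneg_right hk2 hpn.le
          _ = c * (2 ^ n * (2 ^ k0 - 1)) := by ring
          _ ≤ c * ‖toPt s u - toPt s (far s (n + k0))‖ := mul_le_mul_of_nonneg_left h4 hc.le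
          _ ≤ _ := h6
      · intro h
        have h5 : toPt s u - toPt s (far s (n + k0)) = 0 := by
          rw [← h, toPt_padQ, sub_self]
        rw [h5, norm_zero] at h4
        have : 0 < (2 : ℝ) ^ n * (2 ^ k0 - 1) := mul_pos hpn (by linarith)
        linarith
    obtain ⟨ky1, ky2⟩ := key y hny
    obtain ⟨kz1, kz2⟩ := key z hnz
    have hlen : (far s (n + k0)).length = s := by
      unfold far
      rw [List.length_cons, List.length_replicate]
      omega
    rw [decision_iff h1 hB (length_padQ s y) (length_padQ s z) hlen heq ky2 kz2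
      (by rw [toPt_padQ, toPt_padQ]; exact kz1) (by rw [toPt_padQ, toPt_padQ]; exact ky1) L,
      toPt_padQ, toPt_padQ]

end Pool.Agent.Work.MP_5296b6_lc

end

section

/-!
# The decision procedure
-/

set_option autoImplicit false

namespace Pool.Agent.Work.MP_5296b6_lc

open Pool.Agent.PT Pool.Agent.Scatter

section

variable {f : ℕ} {ga al : Type} [Enc ga] [Enc al]

/-- The decision procedure for at least one track. -/
noncomputable def decF (C : Cmp f ga al) (a : ga × ((al × al) × List al)) : Bool :=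
  alg (S := Side (Fin f)) opp (slots f + 1) (4 * (a.2.2.length + 1), (a.2.2.length + 1,
    fun κ => wordOf (C.le0 κ.1) (C.leL κ.1) κ.2 a))

theorem ptf_decF (C : Cmp f ga al) : PTF (decF C) := by
  unfold decF
  refine (ptf_alg (S := Side (Fin f)) opp (slots f + 1)).comp ?_
  refine PTF.pair (by fun_prop) (PTF.pair (by fun_prop) (PTF.pi (fun κ => ?_)))
  exact ptf_wordOf (C.ptf0 κ.1) (C.ptfL κ.1) κ.2

omit [Enc al] in
theorem pt_pathPts {x y : al} {R : List al} (t : Tok (Fin (R.length + 1))) :
    pt x y R ((t.1 : ℕ), t.2) = pathPts x y R t := rfl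

theorem less_iff (C : Cmp f ga al) {c : ga} {x y : al} {R : List al} (hc : C.U c)
    (hx : C.V x) (hy : C.V y) (hR : ∀ r ∈ R, C.V r) (i : Fin f)
    (s s' : Tok (Fin (R.length + 1)) × Bool) :
    less (C.le0 i) (C.leL i) (c, ((x, y), R)) (cst' s) (cst' s') = true ↔
      spotLt (fun t => C.h i (pathPts x y R t)) (C.lv c) s s' := by
  have hV : ∀ t : Tok (Fin (R.length + 1)), C.V (pathPts x y R t) := by
    intro t
    unfold pathPts
    split
    · split
      · exact hy
      · exact hx
    · rw [List.getD_eq_getElem?_getD]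
      cases h : R[(t.1 : ℕ) - 1]? with
      | none => exact hx
      | some r => exact hR r (List.mem_of_getElem? h)
  obtain ⟨t, b⟩ := s
  obtain ⟨t', b'⟩ := s'
  have h12 := C.spec0 i _ _ (hV t) (hV t')
  have h21 := C.spec0 i _ _ (hV t') (hV t)
  have l12 := C.specL i c _ _ hc (hV t) (hV t')
  have l21 := C.specL i c _ _ hc (hV t') (hV t)
  have htok : tokLt (((t.1 : ℕ), t.2)) (((t'.1 : ℕ), t'.2)) = true ↔
      (t.1 < t'.1 ∨ (t.1 = t'.1 ∧ t.2 < t'.2)) := by
    unfold tokLt
    rw [decide_eq_true_iff]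
    refine or_congr Iff.rfl (and_congr Fin.ext_iff.symm ?_)
    cases t.2 <;> cases t'.2 <;> simp
  unfold less spotLt spotVal cst'
  dsimp only
  rw [pt_pathPts, pt_pathPts]
  cases b <;> cases b'
  · simp only [if_true, Bool.or_eq_true, Bool.not_eq_true', Bool.and_eq_true, htok, h12,
      Bool.false_eq_true, if_false, lt_self_iff_false, false_or, true_and]
    rw [← Bool.not_eq_true, h21]
    constructor
    · rintro (h | ⟨h1, h2⟩)
      · exact Or.inl (by linarith [not_le.1 h])
      · rcases lt_or_eq_of_le h1 with h3 | h3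
        · exact Or.inl (by linarith)
        · exact Or.inr ⟨by linarith, h2⟩
    · rintro (h | ⟨h1, h2⟩)
      · exact Or.inl (by linarith)
      · exact Or.inr ⟨by linarith, h2⟩
  · simp only [Bool.false_eq_true, if_false, if_true, l12, add_zero]
    constructor
    · intro h
      rcases lt_or_eq_of_le h with h3 | h3
      · exact Or.inl h3
      · exact Or.inr ⟨h3, Or.inl (by decide)⟩
    · rintro (h | ⟨h1, -⟩)
      · exact h.le
      · exact h1.le
  · simp only [Bool.true_eq_false, if_false, if_true, Bool.false_eq_true, add_zero,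
      Bool.not_eq_true']
    rw [← Bool.not_eq_true, l21]
    constructor
    · intro h
      exact Or.inl (not_le.1 h)
    · rintro (h | ⟨h1, h2⟩)
      · exact not_le.2 h
      · exfalso
        rcases h2 with h2 | ⟨h2, -⟩
        · exact absurd h2 (by decide)
        · exact absurd h2 (by decide)
  · simp only [if_true, Bool.or_eq_true, Bool.not_eq_true', Bool.and_eq_true, htok, h12,
      lt_self_iff_false, false_or, true_and, add_zero]
    rw [← Bool.not_eq_true, h21]
    constructor
    · rintro (h | ⟨h1, h2⟩)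
      · exact Or.inl (not_le.1 h)
      · rcases lt_or_eq_of_le h1 with h3 | h3
        · exact Or.inl h3
        · exact Or.inr ⟨h3, h2⟩
    · rintro (h | ⟨h1, h2⟩)
      · exact Or.inl (not_le.2 h)
      · exact Or.inr ⟨h1.le, h2⟩

theorem decF_iff (hT : ClaimTour) (hC : ClaimCore) (hG : ClaimGeo) (hP : ClaimPath)
    (C : Cmp f ga al) (hf : 0 < f) {c : ga} {x y : al} {R : List al} (hc : C.U c)
    (hx : C.V x) (hy : C.V y) (hR : ∀ r ∈ R, C.V r) :
    decF C (c, ((x, y), R)) = true ↔ ∃ R' : List al, R'.Perm R ∧ Completes (C.rel c) x y R' := by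
  classical
  have : Nonempty (Fin f) := ⟨⟨0, hf⟩⟩
  obtain ⟨D, hN, hpos, hcomp, hadj⟩ := hG (R.length + 1) f
    (fun i t => C.h i (pathPts x y R t)) (C.lv c)
  have hW : IsWords D (fun κ => wordOf (C.le0 κ.1) (C.leL κ.1) κ.2 (c, ((x, y), R))) := by
    refine isWords_wordOf (a := (c, ((x, y), R))) hN (fun t i b => ?_)
    rw [hpos]
    unfold rank
    congr 1
    rw [← card_spots (fun z => spotLt (fun t => C.h i (pathPts x y R t)) (C.lv c) z (t, b))
      (fun s' => less (C.le0 i) (C.leL i) (c, ((x, y), R)) s' (((t.1 : ℕ), t.2), b))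
      (fun z => less_iff C hc hx hy hR i z (t, b))]
  have hK : ∀ [DecidablePred fun v : Fin (R.length + 1) => ¬ D.Adj v],
      slots (Fintype.card (Fin f)) +
        (Finset.univ.filter fun v : Fin (R.length + 1) => ¬ D.Adj v).card ≤ slots f + 1 := by
    intro _
    rw [Fintype.card_fin]
    refine Nat.add_le_add_left ?_ _
    refine le_trans (Finset.card_le_card (t := {(0 : Fin (R.length + 1))}) (fun v hv => ?_))
      (Finset.card_singleton _).le
    rw [Finset.mem_filter] at hv
    rw [Finset.mem_singleton]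
    by_contra hne
    apply hv.2
    apply hadj
    intro i
    have h1 : (v : ℕ) ≠ 0 := fun h => hne (Fin.ext h)
    show C.h i (pathPts x y R (v, false)) = C.h i (pathPts x y R (v, true))
    unfold pathPts
    rw [if_neg h1, if_neg h1]
  have h1 := alg_iff hT hC (Nat.succ_pos _) hW hK
  rw [hN] at h1
  show alg opp (slots f + 1) (4 * (R.length + 1), (R.length + 1, _)) = true ↔ _
  rw [h1]
  refine hP al (Fin f) (C.rel c) (fun a b => ?_) x y R D (fun t t' => ?_)
  · rintro ⟨i, hi⟩
    exact ⟨i, by rw [abs_sub_comm]; exact hi⟩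
  · rw [hcomp]
    rfl

end

theorem claimDec (hT : ClaimTour) (hC : ClaimCore) (hG : ClaimGeo) (hP : ClaimPath) :
    ClaimDec := by
  intro f ga al _ _ C
  rcases Nat.eq_zero_or_pos f with rfl | hf
  · refine ⟨fun _ => false, PTF.const _, fun c x y R _ _ _ _ => ?_⟩
    constructor
    · intro h; exact absurd h (by simp)
    · rintro ⟨R', -, h⟩
      exfalso
      have hne : (y :: R').zip (R' ++ [x]) ≠ [] := by
        cases R' <;> simp
      obtain ⟨e, he⟩ := List.exists_mem_of_ne_nil _ hne
      obtain ⟨i, -⟩ := h e he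
      exact i.elim0
  · exact ⟨decF C, ptf_decF C, fun c x y R hc hx hy hR =>
      decF_iff hT hC hG hP C hf hc hx hy hR⟩

end Pool.Agent.Work.MP_5296b6_lc

end

section

/-!
# Words from comparisons, decision procedure: real RAM version
-/

set_option autoImplicit false

namespace Pool.Agent.Work.MP_5296b6_lc.R

open Pool.Agent.RRAM Pool.Agent.Work.MP_5296b6_lc Pool.Agent.Scatter

section words

variable {al ga : Type} [Enc al] [Enc ga]

theorem ptf_pt : PTF (fun p : (ga × ((al × al) × List al)) × (ℕ × Bool) =>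
    pt p.1.2.1.1 p.1.2.1.2 p.1.2.2 p.2) := by
  unfold pt
  fun_prop

theorem ptf_less {le0 : al × al → Bool} {leL : ga × (al × al) → Bool} (h0 : PTF le0)
    (hL : PTF leL) : PTF (fun p : (ga × ((al × al) × List al)) × (Spot × Spot) =>
      less le0 leL p.1 p.2.1 p.2.2) := by
  have hp1 : PTF (fun p : (ga × ((al × al) × List al)) × (Spot × Spot) =>
      pt p.1.2.1.1 p.1.2.1.2 p.1.2.2 p.2.1.1) :=
    ptf_pt.comp (g := fun p : (ga × ((al × al) × List al)) × (Spot × Spot) => (p.1, p.2.1.1))
      (by fun_prop)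
  have hp2 : PTF (fun p : (ga × ((al × al) × List al)) × (Spot × Spot) =>
      pt p.1.2.1.1 p.1.2.1.2 p.1.2.2 p.2.2.1) :=
    ptf_pt.comp (g := fun p : (ga × ((al × al) × List al)) × (Spot × Spot) => (p.1, p.2.2.1))
      (by fun_prop)
  have ha : PTF (fun p : (ga × ((al × al) × List al)) × (Spot × Spot) => p.1.1) := by fun_prop
  have h12 := h0.comp (hp1.pair hp2)
  have h21 := h0.comp (hp2.pair hp1)
  have l12 := hL.comp (ha.pair (hp1.pair hp2))
  have l21 := hL.comp (ha.pair (hp2.pair hp1))
  unfold less tokLt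
  refine PTF.ite (by fun_prop) (PTF.or h21.not (PTF.and h12 (by fun_prop)))
    (PTF.ite (by fun_prop) l12 l21.not)

theorem ptf_spots {α : Type} [Enc α] {n : α → ℕ} (hn : PTF n) : PTF (fun a => spots (n a)) := by
  unfold spots
  fun_prop

theorem ptf_rank {le0 : al × al → Bool} {leL : ga × (al × al) → Bool} (h0 : PTF le0)
    (hL : PTF leL) : PTF (fun p : (ga × ((al × al) × List al)) × Spot =>
      rank le0 leL p.1 p.2) := by
  unfold rank
  have h1 : PTF (fun p : (ga × ((al × al) × List al)) × Spot =>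
      (spots (p.1.2.2.length + 1)).filter (fun s' => less le0 leL p.1 s' p.2)) := by
    refine PTF.filter' (f := fun (p : (ga × ((al × al) × List al)) × Spot) s' =>
      less le0 leL p.1 s' p.2) ?_ (ptf_spots (by fun_prop))
    exact (ptf_less h0 hL).comp (g := fun q : ((ga × ((al × al) × List al)) × Spot) × Spot =>
      (q.1.1, (q.2, q.1.2))) (by fun_prop)
  exact PTF.add (PTF.const 1) h1.length

theorem ptf_wordOf {le0 : al × al → Bool} {leL : ga × (al × al) → Bool} (h0 : PTF le0)
    (hL : PTF leL) (side : Bool) : PTF (wordOf le0 leL side) := by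
  unfold wordOf
  refine PTF.map' (f := fun (a : ga × ((al × al) × List al)) r =>
    (((spots (a.2.2.length + 1)).find? (fun s =>
      decide ((if side = true then 4 * (a.2.2.length + 1) + 1 - rank le0 leL a s
        else rank le0 leL a s) = r + 1))).map
      (fun s => (s.1, decide (s.2 = side)))).getD ((0, false), false)) ?_ ?_
  swap
  · fun_prop
  refine PTF.optionGetD (PTF.optionMap' (f := fun (_ : (ga × ((al × al) × List al)) × ℕ)
    (s : Spot) => (s.1, decide (s.2 = side))) (by fun_prop) ?_) (PTF.const _)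
  refine PTF.find' (f := fun (p : (ga × ((al × al) × List al)) × ℕ) (s : Spot) =>
      decide ((if side = true then 4 * (p.1.2.2.length + 1) + 1 - rank le0 leL p.1 s
        else rank le0 leL p.1 s) = p.2 + 1)) ?_ (ptf_spots (by fun_prop))
  have hr : PTF (fun q : ((ga × ((al × al) × List al)) × ℕ) × Spot => rank le0 leL q.1.1 q.2) :=
    (ptf_rank h0 hL).comp (g := fun q : ((ga × ((al × al) × List al)) × ℕ) × Spot =>
      (q.1.1, q.2)) (by fun_prop)
  exact PTF.eq (PTF.ite (PTF.const _) (PTF.sub (by fun_prop) hr) hr) (by fun_prop)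

/-- The computed words are the words of the table whose positions are the computed ranks. -/
theorem isWords_wordOf {f : ℕ} {a : ga × ((al × al) × List al)}
    {D : Table (Fin (a.2.2.length + 1)) (Fin f)} (hN : D.N = 4 * (a.2.2.length + 1))
    {le0 : Fin f → al × al → Bool} {leL : Fin f → ga × (al × al) → Bool}
    (hpos : ∀ t i b, D.pos t (i, b) = rank (le0 i) (leL i) a (((t.1 : ℕ), t.2), b)) :
    IsWords D (fun κ => wordOf (le0 κ.1) (leL κ.1) κ.2 a) := by
  refine ⟨fun κ => by simp [wordOf, hN], fun κ t b => ?_⟩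
  have h1 := D.one_le t (κ.1, b)
  have h2 := D.le_N t (κ.1, b)
  have hrk : 1 ≤ D.rk κ (D.pos t (κ.1, b)) ∧ D.rk κ (D.pos t (κ.1, b)) ≤ D.N := by
    unfold Table.rk
    split <;> omega
  have hlt : D.rk κ (D.pos t (κ.1, b)) - 1 < 4 * (a.2.2.length + 1) := by
    rw [← hN]; omega
  unfold wordOf
  rw [List.getElem?_map, List.getElem?_range hlt, Option.map_some]
  congr 1
  have hfind : (spots (a.2.2.length + 1)).find? (fun s =>
      decide ((if κ.2 = true then 4 * (a.2.2.length + 1) + 1 - rank (le0 κ.1) (leL κ.1) a s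
        else rank (le0 κ.1) (leL κ.1) a s) = D.rk κ (D.pos t (κ.1, b)) - 1 + 1)) =
      some (((t.1 : ℕ), t.2), b) := by
    have hmem : (((t.1 : ℕ), t.2), b) ∈ spots (a.2.2.length + 1) := mem_spots.2 t.1.2
    cases h : (spots (a.2.2.length + 1)).find? (fun s =>
      decide ((if κ.2 = true then 4 * (a.2.2.length + 1) + 1 - rank (le0 κ.1) (leL κ.1) a s
        else rank (le0 κ.1) (leL κ.1) a s) = D.rk κ (D.pos t (κ.1, b)) - 1 + 1)) with
    | none =>
      exfalso
      have h3 := List.find?_eq_none.1 h _ hmem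
      apply h3
      rw [decide_eq_true_iff, ← hpos, ← hN]
      unfold Table.rk
      unfold Table.rk at hrk
      split <;> rename_i h4
      · rw [if_pos h4] at hrk; omega
      · rw [if_neg h4] at hrk; omega
    | some s =>
      have h3 := List.find?_some h
      rw [decide_eq_true_iff] at h3
      have h4 := mem_spots.1 (List.mem_of_find?_eq_some h)
      obtain ⟨⟨v, e⟩, b'⟩ := s
      have h5 : rank (le0 κ.1) (leL κ.1) a ((v, e), b') =
          D.pos ((⟨v, h4⟩ : Fin _), e) (κ.1, b') := (hpos ((⟨v, h4⟩ : Fin _), e) κ.1 b').symm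
      have h6 := D.one_le ((⟨v, h4⟩ : Fin _), e) (κ.1, b')
      have h7 := D.le_N ((⟨v, h4⟩ : Fin _), e) (κ.1, b')
      rw [h5, ← hN] at h3
      have h8 : D.pos ((⟨v, h4⟩ : Fin _), e) (κ.1, b') = D.pos t (κ.1, b) := by
        unfold Table.rk at h3
        split at h3 <;> omega
      obtain ⟨h9, h10⟩ := D.inj _ _ _ _ _ h8
      rw [← h9, h10]
  rw [hfind]
  rfl


end words

section

variable {f : ℕ} {ga al : Type} [Enc ga] [Enc al]

/-- The decision procedure for at least one track. -/
noncomputable def decF (C : Scatter.R.Cmp f ga al) (a : ga × ((al × al) × List al)) : Bool :=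
  alg (S := Side (Fin f)) opp (slots f + 1) (4 * (a.2.2.length + 1), (a.2.2.length + 1,
    fun κ => wordOf (C.le0 κ.1) (C.leL κ.1) κ.2 a))

theorem ptf_decF (C : Scatter.R.Cmp f ga al) : PTF (decF C) := by
  unfold decF
  refine (ptf_alg (S := Side (Fin f)) opp (slots f + 1)).comp ?_
  refine PTF.pair (by fun_prop) (PTF.pair (by fun_prop) (PTF.pi (fun κ => ?_)))
  exact ptf_wordOf (C.ptf0 κ.1) (C.ptfL κ.1) κ.2

omit [Enc al] in
theorem pt_pathPts {x y : al} {R : List al} (t : Tok (Fin (R.length + 1))) :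
    pt x y R ((t.1 : ℕ), t.2) = pathPts x y R t := rfl

theorem less_iff (C : Scatter.R.Cmp f ga al) {c : ga} {x y : al} {R : List al} (hc : C.U c)
    (hx : C.V x) (hy : C.V y) (hR : ∀ r ∈ R, C.V r) (i : Fin f)
    (s s' : Tok (Fin (R.length + 1)) × Bool) :
    less (C.le0 i) (C.leL i) (c, ((x, y), R)) (cst' s) (cst' s') = true ↔
      spotLt (fun t => C.h i (pathPts x y R t)) (C.lv c) s s' := by
  have hV : ∀ t : Tok (Fin (R.length + 1)), C.V (pathPts x y R t) := by
    intro t
    unfold pathPts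
    split
    · split
      · exact hy
      · exact hx
    · rw [List.getD_eq_getElem?_getD]
      cases h : R[(t.1 : ℕ) - 1]? with
      | none => exact hx
      | some r => exact hR r (List.mem_of_getElem? h)
  obtain ⟨t, b⟩ := s
  obtain ⟨t', b'⟩ := s'
  have h12 := C.spec0 i _ _ (hV t) (hV t')
  have h21 := C.spec0 i _ _ (hV t') (hV t)
  have l12 := C.specL i c _ _ hc (hV t) (hV t')
  have l21 := C.specL i c _ _ hc (hV t') (hV t)
  have htok : tokLt (((t.1 : ℕ), t.2)) (((t'.1 : ℕ), t'.2)) = true ↔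
      (t.1 < t'.1 ∨ (t.1 = t'.1 ∧ t.2 < t'.2)) := by
    unfold tokLt
    rw [decide_eq_true_iff]
    refine or_congr Iff.rfl (and_congr Fin.ext_iff.symm ?_)
    cases t.2 <;> cases t'.2 <;> simp
  unfold less spotLt spotVal cst'
  dsimp only
  rw [pt_pathPts, pt_pathPts]
  cases b <;> cases b'
  · simp only [if_true, Bool.or_eq_true, Bool.not_eq_true', Bool.and_eq_true, htok, h12,
      Bool.false_eq_true, if_false, lt_self_iff_false, false_or, true_and]
    rw [← Bool.not_eq_true, h21]
    constructor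
    · rintro (h | ⟨h1, h2⟩)
      · exact Or.inl (by linarith [not_le.1 h])
      · rcases lt_or_eq_of_le h1 with h3 | h3
        · exact Or.inl (by linarith)
        · exact Or.inr ⟨by linarith, h2⟩
    · rintro (h | ⟨h1, h2⟩)
      · exact Or.inl (by linarith)
      · exact Or.inr ⟨by linarith, h2⟩
  · simp only [Bool.false_eq_true, if_false, if_true, l12, add_zero]
    constructor
    · intro h
      rcases lt_or_eq_of_le h with h3 | h3
      · exact Or.inl h3
      · exact Or.inr ⟨h3, Or.inl (by decide)⟩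
    · rintro (h | ⟨h1, -⟩)
      · exact h.le
      · exact h1.le
  · simp only [Bool.true_eq_false, if_false, if_true, Bool.false_eq_true, add_zero,
      Bool.not_eq_true']
    rw [← Bool.not_eq_true, l21]
    constructor
    · intro h
      exact Or.inl (not_le.1 h)
    · rintro (h | ⟨h1, h2⟩)
      · exact not_le.2 h
      · exfalso
        rcases h2 with h2 | ⟨h2, -⟩
        · exact absurd h2 (by decide)
        · exact absurd h2 (by decide)
  · simp only [if_true, Bool.or_eq_true, Bool.not_eq_true', Bool.and_eq_true, htok, h12,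
      lt_self_iff_false, false_or, true_and, add_zero]
    rw [← Bool.not_eq_true, h21]
    constructor
    · rintro (h | ⟨h1, h2⟩)
      · exact Or.inl (not_le.1 h)
      · rcases lt_or_eq_of_le h1 with h3 | h3
        · exact Or.inl h3
        · exact Or.inr ⟨h3, h2⟩
    · rintro (h | ⟨h1, h2⟩)
      · exact Or.inl (not_le.2 h)
      · exact Or.inr ⟨h1.le, h2⟩

theorem decF_iff (hT : ClaimTour) (hC : ClaimCore) (hG : ClaimGeo) (hP : ClaimPath)
    (C : Scatter.R.Cmp f ga al) (hf : 0 < f) {c : ga} {x y : al} {R : List al} (hc : C.U c)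
    (hx : C.V x) (hy : C.V y) (hR : ∀ r ∈ R, C.V r) :
    decF C (c, ((x, y), R)) = true ↔ ∃ R' : List al, R'.Perm R ∧ Completes (C.rel c) x y R' := by
  classical
  have : Nonempty (Fin f) := ⟨⟨0, hf⟩⟩
  obtain ⟨D, hN, hpos, hcomp, hadj⟩ := hG (R.length + 1) f
    (fun i t => C.h i (pathPts x y R t)) (C.lv c)
  have hW : IsWords D (fun κ => wordOf (C.le0 κ.1) (C.leL κ.1) κ.2 (c, ((x, y), R))) := by
    refine isWords_wordOf (a := (c, ((x, y), R))) hN (fun t i b => ?_)
    rw [hpos]
    unfold rank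
    congr 1
    rw [← card_spots (fun z => spotLt (fun t => C.h i (pathPts x y R t)) (C.lv c) z (t, b))
      (fun s' => less (C.le0 i) (C.leL i) (c, ((x, y), R)) s' (((t.1 : ℕ), t.2), b))
      (fun z => less_iff C hc hx hy hR i z (t, b))]
  have hK : ∀ [DecidablePred fun v : Fin (R.length + 1) => ¬ D.Adj v],
      slots (Fintype.card (Fin f)) +
        (Finset.univ.filter fun v : Fin (R.length + 1) => ¬ D.Adj v).card ≤ slots f + 1 := by
    intro _
    rw [Fintype.card_fin]
    refine Nat.add_le_add_left ?_ _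
    refine le_trans (Finset.card_le_card (t := {(0 : Fin (R.length + 1))}) (fun v hv => ?_))
      (Finset.card_singleton _).le
    rw [Finset.mem_filter] at hv
    rw [Finset.mem_singleton]
    by_contra hne
    apply hv.2
    apply hadj
    intro i
    have h1 : (v : ℕ) ≠ 0 := fun h => hne (Fin.ext h)
    show C.h i (pathPts x y R (v, false)) = C.h i (pathPts x y R (v, true))
    unfold pathPts
    rw [if_neg h1, if_neg h1]
  have h1 := alg_iff hT hC (Nat.succ_pos _) hW hK
  rw [hN] at h1
  show alg opp (slots f + 1) (4 * (R.length + 1), (R.length + 1, _)) = true ↔ _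
  rw [h1]
  refine hP al (Fin f) (C.rel c) (fun a b => ?_) x y R D (fun t t' => ?_)
  · rintro ⟨i, hi⟩
    exact ⟨i, by rw [abs_sub_comm]; exact hi⟩
  · rw [hcomp]
    rfl

end

theorem claimDec (hT : ClaimTour) (hC : ClaimCore) (hG : ClaimGeo) (hP : ClaimPath) :
    Scatter.R.ClaimDec := by
  intro f ga al _ _ C
  rcases Nat.eq_zero_or_pos f with rfl | hf
  · refine ⟨fun _ => false, PTF.const _, fun c x y R _ _ _ _ => ?_⟩
    constructor
    · intro h; exact absurd h (by simp)
    · rintro ⟨R', -, h⟩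
      exfalso
      have hne : (y :: R').zip (R' ++ [x]) ≠ [] := by
        cases R' <;> simp
      obtain ⟨e, he⟩ := List.exists_mem_of_ne_nil _ hne
      obtain ⟨i, -⟩ := h e he
      exact i.elim0
  · exact ⟨decF C, ptf_decF C, fun c x y R hc hx hy hR =>
      decF_iff hT hC hG hP C hf hc hx hy hR⟩

end Pool.Agent.Work.MP_5296b6_lc.R

end

section

/-!
# The optimum of seven points: geometry
-/

set_option autoImplicit false

namespace Pool.Agent.Work.MP_5296b6_lc

open Pool.Agent.Scatter Pool.Agent.MaxScatter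

namespace Seven

/-- Facts on the norm. -/
theorem norm_facts {s : ℕ} {B : Set (Fin s → ℝ)} (hs : 1 ≤ s) (hB : IsPolyhedralBall B) :
    (∀ x, pnorm B (-x) = pnorm B x) ∧
      (∀ x y, pnorm B (x + y) ≤ pnorm B x + pnorm B y) ∧
      (∀ x, pnorm B (x + x) = 2 * pnorm B x) := by
  obtain ⟨W, hW⟩ := hB.polytope
  obtain ⟨f, a, -, ha⟩ := claimWeyl ⊤ s W (fun _ _ _ => Subfield.mem_top _) (hW ▸ hB)
  rw [← hW] at ha
  have N := claimNorm s f B a hs hB ha
  have hge : ∀ (x : Fin s → ℝ) (i : Fin f), |∑ j, a i j * x j| ≤ pnorm B x := fun x i =>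
    (N x _).2 ⟨i, le_rfl⟩
  have hle : ∀ x : Fin s → ℝ, ∃ i, pnorm B x ≤ |∑ j, a i j * x j| := fun x => (N x _).1 le_rfl
  have hneg : ∀ (x : Fin s → ℝ) (i : Fin f),
      |∑ j, a i j * (-x) j| = |∑ j, a i j * x j| := fun x i => by
    have h1 : ∑ j, a i j * (-x) j = -∑ j, a i j * x j := by
      rw [← Finset.sum_neg_distrib]
      exact Finset.sum_congr rfl fun j _ => by rw [Pi.neg_apply]; ring
    rw [h1, abs_neg]
  have hadd : ∀ (x y : Fin s → ℝ) (i : Fin f),
      ∑ j, a i j * (x + y) j = ∑ j, a i j * x j + ∑ j, a i j * y j := fun x y i => by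
    rw [← Finset.sum_add_distrib]
    exact Finset.sum_congr rfl fun j _ => by rw [Pi.add_apply]; ring
  refine ⟨fun x => le_antisymm ?_ ?_, fun x y => ?_, fun x => le_antisymm ?_ ?_⟩
  · obtain ⟨i, hi⟩ := hle (-x)
    rw [hneg] at hi
    exact hi.trans (hge x i)
  · obtain ⟨i, hi⟩ := hle x
    rw [← hneg] at hi
    exact hi.trans (hge (-x) i)
  · obtain ⟨i, hi⟩ := hle (x + y)
    rw [hadd] at hi
    exact hi.trans ((abs_add_le _ _).trans (add_le_add (hge x i) (hge y i)))
  · obtain ⟨i, hi⟩ := hle (x + x)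
    rw [hadd, ← two_mul (∑ j, a i j * x j), abs_mul, abs_two] at hi
    exact hi.trans (mul_le_mul_of_nonneg_left (hge x i) zero_le_two)
  · obtain ⟨i, hi⟩ := hle x
    have h1 := hge (x + x) i
    rw [hadd, ← two_mul (∑ j, a i j * x j), abs_mul, abs_two] at h1
    linarith

/-- Two cyclically consecutive `true`s. -/
theorem bool_pigeon : ∀ b0 b1 b2 b3 b4 b5 b6 : Bool,
    [b0, b1, b2, b3, b4, b5, b6].count true = 4 →
      ∃ e ∈ [(b0, b1), (b1, b2), (b2, b3), (b3, b4), (b4, b5), (b5, b6), (b6, b0)],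
        e.1 = true ∧ e.2 = true := by
  decide

theorem list_seven {α : Type} (R : List α) (h : R.length = 7) :
    ∃ r0 r1 r2 r3 r4 r5 r6, R = [r0, r1, r2, r3, r4, r5, r6] := by
  match R, h with
  | [r0, r1, r2, r3, r4, r5, r6], _ => exact ⟨r0, r1, r2, r3, r4, r5, r6, rfl⟩

theorem edges_seven {α : Type} (r0 r1 r2 r3 r4 r5 r6 : α) :
    edges [r0, r1, r2, r3, r4, r5, r6] =
      [(r0, r1), (r1, r2), (r2, r3), (r3, r4), (r4, r5), (r5, r6), (r6, r0)] := rfl

/-- Two consecutive points of `A`. -/
theorem exists_edge {α : Type} (A : α → Prop) (l R : List α) (hl : l.length = 7)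
    (hcount : ∀ (_ : DecidablePred A), l.countP (fun x => decide (A x)) = 4)
    (hnd : l.Nodup) (hR : R.Perm l) :
    ∃ e ∈ edges R, A e.1 ∧ A e.2 ∧ e.1 ≠ e.2 := by
  classical
  have hlen : R.length = 7 := hR.length_eq.trans hl
  have hnR : R.Nodup := hR.nodup_iff.2 hnd
  have hc : R.countP (fun x => decide (A x)) = 4 := by
    rw [hR.countP_eq]
    exact hcount _
  obtain ⟨r0, r1, r2, r3, r4, r5, r6, rfl⟩ := list_seven R hlen
  have hc' : [decide (A r0), decide (A r1), decide (A r2), decide (A r3), decide (A r4),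
      decide (A r5), decide (A r6)].count true = 4 := by
    have h1 : [decide (A r0), decide (A r1), decide (A r2), decide (A r3), decide (A r4),
        decide (A r5), decide (A r6)] =
          [r0, r1, r2, r3, r4, r5, r6].map (fun x => decide (A x)) := rfl
    rw [h1, List.count, List.countP_map, ← hc]
    refine List.countP_congr fun x _ => ?_
    simp
  have h2 := bool_pigeon _ _ _ _ _ _ _ hc'
  rw [edges_seven]
  simp only [List.nodup_cons, List.mem_cons, not_or, List.not_mem_nil, not_false_eq_true,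
    List.nodup_nil, and_true] at hnR
  simp only [List.mem_cons, List.not_mem_nil, or_false, exists_eq_or_imp, exists_eq_left,
    decide_eq_true_eq] at h2 ⊢
  rcases h2 with h | h | h | h | h | h | h
  · exact Or.inl ⟨h.1, h.2, hnR.1.1⟩
  · exact Or.inr (Or.inl ⟨h.1, h.2, hnR.2.1.1⟩)
  · exact Or.inr (Or.inr (Or.inl ⟨h.1, h.2, hnR.2.2.1.1⟩))
  · exact Or.inr (Or.inr (Or.inr (Or.inl ⟨h.1, h.2, hnR.2.2.2.1.1⟩)))
  · exact Or.inr (Or.inr (Or.inr (Or.inr (Or.inl ⟨h.1, h.2, hnR.2.2.2.2.1.1⟩))))
  · exact Or.inr (Or.inr (Or.inr (Or.inr (Or.inr (Or.inl ⟨h.1, h.2, hnR.2.2.2.2.2⟩)))))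
  · exact Or.inr (Or.inr (Or.inr (Or.inr (Or.inr (Or.inr
      ⟨h.1, h.2, fun h' => hnR.1.2.2.2.2.2 h'.symm⟩)))))

/-- The shortest edge of a comparison tour. -/
theorem tour_le {s : ℕ} {B : Set (Fin s → ℝ)} (r0 r1 r2 r3 r4 r5 r6 : Fin s → ℝ) (L : ℝ)
    (h0 : L ≤ pdist B r0 r1) (h1 : L ≤ pdist B r1 r2) (h2 : L ≤ pdist B r2 r3)
    (h3 : L ≤ pdist B r3 r4) (h4 : L ≤ pdist B r4 r5) (h5 : L ≤ pdist B r5 r6)
    (h6 : L ≤ pdist B r6 r0) : L ≤ scatter B [r0, r1, r2, r3, r4, r5, r6] := by
  rw [claimScatter s B _ L (by simp), edges_seven]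
  intro e he
  simp only [List.mem_cons, List.not_mem_nil, or_false] at he
  rcases he with rfl | rfl | rfl | rfl | rfl | rfl | rfl <;> assumption

end Seven

theorem claimSeven : ClaimSeven := by
  intro s B hs hB u v w R hw hnd hR hopt
  obtain ⟨hsym, htri, htwo⟩ := Seven.norm_facts hs hB
  have hne : R ≠ [] := by
    rintro rfl
    have h := hR.length_eq
    simp at h
  have hscat : ∀ e ∈ edges R, scatter B R ≤ pdist B e.1 e.2 :=
    (claimScatter s B R _ hne).1 le_rfl
  -- distances
  have dsym : ∀ x y : Fin s → ℝ, pdist B x y = pdist B y x := fun x y => by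
    unfold pdist
    rw [← hsym, neg_sub]
  have dtwo : ∀ x : Fin s → ℝ, pdist B x (-x) = 2 * pnorm B x := fun x => by
    unfold pdist
    rw [sub_neg_eq_add, htwo]
  have dtwo' : ∀ x : Fin s → ℝ, pdist B (-x) x = 2 * pnorm B x := fun x => by
    rw [dsym, dtwo]
  have dtri : ∀ x y : Fin s → ℝ, pdist B x y ≤ pnorm B x + pnorm B y := fun x y => by
    unfold pdist
    rw [sub_eq_add_neg]
    exact (htri x (-y)).trans (by rw [hsym])
  have hwu : ∀ i, ∀ p ∈ [u, -u, v, -v], 2 * pnorm B u ≤ pdist B (w i) p := fun i p hp =>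
    (mul_le_mul_of_nonneg_left (le_max_left _ _) zero_le_two).trans (hw i p hp)
  have hwv : ∀ i, ∀ p ∈ [u, -u, v, -v], 2 * pnorm B v ≤ pdist B (w i) p := fun i p hp =>
    (mul_le_mul_of_nonneg_left (le_max_right _ _) zero_le_two).trans (hw i p hp)
  -- the two comparison tours
  have t1 : 2 * pnorm B v ≤ scatter B [v, -v, w 0, u, w 1, -u, w 2] := by
    apply Seven.tour_le
    · exact (dtwo v).ge
    · rw [dsym]; exact hwv 0 _ (by simp)
    · exact hwv 0 _ (by simp)
    · rw [dsym]; exact hwv 1 _ (by simp)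
    · exact hwv 1 _ (by simp)
    · rw [dsym]; exact hwv 2 _ (by simp)
    · exact hwv 2 _ (by simp)
  have t2 : 2 * pnorm B u ≤ scatter B [u, -u, w 0, v, w 1, -v, w 2] := by
    apply Seven.tour_le
    · exact (dtwo u).ge
    · rw [dsym]; exact hwu 0 _ (by simp)
    · exact hwu 0 _ (by simp)
    · rw [dsym]; exact hwu 1 _ (by simp)
    · exact hwu 1 _ (by simp)
    · rw [dsym]; exact hwu 2 _ (by simp)
    · exact hwu 2 _ (by simp)
  have p1 : [v, -v, w 0, u, w 1, -u, w 2].Perm [u, -u, v, -v, w 0, w 1, w 2] := by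
    classical
    rw [List.perm_iff_count]
    intro x
    simp only [List.count_cons, List.count_nil]
    ring
  have p2 : [u, -u, w 0, v, w 1, -v, w 2].Perm [u, -u, v, -v, w 0, w 1, w 2] := by
    classical
    rw [List.perm_iff_count]
    intro x
    simp only [List.count_cons, List.count_nil]
    ring
  have q1 := t1.trans (hopt _ p1)
  have q2 := t2.trans (hopt _ p2)
  constructor
  · rintro (h | h)
    · have h1 := hscat _ h
      simp only [dtwo] at h1
      linarith
    · have h1 := hscat _ h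
      simp only [dtwo'] at h1
      linarith
  · intro hno
    rw [not_or] at hno
    obtain ⟨e, he, h1, h2, h3⟩ := Seven.exists_edge (fun x => x ∈ [u, -u, v, -v])
      [u, -u, v, -v, w 0, w 1, w 2] R rfl (by
        intro _
        simp only [List.nodup_cons, List.mem_cons, not_or, List.not_mem_nil, not_false_eq_true,
          List.nodup_nil, and_true] at hnd
        obtain ⟨⟨a1, a2, a3, a4, a5, a6⟩, ⟨b1, b2, b3, b4, b5⟩, ⟨c1, c2, c3, c4⟩, ⟨d1, d2, d3⟩,
          -⟩ := hnd
        have e0 : w 0 ∉ [u, -u, v, -v] := by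
          simp only [List.mem_cons, List.not_mem_nil, or_false, not_or]
          exact ⟨Ne.symm a4, Ne.symm b3, Ne.symm c2, Ne.symm d1⟩
        have e1 : w 1 ∉ [u, -u, v, -v] := by
          simp only [List.mem_cons, List.not_mem_nil, or_false, not_or]
          exact ⟨Ne.symm a5, Ne.symm b4, Ne.symm c3, Ne.symm d2⟩
        have e2 : w 2 ∉ [u, -u, v, -v] := by
          simp only [List.mem_cons, List.not_mem_nil, or_false, not_or]
          exact ⟨Ne.symm a6, Ne.symm b5, Ne.symm c4, Ne.symm d3⟩
        have f0 : u ∈ [u, -u, v, -v] := by simp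
        have f1 : -u ∈ [u, -u, v, -v] := by simp
        have f2 : v ∈ [u, -u, v, -v] := by simp
        have f3 : -v ∈ [u, -u, v, -v] := by simp
        simp only [List.countP_cons, List.countP_nil, decide_eq_true_eq, e0, e1, e2, f0, f1, f2,
          f3, if_true, if_false]) hnd hR
    have h4 := hscat e he
    obtain ⟨x, y⟩ := e
    have key : pdist B x y ≤ 2 * pnorm B v ∨ pdist B x y ≤ pnorm B u + pnorm B v := by
      have huv := dtri u v
      simp only [List.mem_cons, List.not_mem_nil, or_false] at h1 h2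
      rcases h1 with rfl | rfl | rfl | rfl
      · rcases h2 with rfl | rfl | rfl | rfl
        · exact absurd rfl h3
        · exact absurd he hno.1
        · exact Or.inr (dtri _ _)
        · exact Or.inr ((dtri _ _).trans (by rw [hsym]))
      · rcases h2 with rfl | rfl | rfl | rfl
        · exact absurd he hno.2
        · exact absurd rfl h3
        · exact Or.inr ((dtri _ _).trans (by rw [hsym]))
        · exact Or.inr ((dtri _ _).trans (by rw [hsym, hsym]))
      · rcases h2 with rfl | rfl | rfl | rfl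
        · exact Or.inr ((dtri _ _).trans (add_comm _ _).le)
        · exact Or.inr ((dtri _ _).trans (by rw [hsym, add_comm]))
        · exact absurd rfl h3
        · exact Or.inl (dtwo _).le
      · rcases h2 with rfl | rfl | rfl | rfl
        · exact Or.inr ((dtri _ _).trans (by rw [hsym, add_comm]))
        · exact Or.inr ((dtri _ _).trans (by rw [hsym, hsym, add_comm]))
        · exact Or.inl (dtwo' _).le
        · exact absurd rfl h3
    simp only at h4
    rcases key with h5 | h5 <;> linarith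

end Pool.Agent.Work.MP_5296b6_lc

end

section

/-!
# Tours: a list of candidates that contains a good one
-/

set_option autoImplicit false

namespace Pool.Agent.Work.MP_5296b6_lc

open Pool.Agent.PT Pool.Agent.Scatter Pool.Agent.MaxScatter A4

/-- A list of tours is computed in polynomial time; for all real functionals with bounded
coefficients it contains a tour with long edges whenever there is one. -/
def ClaimTours : Prop :=
  ∀ (s f M : ℕ) (ga al : Type) [Enc ga] [Enc al] (x : al → Fin s → ℚ) (r : ga → ℚ),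
    (∀ j, QF (fun y : al => x y j)) → QF r →
    ∃ tours : ga × List al → List (List al), PTF tours ∧
      (∀ c P, ∀ T ∈ tours (c, P), T.Perm P) ∧
      ∀ (c : ga) (P : List al) (a : Fin f → Fin s → ℝ), P ≠ [] → (∀ i j, |a i j| < (M : ℝ)) →
        (∃ R : List al, R.Perm P ∧ ∀ e ∈ edges R,
          ∃ i, (r c : ℝ) ≤ |∑ j, a i j * ((x e.1 j : ℝ) - (x e.2 j : ℝ))|) →
        ∃ T ∈ tours (c, P), ∀ e ∈ edges T,
          ∃ i, (r c : ℝ) ≤ |∑ j, a i j * ((x e.1 j : ℝ) - (x e.2 j : ℝ))|

/-- Test for permutations. -/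
def permB {β : Type} [DecidableEq β] (l m : List β) : Bool :=
  (l ++ m).all (fun c => decide (l.count c = m.count c))

theorem permB_iff {β : Type} [DecidableEq β] (l m : List β) : permB l m = true ↔ l.Perm m := by
  unfold permB
  rw [List.all_eq_true, List.perm_iff_count]
  constructor
  · intro h c
    by_cases hc : c ∈ l ++ m
    · simpa using h c hc
    · rw [List.mem_append, not_or] at hc
      rw [List.count_eq_zero_of_not_mem hc.1, List.count_eq_zero_of_not_mem hc.2]
  · intro h c _
    simpa using h c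

theorem permB_ptf {α β : Type} [Enc α] [Enc β] [DecidableEq β] {l m : α → List β} (hl : PTF l)
    (hm : PTF m) : PTF (fun x => permB (l x) (m x)) :=
  PTF.all' (f := fun x c => decide ((l x).count c = (m x).count c))
    (PTF.eq (PTF.count PTF.snd (hl.comp PTF.fst)) (PTF.count PTF.snd (hm.comp PTF.fst)))
    (hl.append hm)

theorem claimTours (hM : ClaimMatch) (hV : ClaimVal) (hS : ClaimSearch) : ClaimTours := by
  classical
  intro s f M ga al _ _ x r hx hr
  cases isEmpty_or_nonempty al with
  | inl hal =>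
    refine ⟨fun _ => [], PTF.const _, fun c P T hT => (by simp at hT), fun c P a hP => ?_⟩
    exfalso
    cases P with
    | nil => exact hP rfl
    | cons y _ => exact hal.elim y
  | inr hal =>
    obtain ⟨y0⟩ := hal
    obtain ⟨h1, φt, hφt, ht⟩ := hV s f M ga al x r hx hr
    choose φ hφ hv using h1
    obtain ⟨sr, hsr, hsrs⟩ := hS f BQ (al × (Fin f → BQ)) (cmpQ f al)
    -- points with their values
    let vp : (ga × Cand s f al) × al → al × (Fin f → BQ) := fun p => (p.2, fun i => φ i p)
    have hvp : PTF vp := PTF.snd.pair (PTF.pi (fun i => hφ i))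
    have hmap : PTF (fun p : (ga × List al) × Cand s f al =>
        p.1.2.map (fun y => vp ((p.1.1, p.2), y))) :=
      PTF.map' (f := fun (p : (ga × List al) × Cand s f al) (y : al) => vp ((p.1.1, p.2), y))
        (hvp.comp (g := fun q : ((ga × List al) × Cand s f al) × al =>
          ((q.1.1.1, q.1.2), q.2)) (by fun_prop)) (PTF.snd.comp PTF.fst)
    have hth : PTF (fun p : (ga × List al) × Cand s f al => φt (p.1.1, p.2)) :=
      hφt.comp (g := fun p : (ga × List al) × Cand s f al => (p.1.1, p.2)) (by fun_prop)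
    let s1 : (ga × List al) × Cand s f al → List al := fun p =>
      (sr (φt (p.1.1, p.2), p.1.2.map (fun y => vp ((p.1.1, p.2), y)))).map Prod.fst
    have hs1 : PTF s1 :=
      PTF.map' (f := fun (_ : (ga × List al) × Cand s f al) (q : al × (Fin f → BQ)) => q.1)
        (PTF.fst.comp PTF.snd) (hsr.comp (hth.pair hmap))
    refine ⟨fun a => ((cands s f y0 a.2).map (fun W => s1 (a, W))).filter (fun T => permB T a.2),
      ?_, ?_, ?_⟩
    · exact PTF.filter' (f := fun (a : ga × List al) T => permB T a.2)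
        (permB_ptf PTF.snd (PTF.snd.comp PTF.fst))
        (PTF.map' (f := fun (a : ga × List al) W => s1 (a, W)) hs1 (ptf_cands PTF.snd))
    · intro c P T hT
      exact (permB_iff _ _).1 (List.mem_filter.1 hT).2
    · rintro c P a hP ha ⟨R, hR, hRe⟩
      obtain ⟨W, hW, hW'⟩ := hM s f M al x (r c) P a hP ha
      -- correctness for a matching candidate
      have hrel : ∀ y ∈ P, ∀ z ∈ P,
          ((cmpQ f al).rel (φt (c, W)) (vp ((c, W), y)) (vp ((c, W), z)) ↔
            ∃ i, (r c : ℝ) ≤ |∑ j, a i j * ((x y j : ℝ) - (x z j : ℝ))|) := by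
        intro y hy z hz
        rw [← hW' y hy z hz, rel_cmpQ]
        refine exists_congr (fun i => ?_)
        show qv (φt (c, W)) ≤ |qv (φ i ((c, W), y)) - qv (φ i ((c, W), z))| ↔ _
        rw [(ht _).2, (hv i _).2, (hv i _).2]
      have hex : ∃ R : List (al × (Fin f → BQ)), R.Perm (P.map (fun y => vp ((c, W), y))) ∧
          ∀ e ∈ edges R, (cmpQ f al).rel (φt (c, W)) e.1 e.2 := by
        refine ⟨R.map (fun y => vp ((c, W), y)), hR.map _, ?_⟩
        intro e he
        rw [edges_map'] at he
        obtain ⟨e', he', rfl⟩ := List.mem_map.1 he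
        obtain ⟨h2, h3⟩ := mem_of_mem_edges he'
        exact (hrel _ (hR.subset h2) _ (hR.subset h3)).2 (hRe e' he')
      obtain ⟨h3, h4⟩ := hsrs (φt (c, W)) (P.map (fun y => vp ((c, W), y))) trivial
        (fun _ _ => trivial) (by simpa using hP) hex
      have hperm : (s1 ((c, P), W)).Perm P := by
        have h5 := h3.map Prod.fst
        rw [List.map_map] at h5
        have h6 : (Prod.fst ∘ fun y => vp ((c, W), y)) = id := rfl
        rw [h6, List.map_id] at h5
        exact h5
      refine ⟨s1 ((c, P), W), List.mem_filter.2 ⟨List.mem_map.2 ⟨W, mem_cands hW, rfl⟩,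
        (permB_iff _ _).2 hperm⟩, ?_⟩
      intro e he
      change e ∈ edges (List.map Prod.fst _) at he
      rw [edges_map'] at he
      obtain ⟨e', he', rfl⟩ := List.mem_map.1 he
      obtain ⟨h5, h6⟩ := mem_of_mem_edges he'
      obtain ⟨y, hy, hy'⟩ := List.mem_map.1 (h3.subset h5)
      obtain ⟨z, hz, hz'⟩ := List.mem_map.1 (h3.subset h6)
      have h7 := h4 e' he'
      rw [← hy', ← hz'] at h7
      have h8 := (hrel y hy z hz).1 h7
      show ∃ i, (r c : ℝ) ≤ |∑ j, a i j * ((x e'.1.1 j : ℝ) - (x e'.2.1 j : ℝ))|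
      rw [← hy', ← hz']
      exact h8

end Pool.Agent.Work.MP_5296b6_lc

end

section

/-!
# Max-Scatter-TSP on the real RAM
-/

set_option autoImplicit false

namespace Pool.Agent.Scatter.R

open Pool.Agent.RRAM Pool.Agent.MaxScatter Pool.Agent.Scatter

/-- Points given by their values on the tracks. -/
noncomputable def cmpR (f : ℕ) : Cmp f ℝ (List ℝ) := by
  classical
  exact {
    U := fun _ => True
    V := fun _ => True
    h := fun i y => y.getD i 0
    lv := fun c => c
    le0 := fun i p => decide (p.1.getD i 0 ≤ p.2.getD i 0)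
    leL := fun i p => decide (p.2.1.getD i 0 + p.1 ≤ p.2.2.getD i 0)
    ptf0 := fun i => PTF.rle (PTF.fst.getD (PTF.const _) (PTF.const 0))
      (PTF.snd.getD (PTF.const _) (PTF.const 0))
    ptfL := fun i => PTF.rle (((PTF.fst.comp PTF.snd).getD (PTF.const _) (PTF.const 0)).radd
      PTF.fst) ((PTF.snd.comp PTF.snd).getD (PTF.const _) (PTF.const 0))
    spec0 := fun i y z _ _ => decide_eq_true_iff
    specL := fun i c y z _ _ _ => decide_eq_true_iff }

theorem cmpR_rel {f : ℕ} (c : ℝ) (y z : List ℝ) :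
    (cmpR f).rel c y z ↔ ∃ i : Fin f, c ≤ |y.getD i 0 - z.getD i 0| := Iff.rfl

section

variable {s f : ℕ} {B : Set (Fin s → ℝ)} {a : Fin f → Fin s → ℝ}

/-- The values of the functionals at a point. -/
noncomputable def vl (a : Fin f → Fin s → ℝ) (q : Fin s → ℝ) : List ℝ :=
  List.ofFn (fun i => ∑ j, a i j * q j)

theorem rel_vl (hN : ClaimNorm) (h1 : 1 ≤ s) (hB : IsPolyhedralBall B)
    (hf : B = {x | ∀ i, |∑ j, a i j * x j| ≤ 1}) (L : ℝ) (y z : Fin s → ℝ) :
    (cmpR f).rel L (vl a y) (vl a z) ↔ L ≤ pdist B y z := by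
  rw [cmpR_rel]
  unfold pdist
  rw [hN s f B a h1 hB hf]
  refine exists_congr fun i => ?_
  have e : ∀ q : Fin s → ℝ, (vl a q).getD i 0 = ∑ j, a i j * q j := by
    intro q
    unfold vl
    rw [List.getD_eq_getElem _ _ (by simp), List.getElem_ofFn]
  rw [e, e, ← Finset.sum_sub_distrib]
  have e2 : ∑ j, (a i j * y j - a i j * z j) = ∑ j, a i j * (y - z) j :=
    Finset.sum_congr rfl fun j _ => by rw [Pi.sub_apply]; ring
  rw [e2]

theorem pow_bound (s f n k : ℕ) (hn : 2 ≤ n) :
    (1 + (f * s + n * s) + 2) ^ k ≤ n ^ ((4 + f * s + s) * k) := by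
  rw [pow_mul]
  apply Nat.pow_le_pow_left
  have h1 : 1 + (f * s + n * s) + 2 ≤ n * (3 + f * s + s) := by
    have h0 : f * s ≤ n * (f * s) := Nat.le_mul_of_pos_left _ (by omega)
    have e : n * (3 + f * s + s) = 3 * n + n * (f * s) + n * s := by ring
    rw [e]; omega
  have h2 : 3 + f * s + s ≤ n ^ (3 + f * s + s) :=
    (Nat.lt_two_pow_self.le).trans (Nat.pow_le_pow_left hn _)
  calc 1 + (f * s + n * s) + 2 ≤ n * (3 + f * s + s) := h1
    _ ≤ n * n ^ (3 + f * s + s) := Nat.mul_le_mul_left _ h2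
    _ = n ^ (4 + f * s + s) := by
      rw [← pow_succ']; congr 1; omega

theorem ram_decision (hDec : ClaimDec) (hE : ClaimEdges) (hN : ClaimNorm) (hS : ClaimScatter)
    (s f : ℕ) (h1 : 1 ≤ s) : ∃ (Pr : List Instr) (k : ℕ), ∀ (B : Set (Fin s → ℝ))
      (a : Fin f → Fin s → ℝ), IsPolyhedralBall B → B = {x | ∀ i, |∑ j, a i j * x j| ≤ 1} →
        ∀ (P : List (Fin s → ℝ)) (L : ℝ) (b : Bool), 2 ≤ P.length →
          (b = true ↔ ∃ R : List (Fin s → ℝ), R.Perm P ∧ L ≤ scatter B R) →
            Answers Pr (ramInput L a P) (P.length ^ k) b := by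
  obtain ⟨dec, hdec, hdecs⟩ := hDec f ℝ (List ℝ) (cmpR f)
  let g : List ℝ → Bool := fun x =>
    dec (x.headD 0, (((vals s f x).headD [], (vals s f x).headD []), (vals s f x).tail))
  have hv := vals_ptf s f
  have hg : PTF g := hdec.comp ((PTF.headD PTF.id (PTF.const 0)).pair
    (((hv.headD (PTF.const [])).pair (hv.headD (PTF.const []))).pair hv.tail))
  obtain ⟨Pr, k, hPr⟩ := hg.answers
  refine ⟨Pr, (4 + f * s + s) * k, fun B a hB hf P L b hP hb => ?_⟩
  have hA := hPr (ramInput L a P)
  have hlen : (ramInput L a P).length = 1 + (f * s + P.length * s) := by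
    unfold ramInput
    rw [List.length_cons, List.length_append,
      length_flatten_uniform (s := s) _ (by
        intro r hr
        obtain ⟨i, rfl⟩ := List.mem_ofFn.1 hr
        simp),
      length_flatten_uniform (s := s) (P.map List.ofFn) (by
        intro r hr
        obtain ⟨q, _, rfl⟩ := List.mem_map.1 hr
        simp), List.length_ofFn, List.length_map]
    ring
  have hgb : g (ramInput L a P) = b := by
    rw [Bool.eq_iff_iff, hb]
    have hne : P ≠ [] := by rintro rfl; simp at hP
    have hval : vals s f (ramInput L a P) = P.map (vl a) := vals_eq h1 L a P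
    have hne' : P.map (vl a) ≠ [] := by simpa using hne
    show dec ((ramInput L a P).headD 0, _) = true ↔ _
    rw [hval, hdecs _ _ _ _ trivial trivial trivial (fun _ _ => trivial),
      ← head_tail_perm hE [] _ hne']
    have hL : (ramInput L a P).headD 0 = L := rfl
    rw [hL]
    constructor
    · rintro ⟨R', hR', he⟩
      obtain ⟨R, hR, rfl⟩ := perm_map_lift hR'.symm P rfl
      refine ⟨R, hR, ?_⟩
      have hRne : R ≠ [] := by
        rintro rfl
        exact hne (List.Perm.nil_eq hR).symm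
      rw [hS s B R L hRne]
      intro e hee
      rw [edges_map] at he
      exact (rel_vl hN h1 hB hf L e.1 e.2).1 (he _ (List.mem_map_of_mem hee))
    · rintro ⟨R, hR, he⟩
      refine ⟨R.map (vl a), hR.map _, ?_⟩
      have hRne : R ≠ [] := by
        rintro rfl
        exact hne (List.Perm.nil_eq hR).symm
      rw [hS s B R L hRne] at he
      intro e hee
      rw [edges_map] at hee
      obtain ⟨e', he', rfl⟩ := List.mem_map.1 hee
      exact (rel_vl hN h1 hB hf L e'.1 e'.2).2 (he e' he')
  rw [hgb, hlen] at hA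
  obtain ⟨t, ht, h2⟩ := hA
  exact ⟨t, ht.trans (pow_bound s f P.length k hP), h2⟩

end

end Pool.Agent.Scatter.R

end

section

/-!
# Arbitrary real polyhedral norms: algorithms on raw codes
-/

set_option autoImplicit false

namespace Pool.Agent.Scatter

open Pool.Agent.PT Pool.Agent.MaxScatter N487b59b3 Pool.Agent.Work.MP_5296b6_lc

/-! ### Coordinates of raw codes -/

theorem exists_coord (hP : ClaimParse) (s : ℕ) : ∃ x : List Bool → Fin s → ℚ,
    (∀ j, QF (fun y : List Bool => x y j)) ∧
    ∀ (y : List ℚ) (j : Fin s), x (bitEncode y) j = y.getD j 0 := by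
  obtain ⟨pt, hpt, hpts⟩ := exists_parsePt hP
  refine ⟨fun c j => A4.qv ((pt c).getD j (repQ 0)), fun j => ?_, fun y j => ?_⟩
  · exact QF.of_BQ (hpt.getD (PTF.const (j : ℕ)) (PTF.const _))
  · dsimp only
    rw [hpts, List.getD_map, A4.qv_repQ claimBadd.2.2]

theorem exists_num (hP : ClaimParse) : ∃ r : List Bool → ℚ, QF r ∧
    ∀ q : ℚ, r (bitEncode q) = q := by
  obtain ⟨pq, hpq, hpqs⟩ := exists_parseQ hP
  refine ⟨fun c => A4.qv (pq c), QF.of_BQ hpq, fun q => ?_⟩
  dsimp only
  rw [hpqs, A4.qv_repQ claimBadd.2.2]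

/-! ### Edges of a list -/

theorem edges_eq_map {β : Type} (d : β) (R : List β) :
    edges R = (List.range R.length).map
      (fun i => (R.getD i d, R.getD ((i + 1) % R.length) d)) := by
  unfold edges
  refine List.ext_getElem (by simp) fun i h1 h2 => ?_
  have hi : i < R.length := by
    rw [List.length_zip, List.length_rotate, min_self] at h1
    exact h1
  have hj : (i + 1) % R.length < R.length := Nat.mod_lt _ (by omega)
  rw [List.getElem_zip, List.getElem_map, List.getElem_range, List.getElem_rotate,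
    List.getD_eq_getElem _ _ hi, List.getD_eq_getElem _ _ hj]

theorem PTF.edges {α β : Type} [Enc α] [Enc β] (d : β) {R : α → List β} (hR : PTF R) :
    PTF (fun a => edges (R a)) := by
  refine (PTF.map' (f := fun a i => ((R a).getD i d, (R a).getD ((i + 1) % (R a).length) d))
    ?_ hR.length.range).congr (fun a => (edges_eq_map d (R a)).symm)
  have h1 : PTF (fun p : α × ℕ => R p.1) := hR.comp PTF.fst
  exact (h1.getD PTF.snd (PTF.const d)).pair
    (h1.getD ((PTF.snd.add (PTF.const 1)).mod h1.length) (PTF.const d))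

/-! ### Facets -/

theorem exists_facets (hW : ClaimWeyl) {s : ℕ} {B : Set (Fin s → ℝ)} (hB : IsPolyhedralBall B) :
    ∃ (f : ℕ) (a : Fin f → Fin s → ℝ), B = {x | ∀ i, |∑ j, a i j * x j| ≤ 1} := by
  obtain ⟨W, hW'⟩ := hB.polytope
  obtain ⟨f, a, -, ha⟩ := hW ⊤ s W (fun _ _ _ => Subfield.mem_top _) (hW' ▸ hB)
  exact ⟨f, a, hW'.trans ha⟩

theorem exists_bound {s f : ℕ} (a : Fin f → Fin s → ℝ) (C : ℝ) :
    ∃ M : ℕ, ∀ (t : ℝ) (i : Fin f) (j : Fin s), |t| ≤ C → |t * a i j| < (M : ℝ) := by
  obtain ⟨M, hM⟩ := exists_nat_gt (∑ i, ∑ j, |C| * |a i j|)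
  refine ⟨M, fun t i j ht => lt_of_le_of_lt ?_ hM⟩
  rw [abs_mul]
  have h0 : ∀ i' j', 0 ≤ |C| * |a i' j'| := fun i' j' => mul_nonneg (abs_nonneg _) (abs_nonneg _)
  calc |t| * |a i j| ≤ |C| * |a i j| :=
        mul_le_mul_of_nonneg_right (ht.trans (le_abs_self C)) (abs_nonneg _)
    _ ≤ ∑ j', |C| * |a i j'| := Finset.single_le_sum (f := fun j' => |C| * |a i j'|)
        (fun j' _ => h0 i j') (Finset.mem_univ j)
    _ ≤ ∑ i', ∑ j', |C| * |a i' j'| := Finset.single_le_sum
        (f := fun i' => ∑ j', |C| * |a i' j'|)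
        (fun i' _ => Finset.sum_nonneg fun j' _ => h0 i' j') (Finset.mem_univ i)

section geometry

variable {s f : ℕ} {B : Set (Fin s → ℝ)} {a : Fin f → Fin s → ℝ}

/-- Distances in terms of coordinates of raw codes. -/
theorem pdist_coord (hN : ClaimNorm) (h1 : 1 ≤ s) (hB : IsPolyhedralBall B)
    (hf : B = {x | ∀ i, |∑ j, a i j * x j| ≤ 1}) {x : List Bool → Fin s → ℚ}
    (hx : ∀ (y : List ℚ) (j : Fin s), x (bitEncode y) j = y.getD j 0) (y z : List ℚ) (L : ℝ) :
    L ≤ pdist B (toPt s y) (toPt s z) ↔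
      ∃ i, L ≤ |∑ j, a i j * ((x (bitEncode y) j : ℝ) - (x (bitEncode z) j : ℝ))| := by
  unfold pdist
  rw [hN s f B a h1 hB hf]
  refine exists_congr fun i => ?_
  have e : ∑ j, a i j * (toPt s y - toPt s z) j =
      ∑ j, a i j * ((x (bitEncode y) j : ℝ) - (x (bitEncode z) j : ℝ)) :=
    Finset.sum_congr rfl fun j _ => by
      rw [hx, hx]; rfl
  rw [e]

/-- Long round-trips in terms of raw codes. -/
theorem scatter_codes (hS : ClaimScatter) (R : List (List ℚ)) (hR : R ≠ []) (L : ℝ) :
    L ≤ scatter B (R.map (toPt s)) ↔ ∀ e ∈ edges R, L ≤ pdist B (toPt s e.1) (toPt s e.2) := by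
  rw [hS s B (R.map (toPt s)) L (by simpa using hR), edges_map]
  simp only [List.mem_map, forall_exists_index, and_imp, forall_apply_eq_imp_iff₂]
  exact Iff.rfl

/-! ### The decision version -/

theorem decision_of_comparable (hT : ClaimTours) (hW : ClaimWeyl) (hN : ClaimNorm)
    (hS : ClaimScatter) (hU : ClaimUndelimit) (hP : ClaimParse) (h1 : 1 ≤ s)
    (hB : IsPolyhedralBall B) (hc : DistComparable B) [DecidablePred (Decision B)] :
    N68a2faeb.IsPolyTime (fun I : List (List ℚ) × ℚ => decide (Decision B I)) := by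
  obtain ⟨f, a, hf⟩ := exists_facets hW hB
  obtain ⟨M, hM⟩ := exists_bound a 1
  obtain ⟨x, hxq, hxs⟩ := exists_coord hP s
  obtain ⟨r, hrq, hrs⟩ := exists_num hP
  obtain ⟨tours, ht, htp, hts⟩ := hT s f M (List Bool) (List Bool) x r hxq hrq
  obtain ⟨g0, hg0, hg0s⟩ := clockBool _ hc
  obtain ⟨hun, -⟩ := hU
  obtain ⟨-, ⟨p2, hp2, hp2s⟩, ⟨p3, hp3, hp3s⟩, -⟩ := hP
  let orc : List Bool × (List Bool × List Bool) → Bool := fun p =>
    g0 (delimit (delimit p.2.1 ++ p.2.2) ++ p.1)
  have horc : PTF orc := hg0.comp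
    ((((PTF.fst.comp PTF.snd).delimit.append (PTF.snd.comp PTF.snd)).delimit).append PTF.fst)
  have horcs : ∀ (L : ℚ) (y z : List ℚ), (orc (bitEncode L, (bitEncode y, bitEncode z)) = true ↔
      ((L : ℚ) : ℝ) ≤ pdist B (toPt s y) (toPt s z)) := by
    intro L y z
    have e : delimit (delimit (bitEncode y) ++ bitEncode z) ++ bitEncode L =
        bitEncode ((y, z), L) := rfl
    show g0 (delimit (delimit (bitEncode y) ++ bitEncode z) ++ bitEncode L) = true ↔ _
    rw [e, hg0s, decide_eq_true_iff]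
  let spl : List Bool → List Bool × List Bool := fun x => (undelimit x).getD ([], [])
  have hspl : PTF spl := PTF.optionGetD hun (PTF.const _)
  have hsp : ∀ I : List (List ℚ) × ℚ, spl (bitEncode I) = (bitEncode I.1, bitEncode I.2) := by
    intro I
    show (undelimit (delimit (bitEncode I.1) ++ bitEncode I.2)).getD ([], []) = _
    rw [undelimit_delimit]; rfl
  let cd : List Bool → List (List Bool) := fun x => p3 (spl x).1
  have hcd : PTF cd := hp3.comp (PTF.fst.comp hspl)
  let ln : List Bool → List (List BQ) := fun x => p2 (spl x).1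
  have hln : PTF ln := hp2.comp (PTF.fst.comp hspl)
  let fnd : List Bool → Bool := fun x => (tours ((spl x).2, cd x)).any
    (fun T => (edges T).all (fun e => orc ((spl x).2, e)))
  have hfnd : PTF fnd := by
    refine PTF.any' (f := fun x T => (edges T).all (fun e => orc ((spl x).2, e))) ?_
      (ht.comp ((PTF.snd.comp hspl).pair hcd))
    exact PTF.all' (f := fun (p : List Bool × List (List Bool)) e => orc ((spl p.1).2, e))
      (horc.comp ((PTF.snd.comp (hspl.comp (PTF.fst.comp PTF.fst))).pair PTF.snd))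
      (PTF.edges [] PTF.snd)
  let g : List Bool → Bool := fun x =>
    (decide (3 ≤ (cd x).length) && nodupB (cd x)) &&
      ((ln x).all (fun l => decide (l.length = s)) && fnd x)
  have hg : PTF g := by
    have e1 : PTF (fun x => decide (3 ≤ (cd x).length)) := (PTF.const 3).le hcd.length
    have e2 : PTF (fun x => nodupB (cd x)) := nodupB_ptf hcd
    have e3 : PTF (fun x => (ln x).all (fun l => decide (l.length = s))) :=
      PTF.all' (f := fun x l => decide (l.length = s)) (PTF.snd.length.eq (PTF.const s)) hln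
    exact (e1.and e2).and (e3.and hfnd)
  refine tm2_of (g := fun x => [g x]) (PTF.cons hg (PTF.const [])) fun I => ?_
  show [g (bitEncode I)] = [decide (Decision B I)]
  congr 1
  rw [Bool.eq_iff_iff, decide_eq_true_iff]
  have ecd : cd (bitEncode I) = I.1.map bitEncode := by
    show p3 (spl (bitEncode I)).1 = _
    rw [hsp, hp3s]
  have eln : ln (bitEncode I) = I.1.map (fun y => y.map repQ) := by
    show p2 (spl (bitEncode I)).1 = _
    rw [hsp, hp2s]
  have es2 : (spl (bitEncode I)).2 = bitEncode I.2 := by rw [hsp]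
  have eg : g (bitEncode I) = ((decide (3 ≤ (cd (bitEncode I)).length) &&
      nodupB (cd (bitEncode I))) &&
      ((ln (bitEncode I)).all (fun l => decide (l.length = s)) &&
        (tours ((spl (bitEncode I)).2, cd (bitEncode I))).any
          (fun T => (edges T).all (fun e => orc ((spl (bitEncode I)).2, e))))) := rfl
  rw [eg]
  rw [ecd, eln, es2, Bool.and_eq_true, Bool.and_eq_true, Bool.and_eq_true, nodup_iff_all,
    decide_eq_true_iff, List.length_map, List.nodup_map_iff bitEncode_injective]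
  unfold Decision IsInput
  have hlen : ((I.1.map (fun y => y.map repQ)).all (fun l => decide (l.length = s)) = true) ↔
      ∀ p ∈ I.1, p.length = s := by
    rw [List.all_eq_true]
    simp
  rw [hlen]
  have hmain : 3 ≤ I.1.length → ((tours (bitEncode I.2, I.1.map bitEncode)).any
          (fun T => (edges T).all (fun e => orc (bitEncode I.2, e))) = true ↔
      ∃ R : List (List ℚ), R.Perm I.1 ∧ ((I.2 : ℚ) : ℝ) ≤ scatter B (R.map (toPt s))) := by
    intro h3
    have hne : I.1 ≠ [] := by rintro h; rw [h] at h3; simp at h3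
    have hne' : I.1.map (bitEncode (α := List ℚ)) ≠ [] := by simpa using hne
    have hcode : ∀ c ∈ I.1.map (bitEncode (α := List ℚ)), ∃ p : List ℚ, bitEncode p = c := by
      intro c hc
      obtain ⟨p, _, hp⟩ := List.mem_map.1 hc
      exact ⟨p, hp⟩
    -- the oracle in terms of the functionals
    have horc2 : ∀ y z : List ℚ, (orc (bitEncode I.2, (bitEncode y, bitEncode z)) = true ↔
        ∃ i, ((r (bitEncode I.2) : ℚ) : ℝ) ≤
          |∑ j, a i j * ((x (bitEncode y) j : ℝ) - (x (bitEncode z) j : ℝ))|) := by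
      intro y z
      rw [horcs, hrs, pdist_coord hN h1 hB hf hxs]
    have hedge : ∀ R : List (List Bool), R.Perm (I.1.map bitEncode) →
        ((∀ e ∈ edges R, orc (bitEncode I.2, e) = true) ↔ ∀ e ∈ edges R,
        ∃ i, ((r (bitEncode I.2) : ℚ) : ℝ) ≤ |∑ j, a i j * ((x e.1 j : ℝ) - (x e.2 j : ℝ))|) := by
      intro R hR
      refine forall₂_congr fun e he => ?_
      obtain ⟨m1, m2⟩ := mem_of_mem_edges he
      obtain ⟨y, hy⟩ := hcode _ (hR.subset m1)
      obtain ⟨z, hz⟩ := hcode _ (hR.subset m2)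
      have h5 := horc2 y z
      rw [hy, hz] at h5
      exact h5
    have hR1 : (∃ R : List (List ℚ), R.Perm I.1 ∧
        ((I.2 : ℚ) : ℝ) ≤ scatter B (R.map (toPt s))) ↔
        ∃ R : List (List Bool), R.Perm (I.1.map bitEncode) ∧
          ∀ e ∈ edges R, orc (bitEncode I.2, e) = true := by
      rw [← exists_code_iff I.1 (fun R => ∀ e ∈ edges R, orc (bitEncode I.2, e) = true)]
      refine exists_congr fun R => and_congr_right fun hR => ?_
      have hRne : R ≠ [] := by
        rintro rfl
        exact hne (List.Perm.nil_eq hR).symm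
      rw [scatter_codes hS R hRne, edges_map]
      simp only [List.mem_map, forall_exists_index, and_imp, forall_apply_eq_imp_iff₂]
      refine forall₂_congr fun e _ => ?_
      show _ ↔ orc (bitEncode I.2, (bitEncode e.1, bitEncode e.2)) = true
      rw [horcs]
    rw [hR1, List.any_eq_true]
    constructor
    · rintro ⟨T, hT1, hT2⟩
      exact ⟨T, htp _ _ T hT1, fun e he => List.all_eq_true.1 hT2 e he⟩
    · rintro ⟨R, hR1, hR2⟩
      obtain ⟨T, hT1, hT2⟩ := hts (bitEncode I.2) (I.1.map bitEncode) a hne'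
        (fun i j => by simpa using hM 1 i j (by simp)) ⟨R, hR1, (hedge R hR1).1 hR2⟩
      exact ⟨T, hT1, List.all_eq_true.2 ((hedge T (htp _ _ T hT1)).2 hT2)⟩
  constructor
  · rintro ⟨⟨q1, q2⟩, q3, q4⟩
    exact ⟨⟨q1, q2, q3⟩, (hmain q1).1 q4⟩
  · rintro ⟨⟨q1, q2, q3⟩, q4⟩
    exact ⟨⟨q1, q2⟩, q3, (hmain q1).2 q4⟩

end geometry

end Pool.Agent.Scatter

end

section

/-!
# The optimisation version for arbitrary real polyhedral norms
-/

set_option autoImplicit false

namespace Pool.Agent.Scatter

open Pool.Agent.PT Pool.Agent.MaxScatter N487b59b3 Pool.Agent.Work.MP_5296b6_lc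

/-! ### Picking an extremal element with an unreliable comparison -/

/-- Keep `s` while `p s b`. -/
def pick {β : Type} (p : β → β → Bool) (d : β) (l : List β) : β :=
  l.foldl (fun s b => if p s b = true then s else b) d

theorem pick_mem {β : Type} (p : β → β → Bool) (l : List β) : ∀ d : β,
    pick p d l = d ∨ pick p d l ∈ l := by
  induction l with
  | nil => intro d; exact Or.inl rfl
  | cons b l ih =>
    intro d
    show pick p (if p d b = true then d else b) l = d ∨ _
    have e : pick p d (b :: l) = pick p (if p d b = true then d else b) l := rfl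
    rw [e]
    rcases ih (if p d b = true then d else b) with h | h
    · by_cases hp : p d b = true
      · rw [if_pos hp] at h ⊢; exact Or.inl h
      · rw [if_neg hp] at h ⊢; exact Or.inr (by rw [h]; exact List.mem_cons_self ..)
    · exact Or.inr (List.mem_cons_of_mem _ h)

theorem pick_le {β : Type} (p : β → β → Bool) (v : β → ℝ) (V : β → Prop)
    (hp : ∀ s b, V s → V b → (p s b = true → v s ≤ v b) ∧ (p s b = false → v b ≤ v s))
    (l : List β) : ∀ d : β, V d → (∀ b ∈ l, V b) →
      v (pick p d l) ≤ v d ∧ ∀ b ∈ l, v (pick p d l) ≤ v b := by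
  induction l with
  | nil => intro d _ _; exact ⟨le_refl _, by simp⟩
  | cons b l ih =>
    intro d hd hl
    have hb : V b := hl b (List.mem_cons_self ..)
    have hl' : ∀ b ∈ l, V b := fun c hc => hl c (List.mem_cons_of_mem _ hc)
    have e : pick p d (b :: l) = pick p (if p d b = true then d else b) l := rfl
    rw [e]
    by_cases hpb : p d b = true
    · rw [if_pos hpb]
      obtain ⟨h1, h2⟩ := ih d hd hl'
      refine ⟨h1, fun c hc => ?_⟩
      rcases List.mem_cons.1 hc with rfl | hc
      · exact h1.trans ((hp d c hd hb).1 hpb)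
      · exact h2 c hc
    · rw [if_neg hpb]
      obtain ⟨h1, h2⟩ := ih b hb hl'
      have h3 := (hp d b hd hb).2 (Bool.eq_false_iff.2 hpb)
      refine ⟨h1.trans h3, fun c hc => ?_⟩
      rcases List.mem_cons.1 hc with rfl | hc
      · exact h1
      · exact h2 c hc

theorem PTF.pick {α β : Type} [Enc α] [Enc β] {l : α → List β} {d : α → β}
    {p : α × (β × β) → Bool} (hl : PTF l) (hd : PTF d) (hp : PTF p) :
    PTF (fun a => pick (fun s b => p (a, (s, b))) (d a) (l a)) := by
  unfold Scatter.pick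
  refine PTF.foldl (step := fun q : α × (β × β) => if p q = true then q.2.1 else q.2.2) hl hd
    (PTF.ite (PTF.eq hp (PTF.const true)) (PTF.fst.comp PTF.snd) (PTF.snd.comp PTF.snd))
    (fun a => sz (d a) + sz (l a)) (hd.size.add hl.size) (fun a l1 l2 h => ?_)
  rcases pick_mem (fun s b => p (a, (s, b))) l1 (d a) with h1 | h1
  · have e : l1.foldl (fun s b => if p (a, (s, b)) = true then s else b) (d a) = d a := h1
    show sz (l1.foldl (fun s b => if p (a, (s, b)) = true then s else b) (d a)) ≤ _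
    rw [e]
    exact Nat.le_add_right _ _
  · show sz (Scatter.pick (fun s b => p (a, (s, b))) (d a) l1) ≤ _
    refine le_trans ?_ (Nat.le_add_left _ _)
    rw [h]
    exact sz_le_of_mem (List.mem_append_left _ h1)

/-! ### Rational thresholds -/

section geometry

variable {s f : ℕ} {B : Set (Fin s → ℝ)} {a : Fin f → Fin s → ℝ}

theorem exists_scale (hN : ClaimNorm) (h1 : 1 ≤ s) (hB : IsPolyhedralBall B)
    (hf : B = {x | ∀ i, |∑ j, a i j * x j| ≤ 1}) :
    ∃ C : ℝ, ∀ u : Fin s → ℝ, ∃ t : ℝ, |t| ≤ C ∧ ∀ x : Fin s → ℝ,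
      (pnorm B u ≤ pnorm B x ↔ ∃ i, ∑ j, |u j| ≤ |∑ j, (t * a i j) * x j|) := by
  obtain ⟨W, hW⟩ := hB.polytope
  have hbd : Bornology.IsBounded B := by
    rw [hW, isBounded_convexHull]
    exact W.finite_toSet.isBounded
  obtain ⟨C0, hC0⟩ := hbd.exists_norm_le
  have hC1 : ∀ x ∈ B, ∀ j, |x j| ≤ C0 := fun x hx j =>
    (norm_le_pi_norm x j).trans (hC0 x hx)
  have hmem : ∀ x, x ∈ B ↔ ∀ i, |∑ j, a i j * x j| ≤ 1 := fun x => by
    conv_lhs => rw [hf]
    exact Iff.rfl
  have hC0' : 0 ≤ C0 := by
    have h0 : (0 : Fin s → ℝ) ∈ B := (hmem 0).2 (fun i => by simp)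
    exact (norm_nonneg _).trans (hC0 0 h0)
  refine ⟨s * C0, fun u => ?_⟩
  have hn := hN s f B a h1 hB hf
  have hle : ∀ i, |∑ j, a i j * u j| ≤ pnorm B u := fun i => (hn u _).2 ⟨i, le_rfl⟩
  obtain ⟨i0, hi0⟩ := (hn u _).1 le_rfl
  have hsc : ∀ (τ : ℝ) (x : Fin s → ℝ) (i : Fin f),
      ∑ j, a i j * (τ * x j) = τ * ∑ j, a i j * x j := by
    intro τ x i
    rw [Finset.mul_sum]
    exact Finset.sum_congr rfl fun j _ => by ring
  have hsc2 : ∀ (τ : ℝ) (x : Fin s → ℝ) (i : Fin f),
      ∑ j, (τ * a i j) * x j = τ * ∑ j, a i j * x j := by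
    intro τ x i
    rw [Finset.mul_sum]
    exact Finset.sum_congr rfl fun j _ => by ring
  rcases lt_or_ge 0 (pnorm B u) with hl | hl
  · have hr : ∑ j, |u j| ≤ s * C0 * pnorm B u := by
      have hj : ∀ j, |u j| ≤ C0 * pnorm B u := by
        intro j
        have hin : (fun j => (pnorm B u)⁻¹ * u j) ∈ B := by
          rw [hmem]
          intro i
          rw [hsc, abs_mul, abs_of_pos (inv_pos.2 hl)]
          calc (pnorm B u)⁻¹ * |∑ j, a i j * u j| ≤ (pnorm B u)⁻¹ * pnorm B u :=
                mul_le_mul_of_nonneg_left (hle i) (inv_pos.2 hl).le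
            _ = 1 := inv_mul_cancel₀ hl.ne'
        have h2 := hC1 _ hin j
        rw [abs_mul, abs_of_pos (inv_pos.2 hl)] at h2
        have h3 := mul_le_mul_of_nonneg_left h2 hl.le
        rw [← mul_assoc, mul_inv_cancel₀ hl.ne', one_mul] at h3
        linarith
      calc ∑ j, |u j| ≤ ∑ _j : Fin s, C0 * pnorm B u := Finset.sum_le_sum fun j _ => hj j
        _ = s * C0 * pnorm B u := by
            rw [Finset.sum_const, Finset.card_univ, Fintype.card_fin, nsmul_eq_mul]; ring
    have hr0 : 0 < ∑ j, |u j| := by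
      by_contra hcon
      have h0 : ∑ j, |u j| = 0 :=
        le_antisymm (not_lt.1 hcon) (Finset.sum_nonneg fun j _ => abs_nonneg _)
      have h2 : ∀ j, u j = 0 := fun j => abs_eq_zero.1
        ((Finset.sum_eq_zero_iff_of_nonneg fun j _ => abs_nonneg (u j)).1 h0 j (Finset.mem_univ j))
      have h3 : ∑ j, a i0 j * u j = 0 := Finset.sum_eq_zero fun j _ => by rw [h2 j, mul_zero]
      rw [h3, abs_zero] at hi0
      exact absurd hi0 (not_le.2 hl)
    have ht : 0 < (∑ j, |u j|) / pnorm B u := div_pos hr0 hl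
    refine ⟨(∑ j, |u j|) / pnorm B u, ?_, fun x => ?_⟩
    · rw [abs_of_pos ht, div_le_iff₀ hl]
      exact hr
    · rw [hn x]
      refine exists_congr fun i => ?_
      rw [hsc2, abs_mul, abs_of_pos ht, div_mul_eq_mul_div, le_div_iff₀ hl]
      constructor
      · intro h; exact mul_le_mul_of_nonneg_left h hr0.le
      · intro h; exact le_of_mul_le_mul_left h hr0
  · have hl0 : pnorm B u = 0 := le_antisymm hl ((abs_nonneg _).trans (hle i0))
    have hz : ∀ i, ∑ j, a i j * u j = 0 := fun i =>
      abs_eq_zero.1 (le_antisymm (hl0 ▸ hle i) (abs_nonneg _))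
    have hu : ∀ j, u j = 0 := by
      intro j
      by_contra hj
      have hin : (fun j' => ((C0 + 1) / u j) * u j') ∈ B := by
        rw [hmem]
        intro i
        rw [hsc, hz, mul_zero, abs_zero]
        exact zero_le_one
      have h2 := hC1 _ hin j
      rw [div_mul_cancel₀ _ hj, abs_of_nonneg (by linarith)] at h2
      linarith
    have hr0 : ∑ j, |u j| = 0 := Finset.sum_eq_zero fun j _ => by rw [hu j, abs_zero]
    refine ⟨0, by rw [abs_zero]; positivity, fun x => ?_⟩
    rw [hl0, hr0, hn x]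
    exact ⟨fun _ => ⟨i0, abs_nonneg _⟩, fun _ => ⟨i0, abs_nonneg _⟩⟩

/-! ### The algorithm -/

theorem edges_ne_nil' {α : Type} {R P : List α} (hP : P ≠ []) (hR : R.Perm P) :
    edges R ≠ [] := by
  refine edges_ne_nil ?_
  rintro rfl
  exact hP (List.Perm.nil_eq hR).symm

theorem headD_mem {α : Type} (d : α) {l : List α} (hl : l ≠ []) : l.headD d ∈ l := by
  cases l with
  | nil => exact absurd rfl hl
  | cons b l => simp

theorem optComputable_of_selectable (hT : ClaimTours) (hW : ClaimWeyl) (hN : ClaimNorm)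
    (hS : ClaimScatter) (hP : ClaimParse) (h1 : 1 ≤ s)
    (hB : IsPolyhedralBall B) (hc : Selectable B) : OptComputable B := by
  obtain ⟨f, a, hf⟩ := exists_facets hW hB
  obtain ⟨C, hC⟩ := exists_scale hN h1 hB hf
  obtain ⟨M, hM⟩ := exists_bound a C
  obtain ⟨x, hxq, hxs⟩ := exists_coord hP s
  let r : List Bool × List Bool → ℚ := fun k => ∑ j, |x k.1 j - x k.2 j|
  have hrq : QF r := QF.sum_fin fun j =>
    (((hxq j).comp PTF.fst).sub ((hxq j).comp PTF.snd)).abs
  obtain ⟨tours, ht, htp, hts⟩ := hT s f M (List Bool × List Bool) (List Bool) x r hxq hrq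
  obtain ⟨sel, hsel, hsels⟩ := hc
  obtain ⟨g0, hg0, hg0s⟩ := clockBool _ hsel
  obtain ⟨-, -, ⟨p3, hp3, hp3s⟩, p4, hp4, hp4s⟩ := hP
  -- selection on raw codes
  let sl : (List Bool × List Bool) → (List Bool × List Bool) → Bool := fun p q =>
    g0 (delimit (delimit p.1 ++ p.2) ++ (delimit q.1 ++ q.2))
  have hsl : PTF (fun p : (List Bool × List Bool) × (List Bool × List Bool) => sl p.1 p.2) :=
    hg0.comp ((((PTF.fst.comp PTF.fst).delimit.append (PTF.snd.comp PTF.fst)).delimit).append
        ((PTF.fst.comp PTF.snd).delimit.append (PTF.snd.comp PTF.snd)))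
  let dst : List Bool × List Bool → ℝ := fun e => pdist B (toPt s (dcd e.1)) (toPt s (dcd e.2))
  let VE : List Bool × List Bool → Prop := fun e => IsCode e.1 ∧ IsCode e.2
  have hsls : ∀ e e', VE e → VE e' →
      (sl e e' = true → dst e ≤ dst e') ∧ (sl e e' = false → dst e' ≤ dst e) := by
    rintro ⟨e1, e2⟩ ⟨e3, e4⟩ ⟨⟨y, rfl⟩, ⟨z, rfl⟩⟩ ⟨⟨y', rfl⟩, ⟨z', rfl⟩⟩
    have e : delimit (delimit (bitEncode y) ++ bitEncode z) ++
        (delimit (bitEncode y') ++ bitEncode z') = bitEncode ((y, z), (y', z')) := rfl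
    show (g0 (delimit (delimit (bitEncode y) ++ bitEncode z) ++
        (delimit (bitEncode y') ++ bitEncode z')) = true →
        pdist B (toPt s (dcd (bitEncode y))) (toPt s (dcd (bitEncode z))) ≤
          pdist B (toPt s (dcd (bitEncode y'))) (toPt s (dcd (bitEncode z')))) ∧
      (g0 (delimit (delimit (bitEncode y) ++ bitEncode z) ++
        (delimit (bitEncode y') ++ bitEncode z')) = false →
        pdist B (toPt s (dcd (bitEncode y'))) (toPt s (dcd (bitEncode z'))) ≤
          pdist B (toPt s (dcd (bitEncode y))) (toPt s (dcd (bitEncode z))))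
    rw [e, hg0s, dcd_enc, dcd_enc, dcd_enc, dcd_enc]
    exact hsels y z y' z'
  -- shortest edge of a round-trip
  let sh : List (List Bool) → List Bool × List Bool := fun T =>
    pick sl ((edges T).headD ([], [])) (edges T)
  have hsh : PTF sh := PTF.pick (p := fun q : List (List Bool) ×
      ((List Bool × List Bool) × (List Bool × List Bool)) => sl q.2.1 q.2.2)
    (PTF.edges [] PTF.id) ((PTF.edges [] PTF.id).headD (PTF.const _)) (hsl.comp PTF.snd)
  -- all round-trips
  let ts : List (List Bool) → List (List (List Bool)) := fun cs =>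
    (cs.product cs).flatMap (fun k => tours (k, cs))
  have hts' : PTF ts := PTF.flatMap' (f := fun cs k => tours (k, cs))
    (ht.comp (PTF.snd.pair PTF.fst)) (PTF.id.product PTF.id)
  let raw : List (List Bool) → List (List Bool) := fun cs =>
    pick (fun T T' => sl (sh T') (sh T)) cs (ts cs)
  have hraw : PTF raw := PTF.pick (p := fun q : List (List Bool) ×
      (List (List Bool) × List (List Bool)) => sl (sh q.2.2) (sh q.2.1)) hts' PTF.id
    (hsl.comp ((hsh.comp (PTF.snd.comp PTF.snd)).pair (hsh.comp (PTF.fst.comp PTF.snd))))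
  have htsp : ∀ cs, ∀ T ∈ ts cs, T.Perm cs := by
    intro cs T hT
    obtain ⟨k, _, hk⟩ := List.mem_flatMap.1 hT
    exact htp _ _ T hk
  have hrawP : ∀ cs, (raw cs).Perm cs := by
    intro cs
    rcases pick_mem (fun T T' => sl (sh T') (sh T)) (ts cs) cs with h | h
    · show (pick (fun T T' => sl (sh T') (sh T)) cs (ts cs)).Perm cs
      rw [h]
    · exact htsp cs _ h
  -- properties of the shortest edge
  have hVE : ∀ (P : List (List ℚ)) (T : List (List Bool)), T.Perm (P.map bitEncode) →
      ∀ e ∈ edges T, VE e := by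
    intro P T hT e he
    obtain ⟨m1, m2⟩ := mem_of_mem_edges he
    obtain ⟨y, _, hy⟩ := List.mem_map.1 (hT.subset m1)
    obtain ⟨z, _, hz⟩ := List.mem_map.1 (hT.subset m2)
    exact ⟨⟨y, hy.symm⟩, ⟨z, hz.symm⟩⟩
  have hshs : ∀ (P : List (List ℚ)) (T : List (List Bool)), P ≠ [] → T.Perm (P.map bitEncode) →
      sh T ∈ edges T ∧ ∀ e ∈ edges T, dst (sh T) ≤ dst e := by
    intro P T hne hT
    have hne' : edges T ≠ [] := edges_ne_nil' (by simpa using hne) hT
    have hd := headD_mem (([], []) : List Bool × List Bool) hne'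
    have h2 := pick_le sl dst VE hsls (edges T) ((edges T).headD ([], []))
      (hVE P T hT _ hd) (hVE P T hT)
    refine ⟨?_, h2.2⟩
    rcases pick_mem sl (edges T) ((edges T).headD ([], [])) with h | h
    · show pick sl ((edges T).headD ([], [])) (edges T) ∈ edges T
      rw [h]; exact hd
    · exact h
  let opt : List (List ℚ) → List (List ℚ) := fun P => (raw (P.map bitEncode)).map dcd
  have hopt : ∀ P, (opt P).map bitEncode = raw (P.map bitEncode) := by
    intro P
    show ((raw (P.map bitEncode)).map dcd).map bitEncode = _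
    rw [List.map_map]
    refine (List.map_congr_left fun c hc => ?_).trans (List.map_id _)
    obtain ⟨p, _, rfl⟩ := List.mem_map.1 ((hrawP _).subset hc)
    simp [dcd_enc]
  refine ⟨opt, ?_, ?_⟩
  · refine tm2_of (g := fun x => p4 (raw (p3 x))) (hp4.comp (hraw.comp hp3)) fun P => ?_
    show p4 (raw (p3 (bitEncode P))) = bitEncode (opt P)
    rw [hp3s, ← hopt, hp4s]
  · intro P hP
    have hne : P ≠ [] := by
      rintro rfl
      have := hP.1
      simp at this
    have hperm : (opt P).Perm P := by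
      have h3 := (hrawP (P.map bitEncode)).map dcd
      rw [List.map_map] at h3
      have e : P.map (dcd ∘ bitEncode) = P :=
        (List.map_congr_left fun p _ => by simp [dcd_enc]).trans (List.map_id _)
      rw [e] at h3
      exact h3
    refine ⟨hperm, fun R' hR' => ?_⟩
    have hRne : R' ≠ [] := by
      rintro rfl
      exact hne (List.Perm.nil_eq hR').symm
    have hOne : opt P ≠ [] := by
      intro h
      rw [h] at hperm
      exact hne (List.Perm.nil_eq hperm).symm
    -- the shortest edge of the competitor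
    obtain ⟨e0, he0, hmin⟩ := exists_min_edge
      (fun e : List ℚ × List ℚ => pdist B (toPt s e.1) (toPt s e.2)) (edges R') (edges_ne_nil hRne)
    have hsc : scatter B (R'.map (toPt s)) ≤ pdist B (toPt s e0.1) (toPt s e0.2) :=
      (scatter_codes hS R' hRne _).1 le_rfl e0 he0
    obtain ⟨hm1, hm2⟩ := mem_of_mem_edges he0
    have hm1' : bitEncode e0.1 ∈ P.map bitEncode := List.mem_map_of_mem (hR'.subset hm1)
    have hm2' : bitEncode e0.2 ∈ P.map bitEncode := List.mem_map_of_mem (hR'.subset hm2)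
    -- the functionals for this threshold
    obtain ⟨t, htC, htx⟩ := hC (toPt s e0.1 - toPt s e0.2)
    have hthr : ((r (bitEncode e0.1, bitEncode e0.2) : ℚ) : ℝ) =
        ∑ j, |(toPt s e0.1 - toPt s e0.2) j| := by
      show ((∑ j, |x (bitEncode e0.1) j - x (bitEncode e0.2) j| : ℚ) : ℝ) = _
      push_cast
      refine Finset.sum_congr rfl fun j _ => ?_
      rw [hxs, hxs]
      rfl
    have hkey : ∀ y z : List ℚ, pdist B (toPt s e0.1) (toPt s e0.2) ≤
        pdist B (toPt s y) (toPt s z) ↔
        ∃ i, ((r (bitEncode e0.1, bitEncode e0.2) : ℚ) : ℝ) ≤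
          |∑ j, (t * a i j) * ((x (bitEncode y) j : ℝ) - (x (bitEncode z) j : ℝ))| := by
      intro y z
      rw [hthr]
      unfold pdist
      rw [htx]
      refine exists_congr fun i => ?_
      have e : ∑ j, (t * a i j) * (toPt s y - toPt s z) j =
          ∑ j, (t * a i j) * ((x (bitEncode y) j : ℝ) - (x (bitEncode z) j : ℝ)) :=
        Finset.sum_congr rfl fun j _ => by rw [hxs, hxs]; rfl
      rw [e]
    obtain ⟨T, hT1, hT2⟩ := hts (bitEncode e0.1, bitEncode e0.2) (P.map bitEncode)
      (fun i j => t * a i j) (by simpa using hne) (fun i j => hM t i j htC)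
      ⟨R'.map bitEncode, hR'.map _, by
        intro e he
        rw [edges_map] at he
        obtain ⟨e', he', rfl⟩ := List.mem_map.1 he
        exact (hkey e'.1 e'.2).1 (hmin e' he')⟩
    have hTp := htp _ _ T hT1
    have hTmem : T ∈ ts (P.map bitEncode) := List.mem_flatMap.2
      ⟨(bitEncode e0.1, bitEncode e0.2), List.mem_product.2 ⟨hm1', hm2'⟩, hT1⟩
    -- the best round-trip
    have hbest := pick_le (fun T T' => sl (sh T') (sh T)) (fun T => - dst (sh T))
      (fun T => T.Perm (P.map bitEncode)) (by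
        intro T1 T2 hT1 hT2
        have h3 := hsls (sh T2) (sh T1) (hVE P T2 hT2 _ (hshs P T2 hne hT2).1)
          (hVE P T1 hT1 _ (hshs P T1 hne hT1).1)
        exact ⟨fun h => neg_le_neg (h3.1 h), fun h => neg_le_neg (h3.2 h)⟩)
      (ts (P.map bitEncode)) (P.map bitEncode) (List.Perm.refl _) (htsp _)
    have h5 : dst (sh T) ≤ dst (sh (raw (P.map bitEncode))) := neg_le_neg_iff.1 (hbest.2 T hTmem)
    have h6 : pdist B (toPt s e0.1) (toPt s e0.2) ≤ dst (sh T) := by
      have h7 := (hshs P T hne hTp).1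
      obtain ⟨m1, m2⟩ := mem_of_mem_edges h7
      obtain ⟨y, _, hy⟩ := List.mem_map.1 (hTp.subset m1)
      obtain ⟨z, _, hz⟩ := List.mem_map.1 (hTp.subset m2)
      have h8 := hT2 _ h7
      rw [← hy, ← hz] at h8
      have h9 := (hkey y z).2 h8
      show _ ≤ pdist B (toPt s (dcd (sh T).1)) (toPt s (dcd (sh T).2))
      rw [← hy, ← hz, dcd_enc, dcd_enc]
      exact h9
    refine hsc.trans ((h6.trans h5).trans ?_)
    rw [scatter_codes hS (opt P) hOne]
    intro e he
    have he' : (bitEncode e.1, bitEncode e.2) ∈ edges (raw (P.map bitEncode)) := by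
      rw [← hopt, edges_map]
      exact List.mem_map.2 ⟨e, he, rfl⟩
    have h10 := (hshs P _ hne (hrawP (P.map bitEncode))).2 _ he'
    have h11 : dst (bitEncode e.1, bitEncode e.2) = pdist B (toPt s e.1) (toPt s e.2) := by
      show pdist B (toPt s (dcd (bitEncode e.1))) (toPt s (dcd (bitEncode e.2))) = _
      rw [dcd_enc, dcd_enc]
    rw [← h11]
    exact h10

end geometry

end Pool.Agent.Scatter

end

section

/-!
# Assembly: Max-Scatter-TSP is polynomial under every polyhedral norm
-/

set_option autoImplicit false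

namespace Pool.Agent.Scatter

open Pool.Agent.PT Pool.Agent.MaxScatter N487b59b3 Pool.Agent.Work.MP_5296b6_lc

theorem claimTour : ClaimTour := claimTour_of claimPair claimMerge claimOrder claimOfTour

theorem claimCore : ClaimCore :=
  claimCore_of (claimAdvance claimDisjoint claimPeriodic (claimExchange claimMoveFlow claimChg
    (claimPrimary claimChg) (claimSelect claimParity))) claimMeet claimInv claimGoodChain claimIrr

theorem claimDec' : ClaimDec := claimDec claimTour claimCore claimGeo claimPath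

theorem polynomial_of_cmp (hDec : ClaimDec) {s f : ℕ} (h1 : 1 ≤ s) {B : Set (Fin s → ℝ)}
    (hB : IsPolyhedralBall B) {a : Fin f → Fin s → ℝ}
    (hf : B = {x | ∀ i, |∑ j, a i j * x j| ≤ 1}) (hc : RawCmp a) : Polynomial B := by
  refine ⟨?_, ?_⟩
  · exact @decision_polytime s f B a hDec claimEdges claimNorm claimScatter claimUndelimit
      (claimParse claimUndelimit) h1 hB hf hc (fun I => Classical.propDecidable _)
  · exact optimum_polytime hDec (claimSearch hDec claimEdges) claimEdges claimNorm claimScatter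
      (claimParse claimUndelimit) h1 hB hf hc

/-- Rational polytopes have rational facet functionals. -/
theorem exists_rational_facets {s : ℕ} {B : Set (Fin s → ℝ)} (hB : IsPolyhedralBall B)
    (hr : IsRational B) : ∃ (f : ℕ) (a : Fin f → Fin s → ℚ),
      B = {x | ∀ i, |∑ j, ((a i j : ℚ) : ℝ) * x j| ≤ 1} := by
  classical
  obtain ⟨W, hW⟩ := hr
  let W' : Finset (Fin s → ℝ) := W.image (fun w j => ((w j : ℚ) : ℝ))
  have e : (W' : Set (Fin s → ℝ)) = (fun (w : Fin s → ℚ) (j : Fin s) => ((w j : ℚ) : ℝ)) ''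
      (W : Set (Fin s → ℚ)) := Finset.coe_image
  have hB' : IsPolyhedralBall (convexHull ℝ (W' : Set (Fin s → ℝ))) := by
    rw [e, ← hW]; exact hB
  obtain ⟨f, a, ha, hBa⟩ := claimWeyl (algebraMap ℚ ℝ).fieldRange s W' (by
    intro w hw j
    obtain ⟨w0, _, rfl⟩ := Finset.mem_image.1 hw
    exact ⟨w0 j, rfl⟩) hB'
  choose b hb using ha
  refine ⟨f, b, ?_⟩
  rw [hW, ← e, hBa]
  ext x
  refine forall_congr' fun i => ?_
  have e2 : ∀ j, a i j = ((b i j : ℚ) : ℝ) := fun j => (hb i j).symm
  simp only [e2]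

theorem polynomial_of_rational (hDec : ClaimDec) {s : ℕ} (h1 : 1 ≤ s) {B : Set (Fin s → ℝ)}
    (hB : IsPolyhedralBall B) (hr : IsRational B) : Polynomial B := by
  obtain ⟨f, a, hf⟩ := exists_rational_facets hB hr
  exact polynomial_of_cmp hDec h1 hB (a := fun i j => ((a i j : ℚ) : ℝ)) hf
    (rawCmp_of_rational (claimCmp claimBadd (claimBmul claimBadd)) (claimParse claimUndelimit) a)

theorem polynomial_of_comparable (hDec : ClaimDec) {s : ℕ} (h1 : 1 ≤ s) {B : Set (Fin s → ℝ)}
    (hB : IsPolyhedralBall B) (hc : Comparable B) : Polynomial B := by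
  obtain ⟨f, a, hf, h2, h3⟩ := hc
  exact polynomial_of_cmp hDec h1 hB hf (@rawCmp_of_poly s f a
    (fun i c => Classical.propDecidable _) (fun i j c => Classical.propDecidable _) h2 h3)

/-- The real RAM version. -/
theorem ram : ∀ s f : ℕ, 1 ≤ s → ∃ (Pr : List RRAM.Instr) (k : ℕ), ∀ (B : Set (Fin s → ℝ))
      (a : Fin f → Fin s → ℝ), IsPolyhedralBall B → B = {x | ∀ i, |∑ j, a i j * x j| ≤ 1} →
        ∀ (P : List (Fin s → ℝ)) (L : ℝ) (b : Bool), 2 ≤ P.length →
          (b = true ↔ ∃ R : List (Fin s → ℝ), R.Perm P ∧ L ≤ scatter B R) →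
            RRAM.Answers Pr (ramInput L a P) (P.length ^ k) b := fun s f h1 =>
  R.ram_decision (Pool.Agent.Work.MP_5296b6_lc.R.claimDec claimTour claimCore claimGeo claimPath)
    claimEdges claimNorm claimScatter s f h1

end Pool.Agent.Scatter

end

section

/-!
# The optimisation version needs the selection of the longer of two distances
-/

set_option autoImplicit false

namespace Pool.Agent.PT

open Turing N487b59b3

/-- A function with a polynomial-time machine is a polynomial-time function of the code of its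
argument. -/
theorem clockFun {al be : Type} [N487b59b3 al] [N487b59b3 be] (f : al → be)
    (h : N68a2faeb.IsPolyTime f) :
    ∃ g : List Bool → List Bool, PTF g ∧ ∀ a, g (bitEncode a) = bitEncode (f a) := by
  obtain ⟨M⟩ := h
  obtain ⟨R, hR, hRs⟩ := clock M.tm M.inputAlphabet M.outputAlphabet
  refine ⟨fun x => (R (M.time.eval x.length, x)).getD [], ?_, fun a => ?_⟩
  · exact PTF.optionGetD (hR.comp ((ptf_eval_poly M.time PTF.id.length).pair PTF.id))
      (PTF.const _)
  · have h1 : R (M.time.eval (bitEncode a).length, bitEncode a) = some (bitEncode (f a)) := by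
      rw [hRs]
      exact ⟨M.outputsFun a⟩
    dsimp only
    rw [h1]
    rfl

end Pool.Agent.PT

namespace Pool.Agent.Scatter

open Pool.Agent.PT Pool.Agent.MaxScatter N487b59b3 Pool.Agent.Work.MP_5296b6_lc

section geometry

variable {s f : ℕ} {B : Set (Fin s → ℝ)} {a : Fin f → Fin s → ℝ}

theorem lin_smul (τ : ℝ) (x : Fin s → ℝ) (i : Fin f) :
    ∑ j, a i j * (τ * x j) = τ * ∑ j, a i j * x j := by
  rw [Finset.mul_sum]
  exact Finset.sum_congr rfl fun j _ => by ring

theorem le_pnorm (hN : ClaimNorm) (h1 : 1 ≤ s) (hB : IsPolyhedralBall B)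
    (hf : B = {x | ∀ i, |∑ j, a i j * x j| ≤ 1}) (x : Fin s → ℝ) (i : Fin f) :
    |∑ j, a i j * x j| ≤ pnorm B x := (hN s f B a h1 hB hf x _).2 ⟨i, le_rfl⟩

theorem exists_pnorm_eq (hN : ClaimNorm) (h1 : 1 ≤ s) (hB : IsPolyhedralBall B)
    (hf : B = {x | ∀ i, |∑ j, a i j * x j| ≤ 1}) (x : Fin s → ℝ) :
    ∃ i, pnorm B x = |∑ j, a i j * x j| := by
  obtain ⟨i, hi⟩ := (hN s f B a h1 hB hf x _).1 le_rfl
  exact ⟨i, le_antisymm hi (le_pnorm hN h1 hB hf x i)⟩

theorem pnorm_smul (hN : ClaimNorm) (hW : ClaimWeyl) (h1 : 1 ≤ s) (hB : IsPolyhedralBall B)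
    (τ : ℝ) (x : Fin s → ℝ) : pnorm B (fun j => τ * x j) = |τ| * pnorm B x := by
  obtain ⟨f, a, hf⟩ := exists_facets hW hB
  refine le_antisymm ?_ ?_
  · obtain ⟨i, hi⟩ := exists_pnorm_eq hN h1 hB hf (fun j => τ * x j)
    rw [hi, lin_smul, abs_mul]
    exact mul_le_mul_of_nonneg_left (le_pnorm hN h1 hB hf x i) (abs_nonneg _)
  · obtain ⟨i, hi⟩ := exists_pnorm_eq hN h1 hB hf x
    rw [hi, ← abs_mul, ← lin_smul]
    exact le_pnorm hN h1 hB hf (fun j => τ * x j) i

theorem pnorm_nonneg' (hN : ClaimNorm) (hW : ClaimWeyl) (h1 : 1 ≤ s) (hB : IsPolyhedralBall B)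
    (x : Fin s → ℝ) : 0 ≤ pnorm B x := by
  obtain ⟨f, a, hf⟩ := exists_facets hW hB
  obtain ⟨i, hi⟩ := exists_pnorm_eq hN h1 hB hf x
  rw [hi]; exact abs_nonneg _

/-- Comparison with the maximum norm. -/
theorem norm_equiv (hN : ClaimNorm) (hW : ClaimWeyl) (h1 : 1 ≤ s) (hB : IsPolyhedralBall B) :
    ∃ C0 K : ℝ, 0 < C0 ∧ 0 < K ∧ (∀ (x : Fin s → ℝ) (j : Fin s), |x j| ≤ C0 * pnorm B x) ∧
      ∀ (x : Fin s → ℝ) (t : ℝ), (∀ j, |x j| ≤ t) → pnorm B x ≤ K * t := by
  obtain ⟨f, a, hf⟩ := exists_facets hW hB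
  obtain ⟨W, hW'⟩ := hB.polytope
  have hbd : Bornology.IsBounded B := by
    rw [hW', isBounded_convexHull]
    exact W.finite_toSet.isBounded
  obtain ⟨C0, hC0⟩ := hbd.exists_norm_le
  have hC1 : ∀ x ∈ B, ∀ j, |x j| ≤ C0 := fun x hx j =>
    (norm_le_pi_norm x j).trans (hC0 x hx)
  have hmem : ∀ x, x ∈ B ↔ ∀ i, |∑ j, a i j * x j| ≤ 1 := fun x => by
    conv_lhs => rw [hf]
    exact Iff.rfl
  have hC0' : 0 ≤ C0 := by
    have h0 : (0 : Fin s → ℝ) ∈ B := (hmem 0).2 (fun i => by simp)
    exact (norm_nonneg _).trans (hC0 0 h0)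
  refine ⟨C0 + 1, ∑ i, ∑ j, |a i j| + 1, by linarith, ?_, ?_, ?_⟩
  · have : 0 ≤ ∑ i, ∑ j, |a i j| := Finset.sum_nonneg fun i _ => Finset.sum_nonneg fun j _ =>
      abs_nonneg _
    linarith
  · intro x j
    rcases lt_or_ge 0 (pnorm B x) with hl | hl
    · have hin : (fun j => (pnorm B x)⁻¹ * x j) ∈ B := by
        rw [hmem]
        intro i
        rw [lin_smul, abs_mul, abs_of_pos (inv_pos.2 hl)]
        calc (pnorm B x)⁻¹ * |∑ j, a i j * x j| ≤ (pnorm B x)⁻¹ * pnorm B x :=
              mul_le_mul_of_nonneg_left (le_pnorm hN h1 hB hf x i) (inv_pos.2 hl).le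
          _ = 1 := inv_mul_cancel₀ hl.ne'
      have h2 := hC1 _ hin j
      rw [abs_mul, abs_of_pos (inv_pos.2 hl)] at h2
      have h3 := mul_le_mul_of_nonneg_left h2 hl.le
      rw [← mul_assoc, mul_inv_cancel₀ hl.ne', one_mul] at h3
      linarith
    · have hl0 : pnorm B x = 0 := le_antisymm hl (pnorm_nonneg' hN hW h1 hB x)
      have hz : ∀ i, ∑ j, a i j * x j = 0 := fun i =>
        abs_eq_zero.1 (le_antisymm (hl0 ▸ le_pnorm hN h1 hB hf x i) (abs_nonneg _))
      have hx : x j = 0 := by
        by_contra hj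
        have hin : (fun j' => ((C0 + 1) / x j) * x j') ∈ B := by
          rw [hmem]
          intro i
          rw [lin_smul, hz, mul_zero, abs_zero]
          exact zero_le_one
        have h2 := hC1 _ hin j
        rw [div_mul_cancel₀ _ hj, abs_of_nonneg (by linarith)] at h2
        linarith
      rw [hx, hl0, abs_zero, mul_zero]
  · intro x t ht
    obtain ⟨i, hi⟩ := exists_pnorm_eq hN h1 hB hf x
    have ht0 : 0 ≤ t := (abs_nonneg _).trans (ht ⟨0, h1⟩)
    rw [hi]
    calc |∑ j, a i j * x j| ≤ ∑ j, |a i j * x j| := Finset.abs_sum_le_sum_abs _ _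
      _ ≤ ∑ j, |a i j| * t := Finset.sum_le_sum fun j _ => by
          rw [abs_mul]; exact mul_le_mul_of_nonneg_left (ht j) (abs_nonneg _)
      _ = (∑ j, |a i j|) * t := (Finset.sum_mul _ _ _).symm
      _ ≤ (∑ i, ∑ j, |a i j| + 1) * t := by
          refine mul_le_mul_of_nonneg_right ?_ ht0
          have h3 : ∑ j, |a i j| ≤ ∑ i, ∑ j, |a i j| :=
            Finset.single_le_sum (f := fun i => ∑ j, |a i j|)
              (fun i' _ => Finset.sum_nonneg fun j _ => abs_nonneg _) (Finset.mem_univ i)
          linarith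

end geometry

/-- Lifting permutations along a map with a left inverse on the list. -/
theorem exists_perm_lift {α β : Type} (g : α → β) (h : β → α) (P : List α)
    (hg : ∀ p ∈ P, h (g p) = p) (R : List β) (hR : R.Perm (P.map g)) :
    ∃ R' : List α, R'.Perm P ∧ R'.map g = R := by
  refine ⟨R.map h, ?_, ?_⟩
  · have h2 := hR.map h
    rw [List.map_map] at h2
    have e : P.map (h ∘ g) = P :=
      (List.map_congr_left fun p hp => hg p hp).trans (List.map_id _)
    rwa [e] at h2
  · rw [List.map_map]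
    refine (List.map_congr_left fun c hc => ?_).trans (List.map_id _)
    obtain ⟨p, hp, rfl⟩ := List.mem_map.1 (hR.subset hc)
    show g (h (g p)) = _
    rw [hg p hp]
    rfl

/-- Points given by a function. -/
theorem toPt_ofFn {s : ℕ} (g : Fin s → ℚ) : toPt s (List.ofFn g) = fun j => ((g j : ℚ) : ℝ) := by
  funext j
  unfold toPt
  rw [List.getD_eq_getElem _ _ (by simp)]
  simp

theorem toPt_injOn {s : ℕ} {p q : List ℚ} (hp : p.length = s) (hq : q.length = s)
    (h : toPt s p = toPt s q) : p = q := by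
  refine List.ext_getElem (by rw [hp, hq]) fun j h1 h2 => ?_
  have h3 := congrFun h ⟨j, hp ▸ h1⟩
  unfold toPt at h3
  have h4 : p.getD j 0 = q.getD j 0 := by exact_mod_cast h3
  rwa [List.getD_eq_getElem _ _ h1, List.getD_eq_getElem _ _ h2] at h4

/-- The seven points (lists of coordinates). -/
def sevenPts (s N : ℕ) (u v : Fin s → ℤ) : List (List ℚ) :=
  [List.ofFn fun j => (u j : ℚ), List.ofFn fun j => (-u j : ℚ), List.ofFn fun j => (v j : ℚ),
    List.ofFn fun j => (-v j : ℚ)] ++ (List.range 3).map (fun i =>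
      List.ofFn fun j : Fin s => if (j : ℕ) = 0 then (((i + 1) * N : ℕ) : ℚ) else 0)

theorem length_of_mem_seven {s N : ℕ} {u v : Fin s → ℤ} {p : List ℚ}
    (hp : p ∈ sevenPts s N u v) : p.length = s := by
  unfold sevenPts at hp
  simp only [List.mem_append, List.mem_cons, List.not_mem_nil, or_false, List.mem_map] at hp
  rcases hp with (rfl | rfl | rfl | rfl) | ⟨i, _, rfl⟩ <;> exact List.length_ofFn

theorem ofFn_int_inj {s : ℕ} {g h : Fin s → ℚ} (e : List.ofFn g = List.ofFn h) (j : Fin s) :
    g j = h j := congrFun (List.ofFn_injective e) j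

/-- The seven points are different. -/
theorem nodup_seven {s N : ℕ} (h1 : 1 ≤ s) {u v : Fin s → ℤ}
    (hN : ∀ j : Fin s, (|u j| + |v j| + 1) ≤ (N : ℤ))
    (h2 : ¬ ∀ j, u j = -u j) (h3 : ¬ ∀ j, v j = -v j) (h4 : ¬ ∀ j, u j = v j)
    (h5 : ¬ ∀ j, u j = -v j) : (sevenPts s N u v).Nodup := by
  have hz : ((⟨0, h1⟩ : Fin s) : ℕ) = 0 := rfl
  have hN0 := hN ⟨0, h1⟩
  have hu := le_abs_self (u ⟨0, h1⟩)
  have hu' := neg_le_abs (u ⟨0, h1⟩)
  have hv := le_abs_self (v ⟨0, h1⟩)
  have hv' := neg_le_abs (v ⟨0, h1⟩)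
  have hau := abs_nonneg (u ⟨0, h1⟩)
  have hav := abs_nonneg (v ⟨0, h1⟩)
  unfold sevenPts
  simp only [List.range_succ, List.range_zero, List.nil_append, List.map_append, List.map_cons,
    List.map_nil, List.cons_append, List.nodup_cons, List.mem_cons, List.not_mem_nil, or_false,
    not_or, not_false_eq_true, List.nodup_nil, and_true]
  refine ⟨⟨?_, ?_, ?_, ?_, ?_, ?_⟩, ⟨?_, ?_, ?_, ?_, ?_⟩, ⟨?_, ?_, ?_, ?_⟩, ⟨?_, ?_, ?_⟩,
    ⟨?_, ?_⟩, ?_⟩ <;> intro e
  · exact h2 fun j => by exact_mod_cast ofFn_int_inj e j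
  · exact h4 fun j => by exact_mod_cast ofFn_int_inj e j
  · exact h5 fun j => by exact_mod_cast ofFn_int_inj e j
  · have h6 := ofFn_int_inj e ⟨0, h1⟩
    rw [if_pos hz] at h6
    have h7 : u ⟨0, h1⟩ = ((0 + 1) * N : ℕ) := by exact_mod_cast h6
    push_cast at h7; omega
  · have h6 := ofFn_int_inj e ⟨0, h1⟩
    rw [if_pos hz] at h6
    have h7 : u ⟨0, h1⟩ = ((1 + 1) * N : ℕ) := by exact_mod_cast h6
    push_cast at h7; omega
  · have h6 := ofFn_int_inj e ⟨0, h1⟩
    rw [if_pos hz] at h6
    have h7 : u ⟨0, h1⟩ = ((2 + 1) * N : ℕ) := by exact_mod_cast h6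
    push_cast at h7; omega
  · refine h5 fun j => ?_
    have h6 : -u j = v j := by exact_mod_cast ofFn_int_inj e j
    omega
  · refine h4 fun j => ?_
    have h6 : -u j = -v j := by exact_mod_cast ofFn_int_inj e j
    omega
  · have h6 := ofFn_int_inj e ⟨0, h1⟩
    rw [if_pos hz] at h6
    have h7 : -u ⟨0, h1⟩ = ((0 + 1) * N : ℕ) := by exact_mod_cast h6
    push_cast at h7; omega
  · have h6 := ofFn_int_inj e ⟨0, h1⟩
    rw [if_pos hz] at h6
    have h7 : -u ⟨0, h1⟩ = ((1 + 1) * N : ℕ) := by exact_mod_cast h6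
    push_cast at h7; omega
  · have h6 := ofFn_int_inj e ⟨0, h1⟩
    rw [if_pos hz] at h6
    have h7 : -u ⟨0, h1⟩ = ((2 + 1) * N : ℕ) := by exact_mod_cast h6
    push_cast at h7; omega
  · exact h3 fun j => by exact_mod_cast ofFn_int_inj e j
  · have h6 := ofFn_int_inj e ⟨0, h1⟩
    rw [if_pos hz] at h6
    have h7 : v ⟨0, h1⟩ = ((0 + 1) * N : ℕ) := by exact_mod_cast h6
    push_cast at h7; omega
  · have h6 := ofFn_int_inj e ⟨0, h1⟩
    rw [if_pos hz] at h6
    have h7 : v ⟨0, h1⟩ = ((1 + 1) * N : ℕ) := by exact_mod_cast h6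
    push_cast at h7; omega
  · have h6 := ofFn_int_inj e ⟨0, h1⟩
    rw [if_pos hz] at h6
    have h7 : v ⟨0, h1⟩ = ((2 + 1) * N : ℕ) := by exact_mod_cast h6
    push_cast at h7; omega
  · have h6 := ofFn_int_inj e ⟨0, h1⟩
    rw [if_pos hz] at h6
    have h7 : -v ⟨0, h1⟩ = ((0 + 1) * N : ℕ) := by exact_mod_cast h6
    push_cast at h7; omega
  · have h6 := ofFn_int_inj e ⟨0, h1⟩
    rw [if_pos hz] at h6
    have h7 : -v ⟨0, h1⟩ = ((1 + 1) * N : ℕ) := by exact_mod_cast h6
    push_cast at h7; omega
  · have h6 := ofFn_int_inj e ⟨0, h1⟩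
    rw [if_pos hz] at h6
    have h7 : -v ⟨0, h1⟩ = ((2 + 1) * N : ℕ) := by exact_mod_cast h6
    push_cast at h7; omega
  · have h6 := ofFn_int_inj e ⟨0, h1⟩
    rw [if_pos hz, if_pos hz] at h6
    have h7 : (0 + 1) * N = (1 + 1) * N := by exact_mod_cast h6
    omega
  · have h6 := ofFn_int_inj e ⟨0, h1⟩
    rw [if_pos hz, if_pos hz] at h6
    have h7 : (0 + 1) * N = (2 + 1) * N := by exact_mod_cast h6
    omega
  · have h6 := ofFn_int_inj e ⟨0, h1⟩
    rw [if_pos hz, if_pos hz] at h6
    have h7 : (1 + 1) * N = (2 + 1) * N := by exact_mod_cast h6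
    omega

/-- A list code determines the coordinates. -/
theorem code_inj {s : ℕ} {g h : Fin s → ℚ} :
    bitEncode (List.ofFn g) = bitEncode (List.ofFn h) ↔ ∀ j, g j = h j := by
  constructor
  · intro e
    exact fun j => ofFn_int_inj (bitEncode_injective e) j
  · intro e
    rw [funext e]

theorem selectable_of_opt (hSeven : ClaimSeven) (hCodes : ClaimSevenCodes) (hW : ClaimWeyl)
    (hN : ClaimNorm) (hU : ClaimUndelimit) (hP : ClaimParse) {s : ℕ} {B : Set (Fin s → ℝ)}
    (h1 : 1 ≤ s) (hB : IsPolyhedralBall B) (ho : OptComputable B) : Selectable B := by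
  obtain ⟨C0, K, hC0, hK, hle, hge⟩ := norm_equiv hN hW h1 hB
  obtain ⟨C, hC⟩ := exists_nat_gt (1 + 2 * K * C0)
  have hC1 : (1 : ℝ) ≤ C := by
    have : 0 < 2 * K * C0 := by positivity
    linarith
  have hC1' : 1 ≤ C := by exact_mod_cast hC1
  obtain ⟨g7, hg7, hg7s⟩ := hCodes s C h1
  obtain ⟨opt, hopt, hopts⟩ := ho
  obtain ⟨go, hgo, hgos⟩ := clockFun _ hopt
  obtain ⟨hun, -⟩ := hU
  obtain ⟨-, -, ⟨p3, hp3, hp3s⟩, p4, hp4, hp4s⟩ := hP
  -- the edges of the computed optimal round-trip
  let D7 := (List Bool × List Bool) × ((List Bool × List Bool) × List (List Bool))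
  let seven : D7 → List (List Bool) := fun D => [D.1.1, D.1.2, D.2.1.1, D.2.1.2] ++ D.2.2
  have hseven : PTF seven := by
    have e1 : PTF (fun D : D7 => D.1.1) := PTF.fst.comp PTF.fst
    have e2 : PTF (fun D : D7 => D.1.2) := PTF.snd.comp PTF.fst
    have e3 : PTF (fun D : D7 => D.2.1.1) := PTF.fst.comp (PTF.fst.comp PTF.snd)
    have e4 : PTF (fun D : D7 => D.2.1.2) := PTF.snd.comp (PTF.fst.comp PTF.snd)
    have e5 : PTF (fun D : D7 => D.2.2) := PTF.snd.comp PTF.snd
    exact (PTF.cons e1 (PTF.cons e2 (PTF.cons e3 (PTF.cons e4 (PTF.const []))))).append e5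
  let tst : D7 → Bool := fun D => (edges (p3 (go (p4 (seven D))))).any
    (fun e => decide (e = (D.1.1, D.1.2)) || decide (e = (D.1.2, D.1.1)))
  have htst : PTF tst := by
    refine PTF.any' (f := fun (D : D7) e => decide (e = (D.1.1, D.1.2)) ||
      decide (e = (D.1.2, D.1.1))) ?_ (PTF.edges [] (hp3.comp (hgo.comp (hp4.comp hseven))))
    have e1 : PTF (fun q : D7 × (List Bool × List Bool) => q.1.1.1) :=
      PTF.fst.comp (PTF.fst.comp PTF.fst)
    have e2 : PTF (fun q : D7 × (List Bool × List Bool) => q.1.1.2) :=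
      PTF.snd.comp (PTF.fst.comp PTF.fst)
    exact (PTF.eq PTF.snd (e1.pair e2)).or (PTF.eq PTF.snd (e2.pair e1))
  let rs : D7 → Bool := fun D =>
    if D.1.1 = D.1.2 then true else if D.2.1.1 = D.2.1.2 then false
    else if D.1.1 = D.2.1.1 then true else if D.1.1 = D.2.1.2 then true else !(tst D)
  have hrs : PTF rs := by
    have e1 : PTF (fun D : D7 => D.1.1) := PTF.fst.comp PTF.fst
    have e2 : PTF (fun D : D7 => D.1.2) := PTF.snd.comp PTF.fst
    have e3 : PTF (fun D : D7 => D.2.1.1) := PTF.fst.comp (PTF.fst.comp PTF.snd)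
    have e4 : PTF (fun D : D7 => D.2.1.2) := PTF.snd.comp (PTF.fst.comp PTF.snd)
    exact PTF.ite (PTF.eq e1 e2) (PTF.const _) (PTF.ite (PTF.eq e3 e4) (PTF.const _)
      (PTF.ite (PTF.eq e1 e3) (PTF.const _) (PTF.ite (PTF.eq e1 e4) (PTF.const _) htst.not)))
  let spl : List Bool → List Bool × List Bool := fun x => (undelimit x).getD ([], [])
  have hspl : PTF spl := PTF.optionGetD hun (PTF.const _)
  have hsp : ∀ (x y : List Bool), spl (delimit x ++ y) = (x, y) := by
    intro x y
    show (undelimit (delimit x ++ y)).getD ([], []) = _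
    rw [undelimit_delimit]; rfl
  let sel : (List ℚ × List ℚ) × (List ℚ × List ℚ) → Bool := fun c =>
    rs (g7 ((bitEncode c.1.1, bitEncode c.1.2), (bitEncode c.2.1, bitEncode c.2.2)))
  refine ⟨sel, ?_, fun y z y' z' => ?_⟩
  · refine tm2_of (g := fun x => [rs (g7 (spl (spl x).1, spl (spl x).2))])
      (PTF.cons (hrs.comp (hg7.comp ((hspl.comp (PTF.fst.comp hspl)).pair
        (hspl.comp (PTF.snd.comp hspl))))) (PTF.const [])) fun c => ?_
    obtain ⟨⟨y, z⟩, ⟨y', z'⟩⟩ := c
    show [rs (g7 (spl (spl (delimit (delimit (bitEncode y) ++ bitEncode z) ++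
      (delimit (bitEncode y') ++ bitEncode z'))).1, spl (spl (delimit (delimit (bitEncode y) ++
        bitEncode z) ++ (delimit (bitEncode y') ++ bitEncode z'))).2))] =
      [rs (g7 ((bitEncode y, bitEncode z), (bitEncode y', bitEncode z')))]
    rw [hsp, hsp, hsp]
  · obtain ⟨d, N, u, v, hd, hN0, hu, hv, hNC, hg⟩ := hg7s y z y' z'
    have hsel : sel ((y, z), (y', z')) = rs (g7 ((bitEncode y, bitEncode z),
      (bitEncode y', bitEncode z'))) := rfl
    rw [hsel, hg]
    set ws : List (List Bool) := (List.range 3).map (fun i => bitEncode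
              (List.ofFn fun j : Fin s => if (j : ℕ) = 0 then (((i + 1) * N : ℕ) : ℚ) else 0)) with hws
    -- the vectors
    let U : Fin s → ℝ := fun j => (u j : ℝ)
    let V : Fin s → ℝ := fun j => (v j : ℝ)
    have hd0 : (0 : ℝ) < d := by exact_mod_cast hd
    have hUn : pnorm B U = d * pdist B (toPt s y) (toPt s z) := by
      have e : U = fun j => (d : ℝ) * (toPt s y - toPt s z) j := by
        funext j
        have h2 : ((u j : ℚ) : ℝ) = ((d * (y.getD j 0 - z.getD j 0) : ℚ) : ℝ) := by rw [hu j]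
        push_cast at h2
        exact h2
      rw [e, pnorm_smul hN hW h1 hB, abs_of_pos hd0]
      rfl
    have hVn : pnorm B V = d * pdist B (toPt s y') (toPt s z') := by
      have e : V = fun j => (d : ℝ) * (toPt s y' - toPt s z') j := by
        funext j
        have h2 : ((v j : ℚ) : ℝ) = ((d * (y'.getD j 0 - z'.getD j 0) : ℚ) : ℝ) := by rw [hv j]
        push_cast at h2
        exact h2
      rw [e, pnorm_smul hN hW h1 hB, abs_of_pos hd0]
      rfl
    have hgoal : ∀ b : Bool, ((b = true → pnorm B U ≤ pnorm B V) ∧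
        (b = false → pnorm B V ≤ pnorm B U)) →
        ((b = true → pdist B (toPt s y) (toPt s z) ≤ pdist B (toPt s y') (toPt s z')) ∧
        (b = false → pdist B (toPt s y') (toPt s z') ≤ pdist B (toPt s y) (toPt s z))) := by
      rintro b ⟨q1, q2⟩
      rw [hUn, hVn] at q1 q2
      exact ⟨fun h => le_of_mul_le_mul_left (q1 h) hd0, fun h => le_of_mul_le_mul_left (q2 h) hd0⟩
    apply hgoal
    have hUneg : pnorm B (-U) = pnorm B U := by
      have e : (-U) = fun j => (-1 : ℝ) * U j := by funext j; simp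
      rw [e, pnorm_smul hN hW h1 hB]; simp
    have hVneg : pnorm B (-V) = pnorm B V := by
      have e : (-V) = fun j => (-1 : ℝ) * V j := by funext j; simp
      rw [e, pnorm_smul hN hW h1 hB]; simp
    have hzero : ∀ X : Fin s → ℝ, (∀ j, X j = 0) → pnorm B X = 0 := by
      intro X hX
      refine le_antisymm ?_ (pnorm_nonneg' hN hW h1 hB X)
      have := hge X 0 (fun j => by rw [hX j, abs_zero])
      simpa using this
    set cu := bitEncode (List.ofFn fun j => (u j : ℚ)) with hcu
    set cu' := bitEncode (List.ofFn fun j => (-u j : ℚ)) with hcu'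
    set cv := bitEncode (List.ofFn fun j => (v j : ℚ)) with hcv
    set cv' := bitEncode (List.ofFn fun j => (-v j : ℚ)) with hcv'
    by_cases c1 : cu = cu'
    · have hU0 : ∀ j, U j = 0 := by
        intro j
        have h2 := code_inj.1 c1 j
        have h3 : (u j : ℤ) = - u j := by exact_mod_cast h2
        have h4 : u j = 0 := by omega
        show ((u j : ℤ) : ℝ) = 0
        rw [h4]; simp
      have e : rs ((cu, cu'), ((cv, cv'), ws)) =
          true := if_pos c1
      rw [e]
      refine ⟨fun _ => ?_, fun h => absurd h (by simp)⟩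
      rw [hzero U hU0]
      exact pnorm_nonneg' hN hW h1 hB V
    by_cases c2 : cv = cv'
    · have hV0 : ∀ j, V j = 0 := by
        intro j
        have h2 := code_inj.1 c2 j
        have h3 : (v j : ℤ) = - v j := by exact_mod_cast h2
        have h4 : v j = 0 := by omega
        show ((v j : ℤ) : ℝ) = 0
        rw [h4]; simp
      have e : rs ((cu, cu'), ((cv, cv'), ws)) =
          false := (if_neg c1).trans (if_pos c2)
      rw [e]
      refine ⟨fun h => absurd h (by simp), fun _ => ?_⟩
      rw [hzero V hV0]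
      exact pnorm_nonneg' hN hW h1 hB U
    by_cases c3 : cu = cv
    · have hUV : U = V := by
        funext j
        have h2 := code_inj.1 c3 j
        have h3 : u j = v j := by exact_mod_cast h2
        show ((u j : ℤ) : ℝ) = ((v j : ℤ) : ℝ)
        rw [h3]
      rw [hUV]
      exact ⟨fun _ => le_rfl, fun _ => le_rfl⟩
    by_cases c4 : cu = cv'
    · have hUV : U = -V := by
        funext j
        have h2 := code_inj.1 c4 j
        have h3 : u j = - v j := by exact_mod_cast h2
        show ((u j : ℤ) : ℝ) = - ((v j : ℤ) : ℝ)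
        rw [h3]; push_cast; rfl
      rw [hUV, hVneg]
      exact ⟨fun _ => le_rfl, fun _ => le_rfl⟩
    -- the main case
    have n2 : ¬ ∀ j, u j = -u j := fun h => c1 (code_inj.2 fun j => by exact_mod_cast h j)
    have n3 : ¬ ∀ j, v j = -v j := fun h => c2 (code_inj.2 fun j => by exact_mod_cast h j)
    have n4 : ¬ ∀ j, u j = v j := fun h => c3 (code_inj.2 fun j => by exact_mod_cast h j)
    have n5 : ¬ ∀ j, u j = -v j := fun h => c4 (code_inj.2 fun j => by exact_mod_cast h j)
    have hNC' : ∀ j : Fin s, (|u j| + |v j| + 1) ≤ (N : ℤ) := by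
      intro j
      refine le_trans ?_ (hNC j)
      have h2 : (0 : ℤ) ≤ |u j| + |v j| + 1 := by positivity
      have h3 : (1 : ℤ) ≤ (C : ℤ) := by exact_mod_cast hC1'
      nlinarith
    have hnd := nodup_seven h1 hNC' n2 n3 n4 n5
    set P := sevenPts s N u v with hPdef
    have hlen : P.length = 7 := by rw [hPdef]; unfold sevenPts; simp
    have hin : IsInput s P := ⟨by rw [hlen]; norm_num, hnd, fun p hp => length_of_mem_seven hp⟩
    obtain ⟨hperm, hmax⟩ := hopts P hin
    let Wp : Fin 3 → Fin s → ℝ := fun i =>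
      toPt s (List.ofFn fun j : Fin s => if (j : ℕ) = 0 then ((((i : ℕ) + 1) * N : ℕ) : ℚ) else 0)
    have hPmap : P.map (toPt s) = [U, -U, V, -V, Wp 0, Wp 1, Wp 2] := by
      rw [hPdef]
      unfold sevenPts
      simp only [List.range_succ, List.range_zero, List.nil_append, List.map_append,
        List.map_cons, List.map_nil, List.cons_append]
      rw [toPt_ofFn, toPt_ofFn, toPt_ofFn, toPt_ofFn]
      have e1 : (fun j => ((u j : ℚ) : ℝ)) = U := by funext j; simp [U]
      have e2 : (fun j => ((-u j : ℚ) : ℝ)) = -U := by funext j; simp [U]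
      have e3 : (fun j => ((v j : ℚ) : ℝ)) = V := by funext j; simp [V]
      have e4 : (fun j => ((-v j : ℚ) : ℝ)) = -V := by funext j; simp [V]
      rw [e1, e2, e3, e4]
      rfl
    have hinj : ∀ p ∈ P, ∀ q ∈ P, toPt s p = toPt s q → p = q := fun p hp q hq h =>
      toPt_injOn (length_of_mem_seven hp) (length_of_mem_seven hq) h
    -- far points
    have hNr : ∀ j : Fin s, |U j| ≤ N / C ∧ |V j| ≤ N / C := by
      intro j
      have h2 : (C : ℝ) * (|U j| + |V j| + 1) ≤ N := by
        have h3 := hNC j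
        have h4 : (((C * (|u j| + |v j| + 1) : ℤ)) : ℝ) ≤ ((N : ℤ) : ℝ) := by exact_mod_cast h3
        push_cast at h4
        exact h4
      have hC0'' : (0 : ℝ) < C := lt_of_lt_of_le one_pos hC1
      have a1 := abs_nonneg (U j)
      have a2 := abs_nonneg (V j)
      constructor
      · rw [le_div_iff₀ hC0'']; nlinarith
      · rw [le_div_iff₀ hC0'']; nlinarith
    have hfar : ∀ i, ∀ p ∈ [U, -U, V, -V], 2 * max (pnorm B U) (pnorm B V) ≤
        pdist B (Wp i) p := by
      intro i p hp
      have hC0'' : (0 : ℝ) < C := lt_of_lt_of_le one_pos hC1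
      have hNpos : (0 : ℝ) < N := by exact_mod_cast hN0
      have hmx : max (pnorm B U) (pnorm B V) ≤ K * (N / C) :=
        max_le (hge U _ fun j => (hNr j).1) (hge V _ fun j => (hNr j).2)
      have hp0 : |p ⟨0, h1⟩| ≤ N / C := by
        simp only [List.mem_cons, List.not_mem_nil, or_false] at hp
        rcases hp with rfl | rfl | rfl | rfl
        · exact (hNr _).1
        · rw [Pi.neg_apply, abs_neg]; exact (hNr _).1
        · exact (hNr _).2
        · rw [Pi.neg_apply, abs_neg]; exact (hNr _).2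
      have hw0 : Wp i ⟨0, h1⟩ = ((i : ℕ) + 1) * N := by
        show toPt s _ ⟨0, h1⟩ = _
        rw [toPt_ofFn]
        dsimp only
        rw [if_pos rfl]
        push_cast
        ring
      have hdist := hle (Wp i - p) ⟨0, h1⟩
      rw [Pi.sub_apply, hw0] at hdist
      have h5 : (N : ℝ) - N / C ≤ |((i : ℕ) + 1) * (N : ℝ) - p ⟨0, h1⟩| := by
        have h6 := le_abs_self (((i : ℕ) + 1) * (N : ℝ) - p ⟨0, h1⟩)
        have h7 := (le_abs_self (p ⟨0, h1⟩)).trans hp0
        have h8 : (0 : ℝ) ≤ (i : ℕ) := Nat.cast_nonneg _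
        nlinarith
      have h9 : (N : ℝ) - N / C ≤ C0 * pdist B (Wp i) p := h5.trans hdist
      -- 2 K N / C ≤ (N - N / C) / C0
      have h10 : C0 * (2 * (K * (N / C))) ≤ N - N / C := by
        have e : (N : ℝ) = C * (N / C) := by field_simp
        have hq : (0 : ℝ) < N / C := div_pos hNpos hC0''
        have h11 : (1 + 2 * K * C0) * (N / C) ≤ C * (N / C) :=
          mul_le_mul_of_nonneg_right hC.le hq.le
        have h12 : C0 * (2 * (K * (N / C))) + N / C = (1 + 2 * K * C0) * (N / C) := by ring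
        linarith
      have h13 : C0 * (2 * (K * (N / C))) ≤ C0 * pdist B (Wp i) p := h10.trans h9
      have h14 := le_of_mul_le_mul_left h13 hC0
      linarith
    -- the optimal round-trip
    have hRperm : ((opt P).map (toPt s)).Perm [U, -U, V, -V, Wp 0, Wp 1, Wp 2] := by
      rw [← hPmap]; exact hperm.map _
    have hRmax : ∀ R' : List (Fin s → ℝ), R'.Perm [U, -U, V, -V, Wp 0, Wp 1, Wp 2] →
        scatter B R' ≤ scatter B ((opt P).map (toPt s)) := by
      intro R' hR'
      rw [← hPmap] at hR'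
      obtain ⟨R'', hR1, hR2⟩ := exists_perm_lift (toPt s)
        (fun x => ((P.filter (fun p => @decide (toPt s p = x) (Classical.propDecidable _))).headD []))
        P (by
          intro p hp
          have hmem : p ∈ P.filter (fun q => @decide (toPt s q = toPt s p)
              (Classical.propDecidable _)) := List.mem_filter.2 ⟨hp, by simp⟩
          have h2 := headD_mem ([] : List ℚ) (List.ne_nil_of_mem hmem)
          have h3 := List.mem_filter.1 h2
          exact hinj _ h3.1 _ hp (by simpa using h3.2)) R' hR'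
      rw [← hR2]
      exact hmax R'' hR1
    have hnd7 : [U, -U, V, -V, Wp 0, Wp 1, Wp 2].Nodup := by
      rw [← hPmap]
      exact hnd.map_on (fun p hp q hq h => hinj p hp q hq h)
    obtain ⟨r1, r2⟩ := hSeven s B h1 hB U V Wp ((opt P).map (toPt s)) hfar hnd7 hRperm hRmax
    -- the test
    have hsv : seven ((cu, cu'), ((cv, cv'), ws)) =
        P.map bitEncode := by
      rw [hPdef]
      unfold sevenPts
      rw [List.map_append, List.map_map]
      rfl
    have hgoP : p3 (go (p4 (P.map bitEncode))) = (opt P).map bitEncode := by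
      rw [hp4s, hgos, hp3s]
    have hlu : (List.ofFn fun j => (u j : ℚ)) ∈ P := by
      rw [hPdef]; unfold sevenPts; simp
    have hlu' : (List.ofFn fun j => (-u j : ℚ)) ∈ P := by
      rw [hPdef]; unfold sevenPts; simp
    have htU : toPt s (List.ofFn fun j => (u j : ℚ)) = U := by
      rw [toPt_ofFn]; funext j; simp [U]
    have htU' : toPt s (List.ofFn fun j => (-u j : ℚ)) = -U := by
      rw [toPt_ofFn]; funext j; simp [U]
    have hedge : ∀ p ∈ P, ∀ q ∈ P, ((bitEncode p, bitEncode q) ∈ edges ((opt P).map bitEncode) ↔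
        (toPt s p, toPt s q) ∈ edges ((opt P).map (toPt s))) := by
      intro p hp q hq
      rw [edges_map, edges_map, List.mem_map, List.mem_map]
      constructor
      · rintro ⟨e, he, h2⟩
        refine ⟨e, he, ?_⟩
        have h3 := Prod.mk.inj h2
        rw [← bitEncode_injective h3.1, ← bitEncode_injective h3.2]
        rfl
      · rintro ⟨e, he, h2⟩
        obtain ⟨m1, m2⟩ := mem_of_mem_edges he
        refine ⟨e, he, ?_⟩
        have h3 := Prod.mk.inj h2
        rw [← hinj _ (hperm.subset m1) _ hp h3.1, ← hinj _ (hperm.subset m2) _ hq h3.2]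
        rfl
    have htest : tst ((cu, cu'), ((cv, cv'), ws)) =
        true ↔ ((U, -U) ∈ edges ((opt P).map (toPt s)) ∨
          (-U, U) ∈ edges ((opt P).map (toPt s))) := by
      show (edges (p3 (go (p4 (seven ((cu, cu'), ((cv, cv'), ws))))))).any
          (fun e => decide (e = (cu, cu')) || decide (e = (cu', cu))) = true ↔ _
      rw [hsv, hgoP, List.any_eq_true]
      have e1 := hedge _ hlu _ hlu'
      have e2 := hedge _ hlu' _ hlu
      rw [htU, htU'] at e1 e2
      rw [← e1, ← e2]
      constructor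
      · rintro ⟨e, he, h2⟩
        rw [Bool.or_eq_true, decide_eq_true_iff, decide_eq_true_iff] at h2
        rcases h2 with rfl | rfl
        · exact Or.inl he
        · exact Or.inr he
      · rintro (h | h)
        · exact ⟨_, h, by simp [hcu, hcu']⟩
        · exact ⟨_, h, by simp [hcu, hcu']⟩
    have e : rs ((cu, cu'), ((cv, cv'), ws)) =
        !(tst ((cu, cu'), ((cv, cv'), ws))) :=
      (if_neg c1).trans ((if_neg c2).trans ((if_neg c3).trans (if_neg c4)))
    rw [e]
    constructor
    · intro h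
      rw [Bool.not_eq_true'] at h
      refine r2 fun h2 => ?_
      rw [htest.2 h2] at h
      cases h
    · intro h
      rw [Bool.not_eq_false'] at h
      exact r1 (htest.1 h)

end Pool.Agent.Scatter

end
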